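import Pool.Agent.H.MP_1611f1_gt.LS.Base
import Pool.Agent.H.MP_1611f1_gt.G.Rev

/-!
Leaf curves with non-trivial holonomy: definitions.
-/

namespace Pool.Agent.H.MP_1611f1_gt.LS

open Topology Set Filter

/-- rotation of the `(u, s)`-plane by `π` around the curve -/
def flipN {M : Type*} (N : Cyl → M) (z : Cyl) : M := N (z.1, (-z.2.1, -z.2.2))

/-- change of the vertical coordinate -/
def mvN {M : Type*} (N : Cyl → M) (σ : AddCircle (1 : ℝ) × ℝ → ℝ) (z : Cyl) : M :=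
  N (z.1, (z.2.1, σ (z.1, z.2.2)))

/-- The foliation `F` near the curve `u = s = 0` of a leaf (`s = 0`): for `|s| < δ` it is given by
the function `Γ (θ, s)` on the universal cover, which is strictly increasing in `s`, vanishes on
the leaf, and is transformed by `h` (an extension of the holonomy germ of the curve) when one goes
around the curve. -/
structure HolDat {M : Type*} [TopologicalSpace M] (F : Foliation M) (N : Cyl → M) (δ : ℝ)
    (Γ : ℝ × ℝ → ℝ) (h : ℝ ≃o ℝ) : Prop where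
  pos : 0 < δ
  cont : ContinuousOn Γ (univ ×ˢ Ioo (-δ) δ)
  mono : ∀ θ, StrictMonoOn (fun s => Γ (θ, s)) (Ioo (-δ) δ)
  zero : ∀ θ, Γ (θ, 0) = 0
  per : ∀ θ, ∀ s ∈ Ioo (-δ) δ, Γ (θ + 1, s) = h (Γ (θ, s))
  ord : ∀ z : Cov, z.2.2 ∈ Ioo (-δ) δ → ∀ c ∈ F.charts, rc N z ∈ c.source →
    OrdEq z (fun w => (c (rc N w)).2) (fun w => Γ (w.1, w.2.2))

/-- a simple closed curve in a leaf of `F` (with its neighbourhood `N`), whose holonomy germ is
not the identity -/
structure HolCurve {M : Type*} [TopologicalSpace M] (F : Foliation M) (N : Cyl → M) : Prop where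
  emb : IsOpenEmbedding N
  hol : ∃ (δ : ℝ) (Γ : ℝ × ℝ → ℝ) (h : ℝ ≃o ℝ), HolDat F N δ Γ h ∧
    ∀ ε > 0, ∃ x, |x| < ε ∧ h x ≠ x

/-- the holonomy is not trivial on the lower side -/
structure LowCurve {M : Type*} [TopologicalSpace M] (F : Foliation M) (N : Cyl → M) : Prop where
  emb : IsOpenEmbedding N
  hol : ∃ (δ : ℝ) (Γ : ℝ × ℝ → ℝ) (h : ℝ ≃o ℝ), HolDat F N δ Γ h ∧
    ∀ ε > 0, ∃ x ∈ Ioo (-ε) 0, h x ≠ x

/-- a neighbourhood which contains a leaf curve in normal form -/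
structure TubeL {M : Type*} [TopologicalSpace M] (F : Foliation M) (N : Cyl → M) (P : ℝ) :
    Prop where
  emb : IsOpenEmbedding N
  P_ne : P ≠ 0
  tube : ∃ (σ : AddCircle (1 : ℝ) × ℝ → ℝ) (g : ℝ → ℝ), Continuous σ ∧
    (∀ θ, StrictMono fun s => σ (θ, s)) ∧ Tube F (mvN N σ) P g

end Pool.Agent.H.MP_1611f1_gt.LS
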