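import Pool.Agent.H.MP_1611f1_gt.LS.Base

/-!
Fibrewise increasing maps.
-/

namespace Pool.Agent.H.MP_1611f1_gt.LS

open Topology Set Filter

/-- a fibrewise strictly increasing continuous map is open -/
theorem fib_open {X : Type*} [TopologicalSpace X] {ρ : X × ℝ → ℝ} (hc : Continuous ρ)
    (hm : ∀ x, StrictMono fun s => ρ (x, s)) :
    IsOpenMap (fun z : X × ℝ => (z.1, ρ z)) := by
  apply IsOpenMap.of_nhds_le
  rintro ⟨x₀, t₀⟩ M hM
  have hM1 : (fun z : X × ℝ => (z.1, ρ z)) ⁻¹' M ∈ 𝓝 (x₀, t₀) := hM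
  obtain ⟨U1, hU1, V1, hV1, hUV⟩ := mem_nhds_prod_iff.mp hM1
  obtain ⟨ε, hε, hεV⟩ := Metric.nhds_basis_closedBall.mem_iff.mp hV1
  rw [Real.closedBall_eq_Icc] at hεV
  have h1 : ρ (x₀, t₀ - ε) < ρ (x₀, t₀) := hm x₀ (by linarith)
  have h2 : ρ (x₀, t₀) < ρ (x₀, t₀ + ε) := hm x₀ (by linarith)
  obtain ⟨a, ha1, ha2⟩ := exists_between h1
  obtain ⟨b, hb1, hb2⟩ := exists_between h2
  have hcl : ContinuousAt (fun x => ρ (x, t₀ - ε)) x₀ := by fun_prop
  have hcr : ContinuousAt (fun x => ρ (x, t₀ + ε)) x₀ := by fun_prop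
  have hA : {x | x ∈ U1 ∧ ρ (x, t₀ - ε) < a ∧ b < ρ (x, t₀ + ε)} ∈ 𝓝 x₀ := by
    filter_upwards [hU1, hcl.eventually_lt_const ha1, hcr.eventually_const_lt hb2]
      with x hx1 hx2 hx3 using ⟨hx1, hx2, hx3⟩
  have h5 : Ioo a b ∈ 𝓝 (ρ (x₀, t₀)) := Ioo_mem_nhds ha2 hb1
  refine mem_of_superset (prod_mem_nhds hA h5) ?_
  rintro ⟨x, s⟩ ⟨⟨hx1, hx2, hx3⟩, hs⟩
  have hs1 : a < s := hs.1
  have hs2 : s < b := hs.2
  have hcx : ContinuousOn (fun t => ρ (x, t)) (Icc (t₀ - ε) (t₀ + ε)) := by fun_prop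
  obtain ⟨t, ht, hts⟩ := intermediate_value_Icc (by linarith) hcx
    (show s ∈ Icc (ρ (x, t₀ - ε)) (ρ (x, t₀ + ε)) from ⟨by linarith, by linarith⟩)
  have h6 : (x, ρ (x, t)) ∈ M := hUV (show (x, t) ∈ U1 ×ˢ V1 from ⟨hx1, hεV ht⟩)
  simp only at hts
  rw [hts] at h6
  exact h6

/-- the reparametrization in the coordinates: an open embedding -/
theorem cyl_emb {σ : AddCircle (1 : ℝ) × ℝ → ℝ} (hc : Continuous σ)
    (hm : ∀ θ, StrictMono fun s => σ (θ, s)) :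
    IsOpenEmbedding (fun z : Cyl => ((z.1, (z.2.1, σ (z.1, z.2.2))) : Cyl)) := by
  refine IsOpenEmbedding.of_continuous_injective_isOpenMap (by fun_prop) ?_ ?_
  · rintro ⟨θ, u, s⟩ ⟨θ', u', s'⟩ h
    simp only [Prod.mk.injEq] at h
    obtain ⟨rfl, rfl, h⟩ := h
    rw [(hm θ).injective h]
  · have h1 := fib_open (X := AddCircle (1 : ℝ) × ℝ) (ρ := fun z => σ (z.1.1, z.2))
      (by fun_prop) (fun x => hm x.1)
    exact ((Homeomorph.prodAssoc (AddCircle (1 : ℝ)) ℝ ℝ).isOpenMap.comp h1).comp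
      (Homeomorph.prodAssoc (AddCircle (1 : ℝ)) ℝ ℝ).symm.isOpenMap

/-- the reparametrization on a fibre, made the identity far below -/
noncomputable def IsoC_s1 (σ : AddCircle (1 : ℝ) × ℝ → ℝ) (C : ℝ) (z : AddCircle (1 : ℝ) × ℝ) :
    ℝ :=
  σ (z.1, max z.2 (-7)) + (σ (z.1, -7) + C) / (C - 7) * (max (min z.2 (-7)) (-C) + 7) +
    (min z.2 (-C) + C)

theorem IsoC_s1_cont {σ : AddCircle (1 : ℝ) × ℝ → ℝ} (hc : Continuous σ) (C : ℝ) :
    Continuous (IsoC_s1 σ C) := by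
  unfold IsoC_s1
  fun_prop

theorem IsoC_s1_top {σ : AddCircle (1 : ℝ) × ℝ → ℝ} {C : ℝ} (hC : 8 ≤ C) {θ : AddCircle (1 : ℝ)}
    {s : ℝ} (hs : -7 ≤ s) : IsoC_s1 σ C (θ, s) = σ (θ, s) := by
  have e1 : max s (-7) = s := max_eq_left hs
  have e2 : max (min s (-7)) (-C) = -7 := by
    rw [min_eq_right hs, max_eq_left (by linarith)]
  have e3 : min s (-C) = -C := min_eq_right (by linarith)
  simp only [IsoC_s1, e1, e2, e3]
  ring

theorem IsoC_s1_bot {σ : AddCircle (1 : ℝ) × ℝ → ℝ} {C : ℝ} (hC : 8 ≤ C) {θ : AddCircle (1 : ℝ)}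
    {s : ℝ} (hs : s ≤ -C) : IsoC_s1 σ C (θ, s) = s := by
  have e1 : max s (-7) = -7 := max_eq_right (by linarith)
  have e2 : max (min s (-7)) (-C) = -C := by
    rw [min_eq_left (by linarith), max_eq_right hs]
  have e3 : min s (-C) = s := min_eq_left hs
  simp only [IsoC_s1, e1, e2, e3]
  have h : C - 7 ≠ 0 := by linarith
  field_simp
  ring

theorem IsoC_s1_mono {σ : AddCircle (1 : ℝ) × ℝ → ℝ}
    (hm : ∀ θ, StrictMono fun s => σ (θ, s)) {C : ℝ} (hC : 8 ≤ C) {θ : AddCircle (1 : ℝ)}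
    (ha : 0 < σ (θ, -7) + C) : StrictMono fun s => IsoC_s1 σ C (θ, s) := by
  intro s s' hss
  have hk : 0 < (σ (θ, -7) + C) / (C - 7) := div_pos ha (by linarith)
  have m1 : σ (θ, max s (-7)) ≤ σ (θ, max s' (-7)) :=
    (hm θ).monotone (max_le_max hss.le le_rfl)
  have m2 : max (min s (-7)) (-C) ≤ max (min s' (-7)) (-C) :=
    max_le_max (min_le_min hss.le le_rfl) le_rfl
  have m3 : min s (-C) ≤ min s' (-C) := min_le_min hss.le le_rfl
  have m2' := mul_le_mul_of_nonneg_left (add_le_add_left m2 7) hk.le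
  show IsoC_s1 σ C (θ, s) < IsoC_s1 σ C (θ, s')
  simp only [IsoC_s1]
  rcases lt_or_ge (-7) s' with h1 | h1
  · have m1' : σ (θ, max s (-7)) < σ (θ, max s' (-7)) := by
      refine hm θ ?_
      rw [max_eq_left h1.le]
      exact max_lt hss h1
    linarith
  · rcases lt_or_ge (-C) s' with h2 | h2
    · have m2s : max (min s (-7)) (-C) < max (min s' (-7)) (-C) := by
        rw [min_eq_left (hss.le.trans h1), min_eq_left h1, max_eq_left h2.le]
        exact max_lt hss h2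
      have := mul_lt_mul_of_pos_left (add_lt_add_left m2s 7) hk
      linarith
    · have m3' : min s (-C) < min s' (-C) := by
        rw [min_eq_left h2, min_eq_left (hss.le.trans h2)]
        exact hss
      linarith

/-- the cut-off function in the direction `u` -/
noncomputable def IsoC_c (u : ℝ) : ℝ := max 0 (min 1 (3 - |u|))

theorem IsoC_c_mem (u : ℝ) : 0 ≤ IsoC_c u ∧ IsoC_c u ≤ 1 :=
  ⟨le_max_left _ _, max_le zero_le_one (min_le_left _ _)⟩

/-- The cut-off of the reparametrization `σ`: a family of homeomorphisms of the plane cylinder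
which is `σ` for `|u| ≤ 2`, `-7 ≤ s`, and the identity for `|u| ≥ 3` or `s ≤ -C` (some `C`) or
`s ≥ 0`. With `c u = max 0 (min 1 (3 - |u|))`, `a (θ) = σ (θ, -7) < 0`, `C > 8 - inf a`, put
`σ₁ (θ, s) = σ (θ, s)` for `s ≥ -7`, `s` for `s ≤ -C`, and linear in between; then
`ρ = (1 - c u) s + c u σ₁ (θ, s)`. -/
theorem exists_rho {σ : AddCircle (1 : ℝ) × ℝ → ℝ} (hc : Continuous σ)
    (hm : ∀ θ, StrictMono fun s => σ (θ, s)) (h0 : ∀ θ s, 0 ≤ s → σ (θ, s) = s) :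
    ∃ (ρ : Cyl → ℝ) (C : ℝ), Continuous ρ ∧ (∀ θ u, StrictMono fun s => ρ (θ, (u, s))) ∧
      (∀ θ u, Function.Surjective fun s => ρ (θ, (u, s))) ∧
      (∀ θ u s, |u| ≤ 2 → -7 ≤ s → ρ (θ, (u, s)) = σ (θ, s)) ∧
      (∀ θ u s, (3 ≤ |u| ∨ s ≤ -C ∨ 0 ≤ s) → ρ (θ, (u, s)) = s) := by
  haveI : Fact ((0 : ℝ) < 1) := ⟨one_pos⟩
  have hca : Continuous fun θ : AddCircle (1 : ℝ) => σ (θ, -7) := by fun_prop
  obtain ⟨b, hb⟩ := (isCompact_range hca).bddBelow
  obtain ⟨C, hC, hC'⟩ : ∃ C : ℝ, 8 ≤ C ∧ 1 - b ≤ C := ⟨max 8 (1 - b), le_max_left _ _,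
    le_max_right _ _⟩
  have ha : ∀ θ, 0 < σ (θ, -7) + C := by
    intro θ
    have h1 : b ≤ σ (θ, -7) := hb ⟨θ, rfl⟩
    linarith
  have hcc : Continuous IsoC_c := by unfold IsoC_c; fun_prop
  have hc1 := IsoC_s1_cont hc C
  have hρc : Continuous fun z : Cyl => (1 - IsoC_c z.2.1) * z.2.2 +
      IsoC_c z.2.1 * IsoC_s1 σ C (z.1, z.2.2) := by fun_prop
  have hid : ∀ (θ : AddCircle (1 : ℝ)) (u s : ℝ), (3 ≤ |u| ∨ s ≤ -C ∨ 0 ≤ s) →
      (1 - IsoC_c u) * s + IsoC_c u * IsoC_s1 σ C (θ, s) = s := by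
    rintro θ u s (h | h | h)
    · have e : IsoC_c u = 0 := by
        unfold IsoC_c
        exact max_eq_left ((min_le_right _ _).trans (by linarith))
      rw [e]
      ring
    · rw [IsoC_s1_bot hC h]
      ring
    · rw [IsoC_s1_top hC (by linarith), h0 θ s h]
      ring
  refine ⟨fun z => (1 - IsoC_c z.2.1) * z.2.2 + IsoC_c z.2.1 * IsoC_s1 σ C (z.1, z.2.2), C,
    hρc, ?_, ?_, ?_, ?_⟩
  · intro θ u s s' hss
    have h1 := IsoC_s1_mono hm hC (ha θ) hss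
    obtain ⟨h2, h3⟩ := IsoC_c_mem u
    simp only at h1 ⊢
    rcases h2.eq_or_lt with h4 | h4
    · rw [← h4]
      linarith
    · have h5 := mul_lt_mul_of_pos_left h1 h4
      have h6 := mul_le_mul_of_nonneg_left hss.le (sub_nonneg.2 h3)
      linarith
  · intro θ u
    refine Continuous.surjective ?_ ?_ ?_
    · exact hρc.comp (f := fun s : ℝ => ((θ, (u, s)) : Cyl)) (by fun_prop)
    · refine tendsto_id.congr' ?_
      filter_upwards [eventually_ge_atTop (0 : ℝ)] with s hs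
      exact (hid θ u s (Or.inr (Or.inr hs))).symm
    · refine tendsto_id.congr' ?_
      filter_upwards [eventually_le_atBot (-C)] with s hs
      exact (hid θ u s (Or.inr (Or.inl hs))).symm
  · intro θ u s hu hs
    have e : IsoC_c u = 1 := by
      unfold IsoC_c
      rw [min_eq_left (by linarith), max_eq_right zero_le_one]
    simp only [e, IsoC_s1_top hC hs]
    ring
  · exact hid

end Pool.Agent.H.MP_1611f1_gt.LS
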