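import Pool.Agent.H.MP_1611f1_gt.LS.RcB

/-!
The drilled manifold.
-/

namespace Pool.Agent.H.MP_1611f1_gt.LS

open Topology Set Filter

/-- the parametrization of a new end -/
noncomputable def SurgA_end {M : Type*} (N : Cyl → M)
    (z : AddCircle (1 : ℝ) × Ioo (1 : ℝ) 2 × AddCircle (1 : ℝ)) : M :=
  N (z.1, ((z.2.1 : ℝ) * (AddCircle.toCircle z.2.2 : ℂ).re,
    -4 + (z.2.1 : ℝ) * (AddCircle.toCircle z.2.2 : ℂ).im))

theorem SurgA_circle (t : ℝ) :
    (AddCircle.toCircle (t : AddCircle (1 : ℝ)) : ℂ).re = Real.cos (2 * Real.pi * t) ∧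
      (AddCircle.toCircle (t : AddCircle (1 : ℝ)) : ℂ).im = Real.sin (2 * Real.pi * t) := by
  rw [AddCircle.toCircle_apply_mk, Circle.coe_exp]
  have h : ((2 * Real.pi / 1 * t : ℝ) : ℂ) = ((2 * Real.pi * t : ℝ) : ℂ) := by
    rw [div_one]
  rw [h]
  exact ⟨Complex.exp_ofReal_mul_I_re _, Complex.exp_ofReal_mul_I_im _⟩

/-- the covering of the collar -/
noncomputable def SurgA_cov (z : Plr) : AddCircle (1 : ℝ) × Ioo (1 : ℝ) 2 × AddCircle (1 : ℝ) :=
  ((z.1 : AddCircle (1 : ℝ)), z.2.1, (z.2.2 : AddCircle (1 : ℝ)))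

theorem SurgA_cov_cont : Continuous SurgA_cov := by
  unfold SurgA_cov
  refine Continuous.prodMk ((AddCircle.continuous_mk' (1 : ℝ)).comp continuous_fst)
    (Continuous.prodMk (continuous_fst.comp continuous_snd)
      ((AddCircle.continuous_mk' (1 : ℝ)).comp (continuous_snd.comp continuous_snd)))

theorem SurgA_cov_surj : Function.Surjective SurgA_cov := by
  rintro ⟨θ, r, τ⟩
  obtain ⟨x, rfl⟩ := QuotientAddGroup.mk_surjective θ
  obtain ⟨t, rfl⟩ := QuotientAddGroup.mk_surjective τ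
  exact ⟨(x, r, t), rfl⟩

theorem SurgA_end_cov {M : Type*} (N : Cyl → M) (z : Plr) :
    SurgA_end N (SurgA_cov z) = rc N (pol z) := by
  obtain ⟨h1, h2⟩ := SurgA_circle z.2.2
  unfold SurgA_end SurgA_cov rc pol
  simp only
  rw [h1, h2]

section

variable {M : Type*} [TopologicalSpace M] {N : Cyl → M} (hN : IsOpenEmbedding N)

include hN

theorem SurgA_end_emb : IsOpenEmbedding (SurgA_end N) := by
  refine IsOpenEmbedding.of_continuous_injective_isOpenMap ?_ ?_ ?_
  · have h1 : Continuous fun z : AddCircle (1 : ℝ) × Ioo (1 : ℝ) 2 × AddCircle (1 : ℝ) =>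
        (AddCircle.toCircle z.2.2 : ℂ) :=
      continuous_subtype_val.comp (AddCircle.continuous_toCircle.comp
        (continuous_snd.comp continuous_snd))
    have h2 : Continuous fun z : AddCircle (1 : ℝ) × Ioo (1 : ℝ) 2 × AddCircle (1 : ℝ) =>
        (z.2.1 : ℝ) := continuous_subtype_val.comp (continuous_fst.comp continuous_snd)
    exact hN.continuous.comp (continuous_fst.prodMk
      ((h2.mul (Complex.continuous_re.comp h1)).prodMk
        (continuous_const.add (h2.mul (Complex.continuous_im.comp h1)))))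
  · intro a b h
    obtain ⟨z, rfl⟩ := SurgA_cov_surj a
    obtain ⟨w, rfl⟩ := SurgA_cov_surj b
    rw [SurgA_end_cov, SurgA_end_cov] at h
    obtain ⟨i, j, rfl⟩ := (rp_eq hN z w).1 h
    unfold SurgA_cov
    have h1 : ((z.1 : ℝ) : AddCircle (1 : ℝ)) = ((z.1 + i : ℝ) : AddCircle (1 : ℝ)) :=
      (RcA_coe _ _).2 ⟨i, rfl⟩
    have h2 : ((z.2.2 : ℝ) : AddCircle (1 : ℝ)) = ((z.2.2 + j : ℝ) : AddCircle (1 : ℝ)) :=
      (RcA_coe _ _).2 ⟨j, rfl⟩
    simp only
    rw [h1, h2]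
  · intro U hU
    have h1 : SurgA_end N '' U = (fun z : Plr => rc N (pol z)) '' (SurgA_cov ⁻¹' U) := by
      ext y
      constructor
      · rintro ⟨a, ha, rfl⟩
        obtain ⟨z, rfl⟩ := SurgA_cov_surj a
        exact ⟨z, ha, (SurgA_end_cov N z).symm⟩
      · rintro ⟨z, hz, rfl⟩
        exact ⟨SurgA_cov z, hz, SurgA_end_cov N z⟩
    rw [h1]
    exact rp_open hN _ (hU.preimage SurgA_cov_cont)

theorem SurgA_end_KK (a : AddCircle (1 : ℝ) × Ioo (1 : ℝ) 2 × AddCircle (1 : ℝ)) :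
    SurgA_end N a ∉ N '' KK := by
  obtain ⟨z, rfl⟩ := SurgA_cov_surj a
  rintro ⟨w, hw, h⟩
  rw [SurgA_end_cov] at h
  have h1 : w = (((pol z).1 : AddCircle (1 : ℝ)), (pol z).2) := hN.injective h
  have h2 : rr w.2 ≤ 1 := hw
  rw [h1] at h2
  simp only at h2
  rw [rr_pol] at h2
  have h3 : (1 : ℝ) < z.2.1 := z.2.1.2.1
  nlinarith

end

theorem SurgA_compact : IsCompact KK := by
  have h1 : KK = (univ : Set (AddCircle (1 : ℝ))) ×ˢ {z : ℝ × ℝ | rr z ≤ 1} := by
    ext z
    simp [KK]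
  rw [h1]
  refine isCompact_univ.prod ?_
  have hc : Continuous rr := by
    unfold rr
    fun_prop
  have hk : IsCompact (Icc (-1 : ℝ) 1 ×ˢ Icc (-5 : ℝ) (-3)) := isCompact_Icc.prod isCompact_Icc
  refine hk.of_isClosed_subset (isClosed_le hc continuous_const) ?_
  rintro ⟨u, s⟩ h
  have h2 : u ^ 2 + (s + 4) ^ 2 ≤ 1 := h
  constructor
  · constructor <;> simp only <;> nlinarith
  · constructor <;> simp only <;> nlinarith

/-- the complement of the solid tori with its toral ends: the ends of `M` (`Sum.inl j`), and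
the new ends (`Sum.inr k`) `(θ, r, t) ↦ N k (θ, (r cos 2πt, -4 + r sin 2πt))`, where for `t` in the
circle `cos 2πt`, `sin 2πt` are the coordinates of `AddCircle.toCircle t` -/
theorem exists_drill {M : Type*} [TopologicalSpace M] [T2Space M] {J Λ : Type*} [Finite Λ]
    (T : G.Ended M J) {N : Λ → Cyl → M} (hN : ∀ k, IsOpenEmbedding (N k))
    (hd : ∀ k l z w, N k z = N l w → k = l) (hend : ∀ k z j w, N k z ≠ T.tor j w) :
    ∃ (T' : G.Ended {y : M // ∀ k, y ∉ N k '' KK} (J ⊕ Λ)) (D : Drill T N T'),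
      D.p = Subtype.val := by
  have hopen : IsOpen {y : M | ∀ k, y ∉ N k '' KK} := by
    have h1 : {y : M | ∀ k, y ∉ N k '' KK} = ⋂ k, (N k '' KK)ᶜ := by
      ext y
      simp
    rw [h1]
    exact isOpen_iInter_of_finite fun k =>
      ((SurgA_compact.image (hN k).continuous).isClosed).isOpen_compl
  have hval : IsOpenEmbedding (Subtype.val : {y : M // ∀ k, y ∉ N k '' KK} → M) :=
    hopen.isOpenEmbedding_subtypeVal
  have hold : ∀ j w, ∀ k, T.tor j w ∉ N k '' KK := by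
    rintro j w k ⟨z, -, hz⟩
    exact hend k z j w hz
  have hnew : ∀ l w, ∀ k, SurgA_end (N l) w ∉ N k '' KK := by
    rintro l w k ⟨z, hz, h⟩
    have h1 : k = l := hd k l _ _ h
    subst h1
    exact SurgA_end_KK (hN k) w ⟨z, hz, h⟩
  let tor : J ⊕ Λ → AddCircle (1 : ℝ) × Ioo (1 : ℝ) 2 × AddCircle (1 : ℝ) →
      {y : M // ∀ k, y ∉ N k '' KK} := fun e w =>
    match e with
    | Sum.inl j => ⟨T.tor j w, hold j w⟩
    | Sum.inr k => ⟨SurgA_end (N k) w, hnew k w⟩
  have hl : ∀ j w, (tor (Sum.inl j) w).1 = T.tor j w := fun j w => rfl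
  have hr : ∀ k w, (tor (Sum.inr k) w).1 = SurgA_end (N k) w := fun k w => rfl
  refine ⟨⟨tor, fun e => ?_, fun e e' z w h => ?_⟩,
    ⟨Subtype.val, hval, fun x => ?_, hl, fun k θ r t => ?_⟩, rfl⟩
  · rcases e with j | k
    · exact IsOpenEmbedding.of_comp _ hval (T.emb j)
    · exact IsOpenEmbedding.of_comp _ hval (SurgA_end_emb (hN k))
  · have h0 := congrArg Subtype.val h
    rcases e with j | k <;> rcases e' with j' | k'
    · rw [hl, hl] at h0
      rw [T.disj _ _ _ _ h0]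
    · rw [hl, hr] at h0
      exact absurd h0.symm (hend k' _ j z)
    · rw [hl, hr] at h0
      exact absurd h0 (hend k _ j' w)
    · rw [hr, hr] at h0
      rw [hd k k' _ _ h0]
  · rw [Subtype.range_coe_subtype]
    rfl
  · show SurgA_end (N k) (θ, r, (t : AddCircle (1 : ℝ))) = _
    obtain ⟨h1, h2⟩ := SurgA_circle t
    unfold SurgA_end
    simp only
    rw [h1, h2]

end Pool.Agent.H.MP_1611f1_gt.LS
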