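import Pool.Agent.H.MP_1611f1_gt.LS.IsoC

/-!
The homeomorphism of the manifold given by the families `ρ k`.
-/

namespace Pool.Agent.H.MP_1611f1_gt.LS

open Topology Set Filter

open Classical in
/-- the map which is `φ k` in the coordinates `N k`, and the identity elsewhere -/
noncomputable def IsoD_paste {M : Type*} {Λ : Type*} (N : Λ → Cyl → M) (φ : Λ → Cyl → Cyl)
    (x : M) : M :=
  if h : ∃ w : Λ × Cyl, N w.1 w.2 = x then N h.choose.1 (φ h.choose.1 h.choose.2) else x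

theorem IsoD_paste_N {M : Type*} [TopologicalSpace M] {Λ : Type*} {N : Λ → Cyl → M}
    (hN : ∀ k, IsOpenEmbedding (N k)) (hd : ∀ k l z w, N k z = N l w → k = l)
    (φ : Λ → Cyl → Cyl) (k : Λ) (z : Cyl) : IsoD_paste N φ (N k z) = N k (φ k z) := by
  have h : ∃ w : Λ × Cyl, N w.1 w.2 = N k z := ⟨(k, z), rfl⟩
  rw [IsoD_paste, dif_pos h]
  have h1 := h.choose_spec
  generalize h.choose = w at h1 ⊢
  obtain ⟨l, z'⟩ := w
  have h2 : l = k := hd _ _ _ _ h1
  subst h2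
  have h3 : z' = z := (hN _).injective h1
  subst h3
  rfl

theorem IsoD_paste_off {M : Type*} {Λ : Type*} (N : Λ → Cyl → M) (φ : Λ → Cyl → Cyl) (x : M)
    (hx : ∀ k z, x ≠ N k z) : IsoD_paste N φ x = x := by
  rw [IsoD_paste, dif_neg]
  rintro ⟨w, hw⟩
  exact hx _ _ hw.symm

/-- the compact set outside of which the maps are the identity -/
def IsoD_box (C : ℝ) : Set Cyl := univ ×ˢ (Icc (-3 : ℝ) 3 ×ˢ Icc (-C) 0)

theorem IsoD_closed {M : Type*} [TopologicalSpace M] [T2Space M] {Λ : Type*} [Finite Λ]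
    {N : Λ → Cyl → M} (hN : ∀ k, IsOpenEmbedding (N k)) (C : Λ → ℝ) :
    IsClosed (⋃ k, N k '' IsoD_box (C k)) := by
  refine isClosed_iUnion_of_finite fun k => ?_
  have h : IsCompact (IsoD_box (C k)) :=
    isCompact_univ.prod (isCompact_Icc.prod isCompact_Icc)
  exact (h.image (hN k).continuous).isClosed

theorem IsoD_off_box {M : Type*} [TopologicalSpace M] {Λ : Type*} {N : Λ → Cyl → M}
    (hN : ∀ k, IsOpenEmbedding (N k)) (hd : ∀ k l z w, N k z = N l w → k = l)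
    {φ : Λ → Cyl → Cyl} {C : Λ → ℝ} (hid : ∀ k, ∀ z ∉ IsoD_box (C k), φ k z = z) {x : M}
    (hx : x ∉ ⋃ k, N k '' IsoD_box (C k)) : IsoD_paste N φ x = x := by
  by_cases h : ∃ k z, x = N k z
  · obtain ⟨k, z, rfl⟩ := h
    rw [IsoD_paste_N hN hd]
    rw [hid k z]
    intro hz
    exact hx (mem_iUnion.2 ⟨k, z, hz, rfl⟩)
  · push Not at h
    exact IsoD_paste_off N φ x h

theorem IsoD_ev {M : Type*} [TopologicalSpace M] [T2Space M] {Λ : Type*} [Finite Λ]
    {N : Λ → Cyl → M} (hN : ∀ k, IsOpenEmbedding (N k)) (hd : ∀ k l z w, N k z = N l w → k = l)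
    {φ : Λ → Cyl → Cyl} {C : Λ → ℝ} (hid : ∀ k, ∀ z ∉ IsoD_box (C k), φ k z = z) {x : M}
    (hx : ∀ k z, x ≠ N k z) : ∀ᶠ x' in 𝓝 x, IsoD_paste N φ x' = x' := by
  have hx' : x ∈ (⋃ k, N k '' IsoD_box (C k))ᶜ := by
    intro h
    obtain ⟨k, z, -, hz⟩ := mem_iUnion.1 h
    exact hx k z hz.symm
  filter_upwards [(IsoD_closed hN C).isOpen_compl.mem_nhds hx'] with y hy
  exact IsoD_off_box hN hd hid hy

theorem IsoD_cont {M : Type*} [TopologicalSpace M] [T2Space M] {Λ : Type*} [Finite Λ]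
    {N : Λ → Cyl → M} (hN : ∀ k, IsOpenEmbedding (N k)) (hd : ∀ k l z w, N k z = N l w → k = l)
    {φ : Λ → Cyl → Cyl} {C : Λ → ℝ} (hc : ∀ k, Continuous (φ k))
    (hid : ∀ k, ∀ z ∉ IsoD_box (C k), φ k z = z) : Continuous (IsoD_paste N φ) := by
  rw [continuous_iff_continuousAt]
  intro x
  by_cases h : ∃ k z, x = N k z
  · obtain ⟨k, z, rfl⟩ := h
    rw [← (hN k).continuousAt_iff (x := z)]
    have h1 : IsoD_paste N φ ∘ N k = N k ∘ φ k := by
      funext w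
      exact IsoD_paste_N hN hd φ k w
    rw [h1]
    exact ((hN k).continuous.comp (hc k)).continuousAt
  · push Not at h
    exact continuousAt_id.congr ((IsoD_ev hN hd hid h).mono fun y hy => hy.symm)

theorem IsoD_inv {M : Type*} [TopologicalSpace M] {Λ : Type*} {N : Λ → Cyl → M}
    (hN : ∀ k, IsOpenEmbedding (N k)) (hd : ∀ k l z w, N k z = N l w → k = l)
    {φ ψ : Λ → Cyl → Cyl} (h : ∀ k z, ψ k (φ k z) = z) (x : M) :
    IsoD_paste N ψ (IsoD_paste N φ x) = x := by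
  by_cases hx : ∃ k z, x = N k z
  · obtain ⟨k, z, rfl⟩ := hx
    rw [IsoD_paste_N hN hd, IsoD_paste_N hN hd, h]
  · push Not at hx
    rw [IsoD_paste_off N φ x hx, IsoD_paste_off N ψ x hx]

/-- the fibre map, as a homeomorphism -/
theorem IsoD_fib {ρ : Cyl → ℝ} (hc : Continuous ρ) (hm : ∀ θ u, StrictMono fun s => ρ (θ, (u, s)))
    (hsurj : ∀ θ u, Function.Surjective fun s => ρ (θ, (u, s))) :
    ∃ e : Cyl ≃ₜ Cyl, ∀ z, e z = (z.1, (z.2.1, ρ z)) := by
  have hcont : Continuous fun z : Cyl => ((z.1, (z.2.1, ρ z)) : Cyl) := by fun_prop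
  have hbij : Function.Bijective fun z : Cyl => ((z.1, (z.2.1, ρ z)) : Cyl) := by
    constructor
    · rintro ⟨θ, u, s⟩ ⟨θ', u', s'⟩ h
      simp only [Prod.mk.injEq] at h
      obtain ⟨rfl, rfl, h⟩ := h
      rw [(hm θ u).injective h]
    · rintro ⟨θ, u, s⟩
      obtain ⟨s', hs'⟩ := hsurj θ u s
      refine ⟨(θ, (u, s')), ?_⟩
      have : ρ (θ, (u, s')) = s := hs'
      simp only [this]
  have hopen : IsOpenMap fun z : Cyl => ((z.1, (z.2.1, ρ z)) : Cyl) := by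
    have h1 := fib_open (X := AddCircle (1 : ℝ) × ℝ) (ρ := fun z => ρ (z.1.1, (z.1.2, z.2)))
      (by fun_prop) (fun x => hm x.1 x.2)
    let a : Cyl ≃ₜ (AddCircle (1 : ℝ) × ℝ) × ℝ := (Homeomorph.prodAssoc _ _ _).symm
    have h2 : (fun z : Cyl => ((z.1, (z.2.1, ρ z)) : Cyl)) =
        a.symm ∘ (fun z : (AddCircle (1 : ℝ) × ℝ) × ℝ => (z.1, ρ (z.1.1, (z.1.2, z.2)))) ∘ a := by
      funext z
      rfl
    rw [h2]
    exact a.symm.isOpenMap.comp (h1.comp a.isOpenMap)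
  exact ⟨(Equiv.ofBijective _ hbij).toHomeomorphOfContinuousOpen hcont hopen, fun z => rfl⟩

/-- The map `Ψ`: `N k (θ, (u, s)) ↦ N k (θ, (u, ρ k (θ, (u, s))))`, and the identity outside of
the images of the `N k`. It is the identity on the open complement of the finitely many compact
sets `N k '' {|u| ≤ 3, -C k ≤ s ≤ 0}`, and continuous and open on the images of the `N k`
(`fib_open`). -/
theorem exists_Psi {M : Type*} [TopologicalSpace M] [T2Space M] {Λ : Type*} [Finite Λ]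
    {N : Λ → Cyl → M} (hN : ∀ k, IsOpenEmbedding (N k)) (hd : ∀ k l z w, N k z = N l w → k = l)
    {ρ : Λ → Cyl → ℝ} {C : Λ → ℝ} (hc : ∀ k, Continuous (ρ k))
    (hm : ∀ k θ u, StrictMono fun s => ρ k (θ, (u, s)))
    (hsurj : ∀ k θ u, Function.Surjective fun s => ρ k (θ, (u, s)))
    (hid : ∀ k θ u s, (3 ≤ |u| ∨ s ≤ -C k ∨ 0 ≤ s) → ρ k (θ, (u, s)) = s) :
    ∃ Ψ : M ≃ₜ M, (∀ k θ u s, Ψ (N k (θ, (u, s))) = N k (θ, (u, ρ k (θ, (u, s))))) ∧
      (∀ x, (∀ k z, x ≠ N k z) → Ψ x = x) ∧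
      ∀ x, (∀ k z, x ≠ N k z) → ∀ᶠ x' in 𝓝 x, Ψ x' = x' := by
  choose e he using fun k => IsoD_fib (hc k) (hm k) (hsurj k)
  have hid1 : ∀ k, ∀ z ∉ IsoD_box (C k), e k z = z := by
    rintro k ⟨θ, u, s⟩ hz
    rw [he]
    have h : 3 ≤ |u| ∨ s ≤ -C k ∨ 0 ≤ s := by
      by_contra hcon
      push Not at hcon
      obtain ⟨h1, h2, h3⟩ := hcon
      rw [abs_lt] at h1
      exact hz ⟨mem_univ _, ⟨h1.1.le, h1.2.le⟩, ⟨h2.le, h3.le⟩⟩
    simp only [hid k θ u s h]
  have hid2 : ∀ k, ∀ z ∉ IsoD_box (C k), (e k).symm z = z := by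
    intro k z hz
    rw [Homeomorph.symm_apply_eq, hid1 k z hz]
  refine ⟨{ toFun := IsoD_paste N fun k => e k
            invFun := IsoD_paste N fun k => (e k).symm
            left_inv := IsoD_inv hN hd fun k z => (e k).symm_apply_apply z
            right_inv := IsoD_inv hN hd fun k z => (e k).apply_symm_apply z
            continuous_toFun := IsoD_cont hN hd (fun k => (e k).continuous) hid1
            continuous_invFun := IsoD_cont hN hd (fun k => (e k).symm.continuous) hid2 },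
    fun k θ u s => ?_, fun x hx => ?_, fun x hx => ?_⟩
  · show IsoD_paste N (fun k => e k) (N k (θ, (u, s))) = _
    rw [IsoD_paste_N hN hd, he]
  · exact IsoD_paste_off N (fun k => e k) x hx
  · exact IsoD_ev hN hd hid1 hx

end Pool.Agent.H.MP_1611f1_gt.LS
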