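import Mathlib

/-!
The vertical reparametrization which brings the holonomy into normal form.
-/

namespace Pool.Agent.H.MP_1611f1_gt.LS

open Topology Set Filter

/-- The level curves of `Γ - P θ`. Let `M₀` be an upper bound of the (periodic, continuous)
function `θ ↦ Γ (θ, -δ/2) - P θ`. For `s < 0` let `σ θ s ∈ (-δ/2, 0)` be the solution of
`Γ (θ, σ) = P θ + (M₀ - 1 / s)` (intermediate value theorem, uniqueness by strict monotonicity);
for `s ≥ 0` let `σ θ s = s`. Continuity at (θ₀, s₀), `s₀ < 0`: for small `ε > 0`,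
`Γ (θ, σ₀ ± ε) - P θ - M₀ + 1 / s` has the sign `±` at (θ₀, s₀), hence nearby. Continuity at
(θ₀, 0): for small `ε > 0` and `s` close to `0`, `Γ (θ, -ε) - P θ < M₀ - 1 / s` near `θ₀`. -/
theorem exists_sigma {δ P : ℝ} (hδ : 0 < δ) {Γ : ℝ × ℝ → ℝ}
    (hc : ContinuousOn Γ (univ ×ˢ Ioo (-δ) 0))
    (hm : ∀ θ, StrictMonoOn (fun s => Γ (θ, s)) (Ioo (-δ) 0))
    (hl : ∀ θ, Tendsto (fun s => Γ (θ, s)) (𝓝[<] 0) atTop)
    (hp : ∀ θ, ∀ s ∈ Ioo (-δ) 0, Γ (θ + 1, s) = Γ (θ, s) + P) :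
    ∃ (σ : ℝ × ℝ → ℝ) (M₀ : ℝ), Continuous σ ∧ (∀ θ, StrictMono fun s => σ (θ, s)) ∧
      (∀ θ s, 0 ≤ s → σ (θ, s) = s) ∧
      (∀ θ s, s < 0 → σ (θ, s) ∈ Ioo (-δ) 0 ∧ Γ (θ, σ (θ, s)) = P * θ + (M₀ - 1 / s)) ∧
      ∀ θ s, σ (θ + 1, s) = σ (θ, s) := by
  obtain ⟨m, hmdef⟩ : ∃ m : ℝ, m = -δ / 2 := ⟨_, rfl⟩
  have hmD : m ∈ Ioo (-δ) 0 := ⟨by rw [hmdef]; linarith, by rw [hmdef]; linarith⟩
  have hcθ : ∀ t ∈ Ioo (-δ) 0, Continuous fun θ => Γ (θ, t) := by
    intro t ht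
    exact hc.comp_continuous (by fun_prop) (fun θ => ⟨mem_univ _, ht⟩)
  have hcs : ∀ θ, ContinuousOn (fun s => Γ (θ, s)) (Ioo (-δ) 0) := by
    intro θ
    exact hc.comp (by fun_prop) (fun s hs => ⟨mem_univ _, hs⟩)
  -- the bound
  obtain ⟨M₀, hM₀⟩ : ∃ M₀, ∀ θ, Γ (θ, m) - P * θ ≤ M₀ := by
    have hcf : Continuous fun θ => Γ (θ, m) - P * θ := (hcθ m hmD).sub (by fun_prop)
    obtain ⟨M₀, hM⟩ := (isCompact_Icc (a := (0 : ℝ)) (b := 1)).bddAbove_image hcf.continuousOn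
    refine ⟨M₀, fun θ => ?_⟩
    have hper : Function.Periodic (fun θ => Γ (θ, m) - P * θ) 1 := by
      intro θ
      simp only
      rw [hp θ m hmD]
      ring
    have h1 := hper.sub_zsmul_eq ⌊θ⌋ (x := θ)
    rw [zsmul_eq_mul, mul_one, Int.self_sub_floor] at h1
    have h2 : Γ (Int.fract θ, m) - P * Int.fract θ ≤ M₀ :=
      hM ⟨Int.fract θ, ⟨Int.fract_nonneg θ, (Int.fract_lt_one θ).le⟩, rfl⟩
    change Γ (Int.fract θ, m) - P * Int.fract θ = Γ (θ, m) - P * θ at h1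
    rwa [h1] at h2
  -- the solutions
  have hsolve : ∀ θ s, ∃ t, s < 0 → t ∈ Ioo m 0 ∧ Γ (θ, t) = P * θ + (M₀ - 1 / s) := by
    intro θ s
    by_cases hs : s < 0
    · have hv : Γ (θ, m) < P * θ + (M₀ - 1 / s) := by
        have h1 := hM₀ θ
        have h2 : 1 / s < 0 := one_div_neg.mpr hs
        linarith
      obtain ⟨t', ht'1, ht'2⟩ : ∃ t' ∈ Ioo m 0, P * θ + (M₀ - 1 / s) < Γ (θ, t') := by
        have h3 := (hl θ).eventually_gt_atTop (P * θ + (M₀ - 1 / s))
        have h4 : ∀ᶠ t in 𝓝[<] (0 : ℝ), t ∈ Ioo m 0 := Ioo_mem_nhdsLT hmD.2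
        obtain ⟨t', h5, h6⟩ := (h4.and h3).exists
        exact ⟨t', h5, h6⟩
      have hsub : Icc m t' ⊆ Ioo (-δ) 0 :=
        fun t ht => ⟨hmD.1.trans_le ht.1, ht.2.trans_lt ht'1.2⟩
      obtain ⟨t, ht, hts⟩ := intermediate_value_Icc ht'1.1.le ((hcs θ).mono hsub)
        ⟨hv.le, ht'2.le⟩
      refine ⟨t, fun _ => ⟨⟨lt_of_le_of_ne ht.1 ?_, ht.2.trans_lt ht'1.2⟩, hts⟩⟩
      intro h
      rw [← h] at hts
      exact hv.ne hts
    · exact ⟨0, fun h => absurd h hs⟩
  choose S hS using hsolve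
  have hSD : ∀ θ s, s < 0 → S θ s ∈ Ioo (-δ) 0 := fun θ s hs =>
    ⟨hmD.1.trans (hS θ s hs).1.1, (hS θ s hs).1.2⟩
  have hcmp1 : ∀ θ s t, s < 0 → t ∈ Ioo (-δ) 0 → Γ (θ, t) < P * θ + (M₀ - 1 / s) →
      t < S θ s := by
    intro θ s t hs ht h
    rw [← (hS θ s hs).2] at h
    exact ((hm θ).lt_iff_lt ht (hSD θ s hs)).mp h
  have hcmp2 : ∀ θ s t, s < 0 → t ∈ Ioo (-δ) 0 → P * θ + (M₀ - 1 / s) < Γ (θ, t) →
      S θ s < t := by
    intro θ s t hs ht h
    rw [← (hS θ s hs).2] at h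
    exact ((hm θ).lt_iff_lt (hSD θ s hs) ht).mp h
  obtain ⟨σ, hσ⟩ : ∃ σ : ℝ × ℝ → ℝ, ∀ z, σ z = if z.2 < 0 then S z.1 z.2 else z.2 :=
    ⟨_, fun z => rfl⟩
  have hσn : ∀ θ s, s < 0 → σ (θ, s) = S θ s := fun θ s hs => by rw [hσ]; exact if_pos hs
  have hσp : ∀ θ s, 0 ≤ s → σ (θ, s) = s := fun θ s hs => by rw [hσ]; exact if_neg (not_lt.mpr hs)
  refine ⟨σ, M₀, ?_, ?_, hσp, ?_, ?_⟩
  · rw [continuous_iff_continuousAt]
    rintro ⟨θ₀, s₀⟩
    rcases lt_trichotomy s₀ 0 with hs₀ | hs₀ | hs₀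
    · -- below
      have hevs : ∀ᶠ z : ℝ × ℝ in 𝓝 (θ₀, s₀), z.2 < 0 :=
        continuousAt_snd.eventually_lt_const hs₀
      have hv : ContinuousAt (fun z : ℝ × ℝ => P * z.1 + (M₀ - 1 / z.2)) (θ₀, s₀) := by
        have h1 : ContinuousAt (fun z : ℝ × ℝ => 1 / z.2) (θ₀, s₀) :=
          continuousAt_const.div continuousAt_snd hs₀.ne
        have h2 : ContinuousAt (fun z : ℝ × ℝ => P * z.1) (θ₀, s₀) := by fun_prop
        exact h2.add (continuousAt_const.sub h1)
      have hΓ : ∀ t ∈ Ioo (-δ) 0, ContinuousAt (fun z : ℝ × ℝ => Γ (z.1, t)) (θ₀, s₀) := by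
        intro t ht
        exact ((hcθ t ht).comp continuous_fst).continuousAt
      have hS0 := hS θ₀ s₀ hs₀
      rw [ContinuousAt, hσn θ₀ s₀ hs₀, tendsto_order]
      constructor
      · intro a ha
        have ha' : max a m ∈ Ioo (-δ) 0 :=
          ⟨hmD.1.trans_le (le_max_right _ _), max_lt (ha.trans hS0.1.2) hmD.2⟩
        have h3 : Γ (θ₀, max a m) < P * θ₀ + (M₀ - 1 / s₀) := by
          rw [← hS0.2]
          exact hm θ₀ ha' (hSD θ₀ s₀ hs₀) (max_lt ha hS0.1.1)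
        have h4 := (hΓ _ ha').eventually_lt hv h3
        filter_upwards [hevs, h4] with z hz1 hz2
        have h5 := hcmp1 z.1 z.2 _ hz1 ha' hz2
        rw [← hσn z.1 z.2 hz1] at h5
        exact (le_max_left _ _).trans_lt h5
      · intro b hb
        have hb' : min b (S θ₀ s₀ / 2) ∈ Ioo (-δ) 0 := by
          have h6 := hSD θ₀ s₀ hs₀
          constructor
          · apply lt_min
            · exact h6.1.trans hb
            · have := h6.1
              have := h6.2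
              linarith
          · apply (min_le_right _ _).trans_lt
            have := h6.2
            linarith
        have h3 : P * θ₀ + (M₀ - 1 / s₀) < Γ (θ₀, min b (S θ₀ s₀ / 2)) := by
          rw [← hS0.2]
          apply hm θ₀ (hSD θ₀ s₀ hs₀) hb'
          apply lt_min hb
          have := hS0.1.2
          linarith
        have h4 := hv.eventually_lt (hΓ _ hb') h3
        filter_upwards [hevs, h4] with z hz1 hz2
        have h5 := hcmp2 z.1 z.2 _ hz1 hb' hz2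
        rw [← hσn z.1 z.2 hz1] at h5
        exact h5.trans_le (min_le_left _ _)
    · -- at the leaf
      subst hs₀
      rw [ContinuousAt, hσp θ₀ 0 le_rfl, tendsto_order]
      constructor
      · intro a ha
        have ha' : max a m ∈ Ioo (-δ) 0 :=
          ⟨hmD.1.trans_le (le_max_right _ _), max_lt ha hmD.2⟩
        obtain ⟨K, hK⟩ : ∃ K : ℝ, K = Γ (θ₀, max a m) - P * θ₀ + 1 := ⟨_, rfl⟩
        have h1 : ∀ᶠ z : ℝ × ℝ in 𝓝 (θ₀, 0), Γ (z.1, max a m) - P * z.1 < K := by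
          have h2 : ContinuousAt (fun z : ℝ × ℝ => Γ (z.1, max a m) - P * z.1) (θ₀, 0) := by
            have h3 := ((hcθ _ ha').comp continuous_fst).continuousAt (x := (θ₀, (0 : ℝ)))
            have h4 : ContinuousAt (fun z : ℝ × ℝ => P * z.1) (θ₀, (0 : ℝ)) := by fun_prop
            exact h3.sub h4
          apply h2.eventually_lt_const
          rw [hK]
          simp only
          linarith
        have hk0 : 0 < |K - M₀| + 1 := by positivity
        have h5 : ∀ᶠ z : ℝ × ℝ in 𝓝 (θ₀, 0), -(1 / (|K - M₀| + 1)) < z.2 := by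
          have h6 : ContinuousAt (fun z : ℝ × ℝ => z.2) (θ₀, (0 : ℝ)) := continuousAt_snd
          apply h6.eventually_const_lt
          have : 0 < 1 / (|K - M₀| + 1) := by positivity
          simp only
          linarith
        filter_upwards [h1, h5] with z hz1 hz2
        by_cases hz : z.2 < 0
        · have h7 : |K - M₀| + 1 < -(1 / z.2) := by
            have h8 : 0 < -z.2 := by linarith
            have h9 : -z.2 < 1 / (|K - M₀| + 1) := by linarith
            have h10 : -(1 / z.2) = 1 / (-z.2) := by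
              rw [one_div_neg_eq_neg_one_div]
            rw [h10, lt_div_iff₀ h8]
            rw [lt_div_iff₀ hk0] at h9
            linarith
          have h11 : K - M₀ ≤ |K - M₀| := le_abs_self _
          have h12 := hcmp1 z.1 z.2 _ hz ha' (by linarith)
          rw [← hσn z.1 z.2 hz] at h12
          exact (le_max_left _ _).trans_lt h12
        · have h13 := hσp z.1 z.2 (not_lt.mp hz)
          change a < σ (z.1, z.2)
          rw [h13]
          exact ha.trans_le (not_lt.mp hz)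
      · intro b hb
        have h6 : ∀ᶠ z : ℝ × ℝ in 𝓝 (θ₀, 0), z.2 < b := by
          have h7 : ContinuousAt (fun z : ℝ × ℝ => z.2) (θ₀, (0 : ℝ)) := continuousAt_snd
          exact h7.eventually_lt_const hb
        filter_upwards [h6] with z hz1
        by_cases hz : z.2 < 0
        · change σ (z.1, z.2) < b
          rw [hσn z.1 z.2 hz]
          exact (hSD z.1 z.2 hz).2.trans hb
        · change σ (z.1, z.2) < b
          rw [hσp z.1 z.2 (not_lt.mp hz)]
          exact hz1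
    · -- above
      have h1 : (fun z : ℝ × ℝ => z.2) =ᶠ[𝓝 (θ₀, s₀)] σ := by
        have h2 : ∀ᶠ z : ℝ × ℝ in 𝓝 (θ₀, s₀), 0 < z.2 := continuousAt_snd.eventually_const_lt hs₀
        filter_upwards [h2] with z hz
        exact (hσp z.1 z.2 hz.le).symm
      exact continuousAt_snd.congr h1
  · intro θ s s' hss
    change σ (θ, s) < σ (θ, s')
    by_cases hs : s < 0
    · rw [hσn θ s hs]
      by_cases hs' : s' < 0
      · rw [hσn θ s' hs']
        apply hcmp1 θ s' _ hs' (hSD θ s hs)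
        rw [(hS θ s hs).2]
        have h1 : 1 / s' < 1 / s := (one_div_lt_one_div_of_neg hs' hs).mpr hss
        linarith
      · rw [hσp θ s' (not_lt.mp hs')]
        exact (hSD θ s hs).2.trans_le (not_lt.mp hs')
    · have hs1 := not_lt.mp hs
      rw [hσp θ s hs1, hσp θ s' (hs1.trans hss.le)]
      exact hss
  · intro θ s hs
    rw [hσn θ s hs]
    exact ⟨hSD θ s hs, (hS θ s hs).2⟩
  · intro θ s
    by_cases hs : s < 0
    · rw [hσn _ s hs, hσn θ s hs]
      apply (hm (θ + 1)).injOn (hSD _ s hs) (hSD θ s hs)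
      change Γ (θ + 1, S (θ + 1) s) = Γ (θ + 1, S θ s)
      rw [(hS (θ + 1) s hs).2, hp θ _ (hSD θ s hs), (hS θ s hs).2]
      ring
    · rw [hσp _ s (not_lt.mp hs), hσp θ s (not_lt.mp hs)]

end Pool.Agent.H.MP_1611f1_gt.LS
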