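import Pool.Agent.H.MP_1611f1_gt.LS.IsoA
import Pool.Agent.H.MP_1611f1_gt.LS.IsoB
import Pool.Agent.H.MP_1611f1_gt.LS.IsoC

/-!
Leaf curves in normal form.
-/

namespace Pool.Agent.H.MP_1611f1_gt.LS

open Topology Set Filter

variable {M : Type*} [TopologicalSpace M]

/-- New coordinates near a leaf curve: `N' (θ, (u, s)) = N (θ, (u, σ (θ, s)))`, where `σ` is given
by `exists_sigma` (periodic, so a function on the circle); then `Tube` holds with
`g s = M₀ - 1 / s`: `below` is the composition of the hypothesis `hol` with the change of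
coordinates (`OrdEq.comp_cont`), for `zero` use `box_order` on a small box (with
`f w = (c (rc N' w)).2`), and `level`, `incr`. -/
theorem exists_tube {F : Foliation M} {N : Cyl → M} {P : ℝ} (h : LeafCurve F N P) :
    ∃ (σ : AddCircle (1 : ℝ) × ℝ → ℝ) (g : ℝ → ℝ), Continuous σ ∧
      (∀ θ, StrictMono fun s => σ (θ, s)) ∧ (∀ θ s, 0 ≤ s → σ (θ, s) = s) ∧
      Tube F (fun z => N (z.1, (z.2.1, σ (z.1, z.2.2)))) P g := by
  obtain ⟨δ, Γ, hδ, hΓc, hΓm, hΓl, hΓp, hΓo⟩ := h.hol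
  obtain ⟨σ₀, M₀, σc, σm, σ0, σneg, σper⟩ := exists_sigma hδ hΓc hΓm hΓl hΓp
  have hper : ∀ s : ℝ, Function.Periodic (fun θ => σ₀ (θ, s)) 1 := fun s θ => σper θ s
  set σ : AddCircle (1 : ℝ) × ℝ → ℝ := fun z => (hper z.2).lift z.1 with hσ
  have hσc : ∀ (θ s : ℝ), σ ((θ : AddCircle (1 : ℝ)), s) = σ₀ (θ, s) := fun θ s =>
    (hper s).lift_coe θ
  have hq : IsOpenQuotientMap (fun z : ℝ × ℝ => ((z.1 : AddCircle (1 : ℝ)), z.2)) := by
    have h1 : IsOpenQuotientMap (fun x : ℝ => (x : AddCircle (1 : ℝ))) :=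
      QuotientAddGroup.isOpenQuotientMap_mk
    exact h1.prodMap IsOpenQuotientMap.id
  have hcont : Continuous σ := by
    rw [hq.isQuotientMap.continuous_iff]
    have h1 : σ ∘ (fun z : ℝ × ℝ => ((z.1 : AddCircle (1 : ℝ)), z.2)) = σ₀ := by
      funext z
      exact hσc z.1 z.2
    rw [h1]
    exact σc
  have hmono : ∀ θ, StrictMono fun s => σ (θ, s) := by
    intro θ
    induction θ using QuotientAddGroup.induction_on with
    | H θ =>
      intro s t hst
      have h1 := σm θ hst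
      simp only at h1 ⊢
      rw [← hσc, ← hσc] at h1
      exact h1
  have hpos : ∀ θ s, 0 ≤ s → σ (θ, s) = s := by
    intro θ s hs
    induction θ using QuotientAddGroup.induction_on with
    | H θ => exact (hσc θ s).trans (σ0 θ s hs)
  set g : ℝ → ℝ := fun s => M₀ - 1 / s with hg
  set R : Cov → Cov := fun w => (w.1, (w.2.1, σ₀ (w.1, w.2.2))) with hR
  have hRc : Continuous R := by
    rw [hR]
    fun_prop
  have hrc : ∀ w : Cov, rc (fun z => N (z.1, (z.2.1, σ (z.1, z.2.2)))) w = rc N (R w) := by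
    intro w
    show N ((w.1 : AddCircle (1 : ℝ)), (w.2.1, σ ((w.1 : AddCircle (1 : ℝ)), w.2.2))) =
      N ((w.1 : AddCircle (1 : ℝ)), (w.2.1, σ₀ (w.1, w.2.2)))
    rw [hσc]
  have hemb : IsOpenEmbedding (fun z : Cyl => N (z.1, (z.2.1, σ (z.1, z.2.2)))) :=
    h.emb.comp (cyl_emb hcont hmono)
  have hgc : ContinuousOn g (Iio 0) := by
    rw [hg]
    exact continuousOn_const.sub (continuousOn_const.div continuousOn_id fun x hx => ne_of_lt hx)
  have hgm : StrictMonoOn g (Iio 0) := by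
    intro s hs t ht hst
    have h1 := one_div_lt_one_div_of_neg_of_lt (show t < 0 from ht) hst
    simp only [hg]
    linarith
  have hgl : Tendsto g (𝓝[<] 0) atTop := by
    have h1 : Tendsto (fun s : ℝ => -s⁻¹) (𝓝[<] 0) atTop :=
      tendsto_neg_atBot_atTop.comp tendsto_inv_nhdsLT_zero
    have h2 := tendsto_atTop_add_const_left (𝓝[<] (0 : ℝ)) M₀ h1
    refine h2.congr fun s => ?_
    simp only [hg, one_div]
    ring
  have hbelow : ∀ z : Cov, z.2.2 < 0 → ∀ c ∈ F.charts,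
      rc (fun z => N (z.1, (z.2.1, σ (z.1, z.2.2)))) z ∈ c.source →
      OrdEq z (fun w => (c (rc (fun z => N (z.1, (z.2.1, σ (z.1, z.2.2)))) w)).2)
        (fun w => P * w.1 + g w.2.2) := by
    intro z hz c hc hs
    rw [hrc] at hs
    have h1 := hΓo (R z) (σneg z.1 z.2.2 hz).1 c hc hs
    have h2 := OrdEq.comp_cont (R := R) (z₀ := z) hRc.continuousAt h1
    refine h2.congr (Eventually.of_forall fun w => ?_) ?_
    · simp only [Function.comp_apply]
      rw [hrc]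
    · have h3 : ∀ᶠ w : Cov in 𝓝 z, w.2.2 < 0 :=
        (by fun_prop : Continuous fun w : Cov => w.2.2).continuousAt.eventually_lt_const hz
      filter_upwards [h3] with w hw
      exact ((σneg w.1 w.2.2 hw).2).symm
  refine ⟨σ, g, hcont, hmono, hpos, hemb, hgc, hgm, hgl, hbelow, ?_⟩
  intro z hz c hc hs
  have hRz : R z = z := by
    show (z.1, (z.2.1, σ₀ (z.1, z.2.2))) = z
    rw [σ0 z.1 z.2.2 hz.ge]
  have hs' : rc N z ∈ c.source := by
    rw [hrc, hRz] at hs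
    exact hs
  have hNc : Continuous (rc (fun z => N (z.1, (z.2.1, σ (z.1, z.2.2))))) := by
    have h1 : Continuous (fun w : Cov => (((w.1 : AddCircle (1 : ℝ)), w.2) : Cyl)) :=
      (continuous_quotient_mk'.comp continuous_fst).prodMk continuous_snd
    exact hemb.continuous.comp h1
  have hV1 : {w : Cov | rc (fun z => N (z.1, (z.2.1, σ (z.1, z.2.2)))) w ∈ c.source} ∈ 𝓝 z :=
    hNc.continuousAt (c.open_source.mem_nhds hs)
  obtain ⟨ε, hε, hball⟩ := Metric.mem_nhds_iff.1 hV1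
  have hlev := h.level z hz c hc hs'
  obtain ⟨V₂, hV₂, hinc⟩ := h.incr z hz c hc hs'
  have hlev' : ∀ᶠ w in 𝓝 z, (R w).2.2 = 0 → (c (rc N (R w))).2 = (c (rc N z)).2 := by
    have h1 : Tendsto R (𝓝 z) (𝓝 z) := by
      have h2 := hRc.tendsto z
      rw [hRz] at h2
      exact h2
    exact h1.eventually hlev
  have hV₂' : R ⁻¹' V₂ ∈ 𝓝 z := by
    have h2 := hRc.tendsto z
    rw [hRz] at h2
    exact h2 hV₂
  have hbox := box_order (P := P) hgc hgm hgl
    (f := fun w => (c (rc (fun z => N (z.1, (z.2.1, σ (z.1, z.2.2)))) w)).2)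
    (a := z.1 - ε) (b := z.1 + ε) (u := z.2.1 - ε) (v := z.2.1 + ε) (d := -ε)
    (by linarith) (by
      rintro w ⟨hw1, hw2, hw3⟩
      refine hbelow w hw3.2 c hc (hball ?_)
      rw [Metric.mem_ball, Prod.dist_eq, Prod.dist_eq, max_lt_iff, max_lt_iff, Real.dist_eq,
        Real.dist_eq, Real.dist_eq, abs_lt, abs_lt, abs_lt]
      refine ⟨⟨by linarith [hw1.1], by linarith [hw1.2]⟩, ⟨by linarith [hw2.1],
        by linarith [hw2.2]⟩, ⟨by rw [hz]; linarith [hw3.1], by rw [hz]; linarith [hw3.2]⟩⟩)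
  have hin : ∀ w ∈ Metric.ball z ε, w.2.2 < 0 →
      w ∈ Ioo (z.1 - ε) (z.1 + ε) ×ˢ (Ioo (z.2.1 - ε) (z.2.1 + ε) ×ˢ Ioo (-ε) 0) := by
    intro w hw hw0
    rw [Metric.mem_ball, Prod.dist_eq, Prod.dist_eq, max_lt_iff, max_lt_iff, Real.dist_eq,
      Real.dist_eq, Real.dist_eq, abs_lt, abs_lt, abs_lt] at hw
    obtain ⟨h1, h2, h3⟩ := hw
    rw [hz] at h3
    exact ⟨⟨by linarith [h1.1], by linarith [h1.2]⟩, ⟨by linarith [h2.1], by linarith [h2.2]⟩,
      ⟨by linarith [h3.1], hw0⟩⟩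
  refine ⟨Metric.ball z ε ∩ ({w | (R w).2.2 = 0 → (c (rc N (R w))).2 = (c (rc N z)).2} ∩
    R ⁻¹' V₂), inter_mem (Metric.ball_mem_nhds z hε) (inter_mem hlev' hV₂'), ?_, ?_, ?_⟩
  · intro w hw w' hw' hw0 hw0'
    exact hbox w (hin w hw.1 hw0) w' (hin w' hw'.1 hw0')
  · intro w hw hw0
    rw [hrc, hrc, hRz]
    exact hw.2.1 ((σ0 w.1 w.2.2 hw0.ge).trans hw0)
  · intro w hw w' hw' h1 h2 h3
    rw [hrc, hrc]
    refine hinc (R w) hw.2.2 (R w') hw'.2.2 h1 h2 ?_
    show σ₀ (w.1, w.2.2) < σ₀ (w'.1, w'.2.2)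
    rw [h1]
    exact σm w'.1 h3

end Pool.Agent.H.MP_1611f1_gt.LS
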