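import Pool.Agent.H.MP_1611f1_gt.LS.Nrm
import Pool.Agent.H.MP_1611f1_gt.LS.IsoD
import Pool.Agent.H.MP_1611f1_gt.LS.IsoE

/-!
The drilling theorem.
-/

namespace Pool.Agent.H.MP_1611f1_gt.LS

open Topology Set Filter

theorem Leaf_KK {z : Cyl} (hz : z ∈ KK) : |z.2.1| ≤ 2 ∧ -7 ≤ z.2.2 := by
  have h : z.2.1 ^ 2 + (z.2.2 + 4) ^ 2 ≤ 1 := hz
  constructor
  · rw [abs_le]
    constructor <;> nlinarith [sq_nonneg (z.2.2 + 4)]
  · nlinarith [sq_nonneg z.2.1, sq_nonneg (z.2.2 + 5)]

/-- scaling of the linear functions at the ends -/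
theorem linear_scale {M : Type*} [TopologicalSpace M] {J : Type*} {T : G.Ended M J}
    {F : Foliation M} {x y x' y' : J → ℝ} (h : G.Linear T F x y) {κ : J → ℝ}
    (hκ : ∀ j, 0 < κ j) (hx : ∀ j, x' j = κ j * x j) (hy : ∀ j, y' j = κ j * y j) :
    G.Linear T F x' y' := by
  intro j z hz c hc hs
  refine (h j z hz c hc hs).trans (OrdEq.of_comp (fun t => κ j * t)
    (fun a b hab => mul_lt_mul_of_pos_left hab (hκ j)) (Eventually.of_forall fun w => ?_))
  show x' j * w.1 + y' j * w.2.2 = κ j * (x j * w.1 + y j * w.2.2)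
  rw [hx, hy]
  ring

/-- The drilled manifold in the new coordinates `N' k = N k ∘ (id × σ k)`: the map
`Ψ ∘ D.p`, where `Ψ` is given by `exists_rho`, `exists_Psi`. The solid torus `N k '' KK`
is mapped onto `N' k '' KK`, because there `|u| ≤ 1`, `-5 ≤ s ≤ -3`; the collars of the new ends
are in the region `|u| ≤ 2`, `-6 ≤ s ≤ -2`. -/
theorem drill_move {M M' : Type*} [TopologicalSpace M] [T2Space M] [TopologicalSpace M']
    {J Λ : Type*} [Finite Λ] {T : G.Ended M J} {T' : G.Ended M' (J ⊕ Λ)} {N : Λ → Cyl → M}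
    (hN : ∀ k, IsOpenEmbedding (N k)) (hd : ∀ k l z w, N k z = N l w → k = l)
    (hend : ∀ k z j w, N k z ≠ T.tor j w) (D : Drill T N T')
    {σ : Λ → AddCircle (1 : ℝ) × ℝ → ℝ} (hc : ∀ k, Continuous (σ k))
    (hm : ∀ k θ, StrictMono fun s => σ k (θ, s)) (h0 : ∀ k θ s, 0 ≤ s → σ k (θ, s) = s) :
    ∃ D' : Drill T (fun k z => N k (z.1, (z.2.1, σ k (z.1, z.2.2)))) T',
      ∀ x, (∀ k z, D.p x ≠ N k z) → D'.p x = D.p x ∧ ∀ᶠ x' in 𝓝 x, D'.p x' = D.p x' := by
  choose ρ C hρc hρm hρs hρσ hρid using fun k => exists_rho (hc k) (hm k) (h0 k)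
  obtain ⟨Ψ, h1, h2, h3⟩ := exists_Psi hN hd hρc hρm hρs hρid
  have key : ∀ k (z : Cyl), |z.2.1| ≤ 2 → -7 ≤ z.2.2 →
      Ψ (N k z) = N k (z.1, (z.2.1, σ k (z.1, z.2.2))) := by
    intro k z hu hs
    have h4 := h1 k z.1 z.2.1 z.2.2
    rw [hρσ k z.1 z.2.1 z.2.2 hu hs] at h4
    exact h4
  refine ⟨{ p := fun x => Ψ (D.p x), emb := Ψ.isOpenEmbedding.comp D.emb, range_iff := ?_,
            old := ?_, new := ?_ }, ?_⟩
  · intro x
    have h4 : x ∈ range (fun x => Ψ (D.p x)) ↔ Ψ.symm x ∈ range D.p := by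
      constructor
      · rintro ⟨y, rfl⟩
        exact ⟨y, by simp⟩
      · rintro ⟨y, hy⟩
        exact ⟨y, by simp [hy]⟩
    rw [h4, D.range_iff]
    refine forall_congr' fun k => not_congr ?_
    constructor
    · rintro ⟨z, hz, hzx⟩
      refine ⟨z, hz, ?_⟩
      obtain ⟨hu, hs⟩ := Leaf_KK hz
      show N k (z.1, (z.2.1, σ k (z.1, z.2.2))) = x
      rw [← key k z hu hs, hzx, Ψ.apply_symm_apply]
    · rintro ⟨z, hz, hzx⟩
      refine ⟨z, hz, ?_⟩
      obtain ⟨hu, hs⟩ := Leaf_KK hz
      have hzx' : N k (z.1, (z.2.1, σ k (z.1, z.2.2))) = x := hzx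
      rw [← hzx', ← key k z hu hs, Ψ.symm_apply_apply]
  · intro j w
    show Ψ (D.p (T'.tor (Sum.inl j) w)) = T.tor j w
    rw [D.old]
    exact h2 _ fun k z h => hend k z j w h.symm
  · intro k θ r t
    show Ψ (D.p (T'.tor (Sum.inr k) (θ, r, (t : AddCircle (1 : ℝ))))) = _
    rw [D.new]
    have hr1 := r.2.1
    have hr2 := r.2.2
    have hcos := Real.abs_cos_le_one (2 * Real.pi * t)
    have hsin := Real.neg_one_le_sin (2 * Real.pi * t)
    refine key k (θ, ((r : ℝ) * Real.cos (2 * Real.pi * t),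
      -4 + (r : ℝ) * Real.sin (2 * Real.pi * t))) ?_ ?_
    · show |(r : ℝ) * Real.cos (2 * Real.pi * t)| ≤ 2
      rw [abs_mul, abs_of_pos (by linarith)]
      nlinarith [abs_nonneg (Real.cos (2 * Real.pi * t))]
    · show -7 ≤ -4 + (r : ℝ) * Real.sin (2 * Real.pi * t)
      nlinarith
  · intro x hx
    exact ⟨h2 _ hx, D.emb.continuous.continuousAt.eventually (h3 _ hx)⟩

/-- **The drilling theorem for leaf curves.** Let `F` be a taut foliation of `M`, linear near the
ends, and let `N k` be (neighbourhoods of) finitely many disjoint curves in leaves of `F`, whose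
holonomy has no fixed points on one side of the leaf. If the curves are drilled out, then the
resulting manifold has a taut foliation which is linear near the new ends, with arbitrary slopes
different from the slope given by the leaf, and equal to `F` away from the curves. -/
theorem leaf_drill {M M' : Type*} [TopologicalSpace M] [T2Space M] [TopologicalSpace M']
    {J Λ : Type*} [Finite Λ] {T : G.Ended M J} {T' : G.Ended M' (J ⊕ Λ)} {F : Foliation M}
    (hF : F.Taut) {x y : J → ℝ} (hlin : G.Linear T F x y) {N : Λ → Cyl → M} {P : Λ → ℝ}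
    (hN : ∀ k, LeafCurve F (N k) (P k)) (hd : ∀ k l z w, N k z = N l w → k = l)
    (hend : ∀ k z j w, N k z ≠ T.tor j w) (D : Drill T N T') (x' y' : Λ → ℝ)
    (hx : ∀ k, 0 < P k * x' k) :
    ∃ F' : Foliation M', F'.Taut ∧ G.Linear T' F' (Sum.elim x x') (Sum.elim y y') ∧
      ∀ x, (∀ k z, D.p x ≠ N k z) → AgreeAt D.p F' F x := by
  choose σ g hσc hσm hσ0 htube using fun k => exists_tube (hN k)
  obtain ⟨D', hD'⟩ := drill_move (fun k => (hN k).emb) hd hend D hσc hσm hσ0
  have hP : ∀ k, P k ≠ 0 := fun k h => by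
    have := hx k
    rw [h, zero_mul] at this
    exact lt_irrefl _ this
  have hκ : ∀ k, 0 < x' k / P k := fun k => by
    have h1 : x' k / P k = (P k * x' k) / (P k) ^ 2 := by
      have := hP k
      field_simp
    rw [h1]
    exact div_pos (hx k) (by have := hP k; positivity)
  have hx' : ∀ k, x' k ≠ 0 := fun k h => by
    have := hx k
    rw [h, mul_zero] at this
    exact lt_irrefl _ this
  let X : Sys F Λ :=
    { N := fun k z => N k (z.1, (z.2.1, σ k (z.1, z.2.2)))
      P := P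
      g := g
      m := fun k => y' k * P k / x' k
      tube := htube
      P_ne := hP
      disj := fun k l z w h => hd _ _ _ _ h }
  obtain ⟨F', hF', hlin', hag⟩ := drill_normal X hF hlin (fun k z j w => hend _ _ _ _) D'
  refine ⟨F', hF', ?_, ?_⟩
  · refine linear_scale (κ := Sum.elim (fun _ => 1) fun k => x' k / P k) hlin' ?_ ?_ ?_
    · rintro (j | k)
      · exact one_pos
      · exact hκ k
    · rintro (j | k)
      · exact (one_mul _).symm
      · show x' k = x' k / P k * P k
        have := hP k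
        field_simp
    · rintro (j | k)
      · exact (one_mul _).symm
      · show y' k = x' k / P k * (y' k * P k / x' k)
        have := hP k
        have := hx' k
        field_simp
  · intro x hx1
    obtain ⟨e1, e2⟩ := hD' x hx1
    have h1 : ∀ k, D'.p x ∉ X.WW k := by
      rintro k ⟨z, -, hz⟩
      rw [e1] at hz
      exact hx1 k _ hz.symm
    intro c' hc' c hc hs' hs
    have h2 := hag x h1 c' hc' c hc hs' (by rw [e1]; exact hs)
    exact h2.congr (Eventually.of_forall fun _ => rfl) (e2.mono fun z hz => by rw [hz])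

end Pool.Agent.H.MP_1611f1_gt.LS
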