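import Pool.Agent.H.MP_1611f1_gt.LS.Base

/-!
The coordinates on the universal cover.
-/

namespace Pool.Agent.H.MP_1611f1_gt.LS

open Topology Set Filter

theorem RcA_coe (a b : ℝ) :
    ((a : AddCircle (1 : ℝ)) = (b : AddCircle (1 : ℝ))) ↔ ∃ k : ℤ, b = a + k := by
  constructor
  · intro h
    have h1 : -a + b ∈ AddSubgroup.zmultiples (1 : ℝ) := QuotientAddGroup.eq.mp h
    obtain ⟨k, hk⟩ := AddSubgroup.mem_zmultiples_iff.mp h1
    refine ⟨k, ?_⟩
    rw [zsmul_eq_mul, mul_one] at hk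
    linarith
  · rintro ⟨k, hk⟩
    refine QuotientAddGroup.eq.mpr (AddSubgroup.mem_zmultiples_iff.mpr ⟨k, ?_⟩)
    rw [zsmul_eq_mul, mul_one, hk]
    ring

variable {M : Type*} [TopologicalSpace M] {N : Cyl → M}

theorem rc_cont (hN : IsOpenEmbedding N) : Continuous (rc N) := by
  exact hN.continuous.comp
    (((AddCircle.continuous_mk' (1 : ℝ)).comp continuous_fst).prodMk continuous_snd)

theorem rc_open (hN : IsOpenEmbedding N) : IsOpenMap (rc N) := by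
  have h1 : IsOpenMap (Prod.map (fun y : ℝ => (y : AddCircle (1 : ℝ)))
      (id : ℝ × ℝ → ℝ × ℝ)) :=
    (QuotientAddGroup.isOpenMap_coe (N := AddSubgroup.zmultiples (1 : ℝ))).prodMap IsOpenMap.id
  exact hN.isOpenMap.comp h1

theorem rc_eq (hN : IsOpenEmbedding N) (z w : Cov) :
    rc N z = rc N w ↔ ∃ k : ℤ, w = (z.1 + k, z.2) := by
  unfold rc
  rw [hN.injective.eq_iff, Prod.mk.injEq, RcA_coe]
  constructor
  · rintro ⟨⟨k, hk⟩, h2⟩
    exact ⟨k, Prod.ext hk h2.symm⟩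
  · rintro ⟨k, hk⟩
    rw [hk]
    exact ⟨⟨k, rfl⟩, rfl⟩

/-- with the fibre coordinate `s` (as needed in `exists_chart`) -/
theorem rc_loc_s (hN : IsOpenEmbedding N) :
    IsLocalHomeomorph (fun z : (ℝ × ℝ) × ℝ => rc N (z.1.1, (z.1.2, z.2))) := by
  have hc : Continuous (fun z : (ℝ × ℝ) × ℝ => rc N (z.1.1, (z.1.2, z.2))) :=
    (rc_cont hN).comp (by fun_prop)
  have ho : IsOpenMap (fun z : (ℝ × ℝ) × ℝ => rc N (z.1.1, (z.1.2, z.2))) :=
    (rc_open hN).comp (Homeomorph.prodAssoc ℝ ℝ ℝ).isOpenMap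
  rw [isLocalHomeomorph_iff_isOpenEmbedding_restrict]
  rintro ⟨⟨y, u⟩, s⟩
  have hU : IsOpen ((Ioo (y - 1 / 2) (y + 1 / 2) ×ˢ (univ : Set ℝ)) ×ˢ (univ : Set ℝ)) :=
    (isOpen_Ioo.prod isOpen_univ).prod isOpen_univ
  refine ⟨_, hU.mem_nhds ⟨⟨⟨by simp, by simp⟩, mem_univ _⟩, mem_univ _⟩,
    IsOpenEmbedding.of_continuous_injective_isOpenMap
    (hc.comp continuous_subtype_val) (injOn_iff_injective.mp ?_)
    (ho.comp hU.isOpenMap_subtype_val)⟩
  rintro ⟨⟨y1, u1⟩, s1⟩ ⟨⟨hy1, -⟩, -⟩ ⟨⟨y2, u2⟩, s2⟩ ⟨⟨hy2, -⟩, -⟩ heq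
  obtain ⟨k, hk⟩ := (rc_eq hN _ _).mp heq
  simp only [Prod.mk.injEq] at hk
  obtain ⟨hk1, hk2, hk3⟩ := hk
  simp only [mem_Ioo] at hy1 hy2
  have h1 : (k : ℝ) < 1 := by linarith [hy1.1, hy2.2]
  have h2 : (-1 : ℝ) < k := by linarith [hy1.2, hy2.1]
  have h3 : k < 1 := by exact_mod_cast h1
  have h4 : -1 < k := by exact_mod_cast h2
  have h5 : k = 0 := by omega
  rw [h5] at hk1
  simp only [Int.cast_zero, add_zero] at hk1
  rw [hk1, hk2, hk3]

theorem RcA_sub (hN : IsOpenEmbedding N) (w : Cov) (k : ℤ) :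
    rc N ((w.1 - k, w.2) : Cov) = rc N w :=
  (rc_eq hN _ _).mpr ⟨k, Prod.ext (by simp) rfl⟩

theorem RcA_h {h : Cov → ℝ} {k : ℤ} {C : ℝ} (hk : ∀ w : Cov, h (w.1 + k, w.2) = h w + C)
    (w : Cov) : h ((w.1 - k, w.2) : Cov) = h w - C := by
  have h1 := hk (w.1 - k, w.2)
  simp only [sub_add_cancel, Prod.mk.eta] at h1
  rw [h1]
  ring

/-- a function on the manifold, in the coordinates: change of the lift -/
theorem ord_shift (hN : IsOpenEmbedding N) {f : M → ℝ} {h : Cov → ℝ} {k : ℤ} {C : ℝ}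
    (hk : ∀ w : Cov, h (w.1 + k, w.2) = h w + C) {z : Cov}
    (hz : OrdEq z (fun w => f (rc N w)) h) :
    OrdEq ((z.1 + k, z.2) : Cov) (fun w => f (rc N w)) h := by
  obtain ⟨V, hV, h⟩ := hz
  have hcont : Continuous (fun w : Cov => ((w.1 - k, w.2) : Cov)) := by fun_prop
  have hpre : (fun w : Cov => ((w.1 - k, w.2) : Cov)) ⁻¹' V ∈ 𝓝 ((z.1 + k, z.2) : Cov) := by
    apply hcont.continuousAt.preimage_mem_nhds
    simp only [add_sub_cancel_right, Prod.mk.eta]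
    exact hV
  refine ⟨_, hpre, fun w hw w' hw' => ?_⟩
  have h1 := h _ hw _ hw'
  simp only at h1
  rw [RcA_sub hN w k, RcA_sub hN w' k, RcA_h hk w, RcA_h hk w'] at h1
  simp only
  rw [h1]
  constructor
  · intro h2
    linarith
  · intro h2
    linarith

/-- a transverse function given in the coordinates defines the same order as one given on `M` -/
theorem ord_push (hN : IsOpenEmbedding N) {f f' : M → ℝ} {h : Cov → ℝ} {z : Cov}
    (hz : OrdEq z (fun w => f (rc N w)) h) (hz' : OrdEq z (fun w => f' (rc N w)) h) :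
    OrdEq (rc N z) f f' := by
  exact OrdEq.of_openMap (R := rc N) (rc_open hN) (f := f) (g := f') (hz.trans hz'.symm)

end Pool.Agent.H.MP_1611f1_gt.LS
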