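import Pool.Agent.H.MP_1611f1_gt.LS.HDefs
import Pool.Agent.H.MP_1611f1_gt.LS.RcA

/-!
The two sides of a leaf curve.
-/

namespace Pool.Agent.H.MP_1611f1_gt.LS

open Topology Set Filter

variable {M : Type*} [TopologicalSpace M] {F : Foliation M} {N : Cyl → M}

theorem flip_emb (hN : IsOpenEmbedding N) : IsOpenEmbedding (flipN N) := by
  let e : Cyl ≃ₜ Cyl := (Homeomorph.refl (AddCircle (1 : ℝ))).prodCongr
    ((Homeomorph.neg ℝ).prodCongr (Homeomorph.neg ℝ))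
  exact hN.comp e.isOpenEmbedding

/-- the opposite co-orientation in the rotated coordinates -/
theorem HolDat.flip {δ : ℝ} {Γ : ℝ × ℝ → ℝ} {h : ℝ ≃o ℝ} (hD : HolDat F N δ Γ h) :
    ∃ h' : ℝ ≃o ℝ, (∀ x, h' x = -h (-x)) ∧
      HolDat (G.revF F) (flipN N) δ (fun z => -Γ (z.1, -z.2)) h' := by
  let h' : ℝ ≃o ℝ :=
    { toFun := fun x => -h (-x)
      invFun := fun x => -h.symm (-x)
      left_inv := fun x => by
        show -h.symm (- -h (-x)) = x
        rw [neg_neg, OrderIso.symm_apply_apply, neg_neg]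
      right_inv := fun x => by
        show -h (- -h.symm (-x)) = x
        rw [neg_neg, OrderIso.apply_symm_apply, neg_neg]
      map_rel_iff' := fun {a b} => by
        show -h (-a) ≤ -h (-b) ↔ a ≤ b
        rw [neg_le_neg_iff, h.le_iff_le, neg_le_neg_iff] }
  have hneg : ∀ {s : ℝ}, s ∈ Ioo (-δ) δ → -s ∈ Ioo (-δ) δ := fun {s} hs =>
    ⟨by linarith [hs.2], by linarith [hs.1]⟩
  refine ⟨h', fun x => rfl, hD.pos, ?_, ?_, ?_, ?_, ?_⟩
  · refine ContinuousOn.neg (hD.cont.comp (f := fun z : ℝ × ℝ => (z.1, -z.2))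
      (by fun_prop) ?_)
    rintro ⟨θ, s⟩ ⟨-, hs⟩
    exact ⟨mem_univ _, hneg hs⟩
  · intro θ a ha b hb hab
    exact neg_lt_neg (hD.mono θ (hneg hb) (hneg ha) (neg_lt_neg hab))
  · intro θ
    show -Γ (θ, -0) = 0
    rw [neg_zero, hD.zero, neg_zero]
  · intro θ s hs
    show -Γ (θ + 1, -s) = -h (- -Γ (θ, -s))
    rw [neg_neg, hD.per θ (-s) (hneg hs)]
  · rintro z hz _ ⟨c, hc, rfl⟩ hs
    obtain ⟨V, hV, h1⟩ := OrdEq.comp_cont
      (R := fun w : Cov => ((w.1, (-w.2.1, -w.2.2)) : Cov)) (z₀ := z) (by fun_prop)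
      (hD.ord (z.1, (-z.2.1, -z.2.2)) (hneg hz) c hc hs)
    refine ⟨V, hV, fun w hw w' hw' => ?_⟩
    show (G.revC c (rc (flipN N) w)).2 < (G.revC c (rc (flipN N) w')).2 ↔
      -Γ (w.1, -w.2.2) < -Γ (w'.1, -w'.2.2)
    rw [G.revC_snd, G.revC_snd, neg_lt_neg_iff, neg_lt_neg_iff]
    exact h1 w' hw' w hw

theorem HolCurve.sides (h : HolCurve F N) :
    LowCurve F N ∨ LowCurve (G.revF F) (flipN N) := by
  obtain ⟨emb, δ, Γ, f, hD, hx⟩ := h
  by_cases hlow : ∀ ε > 0, ∃ x ∈ Ioo (-ε) 0, f x ≠ x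
  · exact Or.inl ⟨emb, δ, Γ, f, hD, hlow⟩
  · right
    push Not at hlow
    obtain ⟨ε₀, hε₀, hlow⟩ := hlow
    obtain ⟨f', hf', hD'⟩ := hD.flip
    refine ⟨flip_emb emb, δ, _, f', hD', fun ε hε => ?_⟩
    obtain ⟨x, hx1, hx2⟩ := hx (min ε ε₀) (lt_min hε hε₀)
    have h0 : f 0 = 0 := by
      have h1 := hD.per 0 0 ⟨by linarith [hD.pos], hD.pos⟩
      rw [hD.zero, hD.zero] at h1
      exact h1.symm
    have hx3 := abs_lt.1 (hx1.trans_le (min_le_left ε ε₀))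
    have hx4 := abs_lt.1 (hx1.trans_le (min_le_right ε ε₀))
    have hpos : 0 < x := by
      rcases lt_trichotomy x 0 with h1 | h1 | h1
      · exact absurd (hlow x ⟨hx4.1, h1⟩) hx2
      · rw [h1] at hx2
        exact absurd h0 hx2
      · exact h1
    refine ⟨-x, ⟨by linarith [hx3.2], by linarith⟩, ?_⟩
    rw [hf', neg_neg]
    intro h1
    exact hx2 (neg_injective h1)

end Pool.Agent.H.MP_1611f1_gt.LS
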