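import Pool.Agent.H.MP_1611f1_gt.LS.HG
import Pool.Agent.H.MP_1611f1_gt.LS.HA
import Pool.Agent.H.MP_1611f1_gt.LS.Leaf

/-!
The drilling theorem on one side.
-/

namespace Pool.Agent.H.MP_1611f1_gt.LS

open Topology Set Filter

variable {M M' : Type*} [TopologicalSpace M] [T2Space M] [TopologicalSpace M']
    {J Λ : Type*} [Finite Λ] {T : G.Ended M J} {T' : G.Ended M' (J ⊕ Λ)} {F : Foliation M}

/-- the common part of the two cases -/
theorem HI_core (hF : F.Taut) {x y : J → ℝ} (hlin : G.Linear T F x y) {N : Λ → Cyl → M}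
    {P : Λ → ℝ} {σ : Λ → AddCircle (1 : ℝ) × ℝ → ℝ} {g : Λ → ℝ → ℝ} (hP : ∀ k, P k ≠ 0)
    (htube : ∀ k, Tube F (mvN (N k) (σ k)) (P k) (g k))
    (hd : ∀ k l z w, N k z = N l w → k = l) (hend : ∀ k z j w, N k z ≠ T.tor j w)
    (D' : Drill T (fun k => mvN (N k) (σ k)) T') {p : M' → M}
    (hD' : ∀ x, (∀ k z, p x ≠ N k z) → D'.p x = p x ∧ ∀ᶠ x' in 𝓝 x, D'.p x' = p x')
    (x' y' : Λ → ℝ) (hx : ∀ k, 0 < P k * x' k) :
    ∃ F' : Foliation M', F'.Taut ∧ G.Linear T' F' (Sum.elim x x') (Sum.elim y y') ∧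
      ∀ x, (∀ k z, p x ≠ N k z) → AgreeAt p F' F x := by
  have hκ : ∀ k, 0 < x' k / P k := fun k => by
    have h1 : x' k / P k = (P k * x' k) / (P k) ^ 2 := by
      have := hP k
      field_simp
    rw [h1]
    exact div_pos (hx k) (by have := hP k; positivity)
  have hx' : ∀ k, x' k ≠ 0 := fun k h => by
    have := hx k
    rw [h, mul_zero] at this
    exact lt_irrefl _ this
  let X : Sys F Λ :=
    { N := fun k => mvN (N k) (σ k)
      P := P
      g := g
      m := fun k => y' k * P k / x' k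
      tube := htube
      P_ne := hP
      disj := fun k l z w h => hd _ _ _ _ h }
  obtain ⟨F', hF', hlin', hag⟩ := drill_normal X hF hlin (fun k z j w => hend _ _ _ _) D'
  refine ⟨F', hF', ?_, ?_⟩
  · refine linear_scale (κ := Sum.elim (fun _ => 1) fun k => x' k / P k) hlin' ?_ ?_ ?_
    · rintro (j | k)
      · exact one_pos
      · exact hκ k
    · rintro (j | k)
      · exact (one_mul _).symm
      · show x' k = x' k / P k * P k
        have := hP k
        field_simp
    · rintro (j | k)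
      · exact (one_mul _).symm
      · show y' k = x' k / P k * (y' k * P k / x' k)
        have := hP k
        have := hx' k
        field_simp
  · intro x hx1
    obtain ⟨e1, e2⟩ := hD' x hx1
    have h1 : ∀ k, D'.p x ∉ X.WW k := by
      rintro k ⟨z, -, hz⟩
      rw [e1] at hz
      exact hx1 k _ hz.symm
    intro c' hc' c hc hs' hs
    have h2 := hag x h1 c' hc' c hc hs' (by rw [e1]; exact hs)
    exact h2.congr (Eventually.of_forall fun _ => rfl) (e2.mono fun z hz => by rw [hz])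

/-- as `leaf_drill` (`Leaf.lean`; same proof with `drill_move2`) -/
theorem drill_low (hF : F.Taut) {x y : J → ℝ} (hlin : G.Linear T F x y) {N : Λ → Cyl → M}
    {P : Λ → ℝ} (hN : ∀ k, TubeL F (N k) (P k)) (hd : ∀ k l z w, N k z = N l w → k = l)
    (hend : ∀ k z j w, N k z ≠ T.tor j w) (D : Drill T N T') (x' y' : Λ → ℝ)
    (hx : ∀ k, 0 < P k * x' k) :
    ∃ F' : Foliation M', F'.Taut ∧ G.Linear T' F' (Sum.elim x x') (Sum.elim y y') ∧
      ∀ x, (∀ k z, D.p x ≠ N k z) → AgreeAt D.p F' F x := by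
  choose σ g hσc hσm htube using fun k => (hN k).tube
  obtain ⟨D', hD'⟩ := drill_move2 (fun k => (hN k).emb) hd hend D hσc hσm
  exact HI_core hF hlin (fun k => (hN k).P_ne) htube hd hend D' hD' x' y' hx

/-- the opposite co-orientation: linearity -/
theorem HI_lrev {M : Type*} [TopologicalSpace M] {J : Type*} {T : G.Ended M J}
    {F : Foliation M} {x y : J → ℝ} (h : G.Linear T F x y) :
    G.Linear T (G.revF F) (fun j => -x j) (fun j => -y j) := by
  rintro j z hz _ ⟨c, hc, rfl⟩ hs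
  obtain ⟨V, hV, h1⟩ := h j z hz c hc hs
  refine ⟨V, hV, fun w hw w' hw' => ?_⟩
  have h2 : (c (T.cov j w')).2 < (c (T.cov j w)).2 ↔
      x j * w'.1 + y j * w'.2.2 < x j * w.1 + y j * w.2.2 := h1 w' hw' w hw
  show (G.revC c (T.cov j w)).2 < (G.revC c (T.cov j w')).2 ↔
    -x j * w.1 + -y j * w.2.2 < -x j * w'.1 + -y j * w'.2.2
  rw [G.revC_snd, G.revC_snd, neg_lt_neg_iff, h2]
  constructor
  · intro h3
    linarith
  · intro h3
    linarith

/-- the opposite co-orientation: linearity -/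
theorem linear_rev {x y : J → ℝ} (h : G.Linear T F x y) :
    G.Linear T (G.revF F) (fun j => -x j) (fun j => -y j) := by
  exact HI_lrev h

theorem agree_rev {p : M' → M} {F' : Foliation M'} {x : M'} (h : AgreeAt p F' (G.revF F) x) :
    AgreeAt p (G.revF F') F x := by
  rintro _ ⟨c', hc', rfl⟩ c hc hs' hs
  obtain ⟨V, hV, h1⟩ := h c' hc' (G.revC c) (mem_image_of_mem _ hc) hs' hs
  refine ⟨V, hV, fun z hz w hw => ?_⟩
  have h2 : (c' w).2 < (c' z).2 ↔ (G.revC c (p w)).2 < (G.revC c (p z)).2 := h1 w hw z hz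
  rw [G.revC_snd, G.revC_snd, neg_lt_neg_iff] at h2
  show (G.revC c' z).2 < (G.revC c' w).2 ↔ (c (p z)).2 < (c (p w)).2
  rw [G.revC_snd, G.revC_snd, neg_lt_neg_iff]
  exact h2

/-- rotation of the new ends by a half turn -/
theorem HI_rot {T₁ T₂ : G.Ended M' (J ⊕ Λ)} {F' : Foliation M'} {x y : J ⊕ Λ → ℝ}
    (h1 : ∀ j w, T₂.tor (Sum.inl j) w = T₁.tor (Sum.inl j) w)
    (h2 : ∀ k θ r t, T₂.tor (Sum.inr k) (θ, r, t) =
      T₁.tor (Sum.inr k) (θ, r, t + ((1 / 2 : ℝ) : AddCircle (1 : ℝ))))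
    (h : G.Linear T₂ F' x y) : G.Linear T₁ F' x y := by
  rintro (j | k) z hz c hc hs
  · have e : T₁.cov (Sum.inl j) = T₂.cov (Sum.inl j) := by
      funext w
      exact (h1 j _).symm
    rw [e] at hs ⊢
    exact h (Sum.inl j) z hz c hc hs
  · let R : ℝ × Ioo (1 : ℝ) 2 × ℝ → ℝ × Ioo (1 : ℝ) 2 × ℝ :=
      fun w => (w.1, w.2.1, w.2.2 - 1 / 2)
    have hR : Continuous R := by fun_prop
    have e : ∀ w, T₁.cov (Sum.inr k) w = T₂.cov (Sum.inr k) (R w) := by
      intro w
      show T₁.tor (Sum.inr k) ((w.1 : AddCircle (1 : ℝ)), w.2.1, (w.2.2 : AddCircle (1 : ℝ))) =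
        T₂.tor (Sum.inr k) ((w.1 : AddCircle (1 : ℝ)), w.2.1,
          ((w.2.2 - 1 / 2 : ℝ) : AddCircle (1 : ℝ)))
      rw [h2, ← AddCircle.coe_add, sub_add_cancel]
    have hs' : T₂.cov (Sum.inr k) (R z) ∈ c.source := by
      rw [← e]
      exact hs
    have h3 := OrdEq.comp_cont (z₀ := z) (R := R) hR.continuousAt
      (h (Sum.inr k) (R z) hz c hc hs')
    refine (h3.congr (Eventually.of_forall fun w => ?_)
      (Eventually.of_forall fun w => rfl)).trans ?_
    · show (c (T₁.cov (Sum.inr k) w)).2 = (c (T₂.cov (Sum.inr k) (R w))).2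
      rw [e]
    · refine OrdEq.symm (OrdEq.of_comp (fun v => v - y (Sum.inr k) / 2)
        (fun a b hab => sub_lt_sub_right hab _) (Eventually.of_forall fun w => ?_)) |>.symm.symm
      show x (Sum.inr k) * w.1 + y (Sum.inr k) * (w.2.2 - 1 / 2) =
        x (Sum.inr k) * w.1 + y (Sum.inr k) * w.2.2 - y (Sum.inr k) / 2
      ring

/-- The other side. By `drill_flip` and `drill_normal` for the foliation `revF F` (`Sys` with
`N k = mvN (flipN (N k)) (σ k)`), then reverse the co-orientation, and rotate the new ends back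
(`t ↦ t + 1/2` changes the linear functions by constants). -/
theorem drill_up (hF : F.Taut) {x y : J → ℝ} (hlin : G.Linear T F x y) {N : Λ → Cyl → M}
    (hemb : ∀ k, IsOpenEmbedding (N k))
    {P : Λ → ℝ} (hN : ∀ k, TubeL (G.revF F) (flipN (N k)) (P k))
    (hd : ∀ k l z w, N k z = N l w → k = l)
    (hend : ∀ k z j w, N k z ≠ T.tor j w) (D : Drill T N T') (x' y' : Λ → ℝ)
    (hx : ∀ k, P k * x' k < 0) :
    ∃ F' : Foliation M', F'.Taut ∧ G.Linear T' F' (Sum.elim x x') (Sum.elim y y') ∧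
      ∀ x, (∀ k z, D.p x ≠ N k z) → AgreeAt D.p F' F x := by
  choose σ g hσc hσm htube using fun k => (hN k).tube
  obtain ⟨T2, D2, hold, hnew, hD2⟩ := drill_flip hemb hd hend D hσc hσm
  have hfl : ∀ x, (∀ k z, D.p x ≠ flipN (N k) z) → ∀ k z, D.p x ≠ N k z := by
    intro x h1 k z h2
    refine h1 k (z.1, (-z.2.1, -z.2.2)) ?_
    show D.p x = N k (z.1, (- -z.2.1, - -z.2.2))
    rw [neg_neg, neg_neg]
    exact h2
  obtain ⟨F1, hF1, hlin1, hag⟩ := HI_core (G.revF_taut hF) (linear_rev hlin)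
    (fun k => (hN k).P_ne) htube (fun k l z w h => hd _ _ _ _ h)
    (fun k z j w => hend _ _ _ _) D2 (fun x h1 => hD2 x (hfl x h1)) (fun k => -x' k)
    (fun k => -y' k) (fun k => by
      have := hx k
      rw [mul_neg]
      linarith)
  refine ⟨G.revF F1, G.revF_taut hF1, HI_rot hold hnew ?_, fun x h1 => ?_⟩
  · have h2 := HI_lrev hlin1
    have e1 : (fun j => -(Sum.elim (fun j => -x j) (fun k => -x' k) : J ⊕ Λ → ℝ) j) =
        Sum.elim x x' := by
      funext j
      rcases j with j | k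
      · exact neg_neg _
      · exact neg_neg _
    have e2 : (fun j => -(Sum.elim (fun j => -y j) (fun k => -y' k) : J ⊕ Λ → ℝ) j) =
        Sum.elim y y' := by
      funext j
      rcases j with j | k
      · exact neg_neg _
      · exact neg_neg _
    rw [e1, e2] at h2
    exact h2
  · exact agree_rev (hag x fun k z => h1 k (z.1, (-z.2.1, -z.2.2)))

end Pool.Agent.H.MP_1611f1_gt.LS
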