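import Pool.Agent.H.MP_1611f1_gt.LS.HA
import Pool.Agent.H.MP_1611f1_gt.LS.IsoC

/-!
Transfer of normal forms along an open embedding.
-/

namespace Pool.Agent.H.MP_1611f1_gt.LS

open Topology Set Filter

variable {M M' : Type*} [TopologicalSpace M] [TopologicalSpace M'] {F : Foliation M}
  {F' : Foliation M'} {p : M' → M} {N : Cyl → M'}

theorem agree_rev2 {x : M'} (h : AgreeAt p F' F x) : AgreeAt p (G.revF F') (G.revF F) x := by
  rintro _ ⟨c', hc', rfl⟩ _ ⟨c, hc, rfl⟩ hx hpx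
  obtain ⟨V, hV, h1⟩ := h c' hc' c hc hx hpx
  refine ⟨V, hV, fun z hz z' hz' => ?_⟩
  show (G.revC c' z).2 < (G.revC c' z').2 ↔ (G.revC c (p z)).2 < (G.revC c (p z')).2
  rw [G.revC_snd, G.revC_snd, G.revC_snd, G.revC_snd, neg_lt_neg_iff, neg_lt_neg_iff]
  exact h1 z' hz' z hz

/-- the charts in the coordinates of the universal cover -/
theorem HJ_agree (hN : IsOpenEmbedding N) (hag : ∀ z, AgreeAt p F' F (N z)) (z : Cov)
    {c' : OpenPartialHomeomorph M' ((ℝ × ℝ) × ℝ)} (hc' : c' ∈ F'.charts)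
    (hs' : rc N z ∈ c'.source) {d : OpenPartialHomeomorph M ((ℝ × ℝ) × ℝ)} (hd : d ∈ F.charts)
    (hds : p (rc N z) ∈ d.source) :
    OrdEq z (fun w => (c' (rc N w)).2) (fun w => (d (p (rc N w))).2) :=
  OrdEq.comp_cont (rc_cont hN).continuousAt (hag ((z.1 : AddCircle (1 : ℝ)), z.2) c' hc' d hd hs' hds)

theorem Tube.pull (hp : IsOpenEmbedding p) (hN : IsOpenEmbedding N) {P : ℝ} {g : ℝ → ℝ}
    (hag : ∀ z, AgreeAt p F' F (N z)) (h : Tube F (fun z => p (N z)) P g) :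
    Tube F' N P g := by
  refine ⟨hN, h.g_cont, h.g_mono, h.g_lim, fun z hz c' hc' hs' => ?_,
    fun z hz c' hc' hs' => ?_⟩
  · obtain ⟨d, hd, hds⟩ := F.cover (p (rc N z))
    exact (HJ_agree hN hag z hc' hs' hd hds).trans (h.below z hz d hd hds)
  · obtain ⟨d, hd, hds⟩ := F.cover (p (rc N z))
    obtain ⟨V, hV, h1, h2, h3⟩ := h.zero z hz d hd hds
    obtain ⟨V', hV', h4⟩ := HJ_agree hN hag z hc' hs' hd hds
    have hz' : z ∈ V' := mem_of_mem_nhds hV'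
    refine ⟨V ∩ V', inter_mem hV hV', fun w hw w' hw' hn hn' => ?_, fun w hw hw0 => ?_,
      fun w hw w' hw' e1 e2 hlt => ?_⟩
    · exact (h4 w hw.2 w' hw'.2).trans (h1 w hw.1 w' hw'.1 hn hn')
    · have e : (d (p (rc N w))).2 = (d (p (rc N z))).2 := h2 w hw.1 hw0
      refine le_antisymm (not_lt.1 fun k => ?_) (not_lt.1 fun k => ?_)
      · exact ((h4 z hz' w hw.2).1 k).ne' e
      · exact ((h4 w hw.2 z hz').1 k).ne e
    · exact (h4 w hw.2 w' hw'.2).2 (h3 w hw.1 w' hw'.1 e1 e2 hlt)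

theorem TubeL.pull (hp : IsOpenEmbedding p) (hN : IsOpenEmbedding N) {P : ℝ}
    (hag : ∀ z, AgreeAt p F' F (N z)) (h : TubeL F (fun z => p (N z)) P) : TubeL F' N P := by
  obtain ⟨-, hP, σ, g, hσ, hm, hT⟩ := h
  have hemb : IsOpenEmbedding (mvN N σ) := hN.comp (cyl_emb hσ hm)
  exact ⟨hN, hP, σ, g, hσ, hm, Tube.pull (N := mvN N σ) hp hemb (fun z => hag _) hT⟩

theorem TubeL.pull_flip (hp : IsOpenEmbedding p) (hN : IsOpenEmbedding N) {P : ℝ}
    (hag : ∀ z, AgreeAt p F' F (N z))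
    (h : TubeL (G.revF F) (flipN fun z => p (N z)) P) : TubeL (G.revF F') (flipN N) P :=
  TubeL.pull (F := G.revF F) (F' := G.revF F') (N := flipN N) hp (flip_emb hN)
    (fun z => agree_rev2 (hag _)) h

end Pool.Agent.H.MP_1611f1_gt.LS
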