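import Pool.Agent.H.MP_1611f1_gt.LS.HE
import Pool.Agent.H.MP_1611f1_gt.LS.HI
import Pool.Agent.H.MP_1611f1_gt.LS.HJ
import Pool.Agent.H.MP_1611f1_gt.LS.SurgA

/-!
The drilling theorem for curves with non-trivial holonomy.
-/

namespace Pool.Agent.H.MP_1611f1_gt.LS

open Topology Set Filter

/-- drilling in two stages: first the curves with the property `q`, then the others -/
theorem drill_split {M M' : Type*} [TopologicalSpace M] [T2Space M] [TopologicalSpace M']
    {J Λ : Type*} [Finite Λ] {T : G.Ended M J} {T' : G.Ended M' (J ⊕ Λ)} {N : Λ → Cyl → M}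
    (hN : ∀ k, IsOpenEmbedding (N k)) (hd : ∀ k l z w, N k z = N l w → k = l)
    (hend : ∀ k z j w, N k z ≠ T.tor j w) (D : Drill T N T') (q : Λ → Prop) :
    ∃ (T₁ : G.Ended {y : M // ∀ k : {k // q k}, y ∉ N k.1 '' KK} (J ⊕ {k // q k}))
      (D₁ : Drill T (fun k : {k // q k} => N k.1) T₁)
      (N₂ : {k // ¬q k} → Cyl → {y : M // ∀ k : {k // q k}, y ∉ N k.1 '' KK})
      (T₂ : G.Ended M' ((J ⊕ {k // q k}) ⊕ {k // ¬q k})) (D₂ : Drill T₁ N₂ T₂),
      D₁.p = Subtype.val ∧ (∀ k, IsOpenEmbedding (N₂ k)) ∧ (∀ k z, (N₂ k z).1 = N k.1 z) ∧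
      (∀ x, (D₂.p x).1 = D.p x) ∧ (∀ k z j w, N₂ k z ≠ T₁.tor j w) ∧
      (∀ j w, T₂.tor (Sum.inl (Sum.inl j)) w = T'.tor (Sum.inl j) w) ∧
      (∀ k w, T₂.tor (Sum.inl (Sum.inr k)) w = T'.tor (Sum.inr k.1) w) ∧
      ∀ k w, T₂.tor (Sum.inr k) w = T'.tor (Sum.inr k.1) w := by
  obtain ⟨T₁, D₁, hD₁⟩ := exists_drill T (N := fun k : {k // q k} => N k.1) (fun k => hN k.1)
    (fun k l z w h => Subtype.ext (hd _ _ _ _ h)) (fun k z j w => hend k.1 z j w)
  have hval : IsOpenEmbedding (Subtype.val : {y : M // ∀ k : {k // q k}, y ∉ N k.1 '' KK} → M) := by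
    have h := D₁.emb
    rw [hD₁] at h
    exact h
  have hmem : ∀ (k : {k // ¬q k}) (z : Cyl) (l : {k // q k}), N k.1 z ∉ N l.1 '' KK := by
    rintro k z l ⟨w, -, h⟩
    have h1 : l.1 = k.1 := hd _ _ _ _ h
    exact k.2 (h1 ▸ l.2)
  let N₂ : {k // ¬q k} → Cyl → {y : M // ∀ k : {k // q k}, y ∉ N k.1 '' KK} :=
    fun k z => ⟨N k.1 z, hmem k z⟩
  have hN₂ : ∀ k, IsOpenEmbedding (N₂ k) := fun k =>
    IsOpenEmbedding.of_comp (N₂ k) hval (hN k.1)
  -- the ends
  let ι : (J ⊕ {k // q k}) ⊕ {k // ¬q k} → J ⊕ Λ :=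
    Sum.elim (Sum.elim Sum.inl fun k => Sum.inr k.1) fun k => Sum.inr k.1
  have hι : Function.Injective ι := by
    rintro ((j | k) | k) ((j' | k') | k') h
    · have h' : j = j' := Sum.inl_injective h
      rw [h']
    · exact absurd h (by simp [ι])
    · exact absurd h (by simp [ι])
    · exact absurd h (by simp [ι])
    · have h' : k = k' := Subtype.ext (Sum.inr_injective h)
      rw [h']
    · have h' : k.1 = k'.1 := Sum.inr_injective h
      exact absurd (h' ▸ k.2) k'.2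
    · exact absurd h (by simp [ι])
    · have h' : k.1 = k'.1 := Sum.inr_injective h
      exact absurd (h'.symm ▸ k'.2) k.2
    · have h' : k = k' := Subtype.ext (Sum.inr_injective h)
      rw [h']
  let T₂ : G.Ended M' ((J ⊕ {k // q k}) ⊕ {k // ¬q k}) :=
    ⟨fun e => T'.tor (ι e), fun e => T'.emb (ι e), fun e e' z w h => hι (T'.disj _ _ _ _ h)⟩
  have hp : ∀ x, ∀ k : {k // q k}, D.p x ∉ N k.1 '' KK := fun x k =>
    (D.range_iff (D.p x)).1 (mem_range_self x) k.1
  let p₂ : M' → {y : M // ∀ k : {k // q k}, y ∉ N k.1 '' KK} := fun x => ⟨D.p x, hp x⟩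
  have hold₁ : ∀ j w, (T₁.tor (Sum.inl j) w).1 = T.tor j w := by
    intro j w
    have h := D₁.old j w
    rw [hD₁] at h
    exact h
  have hnew₁ : ∀ (k : {k // q k}) (θ : AddCircle (1 : ℝ)) (r : Ioo (1 : ℝ) 2) (t : ℝ),
      (T₁.tor (Sum.inr k) (θ, r, (t : AddCircle (1 : ℝ)))).1 =
        N k.1 (θ, ((r : ℝ) * Real.cos (2 * Real.pi * t),
          -4 + (r : ℝ) * Real.sin (2 * Real.pi * t))) := by
    intro k θ r t
    have h := D₁.new k θ r t
    rw [hD₁] at h
    exact h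
  let D₂ : Drill T₁ N₂ T₂ :=
    { p := p₂
      emb := IsOpenEmbedding.of_comp p₂ hval D.emb
      range_iff := by
        intro x
        constructor
        · rintro ⟨y, rfl⟩ k ⟨z, hz, h⟩
          exact (D.range_iff (D.p y)).1 (mem_range_self y) k.1 ⟨z, hz, congrArg Subtype.val h⟩
        · intro h
          have h1 : ∀ k, x.1 ∉ N k '' KK := by
            intro k
            by_cases hk : q k
            · exact x.2 ⟨k, hk⟩
            · rintro ⟨z, hz, hzx⟩
              exact h ⟨k, hk⟩ ⟨z, hz, Subtype.ext hzx⟩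
          obtain ⟨y, hy⟩ := (D.range_iff x.1).2 h1
          exact ⟨y, Subtype.ext hy⟩
      old := by
        rintro (j | k) w
        · refine Subtype.ext ?_
          rw [hold₁]
          exact D.old j w
        · refine Subtype.ext ?_
          obtain ⟨θ, r, t⟩ := w
          obtain ⟨t, rfl⟩ := QuotientAddGroup.mk_surjective t
          exact (D.new k.1 θ r t).trans (hnew₁ k θ r t).symm
      new := fun k θ r t => Subtype.ext (D.new k.1 θ r t) }
  refine ⟨T₁, D₁, N₂, T₂, D₂, hD₁, hN₂, fun k z => rfl, fun x => rfl, ?_, fun j w => rfl,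
    fun k w => rfl, fun k w => rfl⟩
  rintro k z (j | l) w h
  · have h1 : N k.1 z = (T₁.tor (Sum.inl j) w).1 := congrArg Subtype.val h
    rw [hold₁] at h1
    exact hend k.1 z j w h1
  · have h1 : N k.1 z = (T₁.tor (Sum.inr l) w).1 := congrArg Subtype.val h
    obtain ⟨θ, r, t⟩ := w
    obtain ⟨t, rfl⟩ := QuotientAddGroup.mk_surjective t
    have h2 := h1.trans (hnew₁ l θ r t)
    have h3 : k.1 = l.1 := hd _ _ _ _ h2
    exact k.2 (h3 ▸ l.2)

theorem agree_comp {M M₁ M' : Type*} [TopologicalSpace M] [TopologicalSpace M₁]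
    [TopologicalSpace M'] {p₁ : M₁ → M} {p₂ : M' → M₁} {F : Foliation M} {F₁ : Foliation M₁}
    {F' : Foliation M'} (h2 : Continuous p₂) {x : M'} (h : AgreeAt p₂ F' F₁ x)
    (h' : AgreeAt p₁ F₁ F (p₂ x)) : AgreeAt (fun z => p₁ (p₂ z)) F' F x := by
  intro c' hc' c hc hs' hs
  obtain ⟨c₁, hc₁, hs₁⟩ := F₁.cover (p₂ x)
  have e1 := h c' hc' c₁ hc₁ hs' hs₁
  have e2 := h' c₁ hc₁ c hc hs₁ hs
  exact e1.trans (OrdEq.comp_cont (R := p₂) h2.continuousAt e2)

/-- linearity at an end which is parametrized in the same way -/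
theorem HK_lin {M' E E' : Type*} [TopologicalSpace M'] {T₂ : G.Ended M' E} {T' : G.Ended M' E'}
    {F' : Foliation M'} {a b : E → ℝ} (h : G.Linear T₂ F' a b) {e : E} {e' : E'}
    (he : ∀ w, T₂.tor e w = T'.tor e' w) (z : ℝ × Ioo (1 : ℝ) 2 × ℝ) (hz : (z.2.1 : ℝ) < 4 / 3)
    (c : OpenPartialHomeomorph M' ((ℝ × ℝ) × ℝ)) (hc : c ∈ F'.charts)
    (hs : T'.cov e' z ∈ c.source) :
    OrdEq z (fun w => (c (T'.cov e' w)).2) (fun w => a e * w.1 + b e * w.2.2) := by
  have h1 : ∀ w, T₂.cov e w = T'.cov e' w := fun w => he _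
  have h2 := h e z hz c hc (by rw [h1]; exact hs)
  exact h2.congr (Eventually.of_forall fun w => by rw [h1]) (Eventually.of_forall fun _ => rfl)

/-- **The drilling theorem for curves with non-trivial holonomy.** First drill the curves where
the normal form is on the lower side (`drill_low`), then the others (`drill_up`, for the foliation
of the first stage; `TubeL.pull_flip`). -/
theorem drill_hol {M M' : Type*} [TopologicalSpace M] [T2Space M] [TopologicalSpace M']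
    {J Λ : Type*} [Finite Λ] {T : G.Ended M J} {T' : G.Ended M' (J ⊕ Λ)} {F : Foliation M}
    (hF : F.Taut) {x y : J → ℝ} (hlin : G.Linear T F x y) {N : Λ → Cyl → M}
    (hN : ∀ k, HolCurve F (N k)) (hd : ∀ k l z w, N k z = N l w → k = l)
    (hend : ∀ k z j w, N k z ≠ T.tor j w) (D : Drill T N T') :
    ∃ κ : Λ → ℝ, (∀ k, κ k ≠ 0) ∧ ∀ x' y' : Λ → ℝ, (∀ k, 0 < κ k * x' k) →
      ∃ F' : Foliation M', F'.Taut ∧ G.Linear T' F' (Sum.elim x x') (Sum.elim y y') ∧
        ∀ x, (∀ k z, D.p x ≠ N k z) → AgreeAt D.p F' F x := by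
  classical
  choose P hP using fun k => hol_tube (hN k)
  have hP0 : ∀ k, P k ≠ 0 := fun k => (hP k).elim (fun h => h.P_ne) fun h => h.P_ne
  refine ⟨fun k => if TubeL F (N k) (P k) then P k else -P k, fun k => ?_, ?_⟩
  · show (if TubeL F (N k) (P k) then P k else -P k) ≠ 0
    split_ifs with h
    · exact hP0 k
    · exact neg_ne_zero.2 (hP0 k)
  intro x' y' hκ
  obtain ⟨T₁, D₁, N₂, T₂, D₂, hD₁, hN₂, hv, hp, hend₂, t1, t2, t3⟩ :=
    drill_split (fun k => (hN k).emb) hd hend D fun k => TubeL F (N k) (P k)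
  obtain ⟨F₁, hF₁, hlin₁, hag₁⟩ := drill_low hF hlin
    (N := fun k : {k // TubeL F (N k) (P k)} => N k.1) (P := fun k => P k.1) (fun k => k.2)
    (fun k l z w h => Subtype.ext (hd _ _ _ _ h)) (fun k z j w => hend k.1 z j w) D₁
    (fun k => x' k.1) (fun k => y' k.1) (fun k => by
      have h : 0 < (if TubeL F (N k.1) (P k.1) then P k.1 else -P k.1) * x' k.1 := hκ k.1
      rw [if_pos k.2] at h
      exact h)
  have hpv : ∀ y, D₁.p y = y.1 := fun y => by rw [hD₁]
  have hpN : ∀ k, (fun z => D₁.p (N₂ k z)) = N k.1 := fun k => by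
    funext z
    rw [hpv, hv]
  have hag : ∀ (k : {k // ¬TubeL F (N k) (P k)}) (z : Cyl), AgreeAt D₁.p F₁ F (N₂ k z) := by
    intro k z
    refine hag₁ _ fun l w h => ?_
    rw [hpv, hv] at h
    have h1 : k.1 = l.1 := hd _ _ _ _ h
    exact k.2 (h1 ▸ l.2)
  obtain ⟨F', hF', hlin', hag₂⟩ := drill_up hF₁ hlin₁ (N := N₂) hN₂ (P := fun k => P k.1)
    (fun k => TubeL.pull_flip D₁.emb (hN₂ k) (hag k) (by
      rw [hpN k]
      exact (hP k.1).resolve_left k.2))
    (fun k l z w h => Subtype.ext (hd k.1 l.1 z w (by rw [← hv, ← hv, h]))) hend₂ D₂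
    (fun k => x' k.1) (fun k => y' k.1) (fun k => by
      have h : 0 < (if TubeL F (N k.1) (P k.1) then P k.1 else -P k.1) * x' k.1 := hκ k.1
      rw [if_neg k.2] at h
      linarith)
  refine ⟨F', hF', ?_, ?_⟩
  · rintro (j | k) z hz c hc hs
    · exact HK_lin hlin' (e := Sum.inl (Sum.inl j)) (t1 j) z hz c hc hs
    · by_cases hk : TubeL F (N k) (P k)
      · exact HK_lin hlin' (e := Sum.inl (Sum.inr ⟨k, hk⟩)) (t2 ⟨k, hk⟩) z hz c hc hs
      · exact HK_lin hlin' (e := Sum.inr ⟨k, hk⟩) (t3 ⟨k, hk⟩) z hz c hc hs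
  · intro x₀ hx₀
    have h1 : AgreeAt D₂.p F' F₁ x₀ := hag₂ x₀ fun k z h => by
      refine hx₀ k.1 z ?_
      rw [← hp, h, hv]
    have h2 : AgreeAt D₁.p F₁ F (D₂.p x₀) := hag₁ _ fun k z h => by
      rw [hpv, hp] at h
      exact hx₀ k.1 z h
    have h3 := agree_comp D₂.emb.continuous h1 h2
    have h4 : (fun z => D₁.p (D₂.p z)) = D.p := by
      funext z
      rw [hpv, hp]
    rw [h4] at h3
    exact h3

end Pool.Agent.H.MP_1611f1_gt.LS
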