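import Pool.Agent.H.MP_1611f1_gt.G.Ended
import Pool.Agent.H.MP_1611f1_gt.TauA

/-!
Leaf surgery: definitions.

`N : Cyl → M` is an open embedding of (circle) × (plane), with the coordinates `(θ, (u, s))`;
`s = 0` lies in a leaf. The solid torus which is removed is `u ^ 2 + (s + 4) ^ 2 ≤ 1`.
-/

namespace Pool.Agent.H.MP_1611f1_gt.LS

open Topology Set Filter

/-- the neighbourhood of a leaf curve: coordinates `(θ, (u, s))` -/
abbrev Cyl := AddCircle (1 : ℝ) × (ℝ × ℝ)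

/-- its universal cover -/
abbrev Cov := ℝ × (ℝ × ℝ)

/-- polar coordinates `(θ, r, t)` around the core of the solid torus, on the universal cover -/
abbrev Plr := ℝ × Ioo (1 : ℝ) 2 × ℝ

/-- the coordinates of the universal cover -/
def rc {M : Type*} (N : Cyl → M) (z : Cov) : M := N ((z.1 : AddCircle (1 : ℝ)), z.2)

/-- the square of the distance from the core `(0, -4)` -/
def rr (z : ℝ × ℝ) : ℝ := z.1 ^ 2 + (z.2 + 4) ^ 2

/-- the solid torus which is removed -/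
def KK : Set Cyl := {z | rr z.2 ≤ 1}

/-- polar coordinates -/
noncomputable def pol (z : Plr) : Cov :=
  (z.1, ((z.2.1 : ℝ) * Real.cos (2 * Real.pi * z.2.2),
    -4 + (z.2.1 : ℝ) * Real.sin (2 * Real.pi * z.2.2)))

section

variable {M : Type*} [TopologicalSpace M]

/-- a set of charts with compatible orders of the last coordinate -/
structure PreFol (M : Type*) [TopologicalSpace M] where
  charts : Set (OpenPartialHomeomorph M ((ℝ × ℝ) × ℝ))
  compat : ∀ c ∈ charts, ∀ c' ∈ charts, ∀ y : M, y ∈ c.source → y ∈ c'.source →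
    OrdEq y (fun z => (c z).2) (fun z => (c' z).2)

/-- the underlying set of charts of a foliation -/
def _root_.Pool.Agent.H.MP_1611f1_gt.Foliation.pre (F : Foliation M) : PreFol M where
  charts := F.charts
  compat := F.compat

/-- the domain -/
def PreFol.dom (G : PreFol M) : Set M := {y | ∃ c ∈ G.charts, y ∈ c.source}

/-- `γ` is positively transverse on the interval `[a, b]` -/
def PreFol.Pos (G : PreFol M) (γ : ℝ → M) (a b : ℝ) : Prop :=
  ContinuousOn γ (Icc a b) ∧ ∀ t ∈ Icc a b, ∃ c ∈ G.charts, γ t ∈ c.source ∧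
    ∃ ε > 0, StrictMonoOn (fun t' => (c (γ t')).2) (Icc a b ∩ Ioo (t - ε) (t + ε))

/-- there is a positively transverse path from `x` to `y` -/
def PreFol.Up (G : PreFol M) (x y : M) : Prop :=
  ∃ γ : ℝ → M, G.Pos γ 0 1 ∧ γ 0 = x ∧ γ 1 = y

/-- the ramp: `1` for `u ≤ -1`, `0` for `u ≥ 1` -/
noncomputable def ramp (u : ℝ) : ℝ := max 0 (min 1 ((1 - u) / 2))

/-- the cut-off: `0` for `r ≤ 4/3`, `1` for `r ≥ 5/3` -/
noncomputable def cut (r : ℝ) : ℝ := max 0 (min 1 (3 * r - 4))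

/-- the part where the foliation is changed: the wall above the solid torus, and the collar -/
def Wall : Set (ℝ × ℝ) := {z | (|z.1| ≤ 1 ∧ -4 ≤ z.2 ∧ z.2 ≤ 0) ∨ rr z ≤ 25 / 9}

/-- the lift of the circle valued function which increases from `0` to `1` across the wall -/
noncomputable def zet (r t : ℝ) : ℝ :=
  ⌊t⌋ + (if Int.fract t ≤ 1 / 2 then ramp (r * Real.cos (2 * Real.pi * t)) else 1)

/-- the new transverse function above the solid torus -/
noncomputable def H1 (P : ℝ) (g : ℝ → ℝ) (m : ℝ) (z : Cov) : ℝ :=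
  P * z.1 + g z.2.2 + m * ramp z.2.1

/-- the new transverse function in the collar -/
noncomputable def Hc (P : ℝ) (g : ℝ → ℝ) (m : ℝ) (z : Plr) : ℝ :=
  P * z.1 + m * z.2.2 + cut z.2.1 *
    (g (-4 + (z.2.1 : ℝ) * Real.sin (2 * Real.pi * z.2.2)) + m * (zet z.2.1 z.2.2 - z.2.2))

/-- the normal form of the foliation `F` near a leaf curve: below the leaf (`s < 0`) it is
`P θ + g s = const` -/
structure Tube (F : Foliation M) (N : Cyl → M) (P : ℝ) (g : ℝ → ℝ) : Prop where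
  emb : IsOpenEmbedding N
  g_cont : ContinuousOn g (Iio 0)
  g_mono : StrictMonoOn g (Iio 0)
  g_lim : Tendsto g (𝓝[<] 0) atTop
  below : ∀ z : Cov, z.2.2 < 0 → ∀ c ∈ F.charts, rc N z ∈ c.source →
    OrdEq z (fun w => (c (rc N w)).2) (fun w => P * w.1 + g w.2.2)
  zero : ∀ z : Cov, z.2.2 = 0 → ∀ c ∈ F.charts, rc N z ∈ c.source → ∃ V ∈ 𝓝 z,
    (∀ w ∈ V, ∀ w' ∈ V, w.2.2 < 0 → w'.2.2 < 0 →
      ((c (rc N w)).2 < (c (rc N w')).2 ↔ P * w.1 + g w.2.2 < P * w'.1 + g w'.2.2)) ∧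
    (∀ w ∈ V, w.2.2 = 0 → (c (rc N w)).2 = (c (rc N z)).2) ∧
    (∀ w ∈ V, ∀ w' ∈ V, w.1 = w'.1 → w.2.1 = w'.2.1 → w.2.2 < w'.2.2 →
      (c (rc N w)).2 < (c (rc N w')).2)

/-- a family of leaf curves in normal form, with real numbers `m k` (the slopes) -/
structure Sys (F : Foliation M) (Λ : Type*) where
  N : Λ → Cyl → M
  P : Λ → ℝ
  g : Λ → ℝ → ℝ
  m : Λ → ℝ
  tube : ∀ k, Tube F (N k) (P k) (g k)
  P_ne : ∀ k, P k ≠ 0
  disj : ∀ k l z w, N k z = N l w → k = l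

variable {F : Foliation M} {Λ : Type*} (X : Sys F Λ)

/-- the complement of the solid tori -/
def Sys.Om : Set M := {y | ∀ k, y ∉ X.N k '' KK}

/-- the part where the foliation is changed -/
def Sys.WW (k : Λ) : Set M := X.N k '' {z | z.2 ∈ Wall}

/-- the new transverse function near the leaf `s = 0`, near the point `z` -/
noncomputable def Sys.Mx (k : Λ) (c : OpenPartialHomeomorph M ((ℝ × ℝ) × ℝ)) (z w : Cov) : ℝ :=
  if 0 ≤ w.2.2 then (c (rc (X.N k) w)).2 - (c (rc (X.N k) z)).2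
  else -Real.exp (-(H1 (X.P k) (X.g k) (X.m k) w))

/-- `f` is a transverse function of the new foliation near `y` -/
structure Sys.Adapted (y : M) (f : M → ℝ) : Prop where
  out : (∀ k, y ∉ X.WW k) → ∀ c ∈ F.charts, y ∈ c.source → OrdEq y f (fun z => (c z).2)
  wall : ∀ k z, rc (X.N k) z = y → |z.2.1| ≤ 1 → -4 < z.2.2 → z.2.2 < 0 → 25 / 9 < rr z.2 →
    OrdEq z (fun w => f (rc (X.N k) w)) (H1 (X.P k) (X.g k) (X.m k))
  collar : ∀ k (z : Plr), (z.2.1 : ℝ) ≤ 5 / 3 → rc (X.N k) (pol z) = y →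
    OrdEq z (fun w => f (rc (X.N k) (pol w))) (Hc (X.P k) (X.g k) (X.m k))
  top : ∀ k z, rc (X.N k) z = y → |z.2.1| ≤ 1 → z.2.2 = 0 → ∀ c ∈ F.charts, y ∈ c.source →
    OrdEq z (fun w => f (rc (X.N k) w)) (X.Mx k c z)

end

/-- `M'` is obtained from `M` by removing the solid tori `N k '' KK`; the new toral ends are
parametrized by `(θ, r, t) ↦ (θ, r cos 2πt, -4 + r sin 2πt)` -/
structure Drill {M : Type*} [TopologicalSpace M] {J : Type*} (T : G.Ended M J) {Λ : Type*}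
    (N : Λ → Cyl → M) {M' : Type*} [TopologicalSpace M'] (T' : G.Ended M' (J ⊕ Λ)) where
  p : M' → M
  emb : IsOpenEmbedding p
  range_iff : ∀ x, x ∈ range p ↔ ∀ k, x ∉ N k '' KK
  old : ∀ j w, p (T'.tor (Sum.inl j) w) = T.tor j w
  new : ∀ k (θ : AddCircle (1 : ℝ)) (r : Ioo (1 : ℝ) 2) (t : ℝ),
    p (T'.tor (Sum.inr k) (θ, r, (t : AddCircle (1 : ℝ)))) =
      N k (θ, ((r : ℝ) * Real.cos (2 * Real.pi * t), -4 + (r : ℝ) * Real.sin (2 * Real.pi * t)))

/-- the foliations `F'` and `F` correspond to each other under `p` near the point `x` -/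
def AgreeAt {M M' : Type*} [TopologicalSpace M] [TopologicalSpace M'] (p : M' → M)
    (F' : Foliation M') (F : Foliation M) (x : M') : Prop :=
  ∀ c' ∈ F'.charts, ∀ c ∈ F.charts, x ∈ c'.source → p x ∈ c.source →
    OrdEq x (fun z => (c' z).2) (fun z => (c (p z)).2)

/-- A leaf curve of `F` with its neighbourhood `N`: `s = 0` is in a leaf, and on the side `s < 0`
the holonomy along the curve has no fixed points near the curve: there the foliation is given
by a function `Γ (θ, s)` of the universal cover which tends to infinity at the leaf and which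
changes by the constant `P` along the curve. -/
structure LeafCurve {M : Type*} [TopologicalSpace M] (F : Foliation M) (N : Cyl → M) (P : ℝ) :
    Prop where
  emb : IsOpenEmbedding N
  hol : ∃ (δ : ℝ) (Γ : ℝ × ℝ → ℝ), 0 < δ ∧ ContinuousOn Γ (univ ×ˢ Ioo (-δ) 0) ∧
    (∀ θ, StrictMonoOn (fun s => Γ (θ, s)) (Ioo (-δ) 0)) ∧
    (∀ θ, Tendsto (fun s => Γ (θ, s)) (𝓝[<] 0) atTop) ∧
    (∀ θ, ∀ s ∈ Ioo (-δ) 0, Γ (θ + 1, s) = Γ (θ, s) + P) ∧
    ∀ z : Cov, z.2.2 ∈ Ioo (-δ) 0 → ∀ c ∈ F.charts, rc N z ∈ c.source →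
      OrdEq z (fun w => (c (rc N w)).2) (fun w => Γ (w.1, w.2.2))
  level : ∀ z : Cov, z.2.2 = 0 → ∀ c ∈ F.charts, rc N z ∈ c.source →
    ∀ᶠ w in 𝓝 z, w.2.2 = 0 → (c (rc N w)).2 = (c (rc N z)).2
  incr : ∀ z : Cov, z.2.2 = 0 → ∀ c ∈ F.charts, rc N z ∈ c.source → ∃ V ∈ 𝓝 z,
    ∀ w ∈ V, ∀ w' ∈ V, w.1 = w'.1 → w.2.1 = w'.2.1 → w.2.2 < w'.2.2 →
      (c (rc N w)).2 < (c (rc N w')).2

end Pool.Agent.H.MP_1611f1_gt.LS
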