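import Pool.Agent.H.MP_1611f1_gt.LS.UpA

/-!
Foliations on open subsets.
-/

namespace Pool.Agent.H.MP_1611f1_gt.LS

open Topology Set Filter

variable {M M' : Type*} [TopologicalSpace M] [TopologicalSpace M']

/-- the charts induced on the source of an open embedding -/
def pullCharts (p : M' → M) (G : PreFol M) : Set (OpenPartialHomeomorph M' ((ℝ × ℝ) × ℝ)) :=
  {c' | ∃ c ∈ G.charts, c'.source = p ⁻¹' c.source ∧ ∀ x ∈ c'.source, (c' x).2 = (c (p x)).2}

/-- every chart of `G` gives a chart of `M'` -/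
theorem UpE_chart {p : M' → M} (hp : IsOpenEmbedding p) (G : PreFol M)
    {c : OpenPartialHomeomorph M ((ℝ × ℝ) × ℝ)} (hc : c ∈ G.charts) (x : M') :
    ∃ c' ∈ pullCharts p G, c'.source = p ⁻¹' c.source ∧
      ∀ z ∈ c'.source, (c' z).2 = (c (p z)).2 := by
  have : Nonempty M' := ⟨x⟩
  have hs : ((hp.toOpenPartialHomeomorph p).trans c).source = p ⁻¹' c.source := by
    rw [OpenPartialHomeomorph.trans_source]
    simp
  have hv : ∀ z ∈ ((hp.toOpenPartialHomeomorph p).trans c).source,
      (((hp.toOpenPartialHomeomorph p).trans c) z).2 = (c (p z)).2 := by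
    intro z _
    simp
  exact ⟨(hp.toOpenPartialHomeomorph p).trans c, ⟨c, hc, hs, hv⟩, hs, hv⟩

/-- (a chart of `M'` near `x`: `hp.toOpenPartialHomeomorph p` composed with a chart) -/
theorem exists_pull {p : M' → M} (hp : IsOpenEmbedding p) (G : PreFol M)
    (hd : ∀ x, p x ∈ G.dom) : ∃ F' : Foliation M', F'.charts = pullCharts p G := by
  refine ⟨⟨pullCharts p G, ?_, ?_⟩, rfl⟩
  · intro y
    obtain ⟨c, hc, hy⟩ := hd y
    obtain ⟨c', hc', hs, -⟩ := UpE_chart hp G hc y
    exact ⟨c', hc', by rw [hs]; exact hy⟩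
  · rintro c1' ⟨c1, hc1, hs1, hv1⟩ c2' ⟨c2, hc2, hs2, hv2⟩ y hy1 hy2
    have h1 : p y ∈ c1.source := by
      have := hy1
      rw [hs1] at this
      exact this
    have h2 : p y ∈ c2.source := by
      have := hy2
      rw [hs2] at this
      exact this
    have h3 := OrdEq.comp_cont (hp.continuous.continuousAt (x := y))
      (G.compat c1 hc1 c2 hc2 (p y) h1 h2)
    refine OrdEq.congr h3 ?_ ?_
    · filter_upwards [c1'.open_source.mem_nhds hy1] with z hz using hv1 z hz
    · filter_upwards [c2'.open_source.mem_nhds hy2] with z hz using hv2 z hz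

/-- the periodic curve of a closed positive path increases in every chart -/
theorem UpE_mono {G : PreFol M} {γ : ℝ → M} (hγ : G.Pos γ 0 1) (h01 : γ 0 = γ 1) (s : ℝ)
    {c : OpenPartialHomeomorph M ((ℝ × ℝ) × ℝ)} (hc : c ∈ G.charts)
    (hs : γ (Int.fract s) ∈ c.source) :
    ∃ ε > 0, StrictMonoOn (fun t => (c (γ (Int.fract t))).2) (Ioo (s - ε) (s + ε)) := by
  have hf0 := Int.fract_nonneg s
  have hf1 := Int.fract_lt_one s
  have hfl : s = ⌊s⌋ + Int.fract s := (Int.floor_add_fract s).symm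
  obtain ⟨ε0, hε0, hm0⟩ := PreFol.Pos.chart G hγ (t := Int.fract s) ⟨hf0, hf1.le⟩ hc hs
  rcases eq_or_lt_of_le hf0 with hz | hz
  · -- an integer
    have hs1 : γ 1 ∈ c.source := by rw [← h01, hz]; exact hs
    obtain ⟨ε1, hε1, hm1⟩ := PreFol.Pos.chart G hγ (t := 1) ⟨zero_le_one, le_rfl⟩ hc hs1
    rw [← hz] at hm0
    have hsfl : s = ⌊s⌋ := by rw [← hz] at hfl; linarith
    set ε := min 1 (min ε0 ε1) with hε
    have he1 : ε ≤ 1 := min_le_left _ _
    have he0 : ε ≤ ε0 := (min_le_right _ _).trans (min_le_left _ _)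
    have he1' : ε ≤ ε1 := (min_le_right _ _).trans (min_le_right _ _)
    have hεpos : 0 < ε := lt_min one_pos (lt_min hε0 hε1)
    have hfr : ∀ t ∈ Ico s (s + ε), Int.fract t = t - s := by
      intro t ht
      rw [Int.fract_eq_iff]
      refine ⟨by linarith [ht.1], by linarith [ht.2], ⌊s⌋, ?_⟩
      rw [← hsfl]
      ring
    have hfr' : ∀ t ∈ Ioo (s - ε) s, Int.fract t = t - s + 1 := by
      intro t ht
      rw [Int.fract_eq_iff]
      refine ⟨by linarith [ht.1], by linarith [ht.2], ⌊s⌋ - 1, ?_⟩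
      push_cast
      rw [← hsfl]
      ring
    have hγ' : ∀ t ∈ Ioc (s - ε) s, γ (Int.fract t) = γ (t - s + 1) := by
      intro t ht
      rcases eq_or_lt_of_le ht.2 with h | h
      · rw [h, ← hz, h01]
        congr 1
        ring
      · rw [hfr' t ⟨ht.1, h⟩]
    refine ⟨ε, hεpos, ?_⟩
    have hL : StrictMonoOn (fun t => (c (γ (Int.fract t))).2) (Ioc (s - ε) s) := by
      intro x hx y hy hxy
      simp only
      rw [hγ' x hx, hγ' y hy]
      exact hm1 ⟨⟨by linarith [hx.1], by linarith [hx.2]⟩,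
          ⟨by linarith [hx.1], by linarith [hx.2]⟩⟩
        ⟨⟨by linarith [hy.1], by linarith [hy.2]⟩, ⟨by linarith [hy.1], by linarith [hy.2]⟩⟩
        (by linarith)
    have hR : StrictMonoOn (fun t => (c (γ (Int.fract t))).2) (Ico s (s + ε)) := by
      intro x hx y hy hxy
      simp only
      rw [hfr x hx, hfr y hy]
      exact hm0 ⟨⟨by linarith [hx.1], by linarith [hx.2]⟩,
          ⟨by linarith [hx.1], by linarith [hx.2]⟩⟩
        ⟨⟨by linarith [hy.1], by linarith [hy.2]⟩, ⟨by linarith [hy.1], by linarith [hy.2]⟩⟩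
        (by linarith)
    have hU := hL.union hR (c := s) ⟨⟨by linarith, le_rfl⟩, fun x hx => hx.2⟩
      ⟨⟨le_rfl, by linarith⟩, fun x hx => hx.1⟩
    refine hU.mono ?_
    intro x hx
    rcases le_or_gt x s with h | h
    · exact Or.inl ⟨hx.1, h⟩
    · exact Or.inr ⟨h.le, hx.2⟩
  · set ε := min ε0 (min (Int.fract s) (1 - Int.fract s)) with hε
    have he0 : ε ≤ ε0 := min_le_left _ _
    have he1 : ε ≤ Int.fract s := (min_le_right _ _).trans (min_le_left _ _)
    have he2 : ε ≤ 1 - Int.fract s := (min_le_right _ _).trans (min_le_right _ _)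
    have hεpos : 0 < ε := lt_min hε0 (lt_min hz (by linarith))
    have hfr : ∀ t ∈ Ioo (s - ε) (s + ε), Int.fract t = t - ⌊s⌋ := by
      intro t ht
      rw [Int.fract_eq_iff]
      exact ⟨by linarith [ht.1], by linarith [ht.2], ⌊s⌋, by ring⟩
    refine ⟨ε, hεpos, ?_⟩
    intro x hx y hy hxy
    simp only
    rw [hfr x hx, hfr y hy]
    exact hm0 ⟨⟨by linarith [hx.1], by linarith [hx.2]⟩,
        ⟨by linarith [hx.1], by linarith [hx.2]⟩⟩
      ⟨⟨by linarith [hy.1], by linarith [hy.2]⟩, ⟨by linarith [hy.1], by linarith [hy.2]⟩⟩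
      (by linarith)

/-- A transverse path `γ` from `y = p x` to `y` lies in `G.dom = range p`; the closed transversal
is `t ↦ p⁻¹ (γ (Int.fract t))`; at the integers use `Pos.chart` at `0` and at `1` with the same
chart. -/
theorem pull_taut {p : M' → M} (hp : IsOpenEmbedding p) (G : PreFol M) (hr : range p = G.dom)
    {F' : Foliation M'} (hF : F'.charts = pullCharts p G) (h : ∀ y ∈ G.dom, G.Up y y) :
    F'.Taut := by
  intro y
  have hy : p y ∈ G.dom := by rw [← hr]; exact mem_range_self y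
  obtain ⟨γ, hγ, h0, h1⟩ := h (p y) hy
  have hdom : ∀ t : ℝ, ∃ x : M', p x = γ (Int.fract t) := by
    intro t
    obtain ⟨c, hc, hs, -⟩ := hγ.2 (Int.fract t) ⟨Int.fract_nonneg t, (Int.fract_lt_one t).le⟩
    have h2 : γ (Int.fract t) ∈ range p := by rw [hr]; exact ⟨c, hc, hs⟩
    exact h2
  choose l hl using hdom
  have hpl : p ∘ l = γ ∘ Int.fract := funext hl
  have hcont : Continuous l := by
    rw [hp.isInducing.continuous_iff, hpl]
    exact ContinuousOn.comp_fract'' hγ.1 (h0.trans h1.symm)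
  refine ⟨l, 0, ?_, ?_⟩
  · refine F'.transversal_of l hcont ?_ ?_
    · intro s
      apply hp.injective
      rw [hl, hl, Int.fract_add_one]
    · intro s
      obtain ⟨c, hc, hs, -⟩ := hγ.2 (Int.fract s) ⟨Int.fract_nonneg s, (Int.fract_lt_one s).le⟩
      obtain ⟨c', hc', hs', hv'⟩ := UpE_chart hp G hc y
      have hls : l s ∈ c'.source := by
        rw [hs', mem_preimage, hl]
        exact hs
      refine ⟨c', by rw [hF]; exact hc', hls, ?_⟩
      obtain ⟨ε, hε, hm⟩ := UpE_mono hγ (h0.trans h1.symm) s hc hs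
      obtain ⟨δ, hδ, hball⟩ := Metric.mem_nhds_iff.1
        (hcont.continuousAt (x := s) (c'.open_source.mem_nhds hls))
      refine ⟨min ε δ, lt_min hε hδ, ?_⟩
      have key : ∀ t ∈ Ioo (s - min ε δ) (s + min ε δ), t ∈ Ioo (s - ε) (s + ε) ∧
          (c' (l t)).2 = (c (γ (Int.fract t))).2 := by
        intro t ht
        have h3 : min ε δ ≤ ε := min_le_left _ _
        have h4 : min ε δ ≤ δ := min_le_right _ _
        refine ⟨⟨by linarith [ht.1], by linarith [ht.2]⟩, ?_⟩
        have h5 : t ∈ Metric.ball s δ := by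
          rw [Metric.mem_ball, Real.dist_eq, abs_lt]
          exact ⟨by linarith [ht.1], by linarith [ht.2]⟩
        rw [hv' _ (hball h5), hl]
      intro x hx z hz hxz
      obtain ⟨hx1, hx2⟩ := key x hx
      obtain ⟨hz1, hz2⟩ := key z hz
      simp only
      rw [hx2, hz2]
      exact hm hx1 hz1 hxz
  · have h2 : l 0 = y := by
      apply hp.injective
      rw [hl, Int.fract_zero, h0]
    rw [h2]
    exact Foliation.SameLeaf.refl F' y

end Pool.Agent.H.MP_1611f1_gt.LS
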