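import Pool.Agent.H.MP_1611f1_gt.LS.UpB

/-!
Taut foliations: there is a closed transversal through every point.
-/

namespace Pool.Agent.H.MP_1611f1_gt.LS

open Topology Set Filter

variable {M : Type*} [TopologicalSpace M]

/-- Two points of one plaque. Let `B` be the flow box of `up_box`. If `γ` is a transverse path
from `a` to `a`, then `γ t ∈ B` is above `a` for a small `t > 0` (`Pos.first`), and `γ t'` is below
`a` for some `t' < 1` (`Pos.last`), `t < t'`. So `Up b (γ t)`, `Up (γ t) (γ t')`,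
`Up (γ t') b`. -/
theorem PreFol.up_plaque (G : PreFol M) {c : OpenPartialHomeomorph M ((ℝ × ℝ) × ℝ)}
    (hc : c ∈ G.charts) {y : M} (hy : y ∈ c.source) :
    ∃ B ∈ 𝓝 y, ∀ a ∈ B, ∀ b ∈ B, (c a).2 = (c b).2 → G.Up a a → G.Up b b := by
  obtain ⟨B, hB, hBs, hup⟩ := PreFol.up_box G hc hy
  refine ⟨interior B, interior_mem_nhds.mpr hB, ?_⟩
  intro a ha b hb hab h
  obtain ⟨γ, hγ, h0, h1⟩ := h
  have haB : B ∈ 𝓝 a := mem_interior_iff_mem_nhds.mp ha
  have has : a ∈ c.source := hBs (interior_subset ha)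
  obtain ⟨t, ht, htB, htc⟩ := PreFol.Pos.first G hγ hc (by rw [h0]; exact has)
    (B := B) (by rw [h0]; exact haB)
  obtain ⟨t', ht', htB', htc'⟩ := PreFol.Pos.last G hγ hc (by rw [h1]; exact has)
    (B := B) (by rw [h1]; exact haB)
  rw [h0] at htc
  rw [h1] at htc'
  have u1 : G.Up b (γ t) := hup b (interior_subset hb) (γ t) htB (by rw [← hab]; exact htc)
  have u3 : G.Up (γ t') b := hup (γ t') htB' b (interior_subset hb) (by rw [← hab]; exact htc')
  have htt : t < t' := ht.2.trans ht'.1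
  have u2 : G.Up (γ t) (γ t') :=
    PreFol.Pos.up G (PreFol.Pos.sub G hγ ht.1.le ht'.2.le) htt
  exact PreFol.Up.trans G u1 (PreFol.Up.trans G u2 u3)

/-- push along leaves: the set of the parameters `s` of a leaf path `γ` with
`Up (γ s) (γ s)` is open and closed -/
theorem up_leaf (F : Foliation M) {x y : M} (h : F.SameLeaf x y) (hy : F.pre.Up y y) :
    F.pre.Up x x := by
  obtain ⟨γ, hγ⟩ := h
  have key : ∀ s : unitInterval, ∀ᶠ s' in 𝓝 s,
      (F.pre.Up (γ s') (γ s') ↔ F.pre.Up (γ s) (γ s)) := by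
    intro s
    obtain ⟨c, hc, hs⟩ := F.cover (γ s)
    obtain ⟨B, hB, hBp⟩ := PreFol.up_plaque F.pre (c := c) hc hs
    have h1 : ∀ᶠ s' in 𝓝 s, γ s' ∈ B := γ.continuous.continuousAt.eventually hB
    filter_upwards [h1, hγ s c hc hs] with s' h2 h3
    have h4 : γ s ∈ B := mem_of_mem_nhds hB
    exact ⟨fun h => hBp (γ s') h2 (γ s) h4 h3 h, fun h => hBp (γ s) h4 (γ s') h2 h3.symm h⟩
  have hclopen : IsClopen {s : unitInterval | F.pre.Up (γ s) (γ s)} := by
    constructor
    · rw [← isOpen_compl_iff, isOpen_iff_mem_nhds]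
      intro s hs
      filter_upwards [key s] with s' h1 h2
      exact hs (h1.mp h2)
    · rw [isOpen_iff_mem_nhds]
      intro s hs
      filter_upwards [key s] with s' h1
      exact h1.mpr hs
  have hne : ({s : unitInterval | F.pre.Up (γ s) (γ s)}).Nonempty := by
    refine ⟨1, ?_⟩
    change F.pre.Up (γ 1) (γ 1)
    rw [γ.target]
    exact hy
  have huniv := hclopen.eq_univ hne
  have h0 : (0 : unitInterval) ∈ {s : unitInterval | F.pre.Up (γ s) (γ s)} := by
    rw [huniv]
    exact mem_univ _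
  have h1 : F.pre.Up (γ 0) (γ 0) := h0
  rwa [γ.source] at h1

theorem up_transversal (F : Foliation M) {l : ℝ → M} (h : F.ClosedTransversal l) (s : ℝ) :
    F.pre.Up (l s) (l s) := by
  obtain ⟨hc, hper, hmono⟩ := h
  have h1 : F.pre.Pos l s (s + 1) := by
    refine ⟨hc.continuousOn, fun t _ => ?_⟩
    obtain ⟨c, hcF, hs⟩ := F.cover (l t)
    obtain ⟨ε, hε, hm⟩ := hmono t c hcF hs
    exact ⟨c, hcF, hs, ε, hε, hm.mono inter_subset_right⟩
  have h2 := PreFol.Pos.up F.pre h1 (by linarith)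
  rwa [hper] at h2

theorem taut_up (F : Foliation M) (h : F.Taut) (y : M) : F.pre.Up y y := by
  obtain ⟨l, s, hl, hs⟩ := h y
  exact up_leaf F hs (up_transversal F hl s)

end Pool.Agent.H.MP_1611f1_gt.LS
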