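import Pool.Agent.H.MP_1611f1_gt.LS.LvC
import Pool.Agent.H.MP_1611f1_gt.LS.RcA

/-!
Charts near the level curves.
-/

namespace Pool.Agent.H.MP_1611f1_gt.LS

open Topology Set Filter

variable {S : Type*} [TopologicalSpace S] {J K : Type*} {E : Surf S J} {col : J → K} {L : J → ℕ}
  {phi : S ≃ₜ S} {n : ℕ} {al be ga de : J → ℤ} {Y : Type*} [TopologicalSpace Y]
  {A : Arcs E col L} {σ : K → ℝ} (H : ∀ k, Hol (σ k)) {C : Chain A n phi}

theorem LvD_cont (lc : LevelCurve A C) :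
    Continuous (fun w : Cov => lc.ν ((w.1 : AddCircle (1 : ℝ)), w.2.1)) :=
  lc.emb.continuous.comp
    (((AddCircle.continuous_mk' (1 : ℝ)).comp continuous_fst).prodMk
      (continuous_fst.comp continuous_snd))

theorem LvD_lft (y : ℝ) : lft ((y : ℝ) : AddCircle (1 : ℝ)) = Int.fract y := by
  have h1 : ((Int.fract y : ℝ) : AddCircle (1 : ℝ)) = ((y : ℝ) : AddCircle (1 : ℝ)) := by
    rw [Int.fract, AddCircle.coe_sub, sub_eq_self, AddCircle.coe_eq_zero_iff]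
    exact ⟨⌊y⌋, by simp⟩
  rw [← h1, lft_coe ⟨Int.fract_nonneg y, Int.fract_lt_one y⟩]

/-- Near a point of the annulus at a time in `(i - 1, i + 1)` there is a chart of type I of the
slice `i` with the last coordinate `Fs` for an admissible pair of types `(a, b)`, where `a` is
`none` or `some lc.e` (the other systems vanish on the annulus), so it is inactive at `i`. -/
theorem level_chart [Finite J] [Finite K] (hn : 0 < n) (lc : LevelCurve A C)
    (Fl : Filling E phi al be ga de Y) {F : Foliation Y} (hF : F.charts = AllCharts Fl A H C)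
    (z : Cov) : ∃ c ∈ F.charts, rc (lc.nbh Fl) z ∈ c.source ∧
      ∃ a b, Adm lc.i a b ∧ inaO lc.i a ∧ (a = none ∨ a = some lc.e) ∧
        lc.ν ((z.1 : AddCircle (1 : ℝ)), z.2.1) ∈ DD A C lc.i a b ∧
        ∀ᶠ w : Cov in 𝓝 z, lc.ν ((w.1 : AddCircle (1 : ℝ)), w.2.1) ∈ DD A C lc.i a b ∧
          (c (rc (lc.nbh Fl) w)).2 =
            Fs A H C lc.i a b (lc.ν ((w.1 : AddCircle (1 : ℝ)), w.2.1)) (lc.i + tim w.2.2) := by
  have hout : lc.ν ((z.1 : AddCircle (1 : ℝ)), z.2.1) ∈ Out E := fun j w hw =>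
    absurd hw (lc.out _ j w)
  obtain ⟨a, b, hab, hD⟩ := DD_cover A C lc.i (lc.ν ((z.1 : AddCircle (1 : ℝ)), z.2.1))
  have ha : a = none ∨ a = some lc.e := by
    rcases a with _ | e1
    · exact Or.inl rfl
    · right
      by_contra hne
      have h1 : kap A e1 (C.ψ (lc.i - 1) (lc.ν ((z.1 : AddCircle (1 : ℝ)), z.2.1))) ≠ 0 := hD.1
      exact h1 (lc.other e1 (fun he => hne (by rw [he])) _)
  have hina : inaO lc.i a := by
    rcases ha with rfl | rfl
    · trivial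
    · exact lc.ina
  obtain ⟨ξ, hξ⟩ := E.flat (lc.ν ((z.1 : AddCircle (1 : ℝ)), z.2.1))
  obtain ⟨c, hc1, hc2, hc3⟩ := exI Fl A H C hn lc.i a b hab ξ
  have htim : ∀ s : ℝ, (lc.i : ℝ) + tim s ∈ Ioo ((lc.i : ℝ) - 1) (lc.i + 1) := by
    intro s
    have h := tim_mem s
    exact ⟨by linarith [h.1], by linarith [h.2]⟩
  have hU : IsOpen (ξ.source ∩ Out E ∩ DD A C lc.i a b) :=
    (ξ.open_source.inter Out_open).inter (DD_open A C lc.i a b)
  refine ⟨c, ?_, ?_, a, b, hab, hina, ha, hD, ?_⟩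
  · rw [hF]
    exact Or.inl hc1
  · rw [hc2]
    exact ⟨(lc.ν ((z.1 : AddCircle (1 : ℝ)), z.2.1), lc.i + tim z.2.2),
      ⟨⟨⟨hξ, hout⟩, hD⟩, htim _⟩, rfl⟩
  · have hev := (LvD_cont lc).continuousAt.eventually
      (hU.mem_nhds (show lc.ν ((z.1 : AddCircle (1 : ℝ)), z.2.1) ∈
        ξ.source ∩ Out E ∩ DD A C lc.i a b from ⟨⟨hξ, hout⟩, hD⟩))
    filter_upwards [hev] with w hw
    exact ⟨hw.2, hc3 (lc.ν ((w.1 : AddCircle (1 : ℝ)), w.2.1), lc.i + tim w.2.2) ⟨hw, htim _⟩⟩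

/-- The transverse function just below the level: for `i + tim s` in `[i - ε, i]`, where
`iso⁻¹` is linear. -/
theorem level_value {lc : LevelCurve A C} {l ε : ℝ} (hl : 0 < l) (hε : 0 < ε)
    (hlin : ∀ t ∈ Icc ((lc.i : ℝ) - ε) lc.i, (iso H lc.e).symm t = lc.i + (t - lc.i) / l)
    {a b : Option (Bool × K)} (ha : a = none ∨ a = some lc.e) {z : Cov}
    (hz : lc.ν ((z.1 : AddCircle (1 : ℝ)), z.2.1) ∈ DD A C lc.i a b)
    (hs : tim z.2.2 ∈ Ioo (-ε) 0) :
    ∃ k : ℤ, ∀ᶠ w : Cov in 𝓝 z,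
      Fs A H C lc.i a b (lc.ν ((w.1 : AddCircle (1 : ℝ)), w.2.1)) (lc.i + tim w.2.2) =
        lc.i + tim w.2.2 * Real.exp (-(wnd l (lc.f w.1) - k * Real.log l)) := by
  have ht : ∀ᶠ w : Cov in 𝓝 z, tim w.2.2 ∈ Ioo (-ε) 0 := by
    have hc : Continuous (fun w : Cov => tim w.2.2) :=
      tim_cont.comp (continuous_snd.comp continuous_snd)
    exact hc.continuousAt.eventually (isOpen_Ioo.mem_nhds hs)
  have hf : Continuous (fun w : Cov => lc.f w.1) := lc.f_cont.comp continuous_fst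
  rcases ha with rfl | rfl
  · have h1 : ‖kap A lc.e (C.ψ (lc.i - 1) (lc.ν ((z.1 : AddCircle (1 : ℝ)), z.2.1)))‖ < 1 / 4 :=
      hz.1 lc.e
    rw [lc.cross, UnitAddCircle.norm_eq] at h1
    refine ⟨round (lc.f z.1), ?_⟩
    have h2 : ∀ᶠ w : Cov in 𝓝 z, |lc.f w.1 - round (lc.f z.1)| < 1 / 4 := by
      have hc : Continuous (fun w : Cov => |lc.f w.1 - round (lc.f z.1)|) :=
        (hf.sub continuous_const).abs
      exact hc.continuousAt.eventually (isOpen_Iio.mem_nhds h1)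
    filter_upwards [ht, h2] with w hw hw2
    rw [wnd_near hl (round (lc.f z.1)) hw2, sub_self, neg_zero, Real.exp_zero, mul_one]
    unfold Fs
    rw [if_pos (by linarith [hw.2])]
    rfl
  · have h1 : kap A lc.e (C.ψ (lc.i - 1) (lc.ν ((z.1 : AddCircle (1 : ℝ)), z.2.1))) ≠ 0 := hz.1
    rw [lc.cross] at h1
    have h2 : Int.fract (lc.f z.1) ≠ 0 := by
      intro h0
      apply h1
      have h3 := coe_lft ((lc.f z.1 : ℝ) : AddCircle (1 : ℝ))
      rw [LvD_lft, h0] at h3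
      rw [← h3]
      rfl
    have h3 : 0 < Int.fract (lc.f z.1) := lt_of_le_of_ne (Int.fract_nonneg _) (Ne.symm h2)
    refine ⟨⌊lc.f z.1⌋, ?_⟩
    have h4 : ∀ᶠ w : Cov in 𝓝 z, lc.f w.1 ∈ Ioo (⌊lc.f z.1⌋ : ℝ) (⌊lc.f z.1⌋ + 1) := by
      refine hf.continuousAt.eventually (isOpen_Ioo.mem_nhds ⟨?_, Int.lt_floor_add_one _⟩)
      have h5 := Int.floor_add_fract (lc.f z.1)
      linarith
    filter_upwards [ht, h4] with w hw hw4
    have hfl : ⌊lc.f w.1⌋ = ⌊lc.f z.1⌋ := Int.floor_eq_iff.2 ⟨hw4.1.le, hw4.2⟩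
    have hpos : 0 < (1 - chi (Int.fract (lc.f w.1))) + chi (Int.fract (lc.f w.1)) / l := by
      have c0 := chi_nonneg (Int.fract (lc.f w.1))
      have c1 := chi_le_one (Int.fract (lc.f w.1))
      rcases c1.lt_or_eq with hc | hc
      · have : 0 ≤ chi (Int.fract (lc.f w.1)) / l := div_nonneg c0 hl.le
        linarith
      · rw [hc]
        have : 0 < 1 / l := one_div_pos.2 hl
        linarith
    unfold Fs
    rw [if_pos (by linarith [hw.2])]
    show Fe (iso H lc.e) (lft (kap A lc.e (C.ψ (lc.i - 1)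
      (lc.ν ((w.1 : AddCircle (1 : ℝ)), w.2.1))))) (lc.i + tim w.2.2) = _
    rw [lc.cross, LvD_lft]
    unfold Fe wnd
    rw [hlin _ ⟨by linarith [hw.1], by linarith [hw.2]⟩, hfl]
    have he : -((⌊lc.f z.1⌋ : ℝ) * Real.log l - Real.log ((1 - chi (Int.fract (lc.f w.1))) +
        chi (Int.fract (lc.f w.1)) / l) - ⌊lc.f z.1⌋ * Real.log l) =
        Real.log ((1 - chi (Int.fract (lc.f w.1))) + chi (Int.fract (lc.f w.1)) / l) := by ring
    rw [he, Real.exp_log hpos]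
    ring

end Pool.Agent.H.MP_1611f1_gt.LS
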