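import Pool.Agent.H.MP_1611f1_gt.LS.Geo

/-!
The transverse functions of the new foliation are unique up to order equivalence.
-/

namespace Pool.Agent.H.MP_1611f1_gt.LS

open Topology Set Filter

variable {M : Type*} [TopologicalSpace M] {F : Foliation M} {Λ : Type*} (X : Sys F Λ)

/-- (`Om_cases`, `ord_push`, `ord_push_pol`; in the first case and in the last case take a chart
of `F` at `y`) -/
theorem adapted_unique {y : M} (hy : y ∈ X.Om) {f f' : M → ℝ} (h : X.Adapted y f)
    (h' : X.Adapted y f') : OrdEq y f f' := by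
  rcases Om_cases X hy with hout | ⟨k, z, hz, hu, hs4, hs0, hr⟩ | ⟨k, z, hr, hz⟩ |
    ⟨k, z, hz, hu, hs⟩
  · obtain ⟨c, hc, hcs⟩ := F.cover y
    exact (h.out hout c hc hcs).trans (h'.out hout c hc hcs).symm
  · have H := ord_push (X.tube k).emb (h.wall k z hz hu hs4 hs0 hr)
      (h'.wall k z hz hu hs4 hs0 hr)
    rwa [hz] at H
  · have H := ord_push_pol (X.tube k).emb (h.collar k z hr hz) (h'.collar k z hr hz)
    rwa [hz] at H
  · obtain ⟨c, hc, hcs⟩ := F.cover y
    have H := ord_push (X.tube k).emb (h.top k z hz hu hs c hc hcs)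
      (h'.top k z hz hu hs c hc hcs)
    rwa [hz] at H

end Pool.Agent.H.MP_1611f1_gt.LS
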