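import Pool.Agent.H.MP_1611f1_gt.LS.Base

/-!
Positively transverse paths: restriction, reparametrization, concatenation.
-/

namespace Pool.Agent.H.MP_1611f1_gt.LS

open Topology Set Filter

variable {M : Type*} [TopologicalSpace M] (G : PreFol M)

/-- the monotonicity holds in every chart -/
theorem PreFol.Pos.chart {γ : ℝ → M} {a b : ℝ} (h : G.Pos γ a b) {t : ℝ} (ht : t ∈ Icc a b)
    {c : OpenPartialHomeomorph M ((ℝ × ℝ) × ℝ)} (hc : c ∈ G.charts) (hs : γ t ∈ c.source) :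
    ∃ ε > 0, StrictMonoOn (fun t' => (c (γ t')).2) (Icc a b ∩ Ioo (t - ε) (t + ε)) := by
  obtain ⟨hcont, hh⟩ := h
  obtain ⟨c₀, hc₀, hs₀, ε, hε, hmono⟩ := hh t ht
  obtain ⟨N, hN, hcmp⟩ := G.compat c₀ hc₀ c hc (γ t) hs₀ hs
  have h1 : γ ⁻¹' N ∈ 𝓝[Icc a b] t := hcont t ht hN
  obtain ⟨δ, hδ, hball⟩ := Metric.mem_nhdsWithin_iff.1 h1
  refine ⟨min ε δ, lt_min hε hδ, ?_⟩
  have key : ∀ x ∈ Icc a b ∩ Ioo (t - min ε δ) (t + min ε δ),
      x ∈ Icc a b ∩ Ioo (t - ε) (t + ε) ∧ γ x ∈ N := by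
    intro x hx
    have h2 : min ε δ ≤ ε := min_le_left _ _
    have h3 : min ε δ ≤ δ := min_le_right _ _
    refine ⟨⟨hx.1, ⟨by linarith [hx.2.1], by linarith [hx.2.2]⟩⟩, ?_⟩
    have h4 : x ∈ Metric.ball t δ := by
      rw [Metric.mem_ball, Real.dist_eq, abs_lt]
      exact ⟨by linarith [hx.2.1], by linarith [hx.2.2]⟩
    exact hball ⟨h4, hx.1⟩
  intro x hx y hy hxy
  obtain ⟨hx1, hx2⟩ := key x hx
  obtain ⟨hy1, hy2⟩ := key y hy
  exact (hcmp _ hx2 _ hy2).1 (hmono hx1 hy1 hxy)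

/-- it suffices to check the condition in one chart at every point, for eventually strictly
increasing functions -/
theorem PreFol.pos_of {γ : ℝ → M} {a b : ℝ} (h : ContinuousOn γ (Icc a b))
    (h' : ∀ t ∈ Icc a b, ∃ c ∈ G.charts, γ t ∈ c.source ∧ ∃ V ∈ 𝓝 t,
      StrictMonoOn (fun t' => (c (γ t')).2) (Icc a b ∩ V)) : G.Pos γ a b := by
  refine ⟨h, fun t ht => ?_⟩
  obtain ⟨c, hc, hs, V, hV, hmono⟩ := h' t ht
  obtain ⟨δ, hδ, hball⟩ := Metric.mem_nhds_iff.1 hV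
  refine ⟨c, hc, hs, δ, hδ, hmono.mono ?_⟩
  rintro x ⟨hx1, hx2⟩
  refine ⟨hx1, hball ?_⟩
  rw [Metric.mem_ball, Real.dist_eq, abs_lt]
  exact ⟨by linarith [hx2.1], by linarith [hx2.2]⟩

theorem PreFol.Pos.sub {γ : ℝ → M} {a b a' b' : ℝ} (h : G.Pos γ a b) (ha : a ≤ a')
    (hb : b' ≤ b) : G.Pos γ a' b' := by
  have hsub : Icc a' b' ⊆ Icc a b := Icc_subset_Icc ha hb
  refine ⟨h.1.mono hsub, fun t ht => ?_⟩
  obtain ⟨c, hc, hs, ε, hε, hmono⟩ := h.2 t (hsub ht)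
  exact ⟨c, hc, hs, ε, hε, hmono.mono (inter_subset_inter_left _ hsub)⟩

theorem PreFol.Pos.congr {γ γ' : ℝ → M} {a b : ℝ} (h : G.Pos γ a b)
    (he : ∀ t ∈ Icc a b, γ' t = γ t) : G.Pos γ' a b := by
  refine ⟨h.1.congr he, fun t ht => ?_⟩
  obtain ⟨c, hc, hs, ε, hε, hmono⟩ := h.2 t ht
  refine ⟨c, hc, by rw [he t ht]; exact hs, ε, hε, ?_⟩
  intro x hx y hy hxy
  have h1 := hmono hx hy hxy
  simp only at h1 ⊢
  rw [he x hx.1, he y hy.1]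
  exact h1

/-- increasing reparametrization -/
theorem PreFol.Pos.comp {γ : ℝ → M} {a b : ℝ} (h : G.Pos γ a b) {φ : ℝ → ℝ}
    (hφ : Continuous φ) (hm : StrictMono φ) {a' b' : ℝ} (ha : φ a' = a) (hb : φ b' = b) :
    G.Pos (fun t => γ (φ t)) a' b' := by
  have hmaps : ∀ t ∈ Icc a' b', φ t ∈ Icc a b := fun t ht =>
    ⟨by rw [← ha]; exact hm.monotone ht.1, by rw [← hb]; exact hm.monotone ht.2⟩
  refine PreFol.pos_of G (h.1.comp hφ.continuousOn hmaps) fun t ht => ?_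
  obtain ⟨c, hc, hs, ε, hε, hmono⟩ := h.2 (φ t) (hmaps t ht)
  refine ⟨c, hc, hs, φ ⁻¹' Ioo (φ t - ε) (φ t + ε),
    hφ.continuousAt (Ioo_mem_nhds (by linarith) (by linarith)), ?_⟩
  intro x hx y hy hxy
  exact hmono ⟨hmaps x hx.1, hx.2⟩ ⟨hmaps y hy.1, hy.2⟩ (hm hxy)

theorem PreFol.Pos.up {γ : ℝ → M} {a b : ℝ} (h : G.Pos γ a b) (hab : a < b) :
    G.Up (γ a) (γ b) := by
  have h1 : G.Pos (fun t => γ (a + t * (b - a))) 0 1 := by
    refine PreFol.Pos.comp G h (φ := fun t => a + t * (b - a)) (by fun_prop) ?_ (by simp)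
      (by ring)
    intro x y hxy
    have : 0 < b - a := by linarith
    simp only
    nlinarith
  refine ⟨_, h1, by simp, ?_⟩
  congr 1
  ring

/-- two consecutive intervals -/
theorem PreFol.Pos.glue {γ : ℝ → M} {a b c : ℝ} (h : G.Pos γ a b) (h' : G.Pos γ b c)
    (hab : a ≤ b) (hbc : b ≤ c) : G.Pos γ a c := by
  have hu : Icc a b ∪ Icc b c = Icc a c := Icc_union_Icc_eq_Icc hab hbc
  have hcont : ContinuousOn γ (Icc a c) := by
    rw [← hu]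
    exact h.1.union_of_isClosed h'.1 isClosed_Icc isClosed_Icc
  refine PreFol.pos_of G hcont fun t ht => ?_
  rcases lt_trichotomy t b with htb | htb | htb
  · obtain ⟨d, hd, hs, ε, hε, hmono⟩ := h.2 t ⟨ht.1, htb.le⟩
    refine ⟨d, hd, hs, Ioo (t - ε) (t + ε) ∩ Iio b,
      inter_mem (Ioo_mem_nhds (by linarith) (by linarith)) (Iio_mem_nhds htb), hmono.mono ?_⟩
    rintro x ⟨hx1, hx2, hx3⟩
    exact ⟨⟨hx1.1, le_of_lt hx3⟩, hx2⟩
  · subst htb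
    obtain ⟨d, hd, hs, ε, hε, hmono⟩ := h.2 t ⟨hab, le_rfl⟩
    obtain ⟨ε', hε', hmono'⟩ := PreFol.Pos.chart G h' (t := t) ⟨le_rfl, hbc⟩ hd hs
    refine ⟨d, hd, hs, Ioo (t - ε) (t + ε) ∩ Ioo (t - ε') (t + ε'),
      inter_mem (Ioo_mem_nhds (by linarith) (by linarith))
        (Ioo_mem_nhds (by linarith) (by linarith)), ?_⟩
    have ht1 : t ∈ Icc a t ∩ Ioo (t - ε) (t + ε) := ⟨⟨hab, le_rfl⟩, by linarith, by linarith⟩
    have ht2 : t ∈ Icc t c ∩ Ioo (t - ε') (t + ε') := ⟨⟨le_rfl, hbc⟩, by linarith, by linarith⟩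
    rintro x ⟨hx1, hx2, hx3⟩ y ⟨hy1, hy2, hy3⟩ hxy
    rcases le_or_gt y t with hyt | hyt
    · exact hmono ⟨⟨hx1.1, by linarith⟩, hx2⟩ ⟨⟨hy1.1, hyt⟩, hy2⟩ hxy
    · rcases le_or_gt t x with hxt | hxt
      · exact hmono' ⟨⟨hxt, hx1.2⟩, hx3⟩ ⟨⟨by linarith, hy1.2⟩, hy3⟩ hxy
      · exact (hmono ⟨⟨hx1.1, hxt.le⟩, hx2⟩ ht1 hxt).trans
          (hmono' ht2 ⟨⟨hyt.le, hy1.2⟩, hy3⟩ hyt)
  · obtain ⟨d, hd, hs, ε, hε, hmono⟩ := h'.2 t ⟨htb.le, ht.2⟩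
    refine ⟨d, hd, hs, Ioo (t - ε) (t + ε) ∩ Ioi b,
      inter_mem (Ioo_mem_nhds (by linarith) (by linarith)) (Ioi_mem_nhds htb), hmono.mono ?_⟩
    rintro x ⟨hx1, hx2, hx3⟩
    exact ⟨⟨le_of_lt hx3, hx1.2⟩, hx2⟩

theorem PreFol.Up.trans {x y z : M} (h : G.Up x y) (h' : G.Up y z) : G.Up x z := by
  obtain ⟨γ, hγ, h0, h1⟩ := h
  obtain ⟨γ', hγ', h0', h1'⟩ := h'
  have hA : G.Pos (fun t => if t ≤ 1 then γ t else γ' (t - 1)) 0 1 := by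
    refine PreFol.Pos.congr G hγ fun t ht => ?_
    rw [if_pos ht.2]
  have hB : G.Pos (fun t => if t ≤ 1 then γ t else γ' (t - 1)) 1 2 := by
    have h2 : G.Pos (fun t => γ' (t - 1)) 1 2 :=
      PreFol.Pos.comp G hγ' (φ := fun t => t - 1) (by fun_prop)
        (fun x y hxy => by simp only; linarith) (by norm_num) (by norm_num)
    refine PreFol.Pos.congr G h2 fun t ht => ?_
    by_cases h3 : t ≤ 1
    · have h4 : t = 1 := le_antisymm h3 ht.1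
      subst h4
      rw [if_pos le_rfl, h1, sub_self, h0']
    · rw [if_neg h3]
  have hC := PreFol.Pos.up G (PreFol.Pos.glue G hA hB (by norm_num) (by norm_num)) (by norm_num)
  rw [if_pos (by norm_num), if_neg (by norm_num)] at hC
  rw [h0] at hC
  norm_num at hC
  rw [h1'] at hC
  exact hC

end Pool.Agent.H.MP_1611f1_gt.LS
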