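import Pool.Agent.H.MP_1611f1_gt.LS.Pre
import Pool.Agent.H.MP_1611f1_gt.LS.UpA

/-!
The circles `(u, s) = const` below the leaf are closed transversals.
-/

namespace Pool.Agent.H.MP_1611f1_gt.LS

open Topology Set Filter

variable {M : Type*} [TopologicalSpace M] {F : Foliation M} {Λ : Type*} (X : Sys F Λ)

theorem CirA_mono {Y : Type*} [TopologicalSpace Y] {z₀ : Y} {f h : Y → ℝ} (H : OrdEq z₀ f h)
    {c : ℝ → Y} (hc : Continuous c) (h0 : c 0 = z₀)
    (hm : ∀ x y : ℝ, x < y → h (c x) < h (c y)) :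
    ∃ V ∈ 𝓝 (0 : ℝ), StrictMonoOn (fun x => f (c x)) V := by
  obtain ⟨N, hN, H⟩ := H
  refine ⟨c ⁻¹' N, ?_, ?_⟩
  · apply hc.continuousAt.preimage_mem_nhds
    rw [h0]
    exact hN
  · intro x hx y hy hxy
    exact (H _ hx _ hy).2 (hm x y hxy)

theorem CirA_lt {P a ε : ℝ} (hε : 0 < ε * P) (C : ℝ) {x y : ℝ} (h : x < y) :
    P * (a + ε * x) + C < P * (a + ε * y) + C := by
  have h1 : 0 < (ε * P) * (y - x) := mul_pos hε (by linarith)
  nlinarith

/-- Adapted functions are strictly increasing in the direction `ε θ`, where `ε` is the sign of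
`P`: by `WW_iff` and `rr z.2 > 1` the point is outside of `WW` (use `Adapted.out` with a chart of
`F`, and `Tube.below`), or in the wall (`Adapted.wall`), or `rr z.2 ≤ 25/9` (`exists_pol`,
`Adapted.collar`; `Hc` is affine in `θ`). -/
theorem circ_mono {k : Λ} {z : Cov} (hs : z.2.2 < 0) (hr : 1 < rr z.2) {f : M → ℝ}
    (h : X.Adapted (rc (X.N k) z) f) {ε : ℝ} (hε : 0 < ε * X.P k) :
    ∃ V ∈ 𝓝 (0 : ℝ), StrictMonoOn (fun x => f (rc (X.N k) (z.1 + ε * x, z.2))) V := by
  have hcont : Continuous fun x : ℝ => ((z.1 + ε * x, z.2) : Cov) := by fun_prop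
  have h0 : ((z.1 + ε * 0, z.2) : Cov) = z := by rw [mul_zero, add_zero]
  by_cases hW : z.2 ∈ Wall
  · by_cases hc : rr z.2 ≤ 25 / 9
    · obtain ⟨w, hw⟩ := exists_pol z hr (by linarith)
      have hw1 : (w.2.1 : ℝ) ≤ 5 / 3 := by
        have h1 := rr_pol w
        rw [hw] at h1
        have h2 := w.2.1.2.1
        nlinarith
      have h1 := h.collar k w hw1 (by rw [hw])
      have hcont' : Continuous fun x : ℝ => ((w.1 + ε * x, w.2) : Plr) := by fun_prop
      obtain ⟨V, hV, hm⟩ := CirA_mono h1 hcont' (by rw [mul_zero, add_zero]) (fun x y hxy => by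
        have h2 := CirA_lt (a := w.1) hε (X.m k * w.2.2 + cut w.2.1 *
          (X.g k (-4 + (w.2.1 : ℝ) * Real.sin (2 * Real.pi * w.2.2)) +
            X.m k * (zet w.2.1 w.2.2 - w.2.2))) hxy
        show Hc (X.P k) (X.g k) (X.m k) (w.1 + ε * x, w.2) <
          Hc (X.P k) (X.g k) (X.m k) (w.1 + ε * y, w.2)
        unfold Hc
        simp only
        linarith)
      refine ⟨V, hV, ?_⟩
      intro x hx y hy hxy
      have h3 := hm hx hy hxy
      have h4 : ∀ x : ℝ, pol ((w.1 + ε * x, w.2) : Plr) = (z.1 + ε * x, z.2) := by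
        intro x
        rw [← hw]
        rfl
      simp only [h4] at h3
      exact h3
    · rcases hW with hW | hW
      · have hs4 : -4 < z.2.2 := by
          rcases eq_or_lt_of_le hW.2.1 with h1 | h1
          · exfalso
            apply hc
            unfold rr
            rw [← h1]
            have h2 := abs_le.1 hW.1
            nlinarith
          · exact h1
        have h1 := h.wall k z rfl hW.1 hs4 hs (not_le.1 hc)
        refine CirA_mono h1 hcont h0 (fun x y hxy => ?_)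
        have h2 := CirA_lt (a := z.1) hε (X.g k z.2.2 + X.m k * ramp z.2.1) hxy
        unfold H1
        simp only
        linarith
      · exact absurd hW hc
  · have hout : ∀ l, rc (X.N k) z ∉ X.WW l := fun l hl => hW ((WW_iff X k l z).1 hl).2
    obtain ⟨c, hc, hs'⟩ := F.cover (rc (X.N k) z)
    have h1 := h.out hout c hc hs'
    have h2 := (X.tube k).below z hs c hc hs'
    have h3 := (OrdEq.comp_cont (R := rc (X.N k)) (rc_cont (X.tube k).emb).continuousAt h1).trans h2
    refine CirA_mono h3 hcont h0 (fun x y hxy => ?_)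
    exact CirA_lt (a := z.1) hε (X.g k z.2.2) hxy

theorem up_circle [T2Space M] [Finite Λ] {k : Λ} {z : Cov} (hs : z.2.2 < 0)
    (hr : 1 < rr z.2) : X.pre.Up (rc (X.N k) z) (rc (X.N k) z) := by
  obtain ⟨ε, hε, hj⟩ : ∃ ε : ℝ, 0 < ε * X.P k ∧ ∃ j : ℤ, ε = j := by
    rcases lt_or_gt_of_ne (X.P_ne k) with h | h
    · exact ⟨-1, by linarith, -1, by norm_num⟩
    · exact ⟨1, by linarith, 1, by norm_num⟩
  obtain ⟨j, hj⟩ := hj
  have hcont : Continuous fun x : ℝ => rc (X.N k) (z.1 + ε * x, z.2) :=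
    (rc_cont (X.tube k).emb).comp (by fun_prop)
  refine ⟨fun x => rc (X.N k) (z.1 + ε * x, z.2), ?_, ?_, ?_⟩
  · refine PreFol.pos_of X.pre hcont.continuousOn fun t _ => ?_
    have h1 : rc (X.N k) (z.1 + ε * t, z.2) ∈ X.pre.dom := by
      rw [pre_dom, Om_iff]
      exact hr
    obtain ⟨c, hc, hs'⟩ := h1
    refine ⟨c, hc, hs', ?_⟩
    obtain ⟨V, hV, hm⟩ := circ_mono X (z := (z.1 + ε * t, z.2)) hs hr (hc.2 _ hs') hε
    refine ⟨(fun t' => t' - t) ⁻¹' V, ?_, ?_⟩
    · have h2 : ContinuousAt (fun t' : ℝ => t' - t) t := by fun_prop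
      apply h2.preimage_mem_nhds
      rw [sub_self]
      exact hV
    · rintro x ⟨-, hx⟩ y ⟨-, hy⟩ hxy
      have h3 := hm hx hy (sub_lt_sub_right hxy t)
      have h4 : ∀ x : ℝ, z.1 + ε * t + ε * (x - t) = z.1 + ε * x := fun x => by ring
      simp only [h4] at h3
      exact h3
  · show rc (X.N k) (z.1 + ε * 0, z.2) = rc (X.N k) z
    rw [mul_zero, add_zero]
  · show rc (X.N k) (z.1 + ε * 1, z.2) = rc (X.N k) z
    rw [eq_comm, rc_eq (X.tube k).emb]
    exact ⟨j, by rw [mul_one, hj]⟩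

end Pool.Agent.H.MP_1611f1_gt.LS
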