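import Pool.Agent.H.MP_1611f1_gt.LS.FnA

/-!
The functions `H1` and `Hc`.
-/

namespace Pool.Agent.H.MP_1611f1_gt.LS

open Topology Set Filter

theorem FnB_neg (z : Plr) : -4 + (z.2.1 : ℝ) * Real.sin (2 * Real.pi * z.2.2) ∈ Iio (0 : ℝ) := by
  have h1 := z.2.1.2.1
  have h2 := z.2.1.2.2
  have h3 := Real.sin_le_one (2 * Real.pi * z.2.2)
  have h4 : (z.2.1 : ℝ) * Real.sin (2 * Real.pi * z.2.2) ≤ (z.2.1 : ℝ) * 1 :=
    mul_le_mul_of_nonneg_left h3 (by linarith)
  rw [mem_Iio]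
  linarith

theorem FnB_c : Continuous (fun w : Plr => (w.2.1 : ℝ)) :=
  continuous_subtype_val.comp (continuous_fst.comp continuous_snd)

variable (P : ℝ) (g : ℝ → ℝ) (m : ℝ)

theorem H1_add (z : Cov) (j : ℤ) : H1 P g m (z.1 + j, z.2) = H1 P g m z + P * j := by
  unfold H1
  simp only
  ring

theorem H1_cont (hg : ContinuousOn g (Iio 0)) :
    ContinuousOn (H1 P g m) {z : Cov | z.2.2 < 0} := by
  have h1 : ContinuousOn (fun z : Cov => g z.2.2) {z : Cov | z.2.2 < 0} :=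
    hg.comp (continuous_snd.comp continuous_snd).continuousOn (fun z hz => hz)
  have h2 : Continuous (fun z : Cov => ramp z.2.1) :=
    ramp_cont.comp (continuous_fst.comp continuous_snd)
  have h3 : ContinuousOn (fun z : Cov => P * z.1 + g z.2.2 + m * ramp z.2.1)
      {z : Cov | z.2.2 < 0} :=
    (((continuous_const.mul continuous_fst).continuousOn).add h1).add
      ((continuous_const.mul h2).continuousOn)
  exact h3

theorem Hc_add (z : Plr) (i j : ℤ) :
    Hc P g m (z.1 + i, (z.2.1, z.2.2 + j)) = Hc P g m z + (P * i + m * j) := by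
  unfold Hc
  have h1 : 2 * Real.pi * (z.2.2 + j) = 2 * Real.pi * z.2.2 + j * (2 * Real.pi) := by ring
  simp only [h1, Real.sin_add_int_mul_two_pi, zet_add]
  ring

theorem Hc_cont (hg : ContinuousOn g (Iio 0)) : Continuous (Hc P g m) := by
  have h1 : Continuous (fun z : Plr => -4 + (z.2.1 : ℝ) * Real.sin (2 * Real.pi * z.2.2)) := by
    fun_prop
  have h2 : Continuous (fun z : Plr => g (-4 + (z.2.1 : ℝ) * Real.sin (2 * Real.pi * z.2.2))) :=
    hg.comp_continuous h1 (fun z => FnB_neg z)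
  have h3 : Continuous (fun z : Plr => cut (z.2.1 : ℝ)) :=
    cut_cont.comp (continuous_subtype_val.comp (continuous_fst.comp continuous_snd))
  have h4 : Continuous (fun z : Plr => zet (z.2.1 : ℝ) z.2.2) :=
    zet_cont.comp continuous_snd
  have h5 : Continuous (fun z : Plr => P * z.1 + m * z.2.2 + cut z.2.1 *
      (g (-4 + (z.2.1 : ℝ) * Real.sin (2 * Real.pi * z.2.2)) +
        m * (zet z.2.1 z.2.2 - z.2.2))) :=
    ((continuous_const.mul continuous_fst).add
      (continuous_const.mul (continuous_snd.comp continuous_snd))).add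
      (h3.mul (h2.add (continuous_const.mul (h4.sub (continuous_snd.comp continuous_snd)))))
  exact h5

/-- the deep part of the collar -/
theorem Hc_deep {z : Plr} (hz : (z.2.1 : ℝ) < 4 / 3) :
    ∀ᶠ w in 𝓝 z, Hc P g m w = P * w.1 + m * w.2.2 := by
  have h1 : ∀ᶠ w : Plr in 𝓝 z, (w.2.1 : ℝ) < 4 / 3 :=
    (FnB_c.continuousAt (x := z)).eventually_lt continuousAt_const hz
  filter_upwards [h1] with w hw
  unfold Hc
  rw [cut_zero hw.le]
  ring

/-- outside of the collar, in the wall -/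
theorem Hc_wall {z : Plr} (hz : 5 / 3 < (z.2.1 : ℝ)) (hs : -4 < (pol z).2.2) :
    ∃ C : ℝ, ∀ᶠ w in 𝓝 z, Hc P g m w = H1 P g m (pol w) + C := by
  have h1 : ∀ᶠ w : Plr in 𝓝 z, 5 / 3 < (w.2.1 : ℝ) :=
    continuousAt_const.eventually_lt (FnB_c.continuousAt (x := z)) hz
  have hs1 : 0 < Real.sin (2 * Real.pi * z.2.2) := by
    unfold pol at hs
    simp only at hs
    have h2 : 0 < (z.2.1 : ℝ) * Real.sin (2 * Real.pi * z.2.2) := by linarith
    exact (pos_iff_pos_of_mul_pos h2).mp (by linarith [z.2.1.2.1])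
  obtain ⟨j, hj⟩ := zet_wall (r := z.2.1) hs1
  have h3 : ∀ᶠ w : Plr in 𝓝 z,
      zet w.2.1 w.2.2 = j + ramp (w.2.1 * Real.cos (2 * Real.pi * w.2.2)) :=
    (continuous_snd.continuousAt (x := z)).eventually hj
  refine ⟨m * j, ?_⟩
  filter_upwards [h1, h3] with w hw hw3
  unfold Hc H1 pol
  simp only
  rw [cut_one hw.le, hw3]
  ring

/-- outside of the collar, away from the wall -/
theorem Hc_out {z : Plr} (hz : 5 / 3 < (z.2.1 : ℝ)) (hs : (pol z).2 ∉ Wall) :
    ∃ C : ℝ, ∀ᶠ w in 𝓝 z, Hc P g m w = P * (pol w).1 + g (pol w).2.2 + C := by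
  have h1 : ∀ᶠ w : Plr in 𝓝 z, 5 / 3 < (w.2.1 : ℝ) :=
    continuousAt_const.eventually_lt (FnB_c.continuousAt (x := z)) hz
  have h3 : ∀ᶠ w : Plr in 𝓝 z, zet w.2.1 w.2.2 = zet z.2.1 z.2.2 :=
    (continuous_snd.continuousAt (x := z)).eventually (zet_const hs)
  refine ⟨m * zet z.2.1 z.2.2, ?_⟩
  filter_upwards [h1, h3] with w hw hw3
  unfold Hc pol
  simp only
  rw [cut_one hw.le, hw3]
  ring

end Pool.Agent.H.MP_1611f1_gt.LS
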