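import Pool.Agent.H.MP_1611f1_gt.LS.Geo
import Pool.Agent.H.MP_1611f1_gt.LS.FnB

/-!
Charts in the wall.
-/

namespace Pool.Agent.H.MP_1611f1_gt.LS

open Topology Set Filter

variable {M : Type*} [TopologicalSpace M] {F : Foliation M} {Λ : Type*} (X : Sys F Λ)

/-- `H1` is adapted in the region `-4 < s < 0`, `5/3 < r`: in the wall (condition `wall`, with
`ord_shift` for the other lifts) and outside of the wall, where `ramp` is locally constant and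
`Tube.below` is used. -/
theorem adapted_H1 {k : Λ} {z : Cov} (h1 : -4 < z.2.2) (h2 : z.2.2 < 0) (h3 : 25 / 9 < rr z.2)
    {f : M → ℝ}
    (hf : OrdEq z (fun w => f (rc (X.N k) w)) (H1 (X.P k) (X.g k) (X.m k))) :
    X.Adapted (rc (X.N k) z) f := by
  have T := X.tube k
  refine ⟨?_, ?_, ?_, ?_⟩
  · intro hy c hc hs
    have hw : z.2 ∉ Wall := fun h => hy k ((WW_iff X k k z).2 ⟨rfl, h⟩)
    have hu : 1 < |z.2.1| := by
      by_contra h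
      exact hw (Or.inl ⟨not_lt.1 h, h1.le, h2.le⟩)
    have hc1 : ∀ᶠ w : Cov in 𝓝 z, ramp w.2.1 = ramp z.2.1 := by
      have h4 : Tendsto (fun w : Cov => w.2.1) (𝓝 z) (𝓝 z.2.1) :=
        (continuous_fst.comp continuous_snd).continuousAt
      exact h4.eventually (ramp_const hu)
    have h4 : OrdEq z (fun w : Cov => X.P k * w.1 + X.g k w.2.2) (H1 (X.P k) (X.g k) (X.m k)) := by
      refine OrdEq.of_comp (fun x => x + X.m k * ramp z.2.1) (fun a b hab => by simpa using hab) ?_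
      filter_upwards [hc1] with w hw1
      simp only [H1]
      rw [hw1]
    have h5 := (hf.trans h4.symm).trans (T.below z h2 c hc hs).symm
    exact OrdEq.of_openMap (R := rc (X.N k)) (rc_open T.emb) h5
  · intro k' z' hz' _ _ _ _
    obtain ⟨rfl, j, rfl⟩ := rc_same X hz'.symm
    exact ord_shift T.emb (k := j) (C := X.P k * j)
      (fun w => H1_add (X.P k) (X.g k) (X.m k) w j) hf
  · intro k' z' hr hz'
    obtain ⟨rfl, j, hj⟩ := rc_same X hz'.symm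
    exfalso
    have h5 := rr_pol z'
    rw [hj] at h5
    simp only at h5
    rw [h5] at h3
    have h6 : (1 : ℝ) < z'.2.1 := z'.2.1.2.1
    nlinarith
  · intro k' z' hz' _ h5 c hc hs
    obtain ⟨rfl, j, rfl⟩ := rc_same X hz'.symm
    exact absurd h5 h2.ne

/-- the region of the wall above the collar -/
theorem ExI_box {z : ℝ × ℝ} (h1 : -4 < z.2) (h2 : z.2 < 0) (h3 : 25 / 9 < rr z) :
    ∃ e > 0, ∀ u ∈ Ioo (z.1 - e) (z.1 + e), ∀ s ∈ Ioo (z.2 - e) (z.2 + e),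
      -4 < s ∧ s < 0 ∧ 25 / 9 < rr (u, s) := by
  have hrr : Continuous rr := by
    unfold rr
    fun_prop
  have ho : IsOpen {p : ℝ × ℝ | -4 < p.2 ∧ p.2 < 0 ∧ 25 / 9 < rr p} :=
    (isOpen_lt continuous_const continuous_snd).inter
      ((isOpen_lt continuous_snd continuous_const).inter (isOpen_lt continuous_const hrr))
  obtain ⟨e, he, hb⟩ := Metric.isOpen_iff.1 ho z ⟨h1, h2, h3⟩
  refine ⟨e, he, fun u hu s hs => ?_⟩
  have h4 : (u, s) ∈ Metric.ball z e → -4 < s ∧ s < 0 ∧ 25 / 9 < rr (u, s) := fun h => hb h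
  refine h4 ?_
  rw [Metric.mem_ball, Prod.dist_eq, Real.dist_eq, Real.dist_eq, max_lt_iff, abs_lt, abs_lt]
  exact ⟨⟨by linarith [hu.1], by linarith [hu.2]⟩, ⟨by linarith [hs.1], by linarith [hs.2]⟩⟩

theorem ExI_inj {N : Cyl → M} (hN : IsOpenEmbedding N) (t₀ u₀ e s₀ s₁ : ℝ) :
    InjOn (fun z : (ℝ × ℝ) × ℝ => rc N (z.1.1, (z.1.2, z.2)))
      ((Ioo (t₀ - 1 / 2) (t₀ + 1 / 2) ×ˢ Ioo (u₀ - e) (u₀ + e)) ×ˢ Ioo s₀ s₁) := by
  rintro ⟨⟨t1, u1⟩, v1⟩ ⟨⟨h1, -⟩, -⟩ ⟨⟨t2, u2⟩, v2⟩ ⟨⟨h2, -⟩, -⟩ heq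
  obtain ⟨k, h⟩ := (rc_eq hN _ _).1 heq
  simp only [Prod.mk.injEq] at h
  obtain ⟨ha, hb, hc⟩ := h
  simp only [mem_Ioo] at h1 h2
  have hk0 : k = 0 := by
    rw [← Int.abs_lt_one_iff]
    have h3 : |(k : ℝ)| < 1 := by
      rw [abs_lt]
      constructor <;> linarith [h1.1, h1.2, h2.1, h2.2]
    exact_mod_cast h3
  subst hk0
  simp only [Int.cast_zero, add_zero] at ha
  rw [ha, hb, hc]

/-- a chart with the last coordinate `H1`, by `exists_chart` (the fibre coordinate is `s`) on a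
small box -/
theorem exI {k : Λ} {z : Cov} (h1 : -4 < z.2.2) (h2 : z.2.2 < 0) (h3 : 25 / 9 < rr z.2) :
    ∃ c' : OpenPartialHomeomorph M ((ℝ × ℝ) × ℝ), rc (X.N k) z ∈ c'.source ∧
      c'.source ⊆ X.Om ∧ ∀ y' ∈ c'.source, X.Adapted y' (fun z => (c' z).2) := by
  have T := X.tube k
  obtain ⟨e, he, hb⟩ := ExI_box h1 h2 h3
  have hU : IsOpen (Ioo (z.1 - 1 / 2) (z.1 + 1 / 2) ×ˢ Ioo (z.2.1 - e) (z.2.1 + e)) :=
    isOpen_Ioo.prod isOpen_Ioo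
  have hcont : Continuous (fun w : (ℝ × ℝ) × ℝ => ((w.1.1, (w.1.2, w.2)) : Cov)) := by fun_prop
  obtain ⟨C, hCs, hCf⟩ := exists_chart (rc_loc_s T.emb)
    (OpenPartialHomeomorph.refl (ℝ × ℝ)) hU (by intro w _; simp)
    (ExI_inj T.emb z.1 z.2.1 e (z.2.2 - e) (z.2.2 + e))
    (fun w => H1 (X.P k) (X.g k) (X.m k) (w.1.1, (w.1.2, w.2)))
    ((H1_cont (X.P k) (X.g k) (X.m k) T.g_cont).comp hcont.continuousOn
      fun w hw => (hb _ hw.1.2 _ hw.2).2.1)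
    (fun x hx => by
      intro a ha b hb' hab
      simp only [H1]
      have h4 := T.g_mono (hb _ hx.2 _ ha).2.1 (hb _ hx.2 _ hb').2.1 hab
      linarith)
  have hmem0 : ((z.1, z.2.1), z.2.2) ∈
      (Ioo (z.1 - 1 / 2) (z.1 + 1 / 2) ×ˢ Ioo (z.2.1 - e) (z.2.1 + e)) ×ˢ
        Ioo (z.2.2 - e) (z.2.2 + e) := by
    refine ⟨⟨⟨?_, ?_⟩, ⟨?_, ?_⟩⟩, ⟨?_, ?_⟩⟩ <;> simp only <;> linarith
  refine ⟨C, ?_, ?_, ?_⟩
  · rw [hCs]
    exact ⟨_, hmem0, rfl⟩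
  · rw [hCs]
    rintro _ ⟨w, hw, rfl⟩
    refine (Om_iff X k _).2 ?_
    have h4 := (hb _ hw.1.2 _ hw.2).2.2
    simp only
    linarith
  · intro y' hy'
    rw [hCs] at hy'
    obtain ⟨w, hw, rfl⟩ := hy'
    have h4 := hb _ hw.1.2 _ hw.2
    refine adapted_H1 X (z := (w.1.1, (w.1.2, w.2))) h4.1 h4.2.1 h4.2.2 ?_
    refine (OrdEq.of_comp id strictMono_id ?_).symm
    have hcont' : Continuous (fun w' : Cov => (((w'.1, w'.2.1), w'.2.2) : (ℝ × ℝ) × ℝ)) := by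
      fun_prop
    have hmem : ∀ᶠ w' : Cov in 𝓝 ((w.1.1, (w.1.2, w.2)) : Cov), ((w'.1, w'.2.1), w'.2.2) ∈
        (Ioo (z.1 - 1 / 2) (z.1 + 1 / 2) ×ˢ Ioo (z.2.1 - e) (z.2.1 + e)) ×ˢ
        Ioo (z.2.2 - e) (z.2.2 + e) :=
      hcont'.continuousAt.eventually_mem ((hU.prod isOpen_Ioo).mem_nhds hw)
    filter_upwards [hmem] with w' hw'
    exact congrArg Prod.snd (hCf _ hw')

end Pool.Agent.H.MP_1611f1_gt.LS
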