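import Pool.Agent.H.MP_1611f1_gt.LS.Geo
import Pool.Agent.H.MP_1611f1_gt.LS.FnB

/-!
Charts in the collar.
-/

namespace Pool.Agent.H.MP_1611f1_gt.LS

open Topology Set Filter

variable {M : Type*} [TopologicalSpace M] {F : Foliation M} {Λ : Type*} (X : Sys F Λ)

theorem ExII_r {z : Plr} (h : 25 / 9 < rr (pol z).2) : 5 / 3 < (z.2.1 : ℝ) := by
  rw [rr_pol] at h
  have h1 : (1 : ℝ) < z.2.1 := z.2.1.2.1
  nlinarith

/-- `Hc` is adapted in the region `1 < r < 2`: for `r ≤ 5/3` this is the condition `collar` (with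
`ord_shift_pol` for the other lifts); for `r > 5/3` in the wall use `Hc_wall` and `pol_open`
(condition `wall`), outside of the wall `Hc_out` and `Tube.below`. -/
theorem adapted_Hc {k : Λ} {z : Plr} {f : M → ℝ}
    (hf : OrdEq z (fun w => f (rc (X.N k) (pol w))) (Hc (X.P k) (X.g k) (X.m k))) :
    X.Adapted (rc (X.N k) (pol z)) f := by
  have T := X.tube k
  refine ⟨?_, ?_, ?_, ?_⟩
  · intro hy c hc hs
    have hw : (pol z).2 ∉ Wall := fun h => hy k ((WW_iff X k k (pol z)).2 ⟨rfl, h⟩)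
    have hr : 5 / 3 < (z.2.1 : ℝ) := by
      refine ExII_r ?_
      by_contra h
      exact hw (Or.inr (not_lt.1 h))
    obtain ⟨C, hC⟩ := Hc_out (X.P k) (X.g k) (X.m k) hr hw
    have h1 := OrdEq.comp_cont (z₀ := z) (R := pol) pol_cont.continuousAt
      (T.below (pol z) (pol_s z) c hc hs)
    have h2 : OrdEq z ((fun w : Cov => X.P k * w.1 + X.g k w.2.2) ∘ pol)
        (Hc (X.P k) (X.g k) (X.m k)) :=
      OrdEq.of_comp (fun x => x + C) (fun a b hab => by simpa using hab) hC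
    have h3 := (hf.trans h2.symm).trans h1.symm
    exact OrdEq.of_openMap (R := fun z : Plr => rc (X.N k) (pol z)) (rp_open T.emb) h3
  · intro k' z' hz' h1 h2 h3 h4
    obtain ⟨rfl, j, rfl⟩ := rc_same X hz'.symm
    have hr : 5 / 3 < (z.2.1 : ℝ) := ExII_r h4
    obtain ⟨C, hC⟩ := Hc_wall (X.P k) (X.g k) (X.m k) hr h2
    have h5 : OrdEq z (H1 (X.P k) (X.g k) (X.m k) ∘ pol) (Hc (X.P k) (X.g k) (X.m k)) :=
      OrdEq.of_comp (fun x => x + C) (fun a b hab => by simpa using hab) hC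
    have h6 : OrdEq (pol z) (fun w => f (rc (X.N k) w)) (H1 (X.P k) (X.g k) (X.m k)) :=
      OrdEq.of_openMap (R := pol) pol_open (hf.trans h5.symm)
    exact ord_shift T.emb (k := j) (C := X.P k * j)
      (fun w => H1_add (X.P k) (X.g k) (X.m k) w j) h6
  · intro k' z' h1 hz'
    obtain ⟨rfl, -⟩ := rc_same X hz'.symm
    obtain ⟨i, j, rfl⟩ := (rp_eq T.emb z z').1 hz'.symm
    exact ord_shift_pol T.emb (i := i) (j := j) (C := X.P k * i + X.m k * j)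
      (fun w => Hc_add (X.P k) (X.g k) (X.m k) w i j) hf
  · intro k' z' hz' h1 h2 c hc hs
    obtain ⟨rfl, j, rfl⟩ := rc_same X hz'.symm
    exact absurd h2 (pol_s z).ne

/-- a sign `ε` with `P ε > 0` -/
theorem ExII_sign {P : ℝ} (hP : P ≠ 0) : ∃ ε : ℝ, (ε = 1 ∨ ε = -1) ∧ 0 < P * ε ∧ ε * ε = 1 := by
  rcases lt_or_gt_of_ne hP with h | h
  · exact ⟨-1, Or.inr rfl, by linarith, by norm_num⟩
  · exact ⟨1, Or.inl rfl, by linarith, by norm_num⟩

theorem ExII_int {a b c : ℝ} {i : ℤ} (ha : a ∈ Ioo (c - 1 / 2) (c + 1 / 2))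
    (hb : b ∈ Ioo (c - 1 / 2) (c + 1 / 2)) (h : |b - a| = |(i : ℝ)|) : i = 0 := by
  by_contra hi
  have h3 : (1 : ℝ) ≤ |(i : ℝ)| := by exact_mod_cast Int.one_le_abs hi
  have h4 : |b - a| < 1 := by
    rw [abs_lt]
    constructor <;> linarith [ha.1, ha.2, hb.1, hb.2]
  linarith

theorem ExII_inj {N : Cyl → M} (hN : IsOpenEmbedding N) {ε : ℝ} (hε : ε = 1 ∨ ε = -1)
    (t₀ v₀ : ℝ) : InjOn (fun z : (Ioo (1 : ℝ) 2 × ℝ) × ℝ => rc N (pol (ε * z.2, (z.1.1, z.1.2))))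
      (((univ : Set (Ioo (1 : ℝ) 2)) ×ˢ Ioo (t₀ - 1 / 2) (t₀ + 1 / 2)) ×ˢ
        Ioo (v₀ - 1 / 2) (v₀ + 1 / 2)) := by
  rintro ⟨⟨r1, t1⟩, v1⟩ ⟨⟨-, h1⟩, h1'⟩ ⟨⟨r2, t2⟩, v2⟩ ⟨⟨-, h2⟩, h2'⟩ heq
  obtain ⟨i, j, h⟩ := (rp_eq hN _ _).1 heq
  simp only [Prod.mk.injEq] at h
  obtain ⟨ha, hr, ht⟩ := h
  have habs : |ε| = 1 := by
    rcases hε with rfl | rfl <;> norm_num
  have hi : i = 0 := by
    refine ExII_int h1' h2' ?_
    have e : ε * (v2 - v1) = i := by linarith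
    rw [← e, abs_mul, habs, one_mul]
  have hj : j = 0 := by
    refine ExII_int h1 h2 ?_
    rw [ht, add_sub_cancel_left]
  subst hi hj
  have e1 : t1 = t2 := by rw [ht]; simp
  have e2 : v1 = v2 := by
    have h0 : ε ≠ 0 := by
      rcases hε with rfl | rfl <;> norm_num
    have h3 : ε * v2 = ε * v1 := by rw [ha]; simp
    exact (mul_left_cancel₀ h0 h3).symm
  rw [e1, e2, hr]

/-- a chart with the last coordinate `Hc`, by `exists_chart` (the fibre coordinate is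
`ε θ`, where `ε` is the sign of `P`) on a small box -/
theorem exII {k : Λ} (z : Plr) :
    ∃ c' : OpenPartialHomeomorph M ((ℝ × ℝ) × ℝ), rc (X.N k) (pol z) ∈ c'.source ∧
      c'.source ⊆ X.Om ∧ ∀ y' ∈ c'.source, X.Adapted y' (fun z => (c' z).2) := by
  obtain ⟨ε, hε, hPε, hεε⟩ := ExII_sign (X.P_ne k)
  have T := X.tube k
  have hne : Nonempty (Ioo (1 : ℝ) 2 × ℝ) := ⟨(⟨3 / 2, by norm_num, by norm_num⟩, 0)⟩
  have hemb : IsOpenEmbedding (fun w : Ioo (1 : ℝ) 2 × ℝ => ((w.1 : ℝ), w.2)) :=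
    isOpen_Ioo.isOpenEmbedding_subtypeVal.prodMap (IsOpenEmbedding.id (X := ℝ))
  have hU : IsOpen ((univ : Set (Ioo (1 : ℝ) 2)) ×ˢ Ioo (z.2.2 - 1 / 2) (z.2.2 + 1 / 2)) :=
    isOpen_univ.prod isOpen_Ioo
  have hcH : Continuous (fun w : (Ioo (1 : ℝ) 2 × ℝ) × ℝ =>
      Hc (X.P k) (X.g k) (X.m k) (ε * w.2, (w.1.1, w.1.2))) :=
    (Hc_cont (X.P k) (X.g k) (X.m k) T.g_cont).comp (by fun_prop)
  obtain ⟨C, hCs, hCf⟩ := exists_chart (rp_loc T.emb hε)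
    (hemb.toOpenPartialHomeomorph _) hU (by intro w _; simp)
    (ExII_inj T.emb hε z.2.2 (ε * z.1))
    (fun w => Hc (X.P k) (X.g k) (X.m k) (ε * w.2, (w.1.1, w.1.2)))
    hcH.continuousOn
    (fun x _ => by
      intro a _ b _ hab
      simp only [Hc]
      have h1 : X.P k * ε * a < X.P k * ε * b := mul_lt_mul_of_pos_left hab hPε
      have h2 : X.P k * (ε * a) = X.P k * ε * a := by ring
      have h3 : X.P k * (ε * b) = X.P k * ε * b := by ring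
      linarith)
  have hmid : ∀ a : ℝ, a ∈ Ioo (a - 1 / 2) (a + 1 / 2) := fun a =>
    ⟨by linarith, by linarith⟩
  have hee : ∀ a : ℝ, ε * (ε * a) = a := fun a => by rw [← mul_assoc, hεε, one_mul]
  refine ⟨C, ?_, ?_, ?_⟩
  · rw [hCs]
    refine ⟨((z.2.1, z.2.2), ε * z.1), ⟨⟨mem_univ _, hmid _⟩, hmid _⟩, ?_⟩
    simp only [hee]
  · rw [hCs]
    rintro _ ⟨w, -, rfl⟩
    refine (Om_iff X k _).2 ?_
    rw [rr_pol]
    have h1 : (1 : ℝ) < w.1.1 := w.1.1.2.1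
    show 1 < ((w.1.1 : ℝ)) ^ 2
    nlinarith
  · intro y' hy'
    rw [hCs] at hy'
    obtain ⟨w, hw, rfl⟩ := hy'
    refine adapted_Hc X ?_
    refine (OrdEq.of_comp id strictMono_id ?_).symm
    have hmem : ∀ᶠ w' : Plr in 𝓝 ((ε * w.2, (w.1.1, w.1.2)) : Plr),
        ((w'.2.1, w'.2.2), ε * w'.1) ∈
        (((univ : Set (Ioo (1 : ℝ) 2)) ×ˢ Ioo (z.2.2 - 1 / 2) (z.2.2 + 1 / 2)) ×ˢ
        Ioo (ε * z.1 - 1 / 2) (ε * z.1 + 1 / 2)) := by
      have hcont : Continuous (fun w' : Plr =>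
          (((w'.2.1, w'.2.2), ε * w'.1) : (Ioo (1 : ℝ) 2 × ℝ) × ℝ)) := by fun_prop
      refine hcont.continuousAt.eventually_mem ((hU.prod isOpen_Ioo).mem_nhds ?_)
      simp only [hee]
      exact hw
    filter_upwards [hmem] with w' hw'
    have h1 := congrArg Prod.snd (hCf _ hw')
    simp only [hee] at h1
    exact h1

end Pool.Agent.H.MP_1611f1_gt.LS
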