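import Pool.Agent.H.MP_1611f1_gt.LS.MixA
import Pool.Agent.H.MP_1611f1_gt.LS.ExI

/-!
Charts near the leaf `s = 0`.
-/

namespace Pool.Agent.H.MP_1611f1_gt.LS

open Topology Set Filter

variable {M : Type*} [TopologicalSpace M] {F : Foliation M} {Λ : Type*} (X : Sys F Λ)

/-- the common part: a point at which the order is given in the coordinates by an old chart -/
theorem ExIII_out {k : Λ} {z : Cov} {c : OpenPartialHomeomorph M ((ℝ × ℝ) × ℝ)}
    (hc : c ∈ F.charts) (hs : rc (X.N k) z ∈ c.source) {f : M → ℝ}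
    (hf : OrdEq z (fun w => f (rc (X.N k) w)) (fun w => (c (rc (X.N k) w)).2)) :
    ∀ c' ∈ F.charts, rc (X.N k) z ∈ c'.source →
      OrdEq (rc (X.N k) z) f (fun y => (c' y).2) := by
  intro c' hc' hs'
  have hN := (X.tube k).emb
  have h1 : OrdEq (rc (X.N k) z) f (fun y => (c y).2) :=
    OrdEq.of_openMap (rc_open hN) hf
  exact h1.trans (F.compat c hc c' hc' _ hs hs')

/-- `Mx` is adapted at the points of the leaf `s = 0` -/
theorem adapted_Mx {k : Λ} {z : Cov} (hz : z.2.2 = 0)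
    {c : OpenPartialHomeomorph M ((ℝ × ℝ) × ℝ)} (hc : c ∈ F.charts)
    (hs : rc (X.N k) z ∈ c.source) {f : M → ℝ}
    (hf : OrdEq z (fun w => f (rc (X.N k) w)) (X.Mx k c z)) :
    X.Adapted (rc (X.N k) z) f := by
  refine ⟨?_, ?_, ?_, ?_⟩
  · intro hout c' hc' hs'
    have hu : 1 < |z.2.1| := by
      by_contra hu
      push Not at hu
      exact hout k ((WW_iff X k k z).2 ⟨rfl, Or.inl ⟨hu, by rw [hz]; norm_num, hz.le⟩⟩)
    exact ExIII_out X hc hs (hf.trans (Mx_old X hz hu hc hs)) c' hc' hs'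
  · intro l z1 h1 _ _ h4 _
    obtain ⟨_, j, hj⟩ := rc_same X h1
    rw [hj] at hz
    simp only at hz
    linarith
  · intro l z1 _ h1
    obtain ⟨_, j, hj⟩ := rc_same X h1
    rw [hj] at hz
    have := pol_s z1
    simp only at hz
    linarith
  · intro l z1 h1 _ h3 c1 hc1 hs1
    obtain ⟨hkl, j, hj⟩ := rc_same X h1.symm
    subst hkl
    have h5 := Mx_indep X hz hz hc hc1 hs hs hs1 rfl
    have h6 := Mx_shift X hz hc1 hs1 j (hf.trans h5)
    rw [hj]
    exact h6

/-- above the leaf `s = 0` the functions of the old foliation are adapted -/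
theorem adapted_above {k : Λ} {z : Cov} (hz : 0 < z.2.2)
    {c : OpenPartialHomeomorph M ((ℝ × ℝ) × ℝ)} (hc : c ∈ F.charts)
    (hs : rc (X.N k) z ∈ c.source) {f : M → ℝ}
    (hf : OrdEq z (fun w => f (rc (X.N k) w)) (fun w => (c (rc (X.N k) w)).2)) :
    X.Adapted (rc (X.N k) z) f := by
  refine ⟨?_, ?_, ?_, ?_⟩
  · intro _ c' hc' hs'
    exact ExIII_out X hc hs hf c' hc' hs'
  · intro l z1 h1 _ _ h4 _
    obtain ⟨_, j, hj⟩ := rc_same X h1
    rw [hj] at hz
    simp only at hz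
    linarith
  · intro l z1 _ h1
    obtain ⟨_, j, hj⟩ := rc_same X h1
    rw [hj] at hz
    have := pol_s z1
    simp only at hz
    linarith
  · intro l z1 h1 _ h3 c1 hc1 hs1
    obtain ⟨_, j, hj⟩ := rc_same X h1
    rw [hj] at hz
    simp only at hz
    linarith

/-- a chart with the last coordinate `Mx`, by `exists_chart` (the fibre coordinate is `s`) on a
small box around `z` (in the domain of `c`, where `Mx_cont`, `Mx_mono` and `Tube.zero` hold);
the conditions are `adapted_Mx` (at `s = 0`, with `Mx_indep`), `adapted_above` (`s > 0`) and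
`adapted_H1` (`s < 0`, where `Mx = -exp (-H1)`). -/
theorem exIII {k : Λ} {z : Cov} (hz : z.2.2 = 0) :
    ∃ c' : OpenPartialHomeomorph M ((ℝ × ℝ) × ℝ), rc (X.N k) z ∈ c'.source ∧
      c'.source ⊆ X.Om ∧ ∀ y' ∈ c'.source, X.Adapted y' (fun z => (c' z).2) := by
  have hN := (X.tube k).emb
  obtain ⟨c, hc, hs⟩ := F.cover (rc (X.N k) z)
  obtain ⟨V1, hV1, hV1o, hV1c⟩ := Mx_cont X hz hc hs
  obtain ⟨V2, hV2, hV2m⟩ := Mx_mono X hz hc hs
  have hV3 := Mx_sign X hz hc hs
  have hV4 : rc (X.N k) ⁻¹' c.source ∈ 𝓝 z :=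
    (rc_cont hN).continuousAt.preimage_mem_nhds (c.open_source.mem_nhds hs)
  have hV := inter_mem (inter_mem hV1 hV2) (inter_mem hV3 hV4)
  obtain ⟨e0, he0, hball⟩ := Metric.mem_nhds_iff.1 hV
  set e := min e0 (1 / 4) with he
  have hepos : 0 < e := lt_min he0 (by norm_num)
  have hele : e ≤ 1 / 4 := min_le_right _ _
  let em : (ℝ × ℝ) × ℝ → Cov := fun x => (x.1.1, (x.1.2, x.2))
  have hemc : Continuous em := by fun_prop
  let U : Set (ℝ × ℝ) := Metric.ball (z.1, z.2.1) e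
  have hU : IsOpen U := Metric.isOpen_ball
  have hbox : ∀ x ∈ U ×ˢ Ioo (-e) e, em x ∈ Metric.ball z e := by
    rintro ⟨⟨a, b⟩, t⟩ ⟨h1, h2⟩
    rw [Metric.mem_ball] at h1 ⊢
    simp only [Prod.dist_eq, em, hz, max_lt_iff] at h1 ⊢
    exact ⟨h1.1, h1.2, by rw [Real.dist_eq, sub_zero]; exact abs_lt.2 h2⟩
  have hbox' : ∀ x ∈ U ×ˢ Ioo (-e) e, em x ∈ (V1 ∩ V2) ∩
      ({w | (w.2.2 < 0 ↔ X.Mx k c z w < 0) ∧ (w.2.2 = 0 ↔ X.Mx k c z w = 0) ∧
      (w.2.2 < 0 ↔ (c (rc (X.N k) w)).2 < (c (rc (X.N k) z)).2) ∧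
      (w.2.2 = 0 ↔ (c (rc (X.N k) w)).2 = (c (rc (X.N k) z)).2)} ∩ rc (X.N k) ⁻¹' c.source) :=
    fun x hx => hball (Metric.ball_subset_ball (min_le_left _ _) (hbox x hx))
  have hinj : InjOn (fun x : (ℝ × ℝ) × ℝ => rc (X.N k) (x.1.1, (x.1.2, x.2)))
      (U ×ˢ Ioo (-e) e) := by
    rintro ⟨⟨a, b⟩, t⟩ h1 ⟨⟨a', b'⟩, t'⟩ h2 h
    obtain ⟨j, hj⟩ := (rc_eq hN _ _).1 h
    simp only [Prod.mk.injEq] at hj
    have h3 := h1.1
    have h4 := h2.1
    simp only [U, Metric.mem_ball, Prod.dist_eq, max_lt_iff, Real.dist_eq, abs_lt] at h3 h4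
    have h5 : (j : ℝ) < 1 := by linarith [h3.1.1, h4.1.2, hj.1]
    have h6 : (-1 : ℝ) < j := by linarith [h3.1.2, h4.1.1, hj.1]
    have h7 : j < 1 := by exact_mod_cast h5
    have h8 : -1 < j := by exact_mod_cast h6
    have h9 : j = 0 := by omega
    subst h9
    simp only [Int.cast_zero, add_zero] at hj
    rw [hj.1, hj.2.1, hj.2.2]
  have hf : ContinuousOn (fun x => X.Mx k c z (em x)) (U ×ˢ Ioo (-e) e) :=
    hV1c.comp hemc.continuousOn (fun x hx => (hbox' x hx).1.1)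
  have hmono : ∀ x ∈ U, StrictMonoOn (fun t => X.Mx k c z (em (x, t))) (Ioo (-e) e) := by
    intro x hx t ht t' ht' htt
    exact hV2m _ (hbox' (x, t) ⟨hx, ht⟩).1.2 _ (hbox' (x, t') ⟨hx, ht'⟩).1.2 rfl rfl htt
  obtain ⟨C, hCs, hC⟩ := exists_chart (rc_loc_s hN) (OpenPartialHomeomorph.refl (ℝ × ℝ)) hU
    (fun _ _ => mem_univ _) hinj (fun x => X.Mx k c z (em x)) hf hmono
  refine ⟨C, ?_, ?_, ?_⟩
  · rw [hCs]
    refine ⟨((z.1, z.2.1), 0), ⟨Metric.mem_ball_self hepos, by simp [hepos]⟩, ?_⟩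
    simp only
    rw [← hz]
  · rw [hCs]
    rintro _ ⟨x, hx, rfl⟩
    refine (Om_iff X k _).2 ?_
    have h1 := hx.2
    simp only [rr]
    nlinarith [h1.1, h1.2, sq_nonneg x.1.2]
  · rw [hCs]
    rintro _ ⟨x, hx, rfl⟩
    have hxo : U ×ˢ Ioo (-e) e ∈ 𝓝 x := (hU.prod isOpen_Ioo).mem_nhds hx
    -- the box, in the coordinates
    have hev : ∀ᶠ w in 𝓝 (em x), (C (rc (X.N k) w)).2 = X.Mx k c z w := by
      let re : Cov → (ℝ × ℝ) × ℝ := fun w => ((w.1, w.2.1), w.2.2)
      have hre : Continuous re := by fun_prop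
      have h1 : re (em x) = x := rfl
      have h2 : re ⁻¹' (U ×ˢ Ioo (-e) e) ∈ 𝓝 (em x) :=
        hre.continuousAt.preimage_mem_nhds (by rw [h1]; exact hxo)
      filter_upwards [h2] with w hw
      have h3 := hC (re w) hw
      have h4 := congrArg Prod.snd h3
      exact h4
    have hord : OrdEq (em x) (fun w => (C (rc (X.N k) w)).2) (X.Mx k c z) :=
      (OrdEq.refl (em x) (X.Mx k c z)).congr hev (Eventually.of_forall fun _ => rfl)
    have hb := hbox' x hx
    have hxs : rc (X.N k) (em x) ∈ c.source := hb.2.2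
    have hsg := hb.2.1
    have hx2 := hx.2
    rcases lt_trichotomy x.2 0 with h0 | h0 | h0
    · -- below
      refine adapted_H1 X (z := em x) (by show -4 < x.2; linarith [hx2.1]) h0 ?_ ?_
      · simp only [rr, em]
        nlinarith [hx2.1, hx2.2, sq_nonneg x.1.2]
      · refine hord.trans (OrdEq.symm ?_)
        refine OrdEq.of_comp (fun y => -Real.exp (-y)) ?_ ?_
        · intro a b hab
          exact neg_lt_neg (Real.exp_lt_exp.2 (neg_lt_neg hab))
        · have h1 : ∀ᶠ w : Cov in 𝓝 (em x), w.2.2 < 0 :=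
            (continuous_snd.comp continuous_snd).continuousAt.eventually_lt_const h0
          filter_upwards [h1] with w hw
          unfold Sys.Mx
          rw [if_neg (not_le.2 hw)]
    · -- on the leaf
      refine adapted_Mx X (z := em x) h0 hc hxs ?_
      have h1 : (c (rc (X.N k) (em x))).2 = (c (rc (X.N k) z)).2 := hsg.2.2.2.1 h0
      have h2 : X.Mx k c (em x) = X.Mx k c z := by
        funext w
        unfold Sys.Mx
        rw [h1]
      rw [h2]
      exact hord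
    · -- above
      refine adapted_above X (z := em x) h0 hc hxs ?_
      refine hord.trans (OrdEq.symm ?_)
      refine OrdEq.of_comp (fun y => y - (c (rc (X.N k) z)).2) ?_ ?_
      · intro a b hab
        exact sub_lt_sub_right hab _
      · have h1 : ∀ᶠ w : Cov in 𝓝 (em x), 0 < w.2.2 :=
          (continuous_snd.comp continuous_snd).continuousAt.eventually_const_lt h0
        filter_upwards [h1] with w hw
        unfold Sys.Mx
        rw [if_pos hw.le]

end Pool.Agent.H.MP_1611f1_gt.LS
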