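import Pool.Agent.H.MP_1611f1_gt.LS.Geo

/-!
Charts away from the wall and the collar.
-/

namespace Pool.Agent.H.MP_1611f1_gt.LS

open Topology Set Filter

variable {M : Type*} [TopologicalSpace M] {F : Foliation M} {Λ : Type*} (X : Sys F Λ)

/-- away from the wall and the collar the functions of the old foliation are adapted (the three
other conditions are void) -/
theorem adapted_old {y : M} (hy : ∀ k, y ∉ X.WW k)
    {c : OpenPartialHomeomorph M ((ℝ × ℝ) × ℝ)} (hc : c ∈ F.charts) (hs : y ∈ c.source) :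
    X.Adapted y (fun z => (c z).2) := by
  refine ⟨?_, ?_, ?_, ?_⟩
  · intro _ c' hc' hs'
    exact F.compat c hc c' hc' y hs hs'
  · intro k z hz h1 h2 h3 _
    exact absurd (by rw [← hz, WW_iff]; exact ⟨rfl, Or.inl ⟨h1, h2.le, h3.le⟩⟩) (hy k)
  · intro k z hr hz
    refine absurd ?_ (hy k)
    rw [← hz, WW_iff]
    refine ⟨rfl, Or.inr ?_⟩
    rw [rr_pol]
    have h1 : (1 : ℝ) < z.2.1 := z.2.1.2.1
    nlinarith
  · intro k z hz h1 h2 _ _ _
    exact absurd (by rw [← hz, WW_iff]; exact ⟨rfl, Or.inl ⟨h1, by linarith, h2.le⟩⟩) (hy k)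

theorem adapted_congr {y : M} {f f' : M → ℝ} (h : X.Adapted y f) (h' : ∀ᶠ z in 𝓝 y, f' z = f z) :
    X.Adapted y f' := by
  have key : ∀ {Y : Type} [TopologicalSpace Y] (R : Y → M) (z : Y), Continuous R → R z = y →
      ∀ᶠ w in 𝓝 z, f' (R w) = f (R w) := by
    intro Y _ R z hR hz
    rw [← hz] at h'
    exact hR.continuousAt.eventually h'
  refine ⟨?_, ?_, ?_, ?_⟩
  · intro hy c hc hs
    exact (h.out hy c hc hs).congr h' (Eventually.of_forall fun _ => rfl)
  · intro k z hz h1 h2 h3 h4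
    exact (h.wall k z hz h1 h2 h3 h4).congr (key _ z (rc_cont (X.tube k).emb) hz)
      (Eventually.of_forall fun _ => rfl)
  · intro k z hr hz
    exact (h.collar k z hr hz).congr
      (key (fun w : Plr => rc (X.N k) (pol w)) z ((rc_cont (X.tube k).emb).comp pol_cont) hz)
      (Eventually.of_forall fun _ => rfl)
  · intro k z hz h1 h2 c hc hs
    exact (h.top k z hz h1 h2 c hc hs).congr (key _ z (rc_cont (X.tube k).emb) hz)
      (Eventually.of_forall fun _ => rfl)

/-- restriction of a chart of the old foliation -/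
theorem exO [T2Space M] [Finite Λ] {y : M} (hy : ∀ k, y ∉ X.WW k)
    {c : OpenPartialHomeomorph M ((ℝ × ℝ) × ℝ)} (hc : c ∈ F.charts) (hs : y ∈ c.source) :
    ∃ c' : OpenPartialHomeomorph M ((ℝ × ℝ) × ℝ), y ∈ c'.source ∧ c'.source ⊆ X.Om ∧
      (∀ z ∈ c'.source, (c' z).2 = (c z).2) ∧
      ∀ y' ∈ c'.source, X.Adapted y' (fun z => (c' z).2) := by
  have ho := WWc_open (X := X)
  refine ⟨c.restrOpen {y : M | ∀ k, y ∉ X.WW k} ho, ?_, ?_, ?_, ?_⟩
  · rw [OpenPartialHomeomorph.restrOpen_source]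
    exact ⟨hs, hy⟩
  · rw [OpenPartialHomeomorph.restrOpen_source]
    intro z hz
    exact Om_of_out X hz.2
  · intro z _
    rfl
  · intro y' hy'
    rw [OpenPartialHomeomorph.restrOpen_source] at hy'
    rw [OpenPartialHomeomorph.coe_restrOpen]
    exact adapted_old X hy'.2 hc hy'.1

end Pool.Agent.H.MP_1611f1_gt.LS
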