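import Pool.Agent.H.MP_1611f1_gt.LS.Spl
import Pool.Agent.H.MP_1611f1_gt.G.Ex

/-!
Splices along leaf curves: the ends of the complement exist, the glued manifolds exist.
-/

namespace Pool.Agent.H.MP_1611f1_gt.LS

open Topology Set Filter

/-- the coordinates of the cylinder on a solid torus of radius `2` -/
noncomputable def sol (z : Metric.ball (0 : ℂ) 2 × AddCircle (1 : ℝ)) : Cyl :=
  (-z.2, ((z.1 : ℂ).re, -4 + (z.1 : ℂ).im))

theorem sol_emb : IsOpenEmbedding sol := by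
  have h1 : IsOpenEmbedding (Prod.map (Subtype.val : Metric.ball (0 : ℂ) 2 → ℂ)
      (id : AddCircle (1 : ℝ) → AddCircle (1 : ℝ))) :=
    (Metric.isOpen_ball.isOpenEmbedding_subtypeVal).prodMap IsOpenEmbedding.id
  let e1 : ℂ ≃ₜ ℝ × ℝ := Complex.equivRealProdCLM.toHomeomorph.trans
    (Homeomorph.prodCongr (Homeomorph.refl ℝ) (Homeomorph.addLeft (-4)))
  let e2 : ℂ × AddCircle (1 : ℝ) ≃ₜ Cyl :=
    (Homeomorph.prodCongr e1 (Homeomorph.neg (AddCircle (1 : ℝ)))).trans (Homeomorph.prodComm _ _)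
  exact e2.isOpenEmbedding.comp h1

/-- the coordinates of the cylinder on the ends -/
noncomputable def edg (w : AddCircle (1 : ℝ) × Ioo (1 : ℝ) 2 × AddCircle (1 : ℝ)) : Cyl :=
  sol (G.psi 0 1 (-1) 0 w)

theorem edg_emb : IsOpenEmbedding edg := sol_emb.comp (G.psi_emb (by norm_num))

theorem edg_coe (θ : AddCircle (1 : ℝ)) (r : Ioo (1 : ℝ) 2) (t : ℝ) :
    edg (θ, r, (t : AddCircle (1 : ℝ))) = (θ, ((r : ℝ) * Real.cos (2 * Real.pi * t),
      -4 + (r : ℝ) * Real.sin (2 * Real.pi * t))) := by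
  have h1 : ((polar r (t : AddCircle (1 : ℝ)) : Metric.ball (0 : ℂ) 2) : ℂ) =
      (r : ℝ) * (Circle.exp (2 * Real.pi * t) : ℂ) := by
    show ((r : ℝ) : ℂ) * (AddCircle.toCircle (t : AddCircle (1 : ℝ)) : ℂ) = _
    rw [AddCircle.toCircle_apply_mk, div_one]
  have h2 : edg (θ, r, (t : AddCircle (1 : ℝ))) =
      (θ, (((polar r (t : AddCircle (1 : ℝ)) : Metric.ball (0 : ℂ) 2) : ℂ).re,
        -4 + ((polar r (t : AddCircle (1 : ℝ)) : Metric.ball (0 : ℂ) 2) : ℂ).im)) := by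
    show (-((-1 : ℤ) • θ + (0 : ℤ) • (t : AddCircle (1 : ℝ))),
      ((polar r ((0 : ℤ) • θ + (1 : ℤ) • (t : AddCircle (1 : ℝ))) : Metric.ball (0 : ℂ) 2) : ℂ).re,
      -4 + ((polar r ((0 : ℤ) • θ + (1 : ℤ) • (t : AddCircle (1 : ℝ))) :
        Metric.ball (0 : ℂ) 2) : ℂ).im) = _
    have e1 : (0 : ℤ) • θ + (1 : ℤ) • (t : AddCircle (1 : ℝ)) = (t : AddCircle (1 : ℝ)) := by
      module
    have e2 : -((-1 : ℤ) • θ + (0 : ℤ) • (t : AddCircle (1 : ℝ))) = θ := by module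
    rw [e1, e2]
  rw [h2, h1, Circle.coe_exp]
  have h3 : Complex.exp (((2 * Real.pi * t : ℝ) : ℂ) * Complex.I) =
      ⟨Real.cos (2 * Real.pi * t), Real.sin (2 * Real.pi * t)⟩ := by
    apply Complex.ext
    · rw [Complex.exp_ofReal_mul_I_re]
    · rw [Complex.exp_ofReal_mul_I_im]
  rw [h3]
  simp

theorem edg_rr (w : AddCircle (1 : ℝ) × Ioo (1 : ℝ) 2 × AddCircle (1 : ℝ)) :
    rr (edg w).2 = (w.2.1 : ℝ) ^ 2 := by
  obtain ⟨θ, r, t⟩ := w
  obtain ⟨t, rfl⟩ := QuotientAddGroup.mk_surjective t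
  obtain ⟨θ, rfl⟩ := QuotientAddGroup.mk_surjective θ
  have h1 := edg_coe (θ : AddCircle (1 : ℝ)) r t
  have h2 := rr_pol ((θ, r, t) : Plr)
  show rr (edg ((θ : AddCircle (1 : ℝ)), r, (t : AddCircle (1 : ℝ)))).2 = (r : ℝ) ^ 2
  rw [h1]
  exact h2

theorem edg_exists (z : Cyl) (h1 : 1 < rr z.2) (h2 : rr z.2 < 4) : ∃ w, edg w = z := by
  obtain ⟨θ, x⟩ := z
  obtain ⟨θ, rfl⟩ := QuotientAddGroup.mk_surjective θ
  obtain ⟨⟨θ', r, t⟩, hw⟩ := exists_pol (θ, x) h1 h2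
  refine ⟨((θ' : AddCircle (1 : ℝ)), r, (t : AddCircle (1 : ℝ))), ?_⟩
  rw [edg_coe]
  have h3 : θ' = θ := congrArg (fun y : Cov => y.1) hw
  have h4 : ((r : ℝ) * Real.cos (2 * Real.pi * t), -4 + (r : ℝ) * Real.sin (2 * Real.pi * t)) = x :=
    congrArg (fun y : Cov => y.2) hw
  rw [h3, h4]

section

variable {Y : Type*} [TopologicalSpace Y] {Λ : Type*} {N : Λ → Cyl → Y}

/-- The ends of the complement exist. -/
theorem exists_ends (hN : ∀ k, IsOpenEmbedding (N k)) (hd : ∀ k l z w, N k z = N l w → k = l)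
    (ho : IsOpen {y : Y | ∀ k, y ∉ N k '' KK}) :
    ∃ T : G.Ended {y : Y // ∀ k, y ∉ N k '' KK} Λ, ∀ k w, (T.tor k w).1 = N k (edg w) := by
  have key : ∀ k w l, N k (edg w) ∉ N l '' KK := by
    rintro k w l ⟨z, hz, h⟩
    obtain rfl := hd _ _ _ _ h
    have h1 := (hN l).injective h
    have h2 : rr z.2 ≤ 1 := hz
    rw [h1, edg_rr] at h2
    have := w.2.1.2.1
    nlinarith
  refine ⟨⟨fun k w => ⟨N k (edg w), key k w⟩, fun k => ?_, ?_⟩, fun k w => rfl⟩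
  · have hval : IsOpenEmbedding (Subtype.val : {y : Y // ∀ k, y ∉ N k '' KK} → Y) :=
      ho.isOpenEmbedding_subtypeVal
    exact IsOpenEmbedding.of_comp _ hval ((hN k).comp edg_emb)
  · intro i j z w h
    exact hd _ _ _ _ (congrArg Subtype.val h)

theorem ends_closed [T2Space Y] (hN : ∀ k, IsOpenEmbedding (N k))
    (T : G.Ended {y : Y // ∀ k, y ∉ N k '' KK} Λ) (hT : ∀ k w, (T.tor k w).1 = N k (edg w))
    (k : Λ) (ρ : ℝ) (hρ : ρ < 2) : IsClosed (T.tor k '' {w | (w.2.1 : ℝ) ≤ ρ}) := by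
  have h1 : T.tor k '' {w | (w.2.1 : ℝ) ≤ ρ} =
      Subtype.val ⁻¹' (N k '' {z | √(rr z.2) ≤ ρ}) := by
    ext y
    constructor
    · rintro ⟨w, hw, rfl⟩
      refine ⟨edg w, ?_, (hT k w).symm⟩
      show √(rr (edg w).2) ≤ ρ
      rw [edg_rr, Real.sqrt_sq (by linarith [w.2.1.2.1])]
      exact hw
    · rintro ⟨z, hz, hy⟩
      have hz' : √(rr z.2) ≤ ρ := hz
      have h2 : 1 < rr z.2 := by
        by_contra h
        exact y.2 k ⟨z, not_lt.1 h, hy⟩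
      have h3 : rr z.2 < 4 := by
        have h4 : √(rr z.2) ^ 2 = rr z.2 := Real.sq_sqrt (by linarith)
        have h5 := Real.sqrt_nonneg (rr z.2)
        nlinarith
      obtain ⟨w, rfl⟩ := edg_exists z h2 h3
      refine ⟨w, ?_, Subtype.ext ((hT k w).trans hy)⟩
      show (w.2.1 : ℝ) ≤ ρ
      rw [edg_rr, Real.sqrt_sq (by linarith [w.2.1.2.1])] at hz'
      exact hz'
  rw [h1]
  refine IsClosed.preimage continuous_subtype_val ?_
  have hcont : Continuous fun z : Cyl => √(rr z.2) := by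
    unfold rr
    fun_prop
  have h2 : {z : Cyl | √(rr z.2) ≤ ρ} ⊆
      (univ : Set (AddCircle (1 : ℝ))) ×ˢ (Icc (-2 : ℝ) 2 ×ˢ Icc (-6 : ℝ) (-2)) := by
    rintro ⟨θ, u, s⟩ h
    have h3 : √(u ^ 2 + (s + 4) ^ 2) ≤ ρ := h
    have h4 : u ^ 2 + (s + 4) ^ 2 ≤ 4 := by
      have h5 : √(u ^ 2 + (s + 4) ^ 2) ^ 2 = u ^ 2 + (s + 4) ^ 2 := Real.sq_sqrt (by positivity)
      have h6 := Real.sqrt_nonneg (u ^ 2 + (s + 4) ^ 2)
      nlinarith
    refine ⟨mem_univ _, ⟨?_, ?_⟩, ?_, ?_⟩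
    · show -2 ≤ u
      nlinarith [sq_nonneg (s + 4)]
    · show u ≤ 2
      nlinarith [sq_nonneg (s + 4)]
    · show -6 ≤ s
      nlinarith [sq_nonneg u]
    · show s ≤ -2
      nlinarith [sq_nonneg u]
  have h3 : IsClosed {z : Cyl | √(rr z.2) ≤ ρ} := isClosed_le hcont continuous_const
  have h4 : IsCompact {z : Cyl | √(rr z.2) ≤ ρ} :=
    (isCompact_univ.prod (isCompact_Icc.prod isCompact_Icc)).of_isClosed_subset h3 h2
  exact (h4.image (hN k).continuous).isClosed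

end

end Pool.Agent.H.MP_1611f1_gt.LS
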