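import Pool.Agent.H.MP_1611f1_gt.LS.FinA

/-!
Splices along leaf curves: the glued manifolds are compact; the final theorem.
-/

namespace Pool.Agent.H.MP_1611f1_gt.LS

open Topology Set Filter

/-- the part of a manifold with toral ends which is left if the collars are cut at `r = 7/6` -/
def core {M : Type*} [TopologicalSpace M] {J : Type*} (T : G.Ended M J) : Set M :=
  {m | ∀ j w, m = T.tor j w → 7 / 6 ≤ (w.2.1 : ℝ)}

theorem union_compact {V : Type*} [Finite V] {M : V → Type*} [∀ v, TopologicalSpace (M v)]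
    {J : V → Type*} [∀ v, Finite (J v)] {T : ∀ v, G.Ended (M v) (J v)}
    {Pt : G.Pattern (Σ v, J v)} {Z : Type*} [TopologicalSpace Z] (U : G.Union T Pt Z)
    (hC : ∀ v, IsCompact (core (T v))) : CompactSpace Z := by
  constructor
  have hp : Continuous U.p := U.p_loc.continuous
  have h1 : IsCompact (⋃ v, U.p '' (Sigma.mk v '' core (T v))) := by
    refine isCompact_iUnion fun v => ?_
    exact ((hC v).image continuous_sigmaMk).image hp
  have hb : IsCompact {b : Metric.ball (0 : ℂ) 2 | ‖(b : ℂ)‖ ≤ 7 / 6} := by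
    rw [(IsEmbedding.subtypeVal (p := fun b : ℂ => b ∈ Metric.ball (0 : ℂ) 2)).isCompact_iff]
    have h2 : (Subtype.val '' {b : Metric.ball (0 : ℂ) 2 | ‖(b : ℂ)‖ ≤ 7 / 6}) =
        Metric.closedBall (0 : ℂ) (7 / 6) := by
      ext b
      constructor
      · rintro ⟨b', hb', rfl⟩
        exact mem_closedBall_zero_iff.2 hb'
      · intro hb'
        have h3 : ‖b‖ ≤ 7 / 6 := mem_closedBall_zero_iff.1 hb'
        exact ⟨⟨b, mem_ball_zero_iff.2 (by linarith)⟩, h3, rfl⟩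
    rw [h2]
    exact isCompact_closedBall _ _
  have h2 : IsCompact (⋃ e, U.q e '' ({b : Metric.ball (0 : ℂ) 2 | ‖(b : ℂ)‖ ≤ 7 / 6} ×ˢ
      (univ : Set (AddCircle (1 : ℝ))))) := by
    refine isCompact_iUnion fun e => ?_
    exact (hb.prod isCompact_univ).image (U.q_emb e).continuous
  have hin : ∀ (e : Σ v, J v) (w : AddCircle (1 : ℝ) × Ioo (1 : ℝ) 2 × AddCircle (1 : ℝ)),
      7 / 6 ≤ (w.2.1 : ℝ) → U.p ⟨e.1, (T e.1).tor e.2 w⟩ ∈
        ⋃ v, U.p '' (Sigma.mk v '' core (T v)) := by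
    intro e w hw
    refine mem_iUnion.2 ⟨e.1, mem_image_of_mem _ (mem_image_of_mem _ ?_)⟩
    intro j w' h
    obtain rfl := (T e.1).disj _ _ _ _ h
    rw [← ((T e.1).emb e.2).injective h]
    exact hw
  have h3 : (univ : Set Z) = (⋃ v, U.p '' (Sigma.mk v '' core (T v))) ∪
      (⋃ e, U.q e '' ({b : Metric.ball (0 : ℂ) 2 | ‖(b : ℂ)‖ ≤ 7 / 6} ×ˢ
        (univ : Set (AddCircle (1 : ℝ))))) := by
    refine (eq_univ_of_forall fun y => ?_).symm
    rcases U.cover y with ⟨⟨v, m⟩, rfl⟩ | ⟨e, ⟨b, η⟩, rfl⟩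
    · by_cases hm : m ∈ core (T v)
      · exact Or.inl (mem_iUnion.2 ⟨v, mem_image_of_mem _ (mem_image_of_mem _ hm)⟩)
      · have h4 : ∃ j w, m = (T v).tor j w ∧ (w.2.1 : ℝ) < 7 / 6 := by
          by_contra h
          push Not at h
          exact hm h
        obtain ⟨j, ⟨θ, r, t⟩, rfl, hr⟩ := h4
        have hr' : (r : ℝ) < 7 / 6 := hr
        by_cases he : Pt.τ ⟨v, j⟩ = ⟨v, j⟩
        · right
          refine mem_iUnion.2 ⟨⟨⟨v, j⟩, he⟩, ?_⟩
          have h5 := U.glue ⟨⟨v, j⟩, he⟩ θ t r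
          rw [show U.p ⟨v, (T v).tor j (θ, r, t)⟩ = _ from h5]
          refine mem_image_of_mem _ ⟨?_, mem_univ _⟩
          show ‖((polar r _ : Metric.ball (0 : ℂ) 2) : ℂ)‖ ≤ 7 / 6
          rw [G.ExA_norm]
          exact hr'.le
        · left
          have h1r := r.2.1
          let r' : Ioo (1 : ℝ) 2 := ⟨7 / 3 - r, by linarith, by linarith⟩
          have h5 := (U.p_eq ⟨v, (T v).tor j (θ, r, t)⟩ _).2 (Or.inr
            ⟨⟨v, j⟩, θ, t, r, r', he, by show (r : ℝ) + (7 / 3 - r) = 7 / 3; ring, rfl, rfl⟩)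
          rw [h5]
          apply hin
          show 7 / 6 ≤ 7 / 3 - (r : ℝ)
          linarith
    · by_cases hb : ‖(b : ℂ)‖ ≤ 7 / 6
      · exact Or.inr (mem_iUnion.2 ⟨e, mem_image_of_mem _ ⟨hb, mem_univ _⟩⟩)
      · left
        have h5 : 1 < ‖(b : ℂ)‖ := by
          have := not_le.1 hb
          linarith
        have hdet := Pt.det_fill e.1 e.2
        have h6 := U.glue e (Pt.de e.1 • G.aI b - Pt.be e.1 • η)
          (Pt.al e.1 • η - Pt.ga e.1 • G.aI b) (G.rI b)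
        have h7 : Pt.al e.1 • (Pt.de e.1 • G.aI b - Pt.be e.1 • η) +
            Pt.be e.1 • (Pt.al e.1 • η - Pt.ga e.1 • G.aI b) = G.aI b := by
          have : Pt.al e.1 • (Pt.de e.1 • G.aI b - Pt.be e.1 • η) +
            Pt.be e.1 • (Pt.al e.1 • η - Pt.ga e.1 • G.aI b) =
              (Pt.al e.1 * Pt.de e.1 - Pt.be e.1 * Pt.ga e.1) • G.aI b := by module
          rw [this, hdet, one_smul]
        have h8 : Pt.ga e.1 • (Pt.de e.1 • G.aI b - Pt.be e.1 • η) +
            Pt.de e.1 • (Pt.al e.1 • η - Pt.ga e.1 • G.aI b) = η := by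
          have : Pt.ga e.1 • (Pt.de e.1 • G.aI b - Pt.be e.1 • η) +
            Pt.de e.1 • (Pt.al e.1 • η - Pt.ga e.1 • G.aI b) =
              (Pt.al e.1 * Pt.de e.1 - Pt.be e.1 * Pt.ga e.1) • η := by module
          rw [this, hdet, one_smul]
        rw [h7, h8, G.polar_inv h5] at h6
        rw [← h6]
        apply hin
        show 7 / 6 ≤ (G.rI b : ℝ)
        rw [G.rI_val h5]
        exact (not_le.1 hb).le
  rw [h3]
  exact h1.union h2

section

variable {Y : Type*} [TopologicalSpace Y] {Λ : Type*} {N : Λ → Cyl → Y}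

theorem core_compact [CompactSpace Y] (hN : ∀ k, IsOpenEmbedding (N k))
    (T : G.Ended {y : Y // ∀ k, y ∉ N k '' KK} Λ) (hT : ∀ k w, (T.tor k w).1 = N k (edg w)) :
    IsCompact (core T) := by
  rw [(IsEmbedding.subtypeVal (p := fun y : Y => ∀ k, y ∉ N k '' KK)).isCompact_iff]
  have hcont : Continuous fun z : Cyl => √(rr z.2) := by
    unfold rr
    fun_prop
  have h1 : (Subtype.val '' core T : Set Y) = ⋂ k, (N k '' {z | √(rr z.2) < 7 / 6})ᶜ := by
    ext y
    rw [mem_iInter]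
    constructor
    · rintro ⟨m, hm, rfl⟩ k ⟨z, hz, hzy⟩
      have hz' : √(rr z.2) < 7 / 6 := hz
      have h2 : 1 < rr z.2 := by
        by_contra h
        exact m.2 k ⟨z, not_lt.1 h, hzy⟩
      have h3 : rr z.2 < 4 := by
        have h4 : √(rr z.2) ^ 2 = rr z.2 := Real.sq_sqrt (by linarith)
        have h5 := Real.sqrt_nonneg (rr z.2)
        nlinarith
      obtain ⟨w, rfl⟩ := edg_exists z h2 h3
      have h4 := hm k w (Subtype.ext (hzy.symm.trans (hT k w).symm))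
      rw [edg_rr, Real.sqrt_sq (by linarith [w.2.1.2.1])] at hz'
      linarith
    · intro h
      have h2 : ∀ k, y ∉ N k '' KK := by
        rintro k ⟨z, hz, hzy⟩
        refine h k ⟨z, ?_, hzy⟩
        have h3 : rr z.2 ≤ 1 := hz
        have h4 : √(rr z.2) ≤ 1 := by
          rw [Real.sqrt_le_one]
          exact h3
        show √(rr z.2) < 7 / 6
        linarith
      refine ⟨⟨y, h2⟩, fun j w hw => ?_, rfl⟩
      by_contra hlt
      refine h j ⟨edg w, ?_, ?_⟩
      · show √(rr (edg w).2) < 7 / 6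
        rw [edg_rr, Real.sqrt_sq (by linarith [w.2.1.2.1])]
        exact not_le.1 hlt
      · rw [← hT j w, ← hw]
  rw [h1]
  refine (isClosed_iInter fun k => ?_).isCompact
  exact ((hN k).isOpenMap _ (isOpen_lt hcont continuous_const)).isClosed_compl

end

/-- **Detected slopes.** The complement of leaf curves with non-trivial holonomy has taut
foliations which are linear near the new ends, with any real slopes but the leaf slopes. -/
theorem leaf_detect {Y : Type*} [TopologicalSpace Y] [T2Space Y] {Λ : Type*} [Finite Λ]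
    {F : Foliation Y} (hF : F.Taut) {N : Λ → Cyl → Y} (hN : ∀ k, HolCurve F (N k))
    (hd : ∀ k l z w, N k z = N l w → k = l) (T : G.Ended {y : Y // ∀ k, y ∉ N k '' KK} Λ)
    (hT : ∀ k (θ : AddCircle (1 : ℝ)) (r : Ioo (1 : ℝ) 2) (t : ℝ),
      (T.tor k (θ, r, (t : AddCircle (1 : ℝ)))).1 =
        N k (θ, ((r : ℝ) * Real.cos (2 * Real.pi * t),
          -4 + (r : ℝ) * Real.sin (2 * Real.pi * t)))) :
    ∃ κ : Λ → ℝ, (∀ k, κ k ≠ 0) ∧ ∀ x y : Λ → ℝ, (∀ k, 0 < κ k * x k) → G.Detected T x y := by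
  let T₀ : G.Ended Y Empty := ⟨fun j => j.elim, fun j => j.elim, fun j => j.elim⟩
  obtain ⟨T', D, hD, hT'⟩ := spl_drill (Om_open' fun k => (hN k).emb) T hT T₀
  obtain ⟨κ, hκ, h⟩ := drill_hol hF (T := T₀) (x := fun j => j.elim)
    (y := fun j => j.elim) (fun j => j.elim) hN hd (fun k z j w => j.elim) D
  refine ⟨κ, hκ, fun x y hx => ?_⟩
  obtain ⟨F', hF', hlin, -⟩ := h x y hx
  refine ⟨F', hF', fun k z hz c hc hs => ?_⟩
  have e1 : ∀ w, T'.cov (Sum.inr k) w = T.cov k w := by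
    intro w
    show T'.tor (Sum.inr k) _ = _
    rw [hT']
    rfl
  have h1 := hlin (Sum.inr k) z hz c hc (by rw [e1]; exact hs)
  simp only [e1] at h1
  exact h1

/-- **Splices and surgeries along leaf curves**, with the existence of the manifolds. -/
theorem splice_main {V : Type} {Y : V → Type} [∀ v, TopologicalSpace (Y v)]
    [∀ v, T2Space (Y v)] {Λ : V → Type} [∀ v, Finite (Λ v)] (F : ∀ v, Foliation (Y v))
    (hF : ∀ v, (F v).Taut) (N : ∀ v, Λ v → Cyl → Y v) (hN : ∀ v k, HolCurve (F v) (N v k))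
    (hd : ∀ v k l z w, N v k z = N v l w → k = l) :
    ∃ T : ∀ v, G.Ended {y : Y v // ∀ k, y ∉ N v k '' KK} (Λ v),
      (∀ v k (θ : AddCircle (1 : ℝ)) (r : Ioo (1 : ℝ) 2) (t : ℝ),
        ((T v).tor k (θ, r, (t : AddCircle (1 : ℝ)))).1 =
          N v k (θ, ((r : ℝ) * Real.cos (2 * Real.pi * t),
            -4 + (r : ℝ) * Real.sin (2 * Real.pi * t)))) ∧
      (∀ v, ∃ κ : Λ v → ℝ, (∀ k, κ k ≠ 0) ∧
        ∀ x y : Λ v → ℝ, (∀ k, 0 < κ k * x k) → G.Detected (T v) x y) ∧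
      ∀ Pt : G.Pattern (Σ v, Λ v),
        ((∀ e, Pt.ga e ≠ 0) → ∀ (Z : Type) [TopologicalSpace Z], G.Union T Pt Z →
          ∃ F' : Foliation Z, F'.Taut) ∧
        ∃ (Z : Type) (_ : TopologicalSpace Z), T2Space Z ∧ Nonempty (G.Union T Pt Z) ∧
          (Finite V → (∀ v, CompactSpace (Y v)) → CompactSpace Z) := by
  choose T hT using fun v =>
    exists_ends (fun k => (hN v k).emb) (hd v) (Om_open' fun k => (hN v k).emb)
  have hT' : ∀ v k (θ : AddCircle (1 : ℝ)) (r : Ioo (1 : ℝ) 2) (t : ℝ),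
      ((T v).tor k (θ, r, (t : AddCircle (1 : ℝ)))).1 =
        N v k (θ, ((r : ℝ) * Real.cos (2 * Real.pi * t),
          -4 + (r : ℝ) * Real.sin (2 * Real.pi * t))) := by
    intro v k θ r t
    rw [hT v k, edg_coe]
  refine ⟨T, hT', fun v => leaf_detect (hF v) (hN v) (hd v) (T v) (hT' v), fun Pt => ⟨?_, ?_⟩⟩
  · intro hga Z _ U
    exact leaf_splice F hF N hN hd T hT' Pt hga U
  · obtain ⟨Z, hZ, hZ2, ⟨U⟩⟩ := G.exists_union_t2 T Pt
      (fun v k ρ hρ => ends_closed (fun k => (hN v k).emb) (T v) (hT v) k ρ hρ)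
    refine ⟨Z, hZ, hZ2, ⟨U⟩, fun hV hY => ?_⟩
    exact union_compact U fun v => core_compact (fun k => (hN v k).emb) (T v) (hT v)

end Pool.Agent.H.MP_1611f1_gt.LS
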