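import Pool.Agent.H.MP_1611f1_gt.LS.Base

/-!
The explicit functions `ramp`, `cut`, `zet`.
-/

namespace Pool.Agent.H.MP_1611f1_gt.LS

open Topology Set Filter

theorem ramp_cont : Continuous ramp := by
  unfold ramp
  fun_prop

theorem ramp_zero {u : ℝ} (h : 1 ≤ u) : ramp u = 0 := by
  unfold ramp
  rw [min_eq_right (by linarith), max_eq_left (by linarith)]

theorem ramp_one {u : ℝ} (h : u ≤ -1) : ramp u = 1 := by
  unfold ramp
  rw [min_eq_left (by linarith), max_eq_right (by linarith)]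

theorem ramp_const {u : ℝ} (h : 1 < |u|) : ∀ᶠ u' in 𝓝 u, ramp u' = ramp u := by
  rcases lt_abs.1 h with h1 | h1
  · filter_upwards [lt_mem_nhds h1] with u' hu'
    rw [ramp_zero hu'.le, ramp_zero h1.le]
  · have h2 : u < -1 := by linarith
    filter_upwards [gt_mem_nhds h2] with u' hu'
    rw [ramp_one hu'.le, ramp_one h2.le]

theorem cut_cont : Continuous cut := by
  unfold cut
  fun_prop

theorem cut_mem (r : ℝ) : cut r ∈ Icc (0 : ℝ) 1 := by
  unfold cut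
  exact ⟨le_max_left _ _, max_le zero_le_one (min_le_left _ _)⟩

theorem cut_zero {r : ℝ} (h : r ≤ 4 / 3) : cut r = 0 := by
  unfold cut
  rw [min_eq_right (by linarith), max_eq_left (by linarith)]

theorem cut_one {r : ℝ} (h : 5 / 3 ≤ r) : cut r = 1 := by
  unfold cut
  rw [min_eq_left (by linarith), max_eq_right (by linarith)]

theorem FnA_cos (t : ℝ) (j : ℤ) :
    Real.cos (2 * Real.pi * (t + j)) = Real.cos (2 * Real.pi * t) := by
  rw [show 2 * Real.pi * (t + j) = 2 * Real.pi * t + j * (2 * Real.pi) by ring]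
  exact Real.cos_add_int_mul_two_pi _ _

theorem FnA_sin (t : ℝ) (j : ℤ) :
    Real.sin (2 * Real.pi * (t + j)) = Real.sin (2 * Real.pi * t) := by
  rw [show 2 * Real.pi * (t + j) = 2 * Real.pi * t + j * (2 * Real.pi) by ring]
  exact Real.sin_add_int_mul_two_pi _ _

theorem zet_add (r t : ℝ) (j : ℤ) : zet r (t + j) = zet r t + j := by
  unfold zet
  rw [Int.floor_add_intCast, Int.fract_add_intCast, FnA_cos]
  push_cast
  ring

theorem FnA_cos0 (j : ℤ) : Real.cos (2 * Real.pi * (j : ℝ)) = 1 := by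
  have h := FnA_cos 0 j
  rw [zero_add] at h
  rw [h, mul_zero, Real.cos_zero]

theorem FnA_cos1 (j : ℤ) : Real.cos (2 * Real.pi * ((j : ℝ) + 1 / 2)) = -1 := by
  have h := FnA_cos (1 / 2) j
  rw [add_comm (j : ℝ), h, show 2 * Real.pi * (1 / 2) = Real.pi by ring, Real.cos_pi]

theorem zet_up {r t : ℝ} (j : ℤ) (ht : t ∈ Icc (j : ℝ) (j + 1 / 2)) :
    zet r t = j + ramp (r * Real.cos (2 * Real.pi * t)) := by
  have h1 : ⌊t⌋ = j := Int.floor_eq_iff.2 ⟨ht.1, by linarith [ht.2]⟩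
  have h2 : Int.fract t ≤ 1 / 2 := by
    unfold Int.fract
    rw [h1]
    linarith [ht.2]
  unfold zet
  rw [if_pos h2, h1]

theorem zet_down {r t : ℝ} (hr : 1 ≤ r) (j : ℤ) (ht : t ∈ Icc ((j : ℝ) + 1 / 2) (j + 1)) :
    zet r t = j + 1 := by
  rcases eq_or_lt_of_le ht.2 with h1 | h1
  · have h2 := zet_up (r := r) (t := t) (j + 1) (by
      rw [h1]
      push_cast
      exact ⟨le_rfl, by linarith⟩)
    rw [h2, h1]
    have h3 : Real.cos (2 * Real.pi * ((j : ℝ) + 1)) = 1 := by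
      have h4 := FnA_cos0 (j + 1)
      push_cast at h4
      exact h4
    rw [h3, mul_one, ramp_zero hr]
    push_cast
    ring
  · rcases eq_or_lt_of_le ht.1 with h2 | h2
    · have h3 := zet_up (r := r) (t := t) j ⟨by linarith, by linarith⟩
      rw [h3, ← h2, FnA_cos1, ramp_one (by linarith)]
    · have h3 : ⌊t⌋ = j := Int.floor_eq_iff.2 ⟨by linarith, h1⟩
      have h4 : ¬ Int.fract t ≤ 1 / 2 := by
        unfold Int.fract
        rw [h3]
        intro h5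
        linarith
      unfold zet
      rw [if_neg h4, h3]

/-- one formula near the closed interval `[j, j + 1/2]` -/
theorem FnA_loc {r t : ℝ} (hr : 1 ≤ r) (j : ℤ) (ht : t ∈ Icc ((j : ℝ) - 1 / 2) (j + 1)) :
    zet r t = j + ramp (r * Real.cos (2 * Real.pi * max (j : ℝ) (min t (j + 1 / 2)))) := by
  rcases le_total t j with h1 | h1
  · have h2 := zet_down hr (t := t) (j - 1) (by
      push_cast
      exact ⟨by linarith [ht.1], by linarith⟩)
    rw [h2, min_eq_left (by linarith), max_eq_left h1, FnA_cos0, mul_one, ramp_zero hr]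
    push_cast
    ring
  · rcases le_total t (j + 1 / 2) with h2 | h2
    · rw [zet_up j ⟨h1, h2⟩, min_eq_left h2, max_eq_right h1]
    · rw [zet_down hr j ⟨h2, ht.2⟩, min_eq_right h2, max_eq_right (by linarith), FnA_cos1,
        ramp_one (by linarith)]

theorem FnA_ev (r : Ioo (1 : ℝ) 2) (t : ℝ) :
    ∀ᶠ w : Ioo (1 : ℝ) 2 × ℝ in 𝓝 (r, t), zet w.1 w.2 = (⌊t⌋ : ℝ) +
      ramp ((w.1 : ℝ) * Real.cos (2 * Real.pi * max (⌊t⌋ : ℝ) (min w.2 ((⌊t⌋ : ℝ) + 1 / 2)))) := by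
  have h1 : (⌊t⌋ : ℝ) - 1 / 2 < t := by linarith [Int.floor_le t]
  have h2 : t < (⌊t⌋ : ℝ) + 1 := Int.lt_floor_add_one t
  have h3 : ∀ᶠ w : Ioo (1 : ℝ) 2 × ℝ in 𝓝 (r, t), w.2 ∈ Ioo ((⌊t⌋ : ℝ) - 1 / 2) (⌊t⌋ + 1) :=
    continuous_snd.continuousAt.eventually (Ioo_mem_nhds h1 h2)
  filter_upwards [h3] with w hw
  exact FnA_loc w.1.2.1.le _ ⟨hw.1.le, hw.2.le⟩

theorem FnA_fcont (j : ℤ) : Continuous fun w : Ioo (1 : ℝ) 2 × ℝ =>
    (w.1 : ℝ) * Real.cos (2 * Real.pi * max (j : ℝ) (min w.2 ((j : ℝ) + 1 / 2))) := by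
  have h1 : Continuous fun w : Ioo (1 : ℝ) 2 × ℝ => (w.1 : ℝ) :=
    continuous_subtype_val.comp continuous_fst
  fun_prop

theorem zet_cont : Continuous fun z : Ioo (1 : ℝ) 2 × ℝ => zet z.1 z.2 := by
  rw [continuous_iff_continuousAt]
  rintro ⟨r, t⟩
  have h1 : Continuous fun w : Ioo (1 : ℝ) 2 × ℝ => (⌊t⌋ : ℝ) +
      ramp ((w.1 : ℝ) * Real.cos (2 * Real.pi * max (⌊t⌋ : ℝ) (min w.2 ((⌊t⌋ : ℝ) + 1 / 2)))) :=
    continuous_const.add (ramp_cont.comp (FnA_fcont _))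
  exact h1.continuousAt.congr (Filter.EventuallyEq.symm (FnA_ev r t))

theorem FnA_sin_fract (t : ℝ) :
    Real.sin (2 * Real.pi * t) = Real.sin (2 * Real.pi * Int.fract t) := by
  have h := FnA_sin (Int.fract t) ⌊t⌋
  rw [Int.fract_add_floor] at h
  exact h

theorem FnA_sin_nonpos {t : ℝ} (h : 1 / 2 ≤ Int.fract t) : Real.sin (2 * Real.pi * t) ≤ 0 := by
  have hp := Real.pi_pos
  have h1 := Int.fract_lt_one t
  rw [FnA_sin_fract, ← Real.sin_sub_two_pi]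
  apply Real.sin_nonpos_of_nonpos_of_neg_pi_le
  · nlinarith
  · nlinarith

theorem FnA_sin_neg {t : ℝ} (h : 1 / 2 < Int.fract t) : Real.sin (2 * Real.pi * t) < 0 := by
  have hp := Real.pi_pos
  have h1 := Int.fract_lt_one t
  rw [FnA_sin_fract, ← Real.sin_sub_two_pi]
  apply Real.sin_neg_of_neg_of_neg_pi_lt
  · nlinarith
  · nlinarith

theorem FnA_sin_nonneg {t : ℝ} (h : Int.fract t ≤ 1 / 2) : 0 ≤ Real.sin (2 * Real.pi * t) := by
  have hp := Real.pi_pos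
  have h1 := Int.fract_nonneg t
  rw [FnA_sin_fract]
  apply Real.sin_nonneg_of_nonneg_of_le_pi
  · positivity
  · nlinarith

/-- above the core, `sin > 0`, one has `t ∈ (j, j + 1/2)` -/
theorem zet_wall {r : Ioo (1 : ℝ) 2} {t : ℝ} (h : 0 < Real.sin (2 * Real.pi * t)) :
    ∃ j : ℤ, ∀ᶠ w : Ioo (1 : ℝ) 2 × ℝ in 𝓝 (r, t),
      zet w.1 w.2 = j + ramp (w.1 * Real.cos (2 * Real.pi * w.2)) := by
  have h1 : Int.fract t < 1 / 2 := by
    by_contra hc
    have h2 := FnA_sin_nonpos (not_lt.1 hc)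
    linarith
  have h2 : 0 < Int.fract t := by
    rcases (Int.fract_nonneg t).eq_or_lt with h3 | h3
    · rw [FnA_sin_fract, ← h3, mul_zero, Real.sin_zero] at h
      exact absurd h (lt_irrefl _)
    · exact h3
  have h3 : (⌊t⌋ : ℝ) < t := by
    have := Int.fract_add_floor t
    linarith
  have h4 : t < (⌊t⌋ : ℝ) + 1 / 2 := by
    have := Int.fract_add_floor t
    linarith
  refine ⟨⌊t⌋, ?_⟩
  have h5 : ∀ᶠ w : Ioo (1 : ℝ) 2 × ℝ in 𝓝 (r, t), w.2 ∈ Ioo (⌊t⌋ : ℝ) (⌊t⌋ + 1 / 2) :=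
    continuous_snd.continuousAt.eventually (Ioo_mem_nhds h3 h4)
  filter_upwards [h5] with w hw
  exact zet_up _ ⟨hw.1.le, hw.2.le⟩

/-- away from the wall `zet` is locally constant: either `|r cos| > 1`, or `sin < 0` -/
theorem zet_const {r : Ioo (1 : ℝ) 2} {t : ℝ} (h : ((r : ℝ) * Real.cos (2 * Real.pi * t),
    -4 + (r : ℝ) * Real.sin (2 * Real.pi * t)) ∉ Wall) :
    ∀ᶠ w : Ioo (1 : ℝ) 2 × ℝ in 𝓝 (r, t), zet w.1 w.2 = zet r t := by
  have hr1 := r.2.1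
  have hr2 := r.2.2
  have hfl := Int.fract_add_floor t
  by_cases hs : Int.fract t ≤ 1 / 2
  · have hsin := FnA_sin_nonneg hs
    have hsin1 := Real.sin_le_one (2 * Real.pi * t)
    have habs : 1 < |(r : ℝ) * Real.cos (2 * Real.pi * t)| := by
      by_contra hc
      apply h
      left
      refine ⟨not_lt.1 hc, ?_, ?_⟩
      · show -4 ≤ -4 + (r : ℝ) * Real.sin (2 * Real.pi * t)
        have : 0 ≤ (r : ℝ) * Real.sin (2 * Real.pi * t) := mul_nonneg (by linarith) hsin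
        linarith
      · show -4 + (r : ℝ) * Real.sin (2 * Real.pi * t) ≤ 0
        nlinarith
    have hcl : max (⌊t⌋ : ℝ) (min t ((⌊t⌋ : ℝ) + 1 / 2)) = t := by
      rw [min_eq_left (by linarith), max_eq_right (Int.floor_le t)]
    have h1 := (FnA_fcont ⌊t⌋).continuousAt (x := (r, t))
    have h2 : ∀ᶠ w : Ioo (1 : ℝ) 2 × ℝ in 𝓝 (r, t),
        ramp ((w.1 : ℝ) * Real.cos (2 * Real.pi *
          max (⌊t⌋ : ℝ) (min w.2 ((⌊t⌋ : ℝ) + 1 / 2)))) =
        ramp ((r : ℝ) * Real.cos (2 * Real.pi * t)) := by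
      have h3 := ramp_const habs
      have h4 : Tendsto (fun w : Ioo (1 : ℝ) 2 × ℝ =>
          (w.1 : ℝ) * Real.cos (2 * Real.pi * max (⌊t⌋ : ℝ) (min w.2 ((⌊t⌋ : ℝ) + 1 / 2))))
          (𝓝 (r, t)) (𝓝 ((r : ℝ) * Real.cos (2 * Real.pi * t))) := by
        have h5 := h1.tendsto
        simp only [hcl] at h5
        exact h5
      exact h4.eventually h3
    filter_upwards [FnA_ev r t, h2] with w hw hw2
    rw [hw, hw2]
    exact (zet_up _ ⟨Int.floor_le t, by linarith⟩).symm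
  · rw [not_le] at hs
    have h3 : (⌊t⌋ : ℝ) + 1 / 2 < t := by linarith
    have h4 : t < (⌊t⌋ : ℝ) + 1 := Int.lt_floor_add_one t
    have h5 : ∀ᶠ w : Ioo (1 : ℝ) 2 × ℝ in 𝓝 (r, t),
        w.2 ∈ Ioo ((⌊t⌋ : ℝ) + 1 / 2) (⌊t⌋ + 1) :=
      continuous_snd.continuousAt.eventually (Ioo_mem_nhds h3 h4)
    filter_upwards [h5] with w hw
    rw [zet_down w.1.2.1.le ⌊t⌋ ⟨hw.1.le, hw.2.le⟩, zet_down hr1.le ⌊t⌋ ⟨h3.le, h4.le⟩]

end Pool.Agent.H.MP_1611f1_gt.LS
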