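import Pool.Agent.H.MP_1611f1_gt.LS.RcB

/-!
The sets `WW` and `Om`.
-/

namespace Pool.Agent.H.MP_1611f1_gt.LS

open Topology Set Filter

variable {M : Type*} [TopologicalSpace M] {F : Foliation M} {Λ : Type*} (X : Sys F Λ)

theorem Geo_rr_cont : Continuous rr := by
  unfold rr
  fun_prop

theorem Geo_Wall_closed : IsClosed Wall := by
  have h1 : IsClosed {z : ℝ × ℝ | |z.1| ≤ 1} :=
    isClosed_le (continuous_fst.abs) continuous_const
  have h2 : IsClosed {z : ℝ × ℝ | -4 ≤ z.2} := isClosed_le continuous_const continuous_snd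
  have h3 : IsClosed {z : ℝ × ℝ | z.2 ≤ 0} := isClosed_le continuous_snd continuous_const
  have h4 : IsClosed {z : ℝ × ℝ | rr z ≤ 25 / 9} := isClosed_le Geo_rr_cont continuous_const
  exact (h1.inter (h2.inter h3)).union h4

theorem Wall_compact : IsCompact Wall := by
  refine IsCompact.of_isClosed_subset
    ((isCompact_Icc (a := (-2 : ℝ)) (b := 2)).prod (isCompact_Icc (a := (-6 : ℝ)) (b := 0)))
    Geo_Wall_closed ?_
  rintro ⟨u, s⟩ h
  simp only [mem_prod, mem_Icc]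
  rcases h with ⟨h1, h2, h3⟩ | h
  · simp only at h1 h2 h3
    rw [abs_le] at h1
    refine ⟨⟨?_, ?_⟩, ?_, ?_⟩ <;> linarith [h1.1, h1.2]
  · unfold rr at h
    simp only at h
    have h1 : u ^ 2 ≤ 25 / 9 := by nlinarith [sq_nonneg (s + 4)]
    have h2 : (s + 4) ^ 2 ≤ 25 / 9 := by nlinarith [sq_nonneg u]
    refine ⟨⟨?_, ?_⟩, ?_, ?_⟩ <;> nlinarith

theorem WW_closed [T2Space M] (k : Λ) : IsClosed (X.WW k) := by
  have h1 : IsCompact ((univ : Set (AddCircle (1 : ℝ))) ×ˢ Wall) :=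
    isCompact_univ.prod Wall_compact
  have h2 : {z : Cyl | z.2 ∈ Wall} = (univ : Set (AddCircle (1 : ℝ))) ×ˢ Wall := by
    ext z
    simp
  have h3 : IsCompact (X.WW k) := by
    unfold Sys.WW
    rw [h2]
    exact h1.image (X.tube k).emb.continuous
  exact h3.isClosed

theorem WWc_open [T2Space M] [Finite Λ] : IsOpen {y : M | ∀ k, y ∉ X.WW k} := by
  have h1 : {y : M | ∀ k, y ∉ X.WW k} = ⋂ k, (X.WW k)ᶜ := by
    ext y
    simp
  rw [h1]
  exact isOpen_iInter_of_finite fun k => (WW_closed X k).isOpen_compl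

theorem Geo_KK_compact : IsCompact KK := by
  have h1 : IsCompact ((univ : Set (AddCircle (1 : ℝ))) ×ˢ Wall) :=
    isCompact_univ.prod Wall_compact
  refine h1.of_isClosed_subset ?_ ?_
  · exact isClosed_le (Geo_rr_cont.comp continuous_snd) continuous_const
  · rintro z hz
    have h2 : rr z.2 ≤ 1 := hz
    refine ⟨mem_univ _, Or.inr ?_⟩
    linarith

theorem Om_open [T2Space M] [Finite Λ] : IsOpen X.Om := by
  have h1 : X.Om = ⋂ k, (X.N k '' KK)ᶜ := by
    ext y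
    simp [Sys.Om]
  rw [h1]
  exact isOpen_iInter_of_finite fun k =>
    (Geo_KK_compact.image (X.tube k).emb.continuous).isClosed.isOpen_compl

/-- a point of the neighbourhood of a leaf curve is in `WW` iff its coordinates are in `Wall` -/
theorem WW_iff (k l : Λ) (z : Cov) : rc (X.N k) z ∈ X.WW l ↔ k = l ∧ z.2 ∈ Wall := by
  constructor
  · rintro ⟨w, hw, h⟩
    have h1 : l = k := X.disj l k w ((z.1 : AddCircle (1 : ℝ)), z.2) h
    subst h1
    have h2 : w = ((z.1 : AddCircle (1 : ℝ)), z.2) := (X.tube l).emb.injective h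
    rw [h2] at hw
    exact ⟨rfl, hw⟩
  · rintro ⟨rfl, h⟩
    exact ⟨((z.1 : AddCircle (1 : ℝ)), z.2), h, rfl⟩

theorem Om_iff (k : Λ) (z : Cov) : rc (X.N k) z ∈ X.Om ↔ 1 < rr z.2 := by
  constructor
  · intro h
    by_contra h1
    exact h k ⟨((z.1 : AddCircle (1 : ℝ)), z.2), not_lt.mp h1, rfl⟩
  · rintro h l ⟨w, hw, h1⟩
    have h2 : l = k := X.disj l k w ((z.1 : AddCircle (1 : ℝ)), z.2) h1
    subst h2
    have h3 : w = ((z.1 : AddCircle (1 : ℝ)), z.2) := (X.tube l).emb.injective h1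
    rw [h3] at hw
    exact absurd h (not_lt.mpr hw)

theorem Om_of_out {y : M} (hy : ∀ k, y ∉ X.WW k) : y ∈ X.Om := by
  rintro k ⟨w, hw, h1⟩
  have h2 : rr w.2 ≤ 1 := hw
  exact hy k ⟨w, Or.inr (by linarith), h1⟩

/-- points of `Om`: four cases -/
theorem Om_cases {y : M} (hy : y ∈ X.Om) :
    (∀ k, y ∉ X.WW k) ∨
    (∃ k z, rc (X.N k) z = y ∧ |z.2.1| ≤ 1 ∧ -4 < z.2.2 ∧ z.2.2 < 0 ∧ 25 / 9 < rr z.2) ∨
    (∃ k, ∃ z : Plr, (z.2.1 : ℝ) ≤ 5 / 3 ∧ rc (X.N k) (pol z) = y) ∨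
    (∃ k z, rc (X.N k) z = y ∧ |z.2.1| ≤ 1 ∧ z.2.2 = 0) := by
  by_cases h0 : ∀ k, y ∉ X.WW k
  · exact Or.inl h0
  right
  push Not at h0
  obtain ⟨k, ⟨θ, us⟩, hw, h1⟩ := h0
  obtain ⟨x, rfl⟩ := QuotientAddGroup.mk_surjective θ
  have h2 : rc (X.N k) ((x, us) : Cov) = y := h1
  have h3 : us ∈ Wall := hw
  have h4 : 1 < rr us := by
    rw [← h2, Om_iff] at hy
    exact hy
  by_cases h5 : rr us ≤ 25 / 9
  · right
    left
    obtain ⟨w, hw⟩ := exists_pol ((x, us) : Cov) h4 (lt_of_le_of_lt h5 (by norm_num))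
    refine ⟨k, w, ?_, ?_⟩
    · have h6 := rr_pol w
      rw [hw] at h6
      simp only at h6
      rw [h6] at h5
      have h7 : (1 : ℝ) < w.2.1 := w.2.1.2.1
      nlinarith
    · rw [hw]
      exact h2
  · rw [not_le] at h5
    rcases h3 with ⟨h6, h7, h8⟩ | h6
    · rcases h8.lt_or_eq with h9 | h9
      · left
        refine ⟨k, (x, us), h2, h6, ?_, h9, h5⟩
        rcases h7.lt_or_eq with h10 | h10
        · exact h10
        · exfalso
          unfold rr at h5
          rw [← h10] at h5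
          rw [abs_le] at h6
          nlinarith [h6.1, h6.2]
      · right
        right
        exact ⟨k, (x, us), h2, h6, h9⟩
    · exact absurd h5 (not_lt.mpr h6)

/-- points of different (or the same) coordinate systems -/
theorem rc_same {k l : Λ} {z w : Cov} (h : rc (X.N k) z = rc (X.N l) w) :
    k = l ∧ ∃ j : ℤ, w = (z.1 + j, z.2) := by
  have h1 : k = l := X.disj k l _ _ h
  subst h1
  exact ⟨rfl, (rc_eq (X.tube k).emb z w).mp h⟩

end Pool.Agent.H.MP_1611f1_gt.LS
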