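import Mathlib

/-!
Homeomorphisms of the line without fixed points on one side of a fixed point are conjugate to a
translation there.
-/

namespace Pool.Agent.H.MP_1611f1_gt.LS

open Topology Set Filter

/-- the iterates of `y₀` increase to `d` -/
theorem HB_iter {φ : ℝ ≃o ℝ} {y₀ d : ℝ} (h0 : y₀ < d) (hd : φ d = d)
    (hφ : ∀ y ∈ Ico y₀ d, y < φ y) :
    (∀ n, φ^[n] y₀ ∈ Ico y₀ d) ∧ StrictMono (fun n => φ^[n] y₀) ∧
      ∀ y, y < d → ∃ n, y < φ^[n] y₀ := by
  have h1 : ∀ n, φ^[n] y₀ ∈ Ico y₀ d := by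
    intro n
    induction n with
    | zero => exact ⟨le_refl _, h0⟩
    | succ n ih =>
      rw [Function.iterate_succ_apply']
      refine ⟨ih.1.trans (hφ _ ih).le, ?_⟩
      calc φ (φ^[n] y₀) < φ d := φ.strictMono ih.2
        _ = d := hd
  have h2 : StrictMono (fun n => φ^[n] y₀) := by
    refine strictMono_nat_of_lt_succ fun n => ?_
    simp only [Function.iterate_succ_apply']
    exact hφ _ (h1 n)
  refine ⟨h1, h2, ?_⟩
  have hb : BddAbove (range fun n => φ^[n] y₀) := by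
    refine ⟨d, ?_⟩
    rintro _ ⟨n, rfl⟩
    exact (h1 n).2.le
  have hlim := tendsto_atTop_ciSup h2.monotone hb
  obtain ⟨L, hL⟩ : ∃ L, L = ⨆ n, φ^[n] y₀ := ⟨_, rfl⟩
  rw [← hL] at hlim
  have h3 : Tendsto (fun n => φ^[n + 1] y₀) atTop (𝓝 L) := (tendsto_add_atTop_iff_nat 1).2 hlim
  have h4 : Tendsto (fun n => φ (φ^[n] y₀)) atTop (𝓝 (φ L)) :=
    (φ.continuous.tendsto L).comp hlim
  have h5 : φ L = L := by
    refine tendsto_nhds_unique h4 ?_
    simpa only [Function.iterate_succ_apply'] using h3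
  have h6 : y₀ ≤ L := by
    have := h2.monotone.ge_of_tendsto hlim 0
    simpa using this
  have h7 : L ≤ d := le_of_tendsto hlim (Eventually.of_forall fun n => (h1 n).2.le)
  have h8 : L = d := by
    rcases h7.lt_or_eq with h | h
    · exact absurd h5 (hφ L ⟨h6, h⟩).ne'
    · exact h
  intro y hy
  rw [← h8] at hy
  exact (hlim.eventually (lt_mem_nhds hy)).exists

/-- Let `φ` move the points of `[y₀, d)` up, `φ d = d`. Then
`τ y = ∑ k, max 0 (min 1 ((φ⁻ᵏ y - y₀) / (φ y₀ - y₀)))` (for `y < φⁿ y₀` the terms with `k ≥ n`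
vanish; `φⁿ y₀ → d`, because the limit is a fixed point). -/
theorem exists_tau {φ : ℝ ≃o ℝ} {y₀ d : ℝ} (h0 : y₀ < d) (hd : φ d = d)
    (hφ : ∀ y ∈ Ico y₀ d, y < φ y) :
    ∃ τ : ℝ → ℝ, ContinuousOn τ (Ico y₀ d) ∧ StrictMonoOn τ (Ico y₀ d) ∧
      (∀ y ∈ Ico y₀ d, τ (φ y) = τ y + 1) ∧ Tendsto τ (𝓝[<] d) atTop := by
  obtain ⟨ha1, ha2, ha3⟩ := HB_iter h0 hd hφ
  obtain ⟨a, haa⟩ : ∃ a : ℕ → ℝ, ∀ n, a n = φ^[n] y₀ := ⟨_, fun _ => rfl⟩
  simp only [← haa] at ha1 ha2 ha3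
  have a0 : a 0 = y₀ := by rw [haa]; rfl
  have a1 : a 1 = φ y₀ := by rw [haa]; rfl
  have hL : 0 < φ y₀ - y₀ := sub_pos.2 (hφ y₀ ⟨le_refl _, h0⟩)
  have hsm : ∀ k, StrictMono (φ.symm^[k]) := fun k => φ.symm.strictMono.iterate k
  have hinv : ∀ k n, k ≤ n → φ.symm^[k] (a n) = a (n - k) := by
    intro k
    induction k with
    | zero => intro n _; rfl
    | succ k ih =>
      intro n hn
      rw [Function.iterate_succ_apply', ih n (by omega)]
      have h1 : n - k = (n - (k + 1)) + 1 := by omega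
      rw [h1, haa, Function.iterate_succ_apply', φ.symm_apply_apply, ← haa]
  obtain ⟨c, hc⟩ : ∃ c : ℕ → ℝ → ℝ, ∀ k y,
      c k y = max 0 (min 1 ((φ.symm^[k] y - y₀) / (φ y₀ - y₀))) := ⟨_, fun _ _ => rfl⟩
  have c_nonneg : ∀ k y, 0 ≤ c k y := fun k y => by rw [hc]; exact le_max_left _ _
  have c_zero : ∀ k y, φ.symm^[k] y ≤ y₀ → c k y = 0 := by
    intro k y h
    rw [hc]
    have h1 : (φ.symm^[k] y - y₀) / (φ y₀ - y₀) ≤ 0 :=
      div_nonpos_of_nonpos_of_nonneg (by linarith) hL.le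
    exact max_eq_left ((min_le_right _ _).trans h1)
  have c_one : ∀ k y, φ y₀ ≤ φ.symm^[k] y → c k y = 1 := by
    intro k y h
    rw [hc]
    have h1 : 1 ≤ (φ.symm^[k] y - y₀) / (φ y₀ - y₀) := by
      rw [le_div_iff₀ hL]; linarith
    rw [min_eq_left h1]
    exact max_eq_right zero_le_one
  have c_mid : ∀ k y, y₀ ≤ φ.symm^[k] y → φ.symm^[k] y < φ y₀ →
      c k y = (φ.symm^[k] y - y₀) / (φ y₀ - y₀) := by
    intro k y h h'
    rw [hc]
    have h1 : 0 ≤ (φ.symm^[k] y - y₀) / (φ y₀ - y₀) := div_nonneg (by linarith) hL.le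
    have h2 : (φ.symm^[k] y - y₀) / (φ y₀ - y₀) ≤ 1 := by
      rw [div_le_one hL]; linarith
    rw [min_eq_right h2, max_eq_right h1]
  have c_mono : ∀ k, Monotone (c k) := by
    intro k x y hxy
    rw [hc, hc]
    have h1 := (hsm k).monotone hxy
    exact max_le_max le_rfl (min_le_min le_rfl (div_le_div_of_nonneg_right (by linarith) hL.le))
  have c_cont : ∀ k, Continuous (c k) := by
    intro k
    have h1 : c k = fun y => max 0 (min 1 ((φ.symm^[k] y - y₀) / (φ y₀ - y₀))) := by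
      funext y; exact hc k y
    have h2 : Continuous (φ.symm^[k]) := φ.symm.continuous.iterate k
    rw [h1]
    fun_prop
  have c_van : ∀ n y, y < a n → ∀ k, n ≤ k → c k y = 0 := by
    intro n y hy k hk
    apply c_zero
    have h1 := (hsm k) (hy.trans_le (ha2.monotone hk))
    rw [hinv k k le_rfl, Nat.sub_self, a0] at h1
    exact h1.le
  obtain ⟨τ, hτ⟩ : ∃ τ : ℝ → ℝ, ∀ y, τ y = ∑' k, c k y := ⟨_, fun _ => rfl⟩
  have τ_eq : ∀ n y, y < a n → τ y = ∑ k ∈ Finset.range n, c k y := by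
    intro n y hy
    rw [hτ]
    refine tsum_eq_sum fun k hk => c_van n y hy k ?_
    simpa using hk
  refine ⟨τ, ?_, ?_, ?_, ?_⟩
  · intro y hy
    obtain ⟨n, hn⟩ := ha3 y hy.2
    have h1 : ContinuousAt (fun y => ∑ k ∈ Finset.range n, c k y) y :=
      (continuous_finsetSum _ fun k _ => c_cont k).continuousAt
    refine (h1.congr ?_).continuousWithinAt
    filter_upwards [Iio_mem_nhds hn] with z hz
    exact (τ_eq n z hz).symm
  · intro x hx y hy hxy
    obtain ⟨n, hn⟩ := ha3 y hy.2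
    have hex := ha3 x hx.2
    obtain ⟨j, hj⟩ : ∃ j, j = Nat.find hex := ⟨_, rfl⟩
    have hj1 : x < a j := by rw [hj]; exact Nat.find_spec hex
    have hj0 : j ≠ 0 := by
      intro h
      rw [h, a0] at hj1
      exact absurd hx.1 (not_le.2 hj1)
    obtain ⟨i, hi⟩ : ∃ i, j = i + 1 := ⟨j - 1, by omega⟩
    have hi1 : a i ≤ x := by
      have h1 := Nat.find_min hex (m := i) (by omega)
      exact not_lt.1 h1
    have hin : i < n := by
      by_contra hcon
      have h1 := ha2.monotone (not_lt.1 hcon)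
      linarith
    rw [τ_eq n x (hxy.trans hn), τ_eq n y hn]
    refine Finset.sum_lt_sum (fun k _ => c_mono k hxy.le) ⟨i, Finset.mem_range.2 hin, ?_⟩
    have e1 : y₀ ≤ φ.symm^[i] x := by
      have h1 := (hsm i).monotone hi1
      rwa [hinv i i le_rfl, Nat.sub_self, a0] at h1
    have e2 : φ.symm^[i] x < φ y₀ := by
      have h1 := (hsm i) hj1
      rwa [hi, hinv i (i + 1) (by omega), Nat.add_sub_cancel_left, a1] at h1
    have e3 := (hsm i) hxy
    rw [c_mid i x e1 e2]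
    rcases lt_or_ge (φ.symm^[i] y) (φ y₀) with h | h
    · rw [c_mid i y (e1.trans e3.le) h]
      exact div_lt_div_of_pos_right (by linarith) hL
    · rw [c_one i y h, div_lt_one hL]
      linarith
  · intro y hy
    obtain ⟨n, hn⟩ := ha3 y hy.2
    have h1 : φ y < a (n + 1) := by
      rw [haa, Function.iterate_succ_apply', ← haa]
      exact φ.strictMono hn
    rw [τ_eq _ _ h1, τ_eq _ _ hn, Finset.sum_range_succ']
    have h2 : ∀ k, c (k + 1) (φ y) = c k y := by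
      intro k
      rw [hc, hc, Function.iterate_succ_apply, φ.symm_apply_apply]
    have h3 : c 0 (φ y) = 1 := by
      apply c_one
      exact φ.monotone hy.1
    simp only [h2, h3]
  · rw [tendsto_atTop]
    intro b
    obtain ⟨n, hn⟩ := exists_nat_ge b
    have h1 : ∀ᶠ y in 𝓝[<] d, a n < y := by
      exact nhdsWithin_le_nhds (lt_mem_nhds (ha1 n).2)
    filter_upwards [h1, self_mem_nhdsWithin] with y hy hyd
    obtain ⟨m, hm⟩ := ha3 y hyd
    have hnm : n ≤ m := by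
      by_contra hcon
      have h2 := ha2.monotone (not_le.1 hcon).le
      linarith
    rw [τ_eq m y hm]
    refine hn.trans ?_
    calc (n : ℝ) = ∑ k ∈ Finset.range n, (1 : ℝ) := by simp
      _ = ∑ k ∈ Finset.range n, c k y := by
          refine Finset.sum_congr rfl fun k hk => ?_
          rw [Finset.mem_range] at hk
          rw [c_one]
          have h2 := (hsm k).monotone hy.le
          rw [hinv k n hk.le] at h2
          refine le_trans ?_ h2
          rw [← a1]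
          exact ha2.monotone (by omega)
      _ ≤ ∑ k ∈ Finset.range m, c k y :=
          Finset.sum_le_sum_of_subset_of_nonneg (Finset.range_mono hnm) fun k _ _ => c_nonneg k y

/-- both directions -/
theorem exists_tau2 {h : ℝ ≃o ℝ} {y₀ d : ℝ} (h0 : y₀ < d) (hd : h d = d)
    (hh : (∀ y ∈ Ico y₀ d, y < h y) ∨ (∀ y ∈ Ico y₀ d, h y < y)) :
    ∃ (τ : ℝ → ℝ) (P y₁ : ℝ), (P = 1 ∨ P = -1) ∧ y₁ ∈ Ico y₀ d ∧
      ContinuousOn τ (Ico y₀ d) ∧ StrictMonoOn τ (Ico y₀ d) ∧ Tendsto τ (𝓝[<] d) atTop ∧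
      ∀ y ∈ Ico y₁ d, h y ∈ Ico y₀ d ∧ τ (h y) = τ y + P := by
  rcases hh with hh | hh
  · obtain ⟨τ, h1, h2, h3, h4⟩ := exists_tau h0 hd hh
    refine ⟨τ, 1, y₀, Or.inl rfl, ⟨le_refl _, h0⟩, h1, h2, h4, fun y hy => ⟨⟨?_, ?_⟩, h3 y hy⟩⟩
    · exact hy.1.trans (hh y hy).le
    · calc h y < h d := h.strictMono hy.2
        _ = d := hd
  · have hd' : h.symm d = d := by
      rw [OrderIso.symm_apply_eq]; exact hd.symm
    have hh' : ∀ y ∈ Ico y₀ d, y < h.symm y := by
      intro y hy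
      have h1 := h.symm.strictMono (hh y hy)
      rwa [h.symm_apply_apply] at h1
    obtain ⟨τ, h1, h2, h3, h4⟩ := exists_tau h0 hd' hh'
    have hy0 : y₀ ∈ Ico y₀ d := ⟨le_refl _, h0⟩
    refine ⟨τ, -1, h.symm y₀, Or.inr rfl, ⟨(hh' y₀ hy0).le, ?_⟩, h1, h2, h4, fun y hy => ?_⟩
    · calc h.symm y₀ < h.symm d := h.symm.strictMono h0
        _ = d := hd'
    · have e1 : y₀ ≤ h y := by
        have h5 := h.monotone hy.1
        rwa [h.apply_symm_apply] at h5
      have e0 : y ∈ Ico y₀ d := ⟨(hh' y₀ hy0).le.trans hy.1, hy.2⟩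
      have e2 : h y < d := (hh y e0).trans hy.2
      refine ⟨⟨e1, e2⟩, ?_⟩
      have h6 := h3 (h y) ⟨e1, e2⟩
      rw [h.symm_apply_apply] at h6
      linarith

end Pool.Agent.H.MP_1611f1_gt.LS
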