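import Pool.Agent.H.MP_1611f1_gt.LS.HDefs

/-!
A nearby leaf curve whose holonomy has no fixed points on the lower side.
-/

namespace Pool.Agent.H.MP_1611f1_gt.LS

open Topology Set Filter

/-- take `x ∈ (b, 0)` with `h x ≠ x` and let `d` be the smallest fixed point `≥ x` -/
theorem exists_fix {h : ℝ ≃o ℝ} (h0 : h 0 = 0) (hn : ∀ ε > 0, ∃ x ∈ Ioo (-ε) 0, h x ≠ x)
    {b : ℝ} (hb : b < 0) :
    ∃ d y₀ : ℝ, b < y₀ ∧ y₀ < d ∧ d ≤ 0 ∧ h d = d ∧
      ((∀ y ∈ Ico y₀ d, y < h y) ∨ (∀ y ∈ Ico y₀ d, h y < y)) := by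
  obtain ⟨x, ⟨hx1, hx2⟩, hx⟩ := hn (-b) (by linarith)
  rw [neg_neg] at hx1
  let S : Set ℝ := {y | x ≤ y ∧ y ≤ 0 ∧ h y = y}
  have hcont : Continuous fun y => h y := h.continuous
  have hScl : IsClosed S := by
    have e : S = {y | x ≤ y} ∩ ({y | y ≤ 0} ∩ {y | h y = y}) := by
      ext y
      exact Iff.rfl
    rw [e]
    exact (isClosed_le continuous_const continuous_id).inter
      ((isClosed_le continuous_id continuous_const).inter (isClosed_eq hcont continuous_id))
  have hSne : S.Nonempty := ⟨0, hx2.le, le_rfl, h0⟩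
  have hSb : BddBelow S := ⟨x, fun y hy => hy.1⟩
  have hd : sInf S ∈ S := hScl.csInf_mem hSne hSb
  have hmin : ∀ y ∈ S, sInf S ≤ y := fun y hy => csInf_le hSb hy
  generalize sInf S = d at hd hmin
  obtain ⟨hd1, hd2, hd3⟩ := hd
  have hxd : x < d := lt_of_le_of_ne hd1 fun h1 => hx (by rw [h1]; exact hd3)
  refine ⟨d, x, hx1, hxd, hd2, hd3, ?_⟩
  have hcg : Continuous fun y => h y - y := hcont.sub continuous_id
  rcases lt_or_gt_of_ne hx with h1 | h1
  · right
    intro y hy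
    by_contra hcon
    push Not at hcon
    obtain ⟨t, ht, hgt⟩ := intermediate_value_Icc hy.1 hcg.continuousOn
      (show (0 : ℝ) ∈ Icc (h x - x) (h y - y) from ⟨by linarith, by linarith⟩)
    have h2 : d ≤ t := hmin t ⟨ht.1, by linarith [ht.2, hy.2], by linarith⟩
    linarith [ht.2, hy.2]
  · left
    intro y hy
    by_contra hcon
    push Not at hcon
    obtain ⟨t, ht, hgt⟩ := intermediate_value_Icc' hy.1 hcg.continuousOn
      (show (0 : ℝ) ∈ Icc (h y - y) (h x - x) from ⟨by linarith, by linarith⟩)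
    have h2 : d ≤ t := hmin t ⟨ht.1, by linarith [ht.2, hy.2], by linarith⟩
    linarith [ht.2, hy.2]

variable {M : Type*} [TopologicalSpace M] {F : Foliation M} {N : Cyl → M}

/-- The curve of the leaf with the parameter `d`: `b` is the maximum of `Γ (θ, -δ/2)` for
`θ ∈ [0, 1]`; `s θ` is the solution of `Γ (θ, s) = d` in `(-δ/2, 0]`. -/
theorem exists_sd {δ : ℝ} {Γ : ℝ × ℝ → ℝ} {h : ℝ ≃o ℝ} (hD : HolDat F N δ Γ h) :
    ∃ b < 0, ∀ d, b < d → d ≤ 0 → h d = d → ∃ s : ℝ → ℝ, Continuous s ∧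
      (∀ θ, -δ < s θ ∧ s θ ≤ 0 ∧ Γ (θ, s θ) = d) ∧ ∀ θ, s (θ + 1) = s θ := by
  have hpos := hD.pos
  have hsec : ∀ a ∈ Ioo (-δ) δ, Continuous fun θ => Γ (θ, a) := by
    intro a ha
    exact hD.cont.comp_continuous (f := fun θ : ℝ => (θ, a)) (by fun_prop)
      (fun θ => ⟨mem_univ _, ha⟩)
  have hm : -(δ / 2) ∈ Ioo (-δ) δ := ⟨by linarith, by linarith⟩
  have h0 : (0 : ℝ) ∈ Ioo (-δ) δ := ⟨by linarith, by linarith⟩
  obtain ⟨θm, hθm, hmax⟩ := (isCompact_Icc (a := (0 : ℝ)) (b := 1)).exists_isMaxOn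
    ⟨0, le_rfl, zero_le_one⟩ (hsec _ hm).continuousOn
  refine ⟨Γ (θm, -(δ / 2)), ?_, ?_⟩
  · rw [← hD.zero θm]
    exact hD.mono θm hm h0 (by linarith)
  · intro d hbd hd0 hhd
    have hlow : ∀ θ, Γ (θ, -(δ / 2)) < d := by
      have hstep : ∀ θ, Γ (θ + 1, -(δ / 2)) < d ↔ Γ (θ, -(δ / 2)) < d := by
        intro θ
        rw [hD.per θ _ hm]
        conv_lhs => rw [← hhd]
        exact h.lt_iff_lt
      have hint : ∀ (k : ℤ) θ, Γ (θ, -(δ / 2)) < d → Γ (θ + k, -(δ / 2)) < d := by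
        intro k
        induction k using Int.induction_on with
        | zero =>
          intro θ h1
          simpa using h1
        | succ i ih =>
          intro θ h1
          have h2 := (hstep (θ + i)).mpr (ih θ h1)
          push_cast
          rw [← add_assoc]
          exact h2
        | pred i ih =>
          intro θ h1
          have h2 := ih θ h1
          apply (hstep _).mp
          push_cast at h2 ⊢
          have e : θ + (-(i : ℝ) - 1) + 1 = θ + -(i : ℝ) := by ring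
          rw [e]
          exact h2
      intro θ
      have h1 : Γ (Int.fract θ, -(δ / 2)) < d :=
        lt_of_le_of_lt (hmax ⟨Int.fract_nonneg θ, (Int.fract_lt_one θ).le⟩) hbd
      have h2 := hint ⌊θ⌋ _ h1
      rw [Int.fract_add_floor] at h2
      exact h2
    have hex : ∀ θ, ∃ s, s ∈ Icc (-(δ / 2)) 0 ∧ Γ (θ, s) = d := by
      intro θ
      have hc : ContinuousOn (fun s => Γ (θ, s)) (Icc (-(δ / 2)) 0) :=
        hD.cont.comp (by fun_prop) (fun s hs =>
          ⟨mem_univ _, by linarith [hs.1], by linarith [hs.2]⟩)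
      obtain ⟨s, hs, hs'⟩ := intermediate_value_Icc (by linarith) hc
        (show d ∈ Icc (Γ (θ, -(δ / 2))) (Γ (θ, 0)) from
          ⟨(hlow θ).le, by rw [hD.zero]; exact hd0⟩)
      exact ⟨s, hs, hs'⟩
    choose s hs hsd using hex
    have hsmem : ∀ θ, s θ ∈ Ioo (-δ) δ := fun θ =>
      ⟨by linarith [(hs θ).1], by linarith [(hs θ).2]⟩
    refine ⟨s, ?_, fun θ => ⟨(hsmem θ).1, (hs θ).2, hsd θ⟩, ?_⟩
    · rw [continuous_iff_continuousAt]
      intro θ₀
      refine tendsto_order.2 ⟨fun a ha => ?_, fun a ha => ?_⟩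
      · rcases lt_or_ge a (-(δ / 2)) with h1 | h1
        · exact Eventually.of_forall fun θ => lt_of_lt_of_le h1 (hs θ).1
        · have ha' : a ∈ Ioo (-δ) δ := ⟨by linarith, by linarith [(hs θ₀).2]⟩
          have h2 : Γ (θ₀, a) < d := by
            rw [← hsd θ₀]
            exact hD.mono θ₀ ha' (hsmem θ₀) ha
          filter_upwards [(hsec a ha').continuousAt.eventually (gt_mem_nhds h2)] with θ hθ
          rw [← hsd θ] at hθ
          exact ((hD.mono θ).lt_iff_lt ha' (hsmem θ)).1 hθ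
      · rcases lt_or_ge 0 a with h1 | h1
        · exact Eventually.of_forall fun θ => lt_of_le_of_lt (hs θ).2 h1
        · have ha' : a ∈ Ioo (-δ) δ := ⟨by linarith [(hsmem θ₀).1], by linarith⟩
          have h2 : d < Γ (θ₀, a) := by
            rw [← hsd θ₀]
            exact hD.mono θ₀ (hsmem θ₀) ha' ha
          filter_upwards [(hsec a ha').continuousAt.eventually (lt_mem_nhds h2)] with θ hθ
          rw [← hsd θ] at hθ
          exact ((hD.mono θ).lt_iff_lt (hsmem θ) ha').1 hθ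
    · intro θ
      refine (hD.mono (θ + 1)).injOn (hsmem (θ + 1)) (hsmem θ) ?_
      show Γ (θ + 1, s (θ + 1)) = Γ (θ + 1, s θ)
      rw [hsd, hD.per θ _ (hsmem θ), hsd, hhd]

end Pool.Agent.H.MP_1611f1_gt.LS
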