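import Pool.Agent.H.MP_1611f1_gt.LS.HB
import Pool.Agent.H.MP_1611f1_gt.LS.HC
import Pool.Agent.H.MP_1611f1_gt.LS.RcA
import Pool.Agent.H.MP_1611f1_gt.LS.IsoC

/-!
A nearby leaf curve whose holonomy has no fixed points on the lower side.
-/

namespace Pool.Agent.H.MP_1611f1_gt.LS

open Topology Set Filter

/-- translations of the first variable preserve the order -/
theorem HD_shift {δ : ℝ} {Γ : ℝ × ℝ → ℝ} {h : ℝ ≃o ℝ}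
    (hp : ∀ θ, ∀ s ∈ Ioo (-δ) δ, Γ (θ + 1, s) = h (Γ (θ, s))) (k : ℤ) :
    ∀ θ θ' : ℝ, ∀ s ∈ Ioo (-δ) δ, ∀ s' ∈ Ioo (-δ) δ,
      (Γ (θ + k, s) < Γ (θ' + k, s') ↔ Γ (θ, s) < Γ (θ', s')) := by
  induction k using Int.induction_on with
  | zero =>
    intro θ θ' s _ s' _
    simp
  | succ k ih =>
    intro θ θ' s hs s' hs'
    have e : ∀ t : ℝ, t + (((k : ℤ) + 1 : ℤ) : ℝ) = (t + ((k : ℤ) : ℝ)) + 1 := by
      intro t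
      push_cast
      ring
    rw [e, e, hp _ s hs, hp _ s' hs', h.lt_iff_lt]
    exact ih θ θ' s hs s' hs'
  | pred k ih =>
    intro θ θ' s hs s' hs'
    have e : ∀ t : ℝ, t + ((-(k : ℤ) : ℤ) : ℝ) = (t + ((-(k : ℤ) - 1 : ℤ) : ℝ)) + 1 := by
      intro t
      push_cast
      ring
    have h1 := ih θ θ' s hs s' hs'
    rw [e, e, hp _ s hs, hp _ s' hs', h.lt_iff_lt] at h1
    exact h1

/-- the choice of the width by compactness -/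
theorem HD_width {δ : ℝ} {Γ : ℝ × ℝ → ℝ}
    (hc : ContinuousOn Γ (univ ×ˢ Ioo (-δ) δ)) {y₁ d : ℝ} (hy : y₁ < d)
    {s₀ : ℝ → ℝ} (hs : Continuous s₀) (hs1 : ∀ θ, -δ < s₀ θ ∧ s₀ θ < δ ∧ Γ (θ, s₀ θ) = d) :
    ∃ δ' > 0, ∀ θ ∈ Icc (0 : ℝ) 1, ∀ s ∈ Ioo (-δ') 0,
      -δ < s₀ θ - δ' ∧ y₁ < Γ (θ, s₀ θ + s) := by
  have hopen : IsOpen ((univ : Set ℝ) ×ˢ Ioo (-δ) δ) := isOpen_univ.prod isOpen_Ioo
  have hU : ∀ θ : ℝ, {z : ℝ × ℝ | -δ < s₀ z.1 + z.2 ∧ y₁ < Γ (z.1, s₀ z.1 + z.2)} ∈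
      𝓝 ((θ, 0) : ℝ × ℝ) := by
    intro θ
    have hmap : Continuous (fun z : ℝ × ℝ => (z.1, s₀ z.1 + z.2)) := by fun_prop
    have h1 : ContinuousAt Γ (θ, s₀ θ + 0) := by
      apply hc.continuousAt
      apply hopen.mem_nhds
      rw [add_zero]
      exact ⟨mem_univ _, (hs1 θ).1, (hs1 θ).2.1⟩
    have h2 : ContinuousAt (fun z : ℝ × ℝ => Γ (z.1, s₀ z.1 + z.2)) ((θ, 0) : ℝ × ℝ) :=
      ContinuousAt.comp (f := fun z : ℝ × ℝ => (z.1, s₀ z.1 + z.2)) (x := ((θ, 0) : ℝ × ℝ)) h1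
        hmap.continuousAt
    have h3 : y₁ < Γ (((θ, 0) : ℝ × ℝ).1, s₀ ((θ, 0) : ℝ × ℝ).1 + ((θ, 0) : ℝ × ℝ).2) := by
      simp only [add_zero]
      rw [(hs1 θ).2.2]
      exact hy
    have h4 : ContinuousAt (fun z : ℝ × ℝ => s₀ z.1 + z.2) ((θ, 0) : ℝ × ℝ) := by fun_prop
    have h5 : -δ < (fun z : ℝ × ℝ => s₀ z.1 + z.2) ((θ, 0) : ℝ × ℝ) := by
      simp only [add_zero]
      exact (hs1 θ).1
    filter_upwards [h2.eventually_const_lt h3, h4.eventually_const_lt h5] with z hz1 hz2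
      using ⟨hz2, hz1⟩
  have hsub : Icc (0 : ℝ) 1 ×ˢ ({0} : Set ℝ) ⊆
      interior {z : ℝ × ℝ | -δ < s₀ z.1 + z.2 ∧ y₁ < Γ (z.1, s₀ z.1 + z.2)} := by
    rintro ⟨θ, s⟩ ⟨_, hs0⟩
    rw [mem_singleton_iff] at hs0
    simp only at hs0
    subst hs0
    exact mem_interior_iff_mem_nhds.mpr (hU θ)
  obtain ⟨u, v, _, hv, hu1, hv1, huv⟩ := generalized_tube_lemma isCompact_Icc isCompact_singleton
    isOpen_interior hsub
  obtain ⟨ε, hε, hεv⟩ := Metric.isOpen_iff.mp hv 0 (hv1 rfl)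
  rw [Real.ball_eq_Ioo] at hεv
  refine ⟨ε / 2, by positivity, ?_⟩
  intro θ hθ s hs'
  have h1 : ((θ, -(ε / 2)) : ℝ × ℝ) ∈ u ×ˢ v := ⟨hu1 hθ, hεv ⟨by linarith, by linarith⟩⟩
  have h2 : ((θ, s) : ℝ × ℝ) ∈ u ×ˢ v := ⟨hu1 hθ, hεv ⟨by linarith [hs'.1], by linarith [hs'.2]⟩⟩
  have h3 := (interior_subset (huv h1)).1
  have h4 := (interior_subset (huv h2)).2
  simp only at h3 h4
  exact ⟨by linarith, h4⟩

/-- One-dimensional part. For `θ ∈ ℝ` and `s < 0` close to `0` put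
`Γ' (θ, s) = τ (Γ (fract θ, s₀ θ + s)) + P ⌊θ⌋`, where `Γ (θ, s₀ θ) = d`; here `s` is so close to `0`
that `Γ (θ, s₀ θ + s) ∈ [y₁, d)` for `θ ∈ [0, 1]` (compactness). Near an integer `k` one has
`Γ' (θ, s) = τ (h⁻ᵏ (Γ (θ, s₀ θ + s))) + P k` on both sides. So `Γ'` is continuous and, near every
point, an increasing function of `Γ (θ, s₀ θ + s)`. -/
theorem exists_Gam' {δ : ℝ} {Γ : ℝ × ℝ → ℝ} {h : ℝ ≃o ℝ} (hδ : 0 < δ)
    (hc : ContinuousOn Γ (univ ×ˢ Ioo (-δ) δ))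
    (hm : ∀ θ, StrictMonoOn (fun s => Γ (θ, s)) (Ioo (-δ) δ))
    (hp : ∀ θ, ∀ s ∈ Ioo (-δ) δ, Γ (θ + 1, s) = h (Γ (θ, s)))
    {τ : ℝ → ℝ} {P y₀ y₁ d : ℝ} (hd : h d = d) (hy : y₁ ∈ Ico y₀ d)
    (hτc : ContinuousOn τ (Ico y₀ d)) (hτm : StrictMonoOn τ (Ico y₀ d))
    (hτl : Tendsto τ (𝓝[<] d) atTop)
    (hτ : ∀ y ∈ Ico y₁ d, h y ∈ Ico y₀ d ∧ τ (h y) = τ y + P)
    {s₀ : ℝ → ℝ} (hs : Continuous s₀) (hs1 : ∀ θ, -δ < s₀ θ ∧ s₀ θ ≤ 0 ∧ Γ (θ, s₀ θ) = d)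
    (hs2 : ∀ θ, s₀ (θ + 1) = s₀ θ) :
    ∃ (δ' : ℝ) (Γ' : ℝ × ℝ → ℝ), 0 < δ' ∧ (∀ θ, -δ < s₀ θ - δ') ∧
      ContinuousOn Γ' (univ ×ˢ Ioo (-δ') 0) ∧
      (∀ θ, StrictMonoOn (fun s => Γ' (θ, s)) (Ioo (-δ') 0)) ∧
      (∀ θ, Tendsto (fun s => Γ' (θ, s)) (𝓝[<] 0) atTop) ∧
      (∀ θ, ∀ s ∈ Ioo (-δ') 0, Γ' (θ + 1, s) = Γ' (θ, s) + P) ∧
      ∀ z : ℝ × ℝ, z.2 ∈ Ioo (-δ') 0 →
        OrdEq z (fun w => Γ (w.1, s₀ w.1 + w.2)) (fun w => Γ' (w.1, w.2)) := by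
  have hs1' : ∀ θ, -δ < s₀ θ ∧ s₀ θ < δ ∧ Γ (θ, s₀ θ) = d := fun θ =>
    ⟨(hs1 θ).1, lt_of_le_of_lt (hs1 θ).2.1 hδ, (hs1 θ).2.2⟩
  obtain ⟨δ', hδ', hw⟩ := HD_width hc hy.2 hs hs1'
  have hper : Function.Periodic s₀ 1 := hs2
  have hfr : ∀ θ (k : ℤ), s₀ (θ - k) = s₀ θ := by
    intro θ k
    have := hper.sub_int_mul_eq (x := θ) k
    simpa using this
  have hfract : ∀ θ, s₀ (Int.fract θ) = s₀ θ := fun θ => hfr θ ⌊θ⌋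
  have hfm : ∀ θ : ℝ, Int.fract θ ∈ Icc (0 : ℝ) 1 := fun θ =>
    ⟨Int.fract_nonneg θ, (Int.fract_lt_one θ).le⟩
  have hm1 : -(δ' / 2) ∈ Ioo (-δ') 0 := ⟨by linarith, by linarith⟩
  have hlow : ∀ θ, -δ < s₀ θ - δ' := by
    intro θ
    have h1 := (hw _ (hfm θ) _ hm1).1
    rw [hfract] at h1
    exact h1
  have hmem : ∀ θ, ∀ s ∈ Ioc (-δ') 0, s₀ θ + s ∈ Ioo (-δ) δ := by
    intro θ s hs'
    exact ⟨by linarith [hlow θ, hs'.1], by linarith [(hs1 θ).2.1, hs'.2]⟩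
  have hmem' : ∀ θ, ∀ s ∈ Ioo (-δ') 0, s₀ θ + s ∈ Ioo (-δ) δ := fun θ s hs' =>
    hmem θ s ⟨hs'.1, hs'.2.le⟩
  have hltd : ∀ θ, ∀ s ∈ Ioo (-δ') 0, Γ (θ, s₀ θ + s) < d := by
    intro θ s hs'
    have h1 := hm θ (hmem' θ s hs') ⟨(hs1' θ).1, (hs1' θ).2.1⟩ (by linarith [hs'.2])
    simp only at h1
    rw [(hs1 θ).2.2] at h1
    exact h1
  -- the interval `[0, 1)`
  have hA : ∀ θ ∈ Icc (0 : ℝ) 1, ∀ s ∈ Ioo (-δ') 0, Γ (θ, s₀ θ + s) ∈ Ico y₁ d := by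
    intro θ hθ s hs'
    exact ⟨(hw θ hθ s hs').2.le, hltd θ s hs'⟩
  -- the interval `[0, 2)`
  have hB : ∀ θ ∈ Ico (0 : ℝ) 2, ∀ s ∈ Ioo (-δ') 0, Γ (θ, s₀ θ + s) ∈ Ico y₀ d ∧
      τ (Γ (Int.fract θ, s₀ θ + s)) + P * (⌊θ⌋ : ℝ) = τ (Γ (θ, s₀ θ + s)) := by
    intro θ hθ s hs'
    rcases lt_or_ge θ 1 with h1 | h1
    · have e1 : ⌊θ⌋ = 0 := Int.floor_eq_zero_iff.mpr ⟨hθ.1, h1⟩
      have e2 : Int.fract θ = θ := Int.fract_eq_self.mpr ⟨hθ.1, h1⟩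
      have h2 := hA θ ⟨hθ.1, h1.le⟩ s hs'
      refine ⟨⟨hy.1.trans h2.1, h2.2⟩, ?_⟩
      rw [e1, e2]
      simp
    · have e1 : ⌊θ⌋ = 1 := by
        rw [Int.floor_eq_iff]
        push_cast
        exact ⟨h1, by linarith [hθ.2]⟩
      have e2 : Int.fract θ = θ - 1 := by
        rw [Int.fract, e1]
        simp
      have e3 : s₀ (θ - 1) = s₀ θ := by
        have := hfr θ 1
        simpa using this
      have h2 := hA (θ - 1) ⟨by linarith, by linarith [hθ.2]⟩ s hs'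
      rw [e3] at h2
      have h3 : Γ (θ, s₀ θ + s) = h (Γ (θ - 1, s₀ θ + s)) := by
        have := hp (θ - 1) (s₀ θ + s) (hmem' θ s hs')
        rw [sub_add_cancel] at this
        exact this
      have h4 := hτ _ h2
      rw [h3]
      refine ⟨h4.1, ?_⟩
      rw [e1, e2, h4.2]
      push_cast
      ring
  -- the general interval `[k, k + 2)`
  have hC : ∀ (k : ℤ) (θ : ℝ), θ - k ∈ Ico (0 : ℝ) 2 → ∀ s ∈ Ioo (-δ') 0,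
      Γ (θ - k, s₀ θ + s) ∈ Ico y₀ d ∧
      τ (Γ (Int.fract θ, s₀ θ + s)) + P * (⌊θ⌋ : ℝ) = τ (Γ (θ - k, s₀ θ + s)) + P * k := by
    intro k θ hθ s hs'
    have h1 := hB (θ - k) hθ s hs'
    rw [hfr, Int.fract_sub_intCast, Int.floor_sub_intCast] at h1
    refine ⟨h1.1, ?_⟩
    have h2 := h1.2
    push_cast at h2
    linear_combination h2
  have hk : ∀ θ₀ : ℝ, ∃ k : ℤ, θ₀ ∈ Ioo (k : ℝ) (k + 2) := by
    intro θ₀
    refine ⟨⌈θ₀⌉ - 1, ?_, ?_⟩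
    · push_cast
      linarith [Int.ceil_lt_add_one θ₀]
    · push_cast
      linarith [Int.le_ceil θ₀]
  have hcoΓ : ∀ k : ℤ, ContinuousOn (fun w : ℝ × ℝ => Γ (w.1 - k, s₀ w.1 + w.2))
      (univ ×ˢ Ioo (-δ') 0) := by
    intro k
    refine hc.comp (f := fun w : ℝ × ℝ => (w.1 - (k : ℝ), s₀ w.1 + w.2)) ?_ ?_
    · fun_prop
    · rintro ⟨θ, s⟩ ⟨_, hs'⟩
      exact ⟨mem_univ _, hmem' θ s hs'⟩
  refine ⟨δ', fun w => τ (Γ (Int.fract w.1, s₀ w.1 + w.2)) + P * (⌊w.1⌋ : ℝ), hδ', hlow,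
    ?_, ?_, ?_, ?_, ?_⟩
  · rintro ⟨θ₀, σ₀⟩ ⟨_, hσ₀⟩
    obtain ⟨k, hk0⟩ := hk θ₀
    have hnb : (Ioo (k : ℝ) (k + 2) ×ˢ Ioo (-δ') 0) ∈ 𝓝 ((θ₀, σ₀) : ℝ × ℝ) :=
      (isOpen_Ioo.prod isOpen_Ioo).mem_nhds ⟨hk0, hσ₀⟩
    have h1 : ContinuousOn (fun w : ℝ × ℝ => τ (Γ (w.1 - k, s₀ w.1 + w.2)) + P * k)
        (Ioo (k : ℝ) (k + 2) ×ˢ Ioo (-δ') 0) := by
      refine ContinuousOn.add ?_ continuousOn_const
      refine hτc.comp ((hcoΓ k).mono (prod_mono (subset_univ _) Subset.rfl)) ?_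
      rintro ⟨θ, s⟩ ⟨hθ, hs'⟩
      exact (hC k θ ⟨by linarith [hθ.1], by linarith [hθ.2]⟩ s hs').1
    have h2 := (h1.continuousAt hnb)
    refine (h2.congr ?_).continuousWithinAt
    filter_upwards [hnb] with w hw'
    exact (hC k w.1 ⟨by linarith [hw'.1.1], by linarith [hw'.1.2]⟩ w.2 hw'.2).2.symm
  · intro θ s hs' t ht' hst
    have h1 := hA _ (hfm θ) s hs'
    have h2 := hA _ (hfm θ) t ht'
    rw [hfract] at h1 h2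
    have h3 := hm (Int.fract θ) (hmem' θ s hs') (hmem' θ t ht') (by linarith)
    simp only at h3 ⊢
    have h4 := hτm ⟨hy.1.trans h1.1, h1.2⟩ ⟨hy.1.trans h2.1, h2.2⟩ h3
    linarith
  · intro θ
    simp only
    refine tendsto_atTop_add_const_right _ _ ?_
    refine hτl.comp ?_
    rw [tendsto_nhdsWithin_iff]
    constructor
    · have h1 : ContinuousAt Γ (Int.fract θ, s₀ θ + 0) := by
        apply hc.continuousAt
        apply (isOpen_univ.prod isOpen_Ioo).mem_nhds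
        rw [add_zero]
        exact ⟨mem_univ _, (hs1' θ).1, (hs1' θ).2.1⟩
      have h2 : ContinuousAt (fun s : ℝ => Γ (Int.fract θ, s₀ θ + s)) 0 :=
        ContinuousAt.comp (f := fun s : ℝ => (Int.fract θ, s₀ θ + s)) (x := (0 : ℝ)) h1
          (by fun_prop)
      have h3 : Γ (Int.fract θ, s₀ θ + 0) = d := by
        rw [add_zero, ← hfract]
        exact (hs1 _).2.2
      have h4 := h2.tendsto
      rw [h3] at h4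
      exact h4.mono_left nhdsWithin_le_nhds
    · have h5 : Ioo (-δ') 0 ∈ 𝓝[<] (0 : ℝ) := Ioo_mem_nhdsLT (by linarith)
      filter_upwards [h5] with s hs'
      have h1 := hA _ (hfm θ) s hs'
      rw [hfract] at h1
      exact h1.2
  · intro θ s _
    simp only
    rw [Int.fract_add_one, hs2, Int.floor_add_one]
    push_cast
    ring
  · rintro ⟨θ₀, σ₀⟩ hσ₀
    obtain ⟨k, hk0⟩ := hk θ₀
    have hnb : (Ioo (k : ℝ) (k + 2) ×ˢ Ioo (-δ') 0) ∈ 𝓝 ((θ₀, σ₀) : ℝ × ℝ) :=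
      (isOpen_Ioo.prod isOpen_Ioo).mem_nhds ⟨hk0, hσ₀⟩
    refine ⟨_, hnb, ?_⟩
    rintro ⟨θ, s⟩ ⟨hθ, hs'⟩ ⟨θ', s'⟩ ⟨hθ', hs''⟩
    simp only at hθ hs' hθ' hs'' ⊢
    have h1 := hC k θ ⟨by linarith [hθ.1], by linarith [hθ.2]⟩ s hs'
    have h2 := hC k θ' ⟨by linarith [hθ'.1], by linarith [hθ'.2]⟩ s' hs''
    have h3 := HD_shift hp k (θ - k) (θ' - k) (s₀ θ + s) (hmem' θ s hs') (s₀ θ' + s')
      (hmem' θ' s' hs'')
    rw [sub_add_cancel, sub_add_cancel] at h3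
    rw [h3, h1.2, h2.2, add_lt_add_iff_right, hτm.lt_iff_lt h1.1 h2.1]

variable {M : Type*} [TopologicalSpace M] {F : Foliation M} {N : Cyl → M}

/-- the nearby leaf curve, in the coordinates `N (θ, (u, s₀ θ + s))` -/
theorem low_leafCurve (hL : LowCurve F N) :
    ∃ (s₀ : AddCircle (1 : ℝ) → ℝ) (P : ℝ), Continuous s₀ ∧ (P = 1 ∨ P = -1) ∧
      LeafCurve F (mvN N (fun z => s₀ z.1 + z.2)) P := by
  obtain ⟨δ, Γ, h, hD, hn⟩ := hL.hol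
  have h0 : h 0 = 0 := by
    have h1 := hD.per 0 0 ⟨by linarith [hD.pos], hD.pos⟩
    rw [hD.zero, hD.zero] at h1
    exact h1.symm
  obtain ⟨b, hb, hsd⟩ := exists_sd hD
  obtain ⟨d, y₀, hby, hyd, hd0, hhd, hside⟩ := exists_fix h0 hn hb
  obtain ⟨s₀, hs, hs1, hs2⟩ := hsd d (hby.trans hyd) hd0 hhd
  obtain ⟨τ, P, y₁, hP, hy, hτc, hτm, hτl, hτ⟩ := exists_tau2 hyd hhd hside
  obtain ⟨δ', Γ', hδ', hlow, hΓc, hΓm, hΓl, hΓp, hΓo⟩ :=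
    exists_Gam' hD.pos hD.cont hD.mono hD.per hhd hy hτc hτm hτl hτ hs hs1 hs2
  have hper : Function.Periodic s₀ 1 := hs2
  have hSc : Continuous (hper.lift : AddCircle (1 : ℝ) → ℝ) := by
    exact ((QuotientAddGroup.isQuotientMap_mk (AddSubgroup.zmultiples (1 : ℝ))).continuous_iff).mpr hs
  have hSe : ∀ θ : ℝ, (hper.lift : AddCircle (1 : ℝ) → ℝ) (θ : AddCircle (1 : ℝ)) = s₀ θ :=
    fun θ => hper.lift_coe θ
  have hRc : Continuous (fun z : Cov => ((z.1, (z.2.1, s₀ z.1 + z.2.2)) : Cov)) := by fun_prop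
  have hrc : ∀ z : Cov, rc (mvN N (fun z => (hper.lift : AddCircle (1 : ℝ) → ℝ) z.1 + z.2)) z =
      rc N (z.1, (z.2.1, s₀ z.1 + z.2.2)) := by
    intro z
    unfold rc mvN
    simp only
    rw [hSe]
  have hz0 : ∀ z : Cov, z.2.2 = 0 → s₀ z.1 + z.2.2 ∈ Ioo (-δ) δ := by
    intro z hz
    rw [hz, add_zero]
    exact ⟨(hs1 z.1).1, lt_of_le_of_lt (hs1 z.1).2.1 hD.pos⟩
  refine ⟨(hper.lift : AddCircle (1 : ℝ) → ℝ), P, hSc, hP, ?_, ?_, ?_, ?_⟩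
  · have h1 := cyl_emb (σ := fun z : AddCircle (1 : ℝ) × ℝ =>
      (hper.lift : AddCircle (1 : ℝ) → ℝ) z.1 + z.2) (by fun_prop)
      (fun θ s t hst => by simpa using hst)
    exact hL.emb.comp h1
  · refine ⟨δ', Γ', hδ', hΓc, hΓm, hΓl, hΓp, ?_⟩
    intro z hz c hc hzc
    have hz1 : s₀ z.1 + z.2.2 ∈ Ioo (-δ) δ :=
      ⟨by linarith [hlow z.1, hz.1], by linarith [(hs1 z.1).2.1, hz.2, hD.pos]⟩
    rw [hrc] at hzc
    have h1 := hD.ord (z.1, (z.2.1, s₀ z.1 + z.2.2)) hz1 c hc hzc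
    have h2 := OrdEq.comp_cont (R := fun z : Cov => ((z.1, (z.2.1, s₀ z.1 + z.2.2)) : Cov))
      (z₀ := z) hRc.continuousAt h1
    have h3 := hΓo (z.1, z.2.2) hz
    have h4 := OrdEq.comp_cont (R := fun z : Cov => ((z.1, z.2.2) : ℝ × ℝ))
      (z₀ := z) (by fun_prop) h3
    refine OrdEq.congr (h2.trans h4) ?_ ?_
    · refine Filter.Eventually.of_forall fun w => ?_
      simp only [Function.comp]
      rw [hrc]
    · exact Filter.Eventually.of_forall fun w => rfl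
  · intro z hz c hc hzc
    rw [hrc] at hzc
    have h1 := hD.ord (z.1, (z.2.1, s₀ z.1 + z.2.2)) (hz0 z hz) c hc hzc
    obtain ⟨V, hV, h2⟩ := OrdEq.comp_cont
      (R := fun z : Cov => ((z.1, (z.2.1, s₀ z.1 + z.2.2)) : Cov)) (z₀ := z) hRc.continuousAt h1
    filter_upwards [hV] with w hw hw0
    rw [hrc, hrc]
    have hzV := mem_of_mem_nhds hV
    have h3 := h2 w hw z hzV
    have h4 := h2 z hzV w hw
    simp only [Function.comp] at h3 h4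
    rw [hw0, hz, add_zero, add_zero, (hs1 _).2.2, (hs1 _).2.2] at h3 h4
    rw [hw0, hz, add_zero, add_zero]
    exact le_antisymm (not_lt.mp fun h => lt_irrefl _ (h4.mp h))
      (not_lt.mp fun h => lt_irrefl _ (h3.mp h))
  · intro z hz c hc hzc
    rw [hrc] at hzc
    have h1 := hD.ord (z.1, (z.2.1, s₀ z.1 + z.2.2)) (hz0 z hz) c hc hzc
    obtain ⟨V, hV, h2⟩ := OrdEq.comp_cont
      (R := fun z : Cov => ((z.1, (z.2.1, s₀ z.1 + z.2.2)) : Cov)) (z₀ := z) hRc.continuousAt h1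
    have hW : {w : Cov | s₀ w.1 + w.2.2 ∈ Ioo (-δ) δ} ∈ 𝓝 z := by
      have h3 : Continuous fun w : Cov => s₀ w.1 + w.2.2 := by fun_prop
      exact (isOpen_Ioo.preimage h3).mem_nhds (hz0 z hz)
    refine ⟨V ∩ {w : Cov | s₀ w.1 + w.2.2 ∈ Ioo (-δ) δ}, inter_mem hV hW, ?_⟩
    rintro w ⟨hw, hwW⟩ w' ⟨hw', hwW'⟩ e1 _ hlt
    rw [hrc, hrc]
    have h3 := h2 w hw w' hw'
    simp only [Function.comp] at h3
    rw [h3]
    have h4 : s₀ w.1 + w'.2.2 ∈ Ioo (-δ) δ := by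
      rw [e1]
      exact hwW'
    rw [← e1]
    exact hD.mono w.1 hwW h4 (by linarith)

end Pool.Agent.H.MP_1611f1_gt.LS
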