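import Pool.Agent.H.MP_1611f1_gt.LS.HD
import Pool.Agent.H.MP_1611f1_gt.LS.HA
import Pool.Agent.H.MP_1611f1_gt.LS.IsoE

/-!
Curves with non-trivial holonomy: normal form.
-/

namespace Pool.Agent.H.MP_1611f1_gt.LS

open Topology Set Filter

variable {M : Type*} [TopologicalSpace M] {F : Foliation M} {N : Cyl → M}

theorem low_tube (hL : LowCurve F N) : ∃ P : ℝ, TubeL F N P := by
  obtain ⟨s₀, P, hs, hP, hLC⟩ := low_leafCurve hL
  obtain ⟨σ, g, hc, hm, -, ht⟩ := exists_tube hLC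
  refine ⟨P, hL.emb, ?_, fun z => s₀ z.1 + σ z, g, ?_, ?_, ht⟩
  · rcases hP with rfl | rfl
    · exact one_ne_zero
    · exact neg_ne_zero.2 one_ne_zero
  · exact (hs.comp continuous_fst).add hc
  · intro θ s s' hss
    exact add_lt_add_right (hm θ hss) _

/-- one of the two sides -/
theorem hol_tube (h : HolCurve F N) :
    ∃ P : ℝ, TubeL F N P ∨ TubeL (G.revF F) (flipN N) P := by
  rcases h.sides with h1 | h1
  · obtain ⟨P, hP⟩ := low_tube h1
    exact ⟨P, Or.inl hP⟩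
  · obtain ⟨P, hP⟩ := low_tube h1
    exact ⟨P, Or.inr hP⟩

end Pool.Agent.H.MP_1611f1_gt.LS
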