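import Pool.Agent.H.MP_1611f1_gt.LS.IsoD
import Pool.Agent.H.MP_1611f1_gt.LS.HDefs

/-!
Moving the solid tori: general vertical changes of coordinates.
-/

namespace Pool.Agent.H.MP_1611f1_gt.LS

open Topology Set Filter

theorem HG_KK {z : Cyl} (hz : z ∈ KK) : |z.2.1| ≤ 2 ∧ -7 ≤ z.2.2 ∧ z.2.2 ≤ -1 := by
  have h : z.2.1 ^ 2 + (z.2.2 + 4) ^ 2 ≤ 1 := hz
  refine ⟨?_, ?_, ?_⟩
  · rw [abs_le]
    constructor <;> nlinarith [sq_nonneg (z.2.2 + 4)]
  · nlinarith [sq_nonneg z.2.1, sq_nonneg (z.2.2 + 5)]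
  · nlinarith [sq_nonneg z.2.1, sq_nonneg (z.2.2 + 3)]

/-- the change of coordinates on a fibre, made the identity far away -/
noncomputable def HG_s1 (σ : AddCircle (1 : ℝ) × ℝ → ℝ) (C : ℝ) (z : AddCircle (1 : ℝ) × ℝ) :
    ℝ :=
  σ (z.1, max (min z.2 (-1)) (-7)) +
    (σ (z.1, -7) + C) / (C - 7) * (max (min z.2 (-7)) (-C) + 7) + (min z.2 (-C) + C) +
    (C - σ (z.1, -1)) / (C + 1) * (min (max z.2 (-1)) C + 1) + (max z.2 C - C)

theorem HG_s1_cont {σ : AddCircle (1 : ℝ) × ℝ → ℝ} (hc : Continuous σ) (C : ℝ) :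
    Continuous (HG_s1 σ C) := by
  unfold HG_s1
  fun_prop

theorem HG_s1_mid {σ : AddCircle (1 : ℝ) × ℝ → ℝ} {C : ℝ} (hC : 8 ≤ C) {θ : AddCircle (1 : ℝ)}
    {s : ℝ} (hs : -7 ≤ s) (hs' : s ≤ -1) : HG_s1 σ C (θ, s) = σ (θ, s) := by
  have e1 : max (min s (-1)) (-7) = s := by
    rw [min_eq_left hs', max_eq_left hs]
  have e2 : max (min s (-7)) (-C) = -7 := by
    rw [min_eq_right hs, max_eq_left (by linarith)]
  have e3 : min s (-C) = -C := min_eq_right (by linarith)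
  have e4 : min (max s (-1)) C = -1 := by
    rw [max_eq_right hs', min_eq_left (by linarith)]
  have e5 : max s C = C := max_eq_right (by linarith)
  simp only [HG_s1, e1, e2, e3, e4, e5]
  ring

theorem HG_s1_bot {σ : AddCircle (1 : ℝ) × ℝ → ℝ} {C : ℝ} (hC : 8 ≤ C) {θ : AddCircle (1 : ℝ)}
    {s : ℝ} (hs : s ≤ -C) : HG_s1 σ C (θ, s) = s := by
  have e1 : max (min s (-1)) (-7) = -7 := by
    rw [min_eq_left (by linarith), max_eq_right (by linarith)]
  have e2 : max (min s (-7)) (-C) = -C := by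
    rw [min_eq_left (by linarith), max_eq_right hs]
  have e3 : min s (-C) = s := min_eq_left hs
  have e4 : min (max s (-1)) C = -1 := by
    rw [max_eq_right (by linarith), min_eq_left (by linarith)]
  have e5 : max s C = C := max_eq_right (by linarith)
  simp only [HG_s1, e1, e2, e3, e4, e5]
  have h : C - 7 ≠ 0 := by linarith
  field_simp
  ring

theorem HG_s1_top {σ : AddCircle (1 : ℝ) × ℝ → ℝ} {C : ℝ} (hC : 8 ≤ C) {θ : AddCircle (1 : ℝ)}
    {s : ℝ} (hs : C ≤ s) : HG_s1 σ C (θ, s) = s := by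
  have e1 : max (min s (-1)) (-7) = -1 := by
    rw [min_eq_right (by linarith), max_eq_left (by norm_num)]
  have e2 : max (min s (-7)) (-C) = -7 := by
    rw [min_eq_right (by linarith), max_eq_left (by linarith)]
  have e3 : min s (-C) = -C := min_eq_right (by linarith)
  have e4 : min (max s (-1)) C = C := by
    rw [max_eq_left (by linarith), min_eq_right hs]
  have e5 : max s C = s := max_eq_left hs
  simp only [HG_s1, e1, e2, e3, e4, e5]
  have h : C + 1 ≠ 0 := by linarith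
  field_simp
  ring

theorem HG_s1_mono {σ : AddCircle (1 : ℝ) × ℝ → ℝ}
    (hm : ∀ θ, StrictMono fun s => σ (θ, s)) {C : ℝ} (hC : 8 ≤ C) {θ : AddCircle (1 : ℝ)}
    (ha : 0 < σ (θ, -7) + C) (hb : 0 < C - σ (θ, -1)) :
    StrictMono fun s => HG_s1 σ C (θ, s) := by
  intro s s' hss
  have hk : 0 < (σ (θ, -7) + C) / (C - 7) := div_pos ha (by linarith)
  have hl : 0 < (C - σ (θ, -1)) / (C + 1) := div_pos hb (by linarith)
  have m1 : σ (θ, max (min s (-1)) (-7)) ≤ σ (θ, max (min s' (-1)) (-7)) :=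
    (hm θ).monotone (max_le_max (min_le_min hss.le le_rfl) le_rfl)
  have m2 : max (min s (-7)) (-C) ≤ max (min s' (-7)) (-C) :=
    max_le_max (min_le_min hss.le le_rfl) le_rfl
  have m3 : min s (-C) ≤ min s' (-C) := min_le_min hss.le le_rfl
  have m4 : min (max s (-1)) C ≤ min (max s' (-1)) C :=
    min_le_min (max_le_max hss.le le_rfl) le_rfl
  have m5 : max s C ≤ max s' C := max_le_max hss.le le_rfl
  have m2' := mul_le_mul_of_nonneg_left (add_le_add_left m2 7) hk.le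
  have m4' := mul_le_mul_of_nonneg_left (add_le_add_left m4 1) hl.le
  show HG_s1 σ C (θ, s) < HG_s1 σ C (θ, s')
  simp only [HG_s1]
  rcases le_or_gt s' (-C) with h1 | h1
  · have m3' : min s (-C) < min s' (-C) := by
      rw [min_eq_left h1, min_eq_left (hss.le.trans h1)]
      exact hss
    linarith
  rcases le_or_gt s' (-7) with h2 | h2
  · have m2s : max (min s (-7)) (-C) < max (min s' (-7)) (-C) := by
      rw [min_eq_left (hss.le.trans h2), min_eq_left h2, max_eq_left h1.le]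
      exact max_lt hss h1
    have := mul_lt_mul_of_pos_left (add_lt_add_left m2s 7) hk
    linarith
  rcases le_or_gt s' (-1) with h3 | h3
  · have m1' : σ (θ, max (min s (-1)) (-7)) < σ (θ, max (min s' (-1)) (-7)) := by
      refine hm θ ?_
      rw [min_eq_left (hss.le.trans h3), min_eq_left h3, max_eq_left h2.le]
      exact max_lt hss h2
    linarith
  rcases le_or_gt s' C with h4 | h4
  · have m4s : min (max s (-1)) C < min (max s' (-1)) C := by
      rw [max_eq_left h3.le, min_eq_left h4]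
      exact lt_of_le_of_lt (min_le_left _ _) (max_lt hss h3)
    have := mul_lt_mul_of_pos_left (add_lt_add_left m4s 1) hl
    linarith
  · have m5s : max s C < max s' C := by
      rw [max_eq_left h4.le]
      exact max_lt hss h4
    linarith

/-- the compact set outside of which the maps are the identity -/
def HG_box (C : ℝ) : Set Cyl := univ ×ˢ (Icc (-3 : ℝ) 3 ×ˢ Icc (-C) C)

theorem HG_closed {M : Type*} [TopologicalSpace M] [T2Space M] {Λ : Type*} [Finite Λ]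
    {N : Λ → Cyl → M} (hN : ∀ k, IsOpenEmbedding (N k)) {K : Λ → Set Cyl}
    (hK : ∀ k, IsCompact (K k)) : IsClosed (⋃ k, N k '' K k) :=
  isClosed_iUnion_of_finite fun k => ((hK k).image (hN k).continuous).isClosed

theorem HG_off {M : Type*} [TopologicalSpace M] {Λ : Type*} {N : Λ → Cyl → M}
    (hN : ∀ k, IsOpenEmbedding (N k)) (hd : ∀ k l z w, N k z = N l w → k = l)
    {φ : Λ → Cyl → Cyl} {K : Λ → Set Cyl} (hid : ∀ k, ∀ z ∉ K k, φ k z = z) {x : M}
    (hx : x ∉ ⋃ k, N k '' K k) : IsoD_paste N φ x = x := by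
  by_cases h : ∃ k z, x = N k z
  · obtain ⟨k, z, rfl⟩ := h
    rw [IsoD_paste_N hN hd]
    rw [hid k z]
    intro hz
    exact hx (mem_iUnion.2 ⟨k, z, hz, rfl⟩)
  · push Not at h
    exact IsoD_paste_off N φ x h

theorem HG_ev {M : Type*} [TopologicalSpace M] [T2Space M] {Λ : Type*} [Finite Λ]
    {N : Λ → Cyl → M} (hN : ∀ k, IsOpenEmbedding (N k)) (hd : ∀ k l z w, N k z = N l w → k = l)
    {φ : Λ → Cyl → Cyl} {K : Λ → Set Cyl} (hK : ∀ k, IsCompact (K k))
    (hid : ∀ k, ∀ z ∉ K k, φ k z = z) {x : M}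
    (hx : ∀ k z, x ≠ N k z) : ∀ᶠ x' in 𝓝 x, IsoD_paste N φ x' = x' := by
  have hx' : x ∈ (⋃ k, N k '' K k)ᶜ := by
    intro h
    obtain ⟨k, z, -, hz⟩ := mem_iUnion.1 h
    exact hx k z hz.symm
  filter_upwards [(HG_closed hN hK).isOpen_compl.mem_nhds hx'] with y hy
  exact HG_off hN hd hid hy

theorem HG_cont {M : Type*} [TopologicalSpace M] [T2Space M] {Λ : Type*} [Finite Λ]
    {N : Λ → Cyl → M} (hN : ∀ k, IsOpenEmbedding (N k)) (hd : ∀ k l z w, N k z = N l w → k = l)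
    {φ : Λ → Cyl → Cyl} {K : Λ → Set Cyl} (hK : ∀ k, IsCompact (K k))
    (hc : ∀ k, Continuous (φ k)) (hid : ∀ k, ∀ z ∉ K k, φ k z = z) :
    Continuous (IsoD_paste N φ) := by
  rw [continuous_iff_continuousAt]
  intro x
  by_cases h : ∃ k z, x = N k z
  · obtain ⟨k, z, rfl⟩ := h
    rw [← (hN k).continuousAt_iff (x := z)]
    have h1 : IsoD_paste N φ ∘ N k = N k ∘ φ k := by
      funext w
      exact IsoD_paste_N hN hd φ k w
    rw [h1]
    exact ((hN k).continuous.comp (hc k)).continuousAt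
  · push Not at h
    exact continuousAt_id.congr ((HG_ev hN hd hK hid h).mono fun y hy => hy.symm)

/-- Cut-off of a vertical change of coordinates (compare `exists_rho`): with
`c u = max 0 (min 1 (3 - |u|))`, let `σ₁ (θ, s) = σ (θ, s)` for `-7 ≤ s ≤ -1`, `σ₁ = s` for
`|s| ≥ C`, linear in between (`C > 8` larger than all `|σ (θ, -7)|`, `|σ (θ, -1)|`);
`ρ = (1 - c u) s + c u σ₁ (θ, s)`. -/
theorem exists_rho2 {σ : AddCircle (1 : ℝ) × ℝ → ℝ} (hc : Continuous σ)
    (hm : ∀ θ, StrictMono fun s => σ (θ, s)) :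
    ∃ (ρ : Cyl → ℝ) (C : ℝ), Continuous ρ ∧ (∀ θ u, StrictMono fun s => ρ (θ, (u, s))) ∧
      (∀ θ u, Function.Surjective fun s => ρ (θ, (u, s))) ∧
      (∀ θ u s, |u| ≤ 2 → -7 ≤ s → s ≤ -1 → ρ (θ, (u, s)) = σ (θ, s)) ∧
      (∀ θ u s, (3 ≤ |u| ∨ C ≤ |s|) → ρ (θ, (u, s)) = s) := by
  have : Fact ((0 : ℝ) < 1) := ⟨one_pos⟩
  have hca : Continuous fun θ : AddCircle (1 : ℝ) => σ (θ, -7) := by fun_prop
  have hcb : Continuous fun θ : AddCircle (1 : ℝ) => σ (θ, -1) := by fun_prop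
  obtain ⟨b, hb⟩ := (isCompact_range hca).bddBelow
  obtain ⟨B, hB⟩ := (isCompact_range hcb).bddAbove
  obtain ⟨C, hC, hC', hC''⟩ : ∃ C : ℝ, 8 ≤ C ∧ 1 - b ≤ C ∧ B + 1 ≤ C :=
    ⟨max 8 (max (1 - b) (B + 1)), le_max_left _ _,
      (le_max_left _ _).trans (le_max_right _ _), (le_max_right _ _).trans (le_max_right _ _)⟩
  have ha : ∀ θ, 0 < σ (θ, -7) + C := by
    intro θ
    have h1 : b ≤ σ (θ, -7) := hb ⟨θ, rfl⟩
    linarith
  have hb' : ∀ θ, 0 < C - σ (θ, -1) := by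
    intro θ
    have h1 : σ (θ, -1) ≤ B := hB ⟨θ, rfl⟩
    linarith
  have hcc : Continuous IsoC_c := by unfold IsoC_c; fun_prop
  have hc1 := HG_s1_cont hc C
  have hρc : Continuous fun z : Cyl => (1 - IsoC_c z.2.1) * z.2.2 +
      IsoC_c z.2.1 * HG_s1 σ C (z.1, z.2.2) := by fun_prop
  have hid : ∀ (θ : AddCircle (1 : ℝ)) (u s : ℝ), (3 ≤ |u| ∨ C ≤ |s|) →
      (1 - IsoC_c u) * s + IsoC_c u * HG_s1 σ C (θ, s) = s := by
    rintro θ u s (h | h)
    · have e : IsoC_c u = 0 := by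
        unfold IsoC_c
        exact max_eq_left ((min_le_right _ _).trans (by linarith))
      rw [e]
      ring
    · rcases le_abs.mp h with h | h
      · rw [HG_s1_top hC h]
        ring
      · rw [HG_s1_bot hC (by linarith)]
        ring
  refine ⟨fun z => (1 - IsoC_c z.2.1) * z.2.2 + IsoC_c z.2.1 * HG_s1 σ C (z.1, z.2.2), C,
    hρc, ?_, ?_, ?_, ?_⟩
  · intro θ u s s' hss
    have h1 := HG_s1_mono hm hC (ha θ) (hb' θ) hss
    obtain ⟨h2, h3⟩ := IsoC_c_mem u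
    simp only at h1 ⊢
    rcases h2.eq_or_lt with h4 | h4
    · rw [← h4]
      linarith
    · have h5 := mul_lt_mul_of_pos_left h1 h4
      have h6 := mul_le_mul_of_nonneg_left hss.le (sub_nonneg.2 h3)
      linarith
  · intro θ u
    refine Continuous.surjective ?_ ?_ ?_
    · exact hρc.comp (f := fun s : ℝ => ((θ, (u, s)) : Cyl)) (by fun_prop)
    · refine tendsto_id.congr' ?_
      filter_upwards [eventually_ge_atTop C] with s hs
      exact (hid θ u s (Or.inr (hs.trans (le_abs_self s)))).symm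
    · refine tendsto_id.congr' ?_
      filter_upwards [eventually_le_atBot (-C)] with s hs
      exact (hid θ u s (Or.inr ((by linarith : C ≤ -s).trans (neg_le_abs s)))).symm
  · intro θ u s hu hs hs'
    have e : IsoC_c u = 1 := by
      unfold IsoC_c
      rw [min_eq_left (by linarith), max_eq_right zero_le_one]
    simp only [e, HG_s1_mid hC hs hs']
    ring
  · exact hid

/-- as `exists_Psi` (same proof) -/
theorem exists_Psi2 {M : Type*} [TopologicalSpace M] [T2Space M] {Λ : Type*} [Finite Λ]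
    {N : Λ → Cyl → M} (hN : ∀ k, IsOpenEmbedding (N k)) (hd : ∀ k l z w, N k z = N l w → k = l)
    {ρ : Λ → Cyl → ℝ} {C : Λ → ℝ} (hc : ∀ k, Continuous (ρ k))
    (hm : ∀ k θ u, StrictMono fun s => ρ k (θ, (u, s)))
    (hsurj : ∀ k θ u, Function.Surjective fun s => ρ k (θ, (u, s)))
    (hid : ∀ k θ u s, (3 ≤ |u| ∨ C k ≤ |s|) → ρ k (θ, (u, s)) = s) :
    ∃ Ψ : M ≃ₜ M, (∀ k θ u s, Ψ (N k (θ, (u, s))) = N k (θ, (u, ρ k (θ, (u, s))))) ∧
      (∀ x, (∀ k z, x ≠ N k z) → Ψ x = x) ∧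
      ∀ x, (∀ k z, x ≠ N k z) → ∀ᶠ x' in 𝓝 x, Ψ x' = x' := by
  choose e he using fun k => IsoD_fib (hc k) (hm k) (hsurj k)
  have hK : ∀ k, IsCompact (HG_box (C k)) := fun k =>
    isCompact_univ.prod (isCompact_Icc.prod isCompact_Icc)
  have hid1 : ∀ k, ∀ z ∉ HG_box (C k), e k z = z := by
    rintro k ⟨θ, u, s⟩ hz
    rw [he]
    have h : 3 ≤ |u| ∨ C k ≤ |s| := by
      by_contra hcon
      push Not at hcon
      obtain ⟨h1, h2⟩ := hcon
      rw [abs_lt] at h1 h2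
      exact hz ⟨mem_univ _, ⟨h1.1.le, h1.2.le⟩, ⟨h2.1.le, h2.2.le⟩⟩
    simp only [hid k θ u s h]
  have hid2 : ∀ k, ∀ z ∉ HG_box (C k), (e k).symm z = z := by
    intro k z hz
    rw [Homeomorph.symm_apply_eq, hid1 k z hz]
  refine ⟨{ toFun := IsoD_paste N fun k => e k
            invFun := IsoD_paste N fun k => (e k).symm
            left_inv := IsoD_inv hN hd fun k z => (e k).symm_apply_apply z
            right_inv := IsoD_inv hN hd fun k z => (e k).apply_symm_apply z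
            continuous_toFun := HG_cont hN hd hK (fun k => (e k).continuous) hid1
            continuous_invFun := HG_cont hN hd hK (fun k => (e k).symm.continuous) hid2 },
    fun k θ u s => ?_, fun x hx => ?_, fun x hx => ?_⟩
  · show IsoD_paste N (fun k => e k) (N k (θ, (u, s))) = _
    rw [IsoD_paste_N hN hd, he]
  · exact IsoD_paste_off N (fun k => e k) x hx
  · exact HG_ev hN hd hK hid1 hx

/-- as `drill_move` in `Leaf.lean` (same proof, with `exists_rho2`, `exists_Psi2`) -/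
theorem drill_move2 {M M' : Type*} [TopologicalSpace M] [T2Space M] [TopologicalSpace M']
    {J Λ : Type*} [Finite Λ] {T : G.Ended M J} {T' : G.Ended M' (J ⊕ Λ)} {N : Λ → Cyl → M}
    (hN : ∀ k, IsOpenEmbedding (N k)) (hd : ∀ k l z w, N k z = N l w → k = l)
    (hend : ∀ k z j w, N k z ≠ T.tor j w) (D : Drill T N T')
    {σ : Λ → AddCircle (1 : ℝ) × ℝ → ℝ} (hc : ∀ k, Continuous (σ k))
    (hm : ∀ k θ, StrictMono fun s => σ k (θ, s)) :
    ∃ D' : Drill T (fun k => mvN (N k) (σ k)) T',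
      ∀ x, (∀ k z, D.p x ≠ N k z) → D'.p x = D.p x ∧ ∀ᶠ x' in 𝓝 x, D'.p x' = D.p x' := by
  choose ρ C hρc hρm hρs hρσ hρid using fun k => exists_rho2 (hc k) (hm k)
  obtain ⟨Ψ, h1, h2, h3⟩ := exists_Psi2 hN hd hρc hρm hρs hρid
  have key : ∀ k (z : Cyl), |z.2.1| ≤ 2 → -7 ≤ z.2.2 → z.2.2 ≤ -1 →
      Ψ (N k z) = N k (z.1, (z.2.1, σ k (z.1, z.2.2))) := by
    intro k z hu hs hs'
    have h4 := h1 k z.1 z.2.1 z.2.2
    rw [hρσ k z.1 z.2.1 z.2.2 hu hs hs'] at h4
    exact h4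
  refine ⟨{ p := fun x => Ψ (D.p x), emb := Ψ.isOpenEmbedding.comp D.emb, range_iff := ?_,
            old := ?_, new := ?_ }, ?_⟩
  · intro x
    have h4 : x ∈ range (fun x => Ψ (D.p x)) ↔ Ψ.symm x ∈ range D.p := by
      constructor
      · rintro ⟨y, rfl⟩
        exact ⟨y, by simp⟩
      · rintro ⟨y, hy⟩
        exact ⟨y, by simp [hy]⟩
    rw [h4, D.range_iff]
    refine forall_congr' fun k => not_congr ?_
    constructor
    · rintro ⟨z, hz, hzx⟩
      refine ⟨z, hz, ?_⟩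
      obtain ⟨hu, hs, hs'⟩ := HG_KK hz
      show N k (z.1, (z.2.1, σ k (z.1, z.2.2))) = x
      rw [← key k z hu hs hs', hzx, Ψ.apply_symm_apply]
    · rintro ⟨z, hz, hzx⟩
      refine ⟨z, hz, ?_⟩
      obtain ⟨hu, hs, hs'⟩ := HG_KK hz
      have hzx' : N k (z.1, (z.2.1, σ k (z.1, z.2.2))) = x := hzx
      rw [← hzx', ← key k z hu hs hs', Ψ.symm_apply_apply]
  · intro j w
    show Ψ (D.p (T'.tor (Sum.inl j) w)) = T.tor j w
    rw [D.old]
    exact h2 _ fun k z h => hend k z j w h.symm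
  · intro k θ r t
    show Ψ (D.p (T'.tor (Sum.inr k) (θ, r, (t : AddCircle (1 : ℝ))))) = _
    rw [D.new]
    have hr1 := r.2.1
    have hr2 := r.2.2
    have hcos := Real.abs_cos_le_one (2 * Real.pi * t)
    have hsin := Real.neg_one_le_sin (2 * Real.pi * t)
    have hsin' := Real.sin_le_one (2 * Real.pi * t)
    refine key k (θ, ((r : ℝ) * Real.cos (2 * Real.pi * t),
      -4 + (r : ℝ) * Real.sin (2 * Real.pi * t))) ?_ ?_ ?_
    · show |(r : ℝ) * Real.cos (2 * Real.pi * t)| ≤ 2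
      rw [abs_mul, abs_of_pos (by linarith)]
      nlinarith [abs_nonneg (Real.cos (2 * Real.pi * t))]
    · show -7 ≤ -4 + (r : ℝ) * Real.sin (2 * Real.pi * t)
      nlinarith
    · show -4 + (r : ℝ) * Real.sin (2 * Real.pi * t) ≤ -1
      nlinarith
  · intro x hx
    exact ⟨h2 _ hx, D.emb.continuous.continuousAt.eventually (h3 _ hx)⟩

/-- The same on the other side of the leaf: rotate the picture by `π`. Apply `drill_move2` with
`σ₁ (θ, s) = -σ (θ, -8 - s)`: then `mvN (N k) σ₁ (θ, (u, s)) =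
mvN (flipN (N k)) σ (θ, (-u, -8 - s))`, and the rotation `(u, s) ↦ (-u, -8 - s)` around `(0, -4)`
preserves `KK` and changes the polar angle `t` by `1/2`. -/
theorem drill_flip {M M' : Type*} [TopologicalSpace M] [T2Space M] [TopologicalSpace M']
    {J Λ : Type*} [Finite Λ] {T : G.Ended M J} {T' : G.Ended M' (J ⊕ Λ)} {N : Λ → Cyl → M}
    (hN : ∀ k, IsOpenEmbedding (N k)) (hd : ∀ k l z w, N k z = N l w → k = l)
    (hend : ∀ k z j w, N k z ≠ T.tor j w) (D : Drill T N T')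
    {σ : Λ → AddCircle (1 : ℝ) × ℝ → ℝ} (hc : ∀ k, Continuous (σ k))
    (hm : ∀ k θ, StrictMono fun s => σ k (θ, s)) :
    ∃ (T'' : G.Ended M' (J ⊕ Λ)) (D' : Drill T (fun k => mvN (flipN (N k)) (σ k)) T''),
      (∀ j w, T''.tor (Sum.inl j) w = T'.tor (Sum.inl j) w) ∧
      (∀ k θ r t, T''.tor (Sum.inr k) (θ, r, t) =
        T'.tor (Sum.inr k) (θ, r, t + ((1 / 2 : ℝ) : AddCircle (1 : ℝ)))) ∧
      ∀ x, (∀ k z, D.p x ≠ N k z) → D'.p x = D.p x ∧ ∀ᶠ x' in 𝓝 x, D'.p x' = D.p x' := by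
  have hc1 : ∀ k, Continuous (fun z : AddCircle (1 : ℝ) × ℝ => -(σ k (z.1, -8 - z.2))) := by
    intro k
    exact ((hc k).comp (by fun_prop)).neg
  have hm1 : ∀ k θ, StrictMono fun s : ℝ =>
      (fun z : AddCircle (1 : ℝ) × ℝ => -(σ k (z.1, -8 - z.2))) (θ, s) := by
    intro k θ s s' hss
    exact neg_lt_neg (hm k θ (by linarith : -8 - s' < -8 - s))
  obtain ⟨D₁, hD₁⟩ := drill_move2 (σ := fun k z => -(σ k (z.1, -8 - z.2))) hN hd hend D hc1 hm1
  have hmv : ∀ k θ u s, mvN (flipN (N k)) (σ k) (θ, (-u, -8 - s)) =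
      mvN (N k) (fun z => -(σ k (z.1, -8 - z.2))) (θ, (u, s)) := by
    intro k θ u s
    simp only [mvN, flipN, neg_neg]
  have hKK : ∀ (θ : AddCircle (1 : ℝ)) (u s : ℝ), ((θ, (u, s)) : Cyl) ∈ KK →
      ((θ, (-u, -8 - s)) : Cyl) ∈ KK := by
    intro θ u s h
    have h1 : u ^ 2 + (s + 4) ^ 2 ≤ 1 := h
    show (-u) ^ 2 + (-8 - s + 4) ^ 2 ≤ 1
    nlinarith
  let e : AddCircle (1 : ℝ) × Ioo (1 : ℝ) 2 × AddCircle (1 : ℝ) ≃ₜ
      AddCircle (1 : ℝ) × Ioo (1 : ℝ) 2 × AddCircle (1 : ℝ) :=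
    (Homeomorph.refl _).prodCongr ((Homeomorph.refl _).prodCongr
      (Homeomorph.addRight ((1 / 2 : ℝ) : AddCircle (1 : ℝ))))
  have he : ∀ θ r t, e (θ, r, t) = (θ, r, t + ((1 / 2 : ℝ) : AddCircle (1 : ℝ))) :=
    fun θ r t => rfl
  let T'' : G.Ended M' (J ⊕ Λ) :=
    { tor := fun i => Sum.elim (fun j => T'.tor (Sum.inl j))
        (fun k w => T'.tor (Sum.inr k) (e w)) i
      emb := by
        rintro (j | k)
        · exact T'.emb (Sum.inl j)
        · exact (T'.emb (Sum.inr k)).comp e.isOpenEmbedding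
      disj := by
        rintro (i | i) (j | j) z w h
        · exact T'.disj _ _ _ _ h
        · exact T'.disj _ _ _ _ h
        · exact T'.disj _ _ _ _ h
        · exact T'.disj _ _ _ _ h }
  refine ⟨T'', { p := D₁.p, emb := D₁.emb, range_iff := ?_, old := ?_, new := ?_ },
    fun j w => rfl, fun k θ r t => rfl, hD₁⟩
  · intro x
    rw [D₁.range_iff]
    refine forall_congr' fun k => not_congr ?_
    constructor
    · rintro ⟨⟨θ, u, s⟩, hz, hzx⟩
      exact ⟨(θ, (-u, -8 - s)), hKK θ u s hz, (hmv k θ u s).trans hzx⟩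
    · rintro ⟨⟨θ, u, s⟩, hz, hzx⟩
      refine ⟨(θ, (-u, -8 - s)), hKK θ u s hz, ?_⟩
      rw [← hmv k θ (-u) (-8 - s)]
      simp only [neg_neg, sub_sub_cancel]
      exact hzx
  · intro j w
    exact D₁.old j w
  · intro k θ r t
    have h1 := D₁.new k θ r (t + 1 / 2)
    have h2 : T''.tor (Sum.inr k) (θ, r, (t : AddCircle (1 : ℝ))) =
        T'.tor (Sum.inr k) (θ, r, ((t + 1 / 2 : ℝ) : AddCircle (1 : ℝ))) := by
      show T'.tor (Sum.inr k) (e (θ, r, (t : AddCircle (1 : ℝ)))) = _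
      rw [he, ← AddCircle.coe_add]
    rw [h2, h1]
    have h3 : 2 * Real.pi * (t + 1 / 2) = 2 * Real.pi * t + Real.pi := by ring
    rw [h3, Real.cos_add_pi, Real.sin_add_pi]
    have h4 := hmv k θ ((r : ℝ) * -Real.cos (2 * Real.pi * t))
      (-4 + (r : ℝ) * -Real.sin (2 * Real.pi * t))
    rw [← h4]
    have e1 : -((r : ℝ) * -Real.cos (2 * Real.pi * t)) = (r : ℝ) * Real.cos (2 * Real.pi * t) := by
      ring
    have e2 : -8 - (-4 + (r : ℝ) * -Real.sin (2 * Real.pi * t)) =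
        -4 + (r : ℝ) * Real.sin (2 * Real.pi * t) := by
      ring
    rw [e1, e2]

end Pool.Agent.H.MP_1611f1_gt.LS
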