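import Pool.Agent.H.MP_1611f1_gt.LS.SurgDefs
import Pool.Agent.H.MP_1611f1_gt.G.Glue

/-!
Dehn surgery as a filling of the drilled manifold.
-/

namespace Pool.Agent.H.MP_1611f1_gt.LS

open Topology Set Filter

/-- the pattern of the surgery: all ends are filled -/
def SurgB_pat {Λ : Type*} {al be ga de : Λ → ℤ} (hdet : ∀ k, al k * de k - be k * ga k = 1) :
    G.Pattern (Σ _ : Unit, Empty ⊕ Λ) where
  τ := id
  al := fun e => Sum.elim (fun x => x.elim) al e.2
  be := fun e => Sum.elim (fun x => x.elim) be e.2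
  ga := fun e => Sum.elim (fun x => x.elim) ga e.2
  de := fun e => Sum.elim (fun x => x.elim) de e.2
  invol := fun _ => rfl
  det_fill := by
    rintro ⟨u, e⟩ -
    rcases e with e | k
    · exact e.elim
    · exact hdet k
  det_glue := fun e he => absurd rfl he
  mat := fun e he => absurd rfl he

theorem SurgB_snd (M : Type*) [TopologicalSpace M] :
    IsOpenEmbedding (fun z : (Σ _ : Unit, M) => z.2) := by
  refine IsOpenEmbedding.of_continuous_injective_isOpenMap
    (continuous_sigma (fun _ => continuous_id)) ?_ (isOpenMap_sigma.2 (fun _ => IsOpenMap.id))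
  rintro ⟨u, m⟩ ⟨u', m'⟩ h
  simp only at h
  subst h
  rfl

theorem SurgB_union {Y : Type*} [TopologicalSpace Y] {Λ : Type*} {N : Λ → Cyl → Y}
    {al be ga de : Λ → ℤ} (hdet : ∀ k, al k * de k - be k * ga k = 1) {Y' : Type*}
    [TopologicalSpace Y'] (Su : Surgery N al be ga de Y') {T : G.Ended Y Empty}
    {T' : G.Ended {y : Y // ∀ k, y ∉ N k '' KK} (Empty ⊕ Λ)} (D : Drill T N T')
    (hD : D.p = Subtype.val) :
    Nonempty (G.Union (fun _ : Unit => T') (SurgB_pat hdet) Y') := by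
  have hnew : ∀ (k : Λ) (θ : AddCircle (1 : ℝ)) (r : Ioo (1 : ℝ) 2) (t : ℝ),
      (T'.tor (Sum.inr k) (θ, r, (t : AddCircle (1 : ℝ)))).1 =
        N k (θ, ((r : ℝ) * Real.cos (2 * Real.pi * t),
          -4 + (r : ℝ) * Real.sin (2 * Real.pi * t))) := by
    intro k θ r t
    have h := D.new k θ r t
    rw [hD] at h
    exact h
  have hz : ∀ (n : ℤ) (t : ℝ), n • (t : AddCircle (1 : ℝ)) =
      ((n * t : ℝ) : AddCircle (1 : ℝ)) := by
    intro n t
    rw [← AddCircle.coe_zsmul, zsmul_eq_mul]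
  refine ⟨{
    p := fun z => Su.p z.2
    q := fun e => Sum.elim (fun x => x.elim) Su.q e.1.2
    p_loc := (Su.p_emb.comp (SurgB_snd _)).isLocalHomeomorph
    p_eq := ?_
    q_emb := ?_
    q_disj := ?_
    glue := ?_
    overlap := ?_
    cover := ?_ }⟩
  · intro z z'
    constructor
    · intro h
      exact Or.inl ((Su.p_emb.comp (SurgB_snd _)).injective h)
    · rintro (h | ⟨e, -, -, -, -, hne, -⟩)
      · rw [h]
      · exact absurd rfl hne
  · rintro ⟨⟨u, e⟩, he⟩
    rcases e with e | k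
    · exact e.elim
    · exact Su.q_emb k
  · rintro ⟨⟨u, e⟩, he⟩ ⟨⟨u', e'⟩, he'⟩ z w h
    rcases e with e | k
    · exact e.elim
    · rcases e' with e' | l
      · exact e'.elim
      · have hkl : k = l := Su.q_disj k l z w h
        subst hkl
        rfl
  · rintro ⟨⟨u, e⟩, he⟩ θ t r
    rcases e with e | k
    · exact e.elim
    · obtain ⟨t, rfl⟩ := QuotientAddGroup.mk_surjective t
      have h := Su.glue (T'.tor (Sum.inr k) (θ, r, (t : AddCircle (1 : ℝ)))) k θ r t
        (hnew k θ r t)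
      rw [← hz, ← hz] at h
      exact h
  · rintro ⟨u', m⟩ ⟨⟨u, e⟩, he⟩ w h
    rcases e with e | k
    · exact e.elim
    · obtain ⟨θ, r, t, h1⟩ := Su.overlap m k w h
      refine ⟨(θ, r, (t : AddCircle (1 : ℝ))), ?_⟩
      have h2 : m = T'.tor (Sum.inr k) (θ, r, (t : AddCircle (1 : ℝ))) :=
        Subtype.ext (h1.trans (hnew k θ r t).symm)
      rw [h2]
  · intro y
    rcases Su.cover y with ⟨m, hm⟩ | ⟨k, z, hz⟩
    · exact Or.inl ⟨⟨(), m⟩, hm⟩
    · exact Or.inr ⟨⟨⟨(), Sum.inr k⟩, rfl⟩, z, hz⟩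

/-- Surgery is filling of the drilled manifold: use `G.glue_taut` with the index type
`V = Unit`, the piece `M' = {y // ∀ k, y ∉ N k '' KK}`, the ends `Empty ⊕ Λ`, and the pattern with
`τ = id` (all ends are filled) and the matrices of the surgery. -/
theorem surgery_of_detected {Y : Type*} [TopologicalSpace Y] {Λ : Type*} {N : Λ → Cyl → Y}
    {al be ga de : Λ → ℤ} (hdet : ∀ k, al k * de k - be k * ga k = 1) {Y' : Type*}
    [TopologicalSpace Y'] (Su : Surgery N al be ga de Y') {T : G.Ended Y Empty}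
    {T' : G.Ended {y : Y // ∀ k, y ∉ N k '' KK} (Empty ⊕ Λ)} (D : Drill T N T')
    (hD : D.p = Subtype.val) {x y : Empty ⊕ Λ → ℝ} (h : G.Detected T' x y)
    (hc : ∀ k, ∃ c : ℝ, c ≠ 0 ∧ x (Sum.inr k) = c * ga k ∧ y (Sum.inr k) = c * de k) :
    ∃ F : Foliation Y', F.Taut := by
  have hU := SurgB_union hdet Su D hD
  refine G.glue_taut (fun _ : Unit => T') (SurgB_pat hdet) (Classical.choice hU)
    (fun e => x e.2) (fun e => y e.2) (fun _ => h) ?_ ?_
  · intro e he
    exact absurd rfl he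
  · rintro ⟨u, e⟩ -
    rcases e with e | k
    · exact e.elim
    · exact hc k

end Pool.Agent.H.MP_1611f1_gt.LS
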