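import Pool.Agent.H.MP_1611f1_gt.LS.HK
import Pool.Agent.H.MP_1611f1_gt.LS.SurgB

/-!
The leaf surgery theorem.
-/

namespace Pool.Agent.H.MP_1611f1_gt.LS

open Topology Set Filter

/-- **Leaf surgery.** Let `F` be a taut foliation of `Y`, and let `N k` be neighbourhoods of
finitely many disjoint simple closed curves in leaves of `F`, whose holonomy germs are not
trivial. Then every manifold obtained by Dehn surgery on these curves, with slopes different from
the slopes given by the leaves (`ga k ≠ 0`), has a taut foliation. -/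
theorem leaf_surgery_hol {Y : Type*} [TopologicalSpace Y] [T2Space Y] {Λ : Type*} [Finite Λ]
    {F : Foliation Y} (hF : F.Taut) {N : Λ → Cyl → Y}
    (hN : ∀ k, HolCurve F (N k)) (hd : ∀ k l z w, N k z = N l w → k = l)
    {al be ga de : Λ → ℤ} (hdet : ∀ k, al k * de k - be k * ga k = 1) (hga : ∀ k, ga k ≠ 0)
    {Y' : Type*} [TopologicalSpace Y'] (Su : Surgery N al be ga de Y') :
    ∃ F' : Foliation Y', F'.Taut := by
  let T : G.Ended Y Empty := ⟨fun j => j.elim, fun j => j.elim, fun j => j.elim⟩
  obtain ⟨T', D, hD⟩ := exists_drill T (fun k => (hN k).emb) hd (fun k z j w => j.elim)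
  obtain ⟨κ, hκ, h⟩ := drill_hol hF (T := T) (x := fun j => j.elim)
    (y := fun j => j.elim) (fun j => j.elim) hN hd (fun k z j w => j.elim) D
  have hga' : ∀ k, (ga k : ℝ) ≠ 0 := fun k => by exact_mod_cast hga k
  obtain ⟨F', hF', hlin, -⟩ := h (fun k => κ k * ga k * ga k) (fun k => κ k * ga k * de k)
    (fun k => by
      have h1 := hκ k
      have h2 := hga' k
      have h3 : κ k * (κ k * ga k * ga k) = (κ k * ga k) ^ 2 := by ring
      rw [h3]
      positivity)
  refine surgery_of_detected hdet Su D hD ⟨F', hF', hlin⟩ fun k => ⟨κ k * ga k, ?_, rfl, rfl⟩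
  exact mul_ne_zero (hκ k) (hga' k)

end Pool.Agent.H.MP_1611f1_gt.LS
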