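import Pool.Agent.H.MP_1611f1_gt.LS.UpB

/-!
Positively transverse paths: connected families of points with closed transversals.
-/

namespace Pool.Agent.H.MP_1611f1_gt.LS

open Topology Set Filter

variable {M : Type*} [TopologicalSpace M] (G : PreFol M)

/-- If there is a closed transversal through every point of a path, then there is a transverse
path from its beginning to its end (and back). The relation `Up x y ∧ Up y x` is an equivalence
relation with open classes on the points of the path (`Up.left`, `Up.right`, `Up.trans`); use the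
connectedness of the unit interval. -/
theorem PreFol.up_path (γ : unitInterval → M) (hγ : Continuous γ)
    (h : ∀ s, G.Up (γ s) (γ s)) : G.Up (γ 0) (γ 1) ∧ G.Up (γ 1) (γ 0) := by
  have hnear : ∀ s, ∀ᶠ s1 in 𝓝 s, G.Up (γ s) (γ s1) ∧ G.Up (γ s1) (γ s) := fun s =>
    (hγ.continuousAt.eventually (PreFol.Up.right G (h s))).and
      (hγ.continuousAt.eventually (PreFol.Up.left G (h s)))
  have hopen : IsOpen {s | G.Up (γ 0) (γ s) ∧ G.Up (γ s) (γ 0)} := by
    rw [isOpen_iff_mem_nhds]
    rintro s ⟨h1, h2⟩
    filter_upwards [hnear s] with s1 h3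
    exact ⟨h1.trans G h3.1, h3.2.trans G h2⟩
  have hclosed : IsClosed {s | G.Up (γ 0) (γ s) ∧ G.Up (γ s) (γ 0)} := by
    rw [← isOpen_compl_iff, isOpen_iff_mem_nhds]
    intro s hs
    filter_upwards [hnear s] with s1 h3 h4
    exact hs ⟨h4.1.trans G h3.2, h3.1.trans G h4.2⟩
  have huniv := IsClopen.eq_univ ⟨hclosed, hopen⟩ ⟨0, h 0, h 0⟩
  have h1 : (1 : unitInterval) ∈ {s | G.Up (γ 0) (γ s) ∧ G.Up (γ s) (γ 0)} := by
    rw [huniv]
    exact mem_univ _
  exact h1

/-- the same for a path on a real interval -/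
theorem PreFol.up_interval (γ : ℝ → M) {a b : ℝ} (hγ : ContinuousOn γ (uIcc a b))
    (h : ∀ s ∈ uIcc a b, G.Up (γ s) (γ s)) : G.Up (γ a) (γ b) ∧ G.Up (γ b) (γ a) := by
  have hmem : ∀ t : unitInterval, a + t * (b - a) ∈ uIcc a b := by
    rintro ⟨t, ht0, ht1⟩
    rw [mem_uIcc]
    rcases le_total a b with hab | hab
    · left
      constructor <;> nlinarith
    · right
      constructor <;> nlinarith
  have hc : Continuous fun t : unitInterval => γ (a + t * (b - a)) :=
    hγ.comp_continuous (by fun_prop) hmem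
  have h1 := PreFol.up_path G _ hc fun t => h _ (hmem t)
  simpa using h1

end Pool.Agent.H.MP_1611f1_gt.LS
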