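import Pool.Agent.H.MP_1611f1_gt.LS.CirA
import Pool.Agent.H.MP_1611f1_gt.LS.UpC

/-!
All points below the leaf are joined by transverse paths.
-/

namespace Pool.Agent.H.MP_1611f1_gt.LS

open Topology Set Filter

variable {M : Type*} [TopologicalSpace M] {F : Foliation M} {Λ : Type*} (X : Sys F Λ)

/-- a path below the leaf outside of the solid torus -/
theorem hub_path [T2Space M] [Finite Λ] {k : Λ} (γ : ℝ → Cov) {a b : ℝ}
    (hγ : ContinuousOn γ (uIcc a b)) (h : ∀ t ∈ uIcc a b, (γ t).2.2 < 0 ∧ 1 < rr (γ t).2) :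
    X.pre.Up (rc (X.N k) (γ a)) (rc (X.N k) (γ b)) ∧
      X.pre.Up (rc (X.N k) (γ b)) (rc (X.N k) (γ a)) :=
  X.pre.up_interval (fun t => rc (X.N k) (γ t))
    ((rc_cont (X.tube k).emb).comp_continuousOn hγ)
    (fun t ht => up_circle X (h t ht).1 (h t ht).2)

/-- from every point to the base point `(0, (3, -4))`: for `s ≥ -4` move up vertically to
`s = -1`, otherwise down to `s = -7` (or below); then horizontally to `u = 3`, vertically to
`s = -4`, and at last change `θ` -/
theorem hub_base [T2Space M] [Finite Λ] {k : Λ} {z : Cov} (hs : z.2.2 < 0)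
    (hr : 1 < rr z.2) :
    X.pre.Up (rc (X.N k) z) (rc (X.N k) (0, (3, -4))) ∧
      X.pre.Up (rc (X.N k) (0, (3, -4))) (rc (X.N k) z) := by
  obtain ⟨th, u, s⟩ := z
  simp only at hs hr
  -- the height where we move horizontally
  obtain ⟨s1, hs1, hfar, hpath⟩ : ∃ s1 : ℝ, s1 < 0 ∧ 9 ≤ (s1 + 4) ^ 2 ∧
      ∀ t ∈ uIcc s s1, t < 0 ∧ (s + 4) ^ 2 ≤ (t + 4) ^ 2 := by
    rcases le_or_gt (-4) s with h4 | h4
    · refine ⟨max s (-1), max_lt hs (by norm_num), ?_, ?_⟩
      · have : -1 ≤ max s (-1) := le_max_right _ _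
        nlinarith
      · intro t ht
        rw [uIcc_of_le (le_max_left _ _)] at ht
        obtain ⟨h1, h2⟩ := ht
        exact ⟨lt_of_le_of_lt h2 (max_lt hs (by norm_num)), by nlinarith⟩
    · refine ⟨min s (-7), lt_of_le_of_lt (min_le_left _ _) hs, ?_, ?_⟩
      · have : min s (-7) ≤ -7 := min_le_right _ _
        nlinarith
      · intro t ht
        rw [uIcc_of_ge (min_le_left _ _)] at ht
        obtain ⟨h1, h2⟩ := ht
        exact ⟨lt_of_le_of_lt h2 hs, by nlinarith⟩
  have A := hub_path X (k := k) (fun t => ((th, (u, t)) : Cov)) (a := s) (b := s1)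
    (by fun_prop) (fun t ht => ⟨(hpath t ht).1, by
      have h2 := (hpath t ht).2
      simp only [rr] at hr ⊢
      linarith⟩)
  have B := hub_path X (k := k) (fun t => ((th, (t, s1)) : Cov)) (a := u) (b := 3)
    (by fun_prop) (fun t _ => ⟨hs1, by
      simp only [rr]
      nlinarith [sq_nonneg t]⟩)
  have C := hub_path X (k := k) (fun t => ((th, (3, t)) : Cov)) (a := s1) (b := -4)
    (by fun_prop) (fun t ht => ⟨lt_of_le_of_lt ht.2 (max_lt hs1 (by norm_num)), by
      simp only [rr]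
      nlinarith [sq_nonneg (t + 4)]⟩)
  have D := hub_path X (k := k) (fun t => ((t, (3, -4)) : Cov)) (a := th) (b := 0)
    (by fun_prop) (fun t _ => ⟨by norm_num, by simp only [rr]; norm_num⟩)
  exact ⟨((A.1.trans _ B.1).trans _ C.1).trans _ D.1,
    ((D.2.trans _ C.2).trans _ B.2).trans _ A.2⟩

theorem hub [T2Space M] [Finite Λ] {k : Λ} {z w : Cov} (hs : z.2.2 < 0)
    (hr : 1 < rr z.2) (hs' : w.2.2 < 0) (hr' : 1 < rr w.2) :
    X.pre.Up (rc (X.N k) z) (rc (X.N k) w) :=
  (hub_base X hs hr).1.trans _ (hub_base X hs' hr').2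

end Pool.Agent.H.MP_1611f1_gt.LS
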