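import Mathlib

/-!
Induction on an interval.
-/

namespace Pool.Agent.H.MP_1611f1_gt.LS

open Topology Set Filter

/-- Induction on the interval `(a, b]`. (Let `t` be the supremum of the `x ≤ b` such that
`S` holds on `(a, x]`.) -/
theorem interval_ind {a b : ℝ} (hab : a < b) (S : ℝ → Prop)
    (start : ∃ ε > 0, ∀ t ∈ Ioo a (a + ε), t ≤ b → S t)
    (step : ∀ t ∈ Ioo a b, S t → ∃ ε > 0, ∀ t' ∈ Ioo t (t + ε), t' ≤ b → S t')
    (limit : ∀ t ∈ Ioc a b, (∀ t' ∈ Ioo a t, S t') → S t) : S b := by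
  set A : Set ℝ := {x | a < x ∧ x ≤ b ∧ ∀ t ∈ Ioc a x, S t} with hA
  obtain ⟨ε, hε, h0⟩ := start
  have hx0 : min b (a + ε / 2) ∈ A := by
    refine ⟨lt_min hab (by linarith), min_le_left _ _, fun t ht => h0 t ⟨ht.1, ?_⟩ ?_⟩
    · have := ht.2.trans (min_le_right _ _)
      linarith
    · exact ht.2.trans (min_le_left _ _)
  have hne : A.Nonempty := ⟨_, hx0⟩
  have hbdd : BddAbove A := ⟨b, fun x hx => hx.2.1⟩
  have hTa : a < sSup A := lt_of_lt_of_le hx0.1 (le_csSup hbdd hx0)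
  have hTb : sSup A ≤ b := csSup_le hne fun x hx => hx.2.1
  have h1 : ∀ t ∈ Ioo a (sSup A), S t := by
    intro t ht
    obtain ⟨x, hx, htx⟩ := exists_lt_of_lt_csSup hne ht.2
    exact hx.2.2 t ⟨ht.1, htx.le⟩
  have h2 : S (sSup A) := limit _ ⟨hTa, hTb⟩ h1
  rcases hTb.lt_or_eq with h3 | h3
  · exfalso
    obtain ⟨δ, hδ, h4⟩ := step _ ⟨hTa, h3⟩ h2
    have h5 : min b (sSup A + δ / 2) ∈ A := by
      refine ⟨lt_min hab (by linarith), min_le_left _ _, fun t ht => ?_⟩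
      rcases lt_trichotomy t (sSup A) with h6 | h6 | h6
      · exact h1 t ⟨ht.1, h6⟩
      · rw [h6]; exact h2
      · refine h4 t ⟨h6, ?_⟩ (ht.2.trans (min_le_left _ _))
        have := ht.2.trans (min_le_right _ _)
        linarith
    have h6 := le_csSup hbdd h5
    have h7 : sSup A < min b (sSup A + δ / 2) := lt_min h3 (by linarith)
    linarith
  · rw [← h3]; exact h2

end Pool.Agent.H.MP_1611f1_gt.LS
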