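import Pool.Agent.H.MP_1611f1_gt.LS.Base

/-!
From order germs to the order on a box.
-/

namespace Pool.Agent.H.MP_1611f1_gt.LS

open Topology Set Filter

/-- locally strictly increasing implies increasing -/
theorem IsoA_mono {F : ℝ → ℝ} {p q : ℝ} (hF : ∀ t ∈ Icc p q, ∃ ε > 0,
    StrictMonoOn F (Ioo (t - ε) (t + ε) ∩ Icc p q)) (hpq : p < q) : F p < F q := by
  set T : Set ℝ := {t | t ∈ Icc p q ∧ ∀ t' ∈ Ioc p t, F p < F t'} with hT
  have hpT : p ∈ T := ⟨⟨le_rfl, hpq.le⟩, fun t' ht' => absurd ht'.1 (not_lt.2 ht'.2)⟩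
  have hbd : BddAbove T := ⟨q, fun t ht => ht.1.2⟩
  set σ := sSup T with hσ
  have hσ1 : p ≤ σ := le_csSup hbd hpT
  have hσ2 : σ ≤ q := csSup_le ⟨p, hpT⟩ fun t ht => ht.1.2
  obtain ⟨ε, hε, hmono⟩ := hF σ ⟨hσ1, hσ2⟩
  obtain ⟨t₀, ht₀, ht₀'⟩ := exists_lt_of_lt_csSup ⟨p, hpT⟩ (show σ - ε < sSup T by linarith)
  have ht₀σ : t₀ ≤ σ := le_csSup hbd ht₀
  have key : ∀ t' ∈ Icc p q, t' < σ + ε → p < t' → F p < F t' := by
    intro t' ht' h1 h2
    rcases le_or_gt t' t₀ with h3 | h3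
    · exact ht₀.2 t' ⟨h2, h3⟩
    · have h4 : F t₀ < F t' :=
        hmono ⟨⟨ht₀', by linarith⟩, ht₀.1⟩ ⟨⟨by linarith, h1⟩, ht'⟩ h3
      have h5 : F p ≤ F t₀ := by
        rcases ht₀.1.1.eq_or_lt with h6 | h6
        · rw [h6]
        · exact (ht₀.2 t₀ ⟨h6, le_rfl⟩).le
      linarith
  rcases hσ2.lt_or_eq with h1 | h1
  · exfalso
    have h2 : min (σ + ε / 2) q ∈ T := by
      refine ⟨⟨le_min (by linarith) hpq.le, min_le_right _ _⟩, fun t' ht' => ?_⟩
      have h3 := ht'.2.trans (min_le_left _ _)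
      exact key t' ⟨ht'.1.le, ht'.2.trans (min_le_right _ _)⟩ (by linarith) ht'.1
    have h3 : min (σ + ε / 2) q ≤ σ := le_csSup hbd h2
    have h4 : σ < min (σ + ε / 2) q := lt_min (by linarith) h1
    linarith
  · exact key q ⟨hpq.le, le_rfl⟩ (by linarith) hpq

/-- the function is constant along a path on which the other one is constant -/
theorem IsoA_path {f h : Cov → ℝ} {γ : ℝ → Cov} {p q c : ℝ} (hγ : ContinuousOn γ (uIcc p q))
    (hf : ∀ t ∈ uIcc p q, OrdEq (γ t) f h) (hc : ∀ t ∈ uIcc p q, h (γ t) = c) :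
    f (γ p) = f (γ q) := by
  refine isPreconnected_uIcc.induction₂ (fun x y => f (γ x) = f (γ y)) ?_ ?_ ?_
    left_mem_uIcc right_mem_uIcc
  · intro x hx
    obtain ⟨N, hN, hN'⟩ := hf x hx
    filter_upwards [hγ x hx hN, self_mem_nhdsWithin] with y hy hyI
    have hxN : γ x ∈ N := mem_of_mem_nhds hN
    have e : h (γ x) = h (γ y) := by rw [hc x hx, hc y hyI]
    refine le_antisymm (not_lt.1 fun hlt => ?_) (not_lt.1 fun hlt => ?_)
    · have := (hN' _ hy _ hxN).1 hlt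
      rw [e] at this
      exact lt_irrefl _ this
    · have := (hN' _ hxN _ hy).1 hlt
      rw [e] at this
      exact lt_irrefl _ this
  · intro x y z _ _ _ h1 h2
    exact h1.trans h2
  · intro x y _ _ h1
    exact h1.symm

/-- If `f` defines, near every point of a box below the leaf, the same order as
`h = P θ + g s` (`g` continuous and strictly increasing, `g → ∞` for `s → 0-`), then it defines
the same order on the whole box.

Proof. (i) `f` is strictly increasing in `s` on the vertical lines (locally, hence globally).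
(ii) If `h w = h w'` then `f w = f w'`: let `c = h w`; join `w` and `w'` by the path
`τ ↦ (τ, (u τ, g⁻¹ (c - P τ)))`, `τ` between `w.1` and `w'.1` (`c - P τ` is between `g w.2.2` and
`g w'.2.2`, so the path stays in the box), resp. by a segment in the direction `u` if
`w.1 = w'.1`; along the path `f` is locally constant. (iii) If `h w < h w'` there is `s''` with
`w.2.2 < s'' < 0` and `h (w.1, (w.2.1, s'')) = h w'` (`g` takes all values between `g w.2.2` and
`∞`), so `f w < f (w.1, (w.2.1, s'')) = f w'`. -/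
theorem box_order {P : ℝ} {g : ℝ → ℝ} (hgc : ContinuousOn g (Iio 0))
    (hgm : StrictMonoOn g (Iio 0)) (hgl : Tendsto g (𝓝[<] 0) atTop) {f : Cov → ℝ}
    {a b u v d : ℝ} (hd : d < 0)
    (hf : ∀ z ∈ Ioo a b ×ˢ (Ioo u v ×ˢ Ioo d 0), OrdEq z f (fun w => P * w.1 + g w.2.2)) :
    ∀ w ∈ Ioo a b ×ˢ (Ioo u v ×ˢ Ioo d 0), ∀ w' ∈ Ioo a b ×ˢ (Ioo u v ×ˢ Ioo d 0),
      (f w < f w' ↔ P * w.1 + g w.2.2 < P * w'.1 + g w'.2.2) := by
  -- (i)
  have hi : ∀ θ ∈ Ioo a b, ∀ x ∈ Ioo u v, ∀ s s' : ℝ, d < s → s < s' → s' < 0 →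
      f (θ, (x, s)) < f (θ, (x, s')) := by
    intro θ hθ x hx s s' h1 h2 h3
    refine IsoA_mono (F := fun t => f (θ, (x, t))) (fun t ht => ?_) h2
    obtain ⟨N, hN, hN'⟩ := hf (θ, (x, t)) ⟨hθ, hx, lt_of_lt_of_le h1 ht.1, lt_of_le_of_lt ht.2 h3⟩
    have hcont : Continuous fun t : ℝ => ((θ, (x, t)) : Cov) := by fun_prop
    obtain ⟨ε, hε, hball⟩ := Metric.mem_nhds_iff.1 (hcont.continuousAt (x := t) hN)
    rw [Real.ball_eq_Ioo] at hball
    refine ⟨ε, hε, fun t₁ ht₁ t₂ ht₂ hlt => ?_⟩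
    have h4 : t₁ < 0 := lt_of_le_of_lt ht₁.2.2 h3
    have h5 : t₂ < 0 := lt_of_le_of_lt ht₂.2.2 h3
    refine (hN' _ (hball ht₁.1) _ (hball ht₂.1)).2 ?_
    have := hgm h4 h5 hlt
    show P * θ + g t₁ < P * θ + g t₂
    linarith
  -- (ii)
  have hii : ∀ w ∈ Ioo a b ×ˢ (Ioo u v ×ˢ Ioo d 0), ∀ w' ∈ Ioo a b ×ˢ (Ioo u v ×ˢ Ioo d 0),
      P * w.1 + g w.2.2 = P * w'.1 + g w'.2.2 → f w = f w' := by
    rintro ⟨θ, x, s⟩ ⟨hθ, hx, hs⟩ ⟨θ', x', s'⟩ ⟨hθ', hx', hs'⟩ e
    simp only at hθ hx hs hθ' hx' hs' e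
    have h1 : f (θ, (x, s)) = f (θ, (x', s)) := by
      refine IsoA_path (γ := fun τ => (θ, (τ, s))) (c := P * θ + g s)
        (h := fun w => P * w.1 + g w.2.2) (by fun_prop) (fun t ht => ?_) (fun t _ => rfl)
      exact hf _ ⟨hθ, (ordConnected_Ioo.uIcc_subset hx hx') ht, hs⟩
    rw [h1]
    rcases eq_or_ne P 0 with rfl | hP
    · have h2 : s = s' := by
        apply hgm.injOn hs.2 hs'.2
        linarith
      subst h2
      refine IsoA_path (γ := fun τ => (τ, (x', s))) (c := g s)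
        (h := fun w => 0 * w.1 + g w.2.2) (by fun_prop) (fun t ht => ?_) (fun t _ => by simp)
      exact hf _ ⟨(ordConnected_Ioo.uIcc_subset hθ hθ') ht, hx', hs⟩
    · set c := P * θ + g s with hc
      have e1 : (c - g s) / P = θ := by rw [hc]; field_simp; ring
      have e2 : (c - g s') / P = θ' := by rw [e]; field_simp; ring
      have hsub : uIcc s s' ⊆ Ioo d 0 := ordConnected_Ioo.uIcc_subset hs hs'
      have hsub' : uIcc s s' ⊆ Iio 0 := fun t ht => (hsub ht).2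
      have h3 : ContinuousOn (fun τ : ℝ => (((c - g τ) / P, (x', τ)) : Cov)) (uIcc s s') :=
        ((continuousOn_const.sub (hgc.mono hsub')).div_const P).prodMk
          (continuousOn_const.prodMk continuousOn_id)
      have h4 := IsoA_path (f := f) (γ := fun τ => ((c - g τ) / P, (x', τ))) (c := c)
        (h := fun w => P * w.1 + g w.2.2) h3 (fun t ht => ?_) (fun t _ => ?_)
      · simp only [e1, e2] at h4
        exact h4
      · refine hf _ ⟨?_, hx', hsub ht⟩
        have h5 : g t ∈ uIcc (g s) (g s') :=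
          ((hgm.monotoneOn.mono hsub').image_uIcc_subset) ⟨t, ht, rfl⟩
        have e3 : g s = c - P * θ := by rw [hc]; ring
        have e4 : g s' = c - P * θ' := by rw [e]; ring
        rw [e3, e4] at h5
        rw [mem_uIcc] at h5
        show (c - g t) / P ∈ Ioo a b
        rcases lt_or_gt_of_ne hP with hneg | hpos
        · have q1 := mul_lt_mul_of_neg_left hθ.1 hneg
          have q2 := mul_lt_mul_of_neg_left hθ.2 hneg
          have q3 := mul_lt_mul_of_neg_left hθ'.1 hneg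
          have q4 := mul_lt_mul_of_neg_left hθ'.2 hneg
          constructor
          · rw [lt_div_iff_of_neg hneg]
            rcases h5 with h5 | h5 <;> linarith [h5.1, h5.2]
          · rw [div_lt_iff_of_neg hneg]
            rcases h5 with h5 | h5 <;> linarith [h5.1, h5.2]
        · have q1 := mul_lt_mul_of_pos_left hθ.1 hpos
          have q2 := mul_lt_mul_of_pos_left hθ.2 hpos
          have q3 := mul_lt_mul_of_pos_left hθ'.1 hpos
          have q4 := mul_lt_mul_of_pos_left hθ'.2 hpos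
          constructor
          · rw [lt_div_iff₀ hpos]
            rcases h5 with h5 | h5 <;> linarith [h5.1, h5.2]
          · rw [div_lt_iff₀ hpos]
            rcases h5 with h5 | h5 <;> linarith [h5.1, h5.2]
      · show P * ((c - g t) / P) + g t = c
        field_simp
        ring
  -- (iii)
  have hiii : ∀ w ∈ Ioo a b ×ˢ (Ioo u v ×ˢ Ioo d 0), ∀ w' ∈ Ioo a b ×ˢ (Ioo u v ×ˢ Ioo d 0),
      P * w.1 + g w.2.2 < P * w'.1 + g w'.2.2 → f w < f w' := by
    rintro ⟨θ, x, s⟩ ⟨hθ, hx, hs⟩ w' hw' hlt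
    simp only at hθ hx hs hlt
    obtain ⟨s₃, h1, h2⟩ : ∃ s₃, (P * w'.1 + g w'.2.2 - P * θ < g s₃) ∧ s₃ ∈ Ioo s 0 := by
      have q1 : ∀ᶠ t in 𝓝[<] (0 : ℝ), P * w'.1 + g w'.2.2 - P * θ < g t :=
        hgl.eventually_gt_atTop _
      have q2 : ∀ᶠ t in 𝓝[<] (0 : ℝ), t ∈ Ioo s 0 := Ioo_mem_nhdsLT hs.2
      exact (q1.and q2).exists
    have h3 : ContinuousOn g (Icc s s₃) := hgc.mono fun t ht => lt_of_le_of_lt ht.2 h2.2
    obtain ⟨s₄, h4, h5⟩ := intermediate_value_Icc h2.1.le h3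
      (show P * w'.1 + g w'.2.2 - P * θ ∈ Icc (g s) (g s₃) from ⟨by linarith, h1.le⟩)
    have h6 : s < s₄ := by
      rcases h4.1.eq_or_lt with h7 | h7
      · exfalso
        rw [← h7] at h5
        linarith
      · exact h7
    have h7 : s₄ < 0 := lt_of_le_of_lt h4.2 h2.2
    have h8 : f (θ, (x, s₄)) = f w' := by
      refine hii _ ⟨hθ, hx, hs.1.trans h6, h7⟩ w' hw' ?_
      show P * θ + g s₄ = _
      rw [h5]
      ring
    rw [← h8]
    exact hi θ hθ x hx s s₄ hs.1 h6 h7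
  intro w hw w' hw'
  refine ⟨fun h1 => ?_, hiii w hw w' hw'⟩
  by_contra h2
  rcases (not_lt.1 h2).eq_or_lt with h3 | h3
  · have := hii w' hw' w hw h3
    linarith
  · have := hiii w' hw' w hw h3
    linarith

end Pool.Agent.H.MP_1611f1_gt.LS
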