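import Pool.Agent.H.MP_1611f1_gt.LS.LvDefs
import Pool.Agent.H.MP_1611f1_gt.OneD

/-!
The one-dimensional data near the fixed points.
-/

namespace Pool.Agent.H.MP_1611f1_gt.LS

open Topology Set Filter

theorem LvA_symm {f : ℝ ≃o ℝ} {i l : ℝ} (h : LinAt f i l) : LinAt f.symm i l⁻¹ := by
  obtain ⟨hl, ε, hε, h⟩ := h
  refine ⟨inv_pos.mpr hl, ε * l, mul_pos hε hl, fun t ht => ?_⟩
  rw [OrderIso.symm_apply_eq, h]
  · field_simp
    ring
  · have h1 : 0 ≤ l⁻¹ * (i - t) := mul_nonneg (inv_pos.mpr hl).le (by linarith [ht.2])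
    have h2 : l⁻¹ * (i - t) ≤ l⁻¹ * (ε * l) :=
      mul_le_mul_of_nonneg_left (by linarith [ht.1]) (inv_pos.mpr hl).le
    have h3 : l⁻¹ * (ε * l) = ε := by
      field_simp
    constructor
    · nlinarith
    · nlinarith

theorem LvA_shift {A B : ℝ ≃o ℝ} (hB : ∀ t, B t = A (t - 1) + 1) {i l : ℝ} (h : LinAt A i l) :
    LinAt B (i + 1) l := by
  obtain ⟨hl, ε, hε, h⟩ := h
  refine ⟨hl, ε, hε, fun t ht => ?_⟩
  rw [hB, h (t - 1) ⟨by linarith [ht.1], by linarith [ht.2]⟩]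
  ring

theorem LvA_A {r : ℝ} (h0 : 0 < r) (h1 : r < 1) {e A : ℝ ≃o ℝ}
    (he : e 0 = 0 ∧ e 2 = 2 ∧ (∀ x ≤ r, e x = x / r) ∧
      (∀ x, r ≤ x → x ≤ 1 → e x = 1 + (x - r)) ∧
      (∀ x, 1 ≤ x → e x = 2 - r + r * (x - 1)))
    (hA4 : ∀ t, A (t + 4) = A t + 4) (hA1 : ∀ t ∈ Icc (0 : ℝ) 2, A t = e t)
    (hA2 : ∀ t ∈ Icc (2 : ℝ) 4, A t = e.symm (t - 2) + 2) (m : ℤ) :
    ∃ l : ℝ, l ≠ 1 ∧ LinAt A (2 * m) l := by
  have hs := (OneC_symm r h0 e he).2.2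
  have he3 := he.2.2.2.2
  have hAk : ∀ (k : ℤ) (t : ℝ), A (t + k * 4) = A t + k * 4 := fun k t =>
    OneC_shift (fun x => A x) 4 4 hA4 k t
  rcases Int.even_or_odd' m with ⟨k, hk | hk⟩
  · refine ⟨r⁻¹, fun h => h1.ne (inv_eq_one.mp h), inv_pos.mpr h0, r, h0, fun t ht => ?_⟩
    have hm : (2 * m : ℝ) = 4 * k := by
      rw [hk]
      push_cast
      ring
    rw [hm] at ht ⊢
    have h2 := hAk (k - 1) (t - (k - 1) * 4)
    push_cast at h2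
    rw [sub_add_cancel] at h2
    rw [h2, hA2 _ ⟨by linarith [ht.1], by linarith [ht.2]⟩, hs _ (by linarith [ht.1])]
    field_simp
    ring
  · refine ⟨r, h1.ne, h0, 1, one_pos, fun t ht => ?_⟩
    have hm : (2 * m : ℝ) = 4 * k + 2 := by
      rw [hk]
      push_cast
      ring
    rw [hm] at ht ⊢
    have h2 := hAk k (t - k * 4)
    rw [sub_add_cancel] at h2
    rw [h2, hA1 _ ⟨by linarith [ht.1], by linarith [ht.2]⟩, he3 _ (by linarith [ht.1])]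
    ring

theorem LvA_pos (σ : ℝ) (h0 : 0 < σ) (h1 : σ < 1) : ∃ H : Hol σ,
    (∀ m : ℤ, ∃ l : ℝ, l ≠ 1 ∧ LinAt H.A (2 * m) l) ∧ (∀ t, H.B t = H.A (t - 1) + 1) := by
  obtain ⟨s, hs0, hs1, hs2⟩ : ∃ s : ℝ, 0 < s ∧ s < 1 ∧ s * s = σ := by
    refine ⟨Real.sqrt σ, Real.sqrt_pos.2 h0, ?_, Real.mul_self_sqrt h0.le⟩
    rw [Real.sqrt_lt' one_pos]
    simpa using h1
  obtain ⟨r, hr⟩ : ∃ r : ℝ, r = (1 - s) / (1 + s) := ⟨_, rfl⟩
  have hr0 : 0 < r := by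
    rw [hr]
    apply div_pos <;> linarith
  have hr1 : r < 1 := by
    rw [hr, div_lt_one (by linarith)]
    linarith
  have hrs : 1 - r = s * (1 + r) := by
    rw [hr]
    field_simp
    ring
  obtain ⟨e, A, he, hA4, hAf, hA1, hA2⟩ := exists_A r hr0 hr1
  obtain ⟨th0, hm, hc, ht4, ht⟩ := exists_th r hr0 hr1
  obtain ⟨R1, R2⟩ := crossing r hr0 hr1 e A th0 he hA4 hA1 hA2 ht4 ht
  let B : ℝ ≃o ℝ := ((OrderIso.addRight (-1 : ℝ)).trans A).trans (OrderIso.addRight (1 : ℝ))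
  have hB : ∀ t, B t = A (t - 1) + 1 := by
    intro t
    change A (t + -1) + 1 = A (t - 1) + 1
    rw [← sub_eq_add_neg]
  have hr2 : 0 < (1 + r) ^ 2 := by positivity
  refine ⟨⟨A, B, fun t => 4 / (1 + r) ^ 2 * th0 t, ?_, ?_, hA4, ?_, ?_, hAf, ?_, ?_⟩,
    LvA_A hr0 hr1 he hA4 hA1 hA2, hB⟩
  · exact hm.const_mul (by positivity)
  · exact continuous_const.mul hc
  · intro t
    rw [hB, hB]
    have : t + 4 - 1 = (t - 1) + 4 := by ring
    rw [this, hA4]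
    ring
  · intro t
    rw [ht4]
    field_simp
  · intro m
    rw [hB]
    have : (2 * m + 1 - 1 : ℝ) = 2 * m := by ring
    rw [this, hAf]
  · intro t
    obtain ⟨x1, hx1⟩ : ∃ x, x = A t := ⟨_, rfl⟩
    obtain ⟨x2, hx2⟩ : ∃ x, x = B x1 := ⟨_, rfl⟩
    obtain ⟨x3, hx3⟩ : ∃ x, x = A.symm x2 := ⟨_, rfl⟩
    obtain ⟨x4, hx4⟩ : ∃ x, x = B.symm x3 := ⟨_, rfl⟩
    rw [← hx1, ← hx2, ← hx3, ← hx4]
    have e1 := R1 t
    rw [← hx1] at e1
    have e2 := R1 (x1 - 1)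
    have g2 : A (x1 - 1) - 1 = x2 - 2 := by
      rw [hx2, hB]
      ring
    rw [g2] at e2
    have e3 := R2 x3
    have g3 : A x3 = x2 := by rw [hx3, OrderIso.apply_symm_apply]
    rw [g3] at e3
    have e4 := R2 (x4 - 1)
    have g4 : B x4 = x3 := by rw [hx4, OrderIso.apply_symm_apply]
    rw [hB] at g4
    have g5 : A (x4 - 1) - 2 = x3 - 3 := by rw [← g4]; ring
    have g6 : x4 - 1 - 3 = x4 - 4 := by ring
    rw [g5, g6] at e4
    have e5 := ht4 (x4 - 4)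
    rw [sub_add_cancel] at e5
    have e6 : th0 x4 = th0 t + (1 - r) ^ 2 := by
      rw [e5]
      have : th0 (x4 - 4) = th0 t - 4 * r := by linarith
      rw [this]
      ring
    rw [e6, hrs, ← hs2]
    field_simp

/-- The data of `exists_hol_pos` (`σ > 0`, `0 < r < 1`): `A = e` on `[0, 2]`,
`A t = e.symm (t - 2) + 2` on `[2, 4]`, period `4`, so the slope just below `2` is `r`, and
just below `4` it is `1 / r`; `B t = A (t - 1) + 1`. For `σ < 0` the map `A` is replaced by its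
inverse. -/
theorem exists_hol_lin (σ : ℝ) (hσ : |σ| < 1) (h0 : σ ≠ 0) : ∃ H : Hol σ,
    (∀ m : ℤ, ∃ l : ℝ, l ≠ 1 ∧ LinAt H.A (2 * m) l) ∧
    (∀ m : ℤ, ∃ l : ℝ, l ≠ 1 ∧ LinAt H.B (2 * m + 1) l) := by
  rcases lt_or_gt_of_ne h0 with h | h
  · rw [abs_of_neg h] at hσ
    obtain ⟨D, hD1, hD2⟩ := LvA_pos (-σ) (by linarith) hσ
    have hA4 : ∀ t, D.A.symm (t + 4) = D.A.symm t + 4 := by
      intro t
      apply D.A.injective
      rw [D.A4, OrderIso.apply_symm_apply, OrderIso.apply_symm_apply]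
    refine ⟨⟨D.A.symm, D.B, fun t => D.th (D.A.symm t), ?_, ?_, hA4, D.B4, ?_, ?_, D.Bfix, ?_⟩,
      ?_, ?_⟩
    · exact D.mono.comp D.A.symm.strictMono
    · exact D.cont.comp D.A.symm.continuous
    · intro t
      rw [hA4, D.th4]
    · intro m
      apply D.A.injective
      rw [D.Afix, OrderIso.apply_symm_apply]
    · intro t
      simp only [OrderIso.symm_symm]
      have h1 := D.rot (D.A.symm (D.B.symm (D.A (D.B (D.A.symm t)))))
      rw [OrderIso.apply_symm_apply, OrderIso.apply_symm_apply, OrderIso.symm_apply_apply,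
        OrderIso.symm_apply_apply] at h1
      linarith
    · intro m
      obtain ⟨l, hl, hlin⟩ := hD1 m
      exact ⟨l⁻¹, fun h => hl (inv_eq_one.mp h), LvA_symm hlin⟩
    · intro m
      obtain ⟨l, hl, hlin⟩ := hD1 m
      exact ⟨l, hl, LvA_shift hD2 hlin⟩
  · rw [abs_of_pos h] at hσ
    obtain ⟨D, hD1, hD2⟩ := LvA_pos σ h hσ
    refine ⟨D, hD1, fun m => ?_⟩
    obtain ⟨l, hl, hlin⟩ := hD1 m
    exact ⟨l, hl, LvA_shift hD2 hlin⟩

/-- the data for all colours -/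
theorem exists_hols {K : Type*} (σ : K → ℝ) (hσ : ∀ k, |σ k| < 1) :
    ∃ H : ∀ k, Hol (σ k), ∀ (i : ℤ) (e : Bool × K), ina i e → σ e.2 ≠ 0 →
      ∃ l : ℝ, l ≠ 1 ∧ LinAt (iso H e) i l := by
  have key : ∀ k, ∃ H : Hol (σ k), σ k ≠ 0 →
      (∀ m : ℤ, ∃ l : ℝ, l ≠ 1 ∧ LinAt H.A (2 * m) l) ∧
      (∀ m : ℤ, ∃ l : ℝ, l ≠ 1 ∧ LinAt H.B (2 * m + 1) l) := by
    intro k
    by_cases hk : σ k = 0
    · obtain ⟨H⟩ := exists_hol (σ k) (hσ k)
      exact ⟨H, fun h => absurd hk h⟩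
    · obtain ⟨H, h1, h2⟩ := exists_hol_lin (σ k) (hσ k) hk
      exact ⟨H, fun _ => ⟨h1, h2⟩⟩
  choose H hH using key
  refine ⟨H, ?_⟩
  rintro i ⟨b, k⟩ hi hs
  rcases hi with ⟨⟨m, hm⟩, hb⟩ | ⟨⟨m, hm⟩, hb⟩
  · simp only at hb
    subst hb
    obtain ⟨l, hl, hlin⟩ := (hH k hs).1 m
    refine ⟨l, hl, ?_⟩
    have h1 : (i : ℝ) = 2 * m := by
      rw [hm]
      push_cast
      ring
    have h2 : iso H (false, k) = (H k).A := by simp [iso]
    rw [h1, h2]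
    exact hlin
  · simp only at hb
    subst hb
    obtain ⟨l, hl, hlin⟩ := (hH k hs).2 m
    refine ⟨l, hl, ?_⟩
    have h1 : (i : ℝ) = 2 * m + 1 := by
      rw [hm]
      push_cast
      ring
    have h2 : iso H (true, k) = (H k).B := by simp [iso]
    rw [h1, h2]
    exact hlin

end Pool.Agent.H.MP_1611f1_gt.LS
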