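import Pool.Agent.H.MP_1611f1_gt.LS.LvDefs

/-!
The time coordinate, and the function `wnd`.
-/

namespace Pool.Agent.H.MP_1611f1_gt.LS

open Topology Set Filter

theorem tim_mid {s : ℝ} (h1 : -6 ≤ s) (h2 : s ≤ 0) : tim s = s / 8 := by
  unfold tim
  rw [min_eq_left h2, max_eq_right h1, max_eq_right h2,
    min_eq_right (by linarith : (0 : ℝ) ≤ s + 6)]
  simp

theorem LvB_pos {s : ℝ} (h : 0 ≤ s) : tim s = (s / (1 + s)) / 8 := by
  unfold tim
  rw [min_eq_right h, max_eq_right (by norm_num : (-6 : ℝ) ≤ 0), max_eq_left h,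
    min_eq_right (by linarith : (0 : ℝ) ≤ s + 6)]
  simp

theorem LvB_neg {s : ℝ} (h : s ≤ -6) : tim s = (-6 + (s + 6) / (1 - (s + 6))) / 8 := by
  unfold tim
  rw [min_eq_left (by linarith : s ≤ 0), max_eq_left h, max_eq_right (by linarith : s ≤ 0),
    min_eq_left (by linarith : s + 6 ≤ (0 : ℝ))]
  simp

theorem tim_mem (s : ℝ) : tim s ∈ Ioo (-7 / 8 : ℝ) (1 / 8) := by
  rcases le_total s (-6) with h | h
  · rw [LvB_neg h]
    have h1 : 0 < 1 - (s + 6) := by linarith
    have h2 : -1 < (s + 6) / (1 - (s + 6)) := by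
      rw [lt_div_iff₀ h1]; linarith
    have h3 : (s + 6) / (1 - (s + 6)) ≤ 0 := div_nonpos_of_nonpos_of_nonneg (by linarith) h1.le
    constructor <;> linarith
  · rcases le_total s 0 with h' | h'
    · rw [tim_mid h h']
      constructor <;> linarith
    · rw [LvB_pos h']
      have h1 : 0 < 1 + s := by linarith
      have h2 : s / (1 + s) < 1 := by
        rw [div_lt_iff₀ h1]; linarith
      have h3 : 0 ≤ s / (1 + s) := div_nonneg h' h1.le
      constructor <;> linarith

theorem LvB_b_mono {x y : ℝ} (hx : 0 ≤ x) (h : x ≤ y) : x / (1 + x) ≤ y / (1 + y) := by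
  rw [div_le_div_iff₀ (by linarith) (by linarith)]
  nlinarith

theorem LvB_b_smono {x y : ℝ} (hx : 0 ≤ x) (h : x < y) : x / (1 + x) < y / (1 + y) := by
  rw [div_lt_div_iff₀ (by linarith) (by linarith)]
  nlinarith

theorem LvB_c_mono {x y : ℝ} (hy : y ≤ 0) (h : x ≤ y) : x / (1 - x) ≤ y / (1 - y) := by
  rw [div_le_div_iff₀ (by linarith) (by linarith)]
  nlinarith

theorem LvB_c_smono {x y : ℝ} (hy : y ≤ 0) (h : x < y) : x / (1 - x) < y / (1 - y) := by
  rw [div_lt_div_iff₀ (by linarith) (by linarith)]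
  nlinarith

theorem tim_mono : StrictMono tim := by
  intro s t hst
  unfold tim
  have ha : max (-6) (min s 0) ≤ max (-6 : ℝ) (min t 0) :=
    max_le_max le_rfl (min_le_min hst.le le_rfl)
  have hb : max s 0 / (1 + max s 0) ≤ max t 0 / (1 + max t 0) :=
    LvB_b_mono (le_max_right _ _) (max_le_max hst.le le_rfl)
  have hc : min (s + 6) 0 / (1 - min (s + 6) 0) ≤ min (t + 6) 0 / (1 - min (t + 6) 0) :=
    LvB_c_mono (min_le_right _ _) (min_le_min (by linarith) le_rfl)
  by_cases h1 : t ≤ -6
  · have hc' : min (s + 6) 0 / (1 - min (s + 6) 0) < min (t + 6) 0 / (1 - min (t + 6) 0) := by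
      apply LvB_c_smono (min_le_right _ _)
      rw [min_eq_left (by linarith : s + 6 ≤ (0 : ℝ)), min_eq_left (by linarith : t + 6 ≤ (0 : ℝ))]
      linarith
    linarith
  · by_cases h2 : 0 ≤ s
    · have hb' : max s 0 / (1 + max s 0) < max t 0 / (1 + max t 0) := by
        apply LvB_b_smono (le_max_right _ _)
        rw [max_eq_left h2, max_eq_left (by linarith : (0 : ℝ) ≤ t)]
        exact hst
      linarith
    · push Not at h1 h2
      have ha' : max (-6) (min s 0) < max (-6 : ℝ) (min t 0) := by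
        apply lt_of_lt_of_le _ (le_max_right _ _)
        apply max_lt
        · exact lt_min h1 (by norm_num)
        · exact lt_min (lt_of_le_of_lt (min_le_left _ _) hst) (lt_of_le_of_lt (min_le_left _ _) h2)
      linarith

theorem tim_cont : Continuous tim := by
  unfold tim
  apply Continuous.div_const
  apply Continuous.add
  · apply Continuous.add
    · fun_prop
    · apply Continuous.div (by fun_prop) (by fun_prop)
      intro s
      have := le_max_right s 0
      linarith
  · apply Continuous.div (by fun_prop) (by fun_prop)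
    intro s
    have := min_le_right (s + 6) 0
    linarith

theorem tim_open : IsOpenMap tim := by
  apply IsOpenMap.of_nhds_le
  intro x s hs
  rw [mem_map] at hs
  obtain ⟨a, b, hx, hab⟩ := mem_nhds_iff_exists_Ioo_subset.1 hs
  have h1 : (a + x) / 2 < x := by linarith [hx.1]
  have h2 : x < (x + b) / 2 := by linarith [hx.2]
  have h3 : Icc ((a + x) / 2) ((x + b) / 2) ⊆ Ioo a b := by
    intro z hz
    exact ⟨by linarith [hz.1, hx.1], by linarith [hz.2, hx.2]⟩
  have h4 := intermediate_value_Icc (h1.trans h2).le tim_cont.continuousOn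
  refine mem_of_superset (Icc_mem_nhds (tim_mono h1) (tim_mono h2)) ?_
  intro y hy
  obtain ⟨z, hz, rfl⟩ := h4 hy
  exact hab (h3 hz)

/-- the logarithm of the factor by which the distance to the level is changed -/
noncomputable def wnd (l y : ℝ) : ℝ :=
  ⌊y⌋ * Real.log l - Real.log ((1 - chi (Int.fract y)) + chi (Int.fract y) / l)

theorem wnd_add (l y : ℝ) (k : ℤ) : wnd l (y + k) = wnd l y + k * Real.log l := by
  unfold wnd
  rw [Int.floor_add_intCast, Int.fract_add_intCast]
  push_cast
  ring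

/-- near the integers `wnd` is locally constant -/
theorem LvB_near {l : ℝ} (hl : 0 < l) {y : ℝ} (k : ℤ) (h : |y - k| < 1 / 4) :
    wnd l y = k * Real.log l := by
  rw [abs_lt] at h
  unfold wnd
  rcases le_or_gt (k : ℝ) y with h0 | h0
  · have hf : ⌊y⌋ = k := by
      rw [Int.floor_eq_iff]
      exact ⟨h0, by linarith [h.2]⟩
    have hr : Int.fract y = y - k := by
      unfold Int.fract
      rw [hf]
    rw [hf, hr, chi_zero (by linarith [h.2])]
    simp
  · have hf : ⌊y⌋ = k - 1 := by
      rw [Int.floor_eq_iff]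
      push_cast
      exact ⟨by linarith [h.1], by linarith⟩
    have hr : Int.fract y = y - k + 1 := by
      unfold Int.fract
      rw [hf]
      push_cast
      ring
    rw [hf, hr, chi_one (by linarith [h.1])]
    have h5 : (1 - 1 + 1 / l : ℝ) = l⁻¹ := by
      rw [sub_self, zero_add, one_div]
    rw [h5, Real.log_inv]
    push_cast
    ring

/-- (`chi` vanishes near `0` and is `1` near `1`) -/
theorem wnd_cont {l : ℝ} (hl : 0 < l) : Continuous (wnd l) := by
  rw [continuous_iff_continuousAt]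
  intro y
  by_cases hy : ∃ k : ℤ, |y - k| < 1 / 4
  · obtain ⟨k, hk⟩ := hy
    have hev : ∀ᶠ z : ℝ in 𝓝 y, |z - k| < 1 / 4 := by
      have hc : Continuous (fun z : ℝ => |z - k|) := by fun_prop
      exact (hc.isOpen_preimage _ isOpen_Iio).mem_nhds hk
    refine (continuousAt_const (y := (k : ℝ) * Real.log l)).congr ?_
    filter_upwards [hev] with z hz
    exact (LvB_near hl k hz).symm
  · push Not at hy
    have h0 : (⌊y⌋ : ℝ) < y := by
      have h1 := hy ⌊y⌋
      have h2 := Int.floor_le y
      rw [abs_of_nonneg (by linarith)] at h1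
      linarith
    have h1 : y < ⌊y⌋ + 1 := Int.lt_floor_add_one y
    have hev : ∀ᶠ z : ℝ in 𝓝 y, (⌊y⌋ : ℝ) < z ∧ z < ⌊y⌋ + 1 := Ioo_mem_nhds h0 h1
    have hc : ContinuousAt (fun z : ℝ => (⌊y⌋ : ℝ) * Real.log l -
        Real.log ((1 - chi (z - ⌊y⌋)) + chi (z - ⌊y⌋) / l)) y := by
      have hcc : Continuous (fun z : ℝ => (1 - chi (z - ⌊y⌋)) + chi (z - ⌊y⌋) / l) := by
        have := chi_cont
        fun_prop
      apply ContinuousAt.sub continuousAt_const
      apply ContinuousAt.log hcc.continuousAt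
      have h3 := chi_nonneg (y - ⌊y⌋)
      have h4 := chi_le_one (y - ⌊y⌋)
      rcases eq_or_lt_of_le h3 with h5 | h5
      · rw [← h5]; simp
      · have : 0 < chi (y - ⌊y⌋) / l := div_pos h5 hl
        linarith
    refine hc.congr ?_
    filter_upwards [hev] with z hz
    have hf : ⌊z⌋ = ⌊y⌋ := by
      rw [Int.floor_eq_iff]
      exact ⟨hz.1.le, hz.2⟩
    unfold wnd Int.fract
    rw [hf]

/-- near the integers `wnd` is locally constant -/
theorem wnd_near {l : ℝ} (hl : 0 < l) {y : ℝ} (k : ℤ) (h : |y - k| < 1 / 4) :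
    wnd l y = k * Real.log l := LvB_near hl k h

end Pool.Agent.H.MP_1611f1_gt.LS
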