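import Pool.Agent.H.MP_1611f1_gt.LS.LvB

/-!
The neighbourhoods of the level curves.
-/

namespace Pool.Agent.H.MP_1611f1_gt.LS

open Topology Set Filter

variable {S : Type*} [TopologicalSpace S] {J K : Type*} {E : Surf S J} {col : J → K} {L : J → ℕ}
  {phi : S ≃ₜ S} {n : ℕ} {al be ga de : J → ℤ} {Y : Type*} [TopologicalSpace Y]
  {A : Arcs E col L} {C : Chain A n phi}

/-- (`PP_cont`, `PP_open`, `PP_inj` on `univ ×ˢ Ioo (i - 1) (i + 1)`) -/
theorem nbh_emb (hn : 0 < n) (lc : LevelCurve A C) (Fl : Filling E phi al be ga de Y) :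
    IsOpenEmbedding (lc.nbh Fl) := by
  have ht : ∀ s : ℝ, (lc.i : ℝ) + tim s ∈ Ioo ((lc.i : ℝ) - 1) (lc.i + 1) := by
    intro s
    have := tim_mem s
    rw [mem_Ioo] at this ⊢
    constructor <;> linarith [this.1, this.2]
  let G : Cyl → S × ℝ := (Prod.map lc.ν (fun s : ℝ => (lc.i : ℝ) + tim s)) ∘
    (Homeomorph.prodAssoc (AddCircle (1 : ℝ)) ℝ ℝ).symm
  have hG : lc.nbh Fl = PP Fl n ∘ G := rfl
  have hGo : IsOpenMap G := by
    have h1 : IsOpenMap (fun s : ℝ => (lc.i : ℝ) + tim s) :=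
      (Homeomorph.addLeft (lc.i : ℝ)).isOpenMap.comp tim_open
    exact (lc.emb.isOpenMap.prodMap h1).comp (Homeomorph.isOpenMap _)
  have hGc : Continuous G := by
    have h1 : Continuous (fun s : ℝ => (lc.i : ℝ) + tim s) := continuous_const.add tim_cont
    exact (lc.emb.continuous.prodMap h1).comp (Homeomorph.continuous _)
  apply IsOpenEmbedding.of_continuous_injective_isOpenMap
  · rw [hG]
    exact (PP_cont Fl hn).comp hGc
  · intro z w h
    have hinj := PP_inj Fl hn (univ : Set S) (c := (lc.i : ℝ) - 1) (d := lc.i + 1) (by linarith)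
    have h2 : ((lc.ν (z.1, z.2.1), lc.i + tim z.2.2) : S × ℝ) =
      (lc.ν (w.1, w.2.1), lc.i + tim w.2.2) :=
      hinj ⟨mem_univ _, ht _⟩ ⟨mem_univ _, ht _⟩ h
    rw [Prod.mk.injEq] at h2
    have h3 := lc.emb.injective h2.1
    rw [Prod.mk.injEq] at h3
    have h4 : z.2.2 = w.2.2 := tim_mono.injective (add_left_cancel h2.2)
    exact Prod.ext h3.1 (Prod.ext h3.2 h4)
  · rw [hG]
    exact (PP_open Fl hn).comp hGo

/-- The neighbourhoods of level curves in one period `0 ≤ i < 4 n` are disjoint if the annuli at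
the same level are disjoint: the times are in `(i - 7/8, i + 1/8)`. (`PP_eq`.) -/
theorem nbh_disj (hn : 0 < n) (Fl : Filling E phi al be ga de Y) {Λ : Type*}
    (lc : Λ → LevelCurve A C) (hi : ∀ k, 0 ≤ (lc k).i ∧ (lc k).i < 4 * n)
    (hd : ∀ k l z w, (lc k).i = (lc l).i → (lc k).ν z = (lc l).ν w → k = l) :
    ∀ k l z w, (lc k).nbh Fl z = (lc l).nbh Fl w → k = l := by
  intro k l z w h
  obtain ⟨m, h1, h2⟩ := (PP_eq Fl hn _ _ _ _).1 h
  have a1 := tim_mem z.2.2
  have a2 := tim_mem w.2.2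
  rw [mem_Ioo] at a1 a2
  have b1 : (0 : ℝ) ≤ (lc k).i := by exact_mod_cast (hi k).1
  have b2 : (0 : ℝ) ≤ (lc l).i := by exact_mod_cast (hi l).1
  have c1 : ((lc k).i : ℝ) + 1 ≤ 4 * n := by exact_mod_cast (hi k).2
  have c2 : ((lc l).i : ℝ) + 1 ≤ 4 * n := by exact_mod_cast (hi l).2
  have hn1 : (1 : ℝ) ≤ n := by exact_mod_cast hn
  have hm : m = 0 := by
    rcases lt_trichotomy m 0 with h3 | h3 | h3
    · have h4 : (m : ℝ) ≤ -1 := by exact_mod_cast (by omega : m ≤ -1)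
      have h5 : 4 * (n : ℝ) * m ≤ 4 * n * (-1) := mul_le_mul_of_nonneg_left h4 (by positivity)
      linarith [a1.1, a1.2, a2.1, a2.2]
    · exact h3
    · have h4 : (1 : ℝ) ≤ m := by exact_mod_cast h3
      have h5 : 4 * (n : ℝ) * 1 ≤ 4 * n * m := mul_le_mul_of_nonneg_left h4 (by positivity)
      linarith [a1.1, a1.2, a2.1, a2.2]
  subst hm
  rw [Int.cast_zero, mul_zero, add_zero] at h1
  have h3 : (lc k).i = (lc l).i := by
    have d1 : ((lc l).i : ℝ) < (lc k).i + 1 := by linarith [a1.1, a1.2, a2.1, a2.2]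
    have d2 : ((lc k).i : ℝ) < (lc l).i + 1 := by linarith [a1.1, a1.2, a2.1, a2.2]
    have e1 : (lc l).i < (lc k).i + 1 := by exact_mod_cast d1
    have e2 : (lc k).i < (lc l).i + 1 := by exact_mod_cast d2
    omega
  exact hd k l _ _ h3 h2

end Pool.Agent.H.MP_1611f1_gt.LS
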