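import Pool.Agent.H.MP_1611f1_gt.LS.Base
import Pool.Agent.H.MP_1611f1_gt.CmpF

/-!
Level curves in Dehn fillings of surface bundles.
-/

namespace Pool.Agent.H.MP_1611f1_gt.LS

open Topology Set Filter

variable {S : Type*} [TopologicalSpace S] {J K : Type*} {E : Surf S J} {col : J → K} {L : J → ℕ}
  {phi : S ≃ₜ S} {n : ℕ}

/-- A level curve: an annulus `ν` in the surface (coordinates `θ` along the curve, `u` across),
outside of the collars, at the integer level `i`. The arc system `e` does not move at the
level `i` (`e = (false, k)`, i.e. `a k`, for even `i`, and `e = (true, k)`, i.e. `b k`, for odd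
`i`); the annulus does not meet the strips of the other systems (in the position `ψ (i-1)`), and
it meets the strips of `e` in a product structure; `f` is the lift to `ℝ` of the collapse map
along the curve, and its degree, the algebraic number of crossings, is not zero. -/
structure LevelCurve (A : Arcs E col L) (C : Chain A n phi) where
  i : ℤ
  e : Bool × K
  ina : ina i e
  ν : AddCircle (1 : ℝ) × ℝ → S
  emb : IsOpenEmbedding ν
  out : ∀ z j w, ν z ≠ E.collar j w
  other : ∀ e', e' ≠ e → ∀ z, kap A e' (C.ψ (i - 1) (ν z)) = 0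
  f : ℝ → ℝ
  f_cont : Continuous f
  deg : ℤ
  deg_ne : deg ≠ 0
  f_add : ∀ θ, f (θ + 1) = f θ + deg
  cross : ∀ (θ u : ℝ), kap A e (C.ψ (i - 1) (ν ((θ : AddCircle (1 : ℝ)), u))) =
    ((f θ : ℝ) : AddCircle (1 : ℝ))

/-- the time coordinate: an increasing homeomorphism from `ℝ` onto `(-7/8, 1/8)`, equal to
`s / 8` for `-6 ≤ s ≤ 0` -/
noncomputable def tim (s : ℝ) : ℝ :=
  (max (-6) (min s 0) + max s 0 / (1 + max s 0) + min (s + 6) 0 / (1 - min (s + 6) 0)) / 8

variable {al be ga de : J → ℤ} {Y : Type*} [TopologicalSpace Y]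
  {A : Arcs E col L} {C : Chain A n phi}

/-- the neighbourhood of the level curve in the filled manifold: `(θ, (u, s))` is the point
`ν (θ, u)` at the time `i + tim s`; for `-6 ≤ s ≤ 0` this is the time `i + s / 8` -/
noncomputable def LevelCurve.nbh (lc : LevelCurve A C) (Fl : Filling E phi al be ga de Y)
    (z : Cyl) : Y :=
  PP Fl n (lc.ν (z.1, z.2.1), lc.i + tim z.2.2)

/-- `f` is linear with the slope `l` just below `i` -/
def LinAt (f : ℝ ≃o ℝ) (i l : ℝ) : Prop := 0 < l ∧ ∃ ε > 0, ∀ t ∈ Icc (i - ε) i, f t = i + l * (t - i)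

end Pool.Agent.H.MP_1611f1_gt.LS
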