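import Pool.Agent.H.MP_1611f1_gt.LS.LvD

/-!
Level curves are leaf curves with holonomy without fixed points.
-/

namespace Pool.Agent.H.MP_1611f1_gt.LS

open Topology Set Filter

variable {S : Type*} [TopologicalSpace S] {J K : Type*} {E : Surf S J} {col : J → K} {L : J → ℕ}
  {phi : S ≃ₜ S} {n : ℕ} {al be ga de : J → ℤ} {Y : Type*} [TopologicalSpace Y]
  {A : Arcs E col L} {σ : K → ℝ} (H : ∀ k, Hol (σ k)) {C : Chain A n phi}

theorem LvE_symm {lc : LevelCurve A C} {l ε : ℝ} (hl : 0 < l)
    (h : ∀ t ∈ Icc ((lc.i : ℝ) - ε) lc.i, iso H lc.e t = lc.i + l * (t - lc.i)) :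
    ∀ t ∈ Icc ((lc.i : ℝ) - l * ε) lc.i, (iso H lc.e).symm t = lc.i + (t - lc.i) / l := by
  intro t ht
  rw [OrderIso.symm_apply_eq, h]
  · field_simp
    ring
  · constructor
    · have h1 : -ε ≤ (t - lc.i) / l := by
        rw [le_div_iff₀ hl]
        linarith [ht.1]
      linarith
    · have h1 : (t - lc.i) / l ≤ 0 := div_nonpos_of_nonpos_of_nonneg (by linarith [ht.2]) hl.le
      linarith

/-- Level curves are leaf curves: `Γ (θ, s) = -log (- tim s) + wnd l (f θ)` for `s` close to `0`,
`P = deg * log l`. (`hol`: by `level_chart`, `level_value` and `Foliation.compat`; the value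
`i + tim s * exp (-(wnd - k log l))` is `i - exp (-(Γ - k log l))`, an increasing function of `Γ`.
`level`, `incr`: at `s = 0` the value of `Fs` is `i` (`Fs_slice`), and `Fs` is strictly increasing
in the time (`Fs_mono`).) -/
theorem level_leafCurve [Finite J] [Finite K] (hn : 0 < n) (lc : LevelCurve A C)
    (Fl : Filling E phi al be ga de Y) {F : Foliation Y} (hF : F.charts = AllCharts Fl A H C)
    {l : ℝ} (hl : LinAt (iso H lc.e) lc.i l) :
    LeafCurve F (lc.nbh Fl) (lc.deg * Real.log l) := by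
  obtain ⟨hl0, ε₀, hε₀, hlin⟩ := hl
  have hlin' := LvE_symm H hl0 hlin
  have hε : 0 < l * ε₀ := mul_pos hl0 hε₀
  have hemb : IsOpenEmbedding (lc.nbh Fl) := nbh_emb hn lc Fl
  have htim0 : tim 0 = 0 := by
    rw [tim_mid (by norm_num) le_rfl, zero_div]
  refine ⟨hemb, ?_, ?_, ?_⟩
  · refine ⟨min 6 (8 * (l * ε₀)), fun p => -Real.log (-tim p.2) + wnd l (lc.f p.1), ?_, ?_, ?_, ?_,
      ?_, ?_⟩
    · exact lt_min (by norm_num) (by linarith)
    · have hneg : ∀ p ∈ (univ : Set ℝ) ×ˢ Ioo (-min 6 (8 * (l * ε₀))) (0 : ℝ), tim p.2 < 0 := by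
        intro p hp
        rw [← htim0]
        exact tim_mono hp.2.2
      refine ContinuousOn.add (ContinuousOn.neg (ContinuousOn.log ?_ ?_)) ?_
      · exact (tim_cont.comp continuous_snd).neg.continuousOn
      · intro p hp
        have := hneg p hp
        linarith
      · exact ((wnd_cont hl0).comp (lc.f_cont.comp continuous_fst)).continuousOn
    · intro θ a ha b hb hab
      have h1 : tim a < tim b := tim_mono hab
      have h2 : tim b < 0 := by
        rw [← htim0]
        exact tim_mono hb.2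
      have h3 : Real.log (-tim b) < Real.log (-tim a) :=
        Real.log_lt_log (by linarith) (by linarith)
      show -Real.log (-tim a) + wnd l (lc.f θ) < -Real.log (-tim b) + wnd l (lc.f θ)
      linarith
    · intro θ
      have hgoal : Tendsto (fun s : ℝ => -Real.log (-tim s)) (𝓝[<] 0) atTop := ?_
      · exact hgoal.atTop_add (tendsto_const_nhds (x := wnd l (lc.f θ)))
      refine tendsto_neg_atBot_atTop.comp ?_
      refine Real.tendsto_log_nhdsGT_zero.comp ?_
      rw [tendsto_nhdsWithin_iff]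
      constructor
      · have hc : Continuous (fun s : ℝ => -tim s) := tim_cont.neg
        have h1 : Tendsto (fun s : ℝ => -tim s) (𝓝 0) (𝓝 0) := by
          have := hc.tendsto 0
          simpa [htim0] using this
        exact h1.mono_left nhdsWithin_le_nhds
      · filter_upwards [self_mem_nhdsWithin] with s hs
        have h2 : tim s < 0 := by
          rw [← htim0]
          exact tim_mono hs
        exact (show (0 : ℝ) < -tim s by linarith)
    · intro θ s _
      show -Real.log (-tim s) + wnd l (lc.f (θ + 1)) =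
        -Real.log (-tim s) + wnd l (lc.f θ) + lc.deg * Real.log l
      rw [lc.f_add, wnd_add]
      ring
    · intro z hz c₁ hc₁ hs₁
      obtain ⟨c, hc, hs, a, b, hab, hina, ha, hD, hev⟩ := level_chart H hn lc Fl hF z
      have hz1 : -6 ≤ z.2.2 := by
        have := min_le_left (6 : ℝ) (8 * (l * ε₀))
        linarith [hz.1]
      have hz2 : tim z.2.2 ∈ Ioo (-(l * ε₀)) 0 := by
        have h8 := min_le_right (6 : ℝ) (8 * (l * ε₀))
        rw [tim_mid hz1 hz.2.le]
        constructor
        · linarith [hz.1]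
        · linarith [hz.2]
      obtain ⟨k, hk⟩ := level_value H hl0 hε hlin' ha hD hz2
      have h1 : OrdEq (rc (lc.nbh Fl) z) (fun y => (c₁ y).2) (fun y => (c y).2) :=
        F.compat c₁ hc₁ c hc _ hs₁ hs
      have h2 : OrdEq z (fun w => (c₁ (rc (lc.nbh Fl) w)).2) (fun w => (c (rc (lc.nbh Fl) w)).2) :=
        OrdEq.comp_cont (R := rc (lc.nbh Fl)) (rc_cont hemb).continuousAt h1
      refine h2.trans ?_
      refine (OrdEq.of_comp (fun x => (lc.i : ℝ) - Real.exp (-(x - k * Real.log l))) ?_ ?_).symm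
      · intro x y hxy
        have : Real.exp (-(y - k * Real.log l)) < Real.exp (-(x - k * Real.log l)) :=
          Real.exp_lt_exp.2 (by linarith)
        show (lc.i : ℝ) - Real.exp (-(x - k * Real.log l)) <
          (lc.i : ℝ) - Real.exp (-(y - k * Real.log l))
        linarith
      · have hneg : ∀ᶠ w : Cov in 𝓝 z, tim w.2.2 < 0 := by
          have hcw : Continuous (fun w : Cov => tim w.2.2) :=
            tim_cont.comp (continuous_snd.comp continuous_snd)
          exact hcw.continuousAt.eventually (isOpen_Iio.mem_nhds hz2.2)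
        filter_upwards [hev, hk, hneg] with w hw1 hw2 hw3
        rw [hw1.2, hw2]
        show _ = (lc.i : ℝ) - Real.exp (-(-Real.log (-tim w.2.2) + wnd l (lc.f w.1) -
          k * Real.log l))
        have e1 : -(-Real.log (-tim w.2.2) + wnd l (lc.f w.1) - k * Real.log l) =
            Real.log (-tim w.2.2) + (-(wnd l (lc.f w.1) - k * Real.log l)) := by ring
        rw [e1, Real.exp_add, Real.exp_log (by linarith)]
        ring
  · intro z hz c₁ hc₁ hs₁
    obtain ⟨c, hc, hs, a, b, hab, hina, ha, hD, hev⟩ := level_chart H hn lc Fl hF z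
    obtain ⟨V, hV, hiff⟩ := F.eq_iff hc hc₁ hs hs₁
    have h1 : ∀ᶠ w : Cov in 𝓝 z, rc (lc.nbh Fl) w ∈ V :=
      (rc_cont hemb).continuousAt.eventually hV
    have hval : ∀ w : Cov, w.2.2 = 0 → (c (rc (lc.nbh Fl) w)).2 =
        Fs A H C lc.i a b (lc.ν ((w.1 : AddCircle (1 : ℝ)), w.2.1)) (lc.i + tim w.2.2) →
        (c (rc (lc.nbh Fl) w)).2 = lc.i := by
      intro w hw h
      rw [h, hw, htim0, add_zero]
      exact Fs_slice A H C hina _
    filter_upwards [hev, h1] with w hw1 hw2 hw0
    refine (hiff _ hw2 _ (mem_of_mem_nhds hV)).1 ?_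
    rw [hval w hw0 hw1.2, hval z hz (hev.self_of_nhds).2]
  · intro z hz c₁ hc₁ hs₁
    obtain ⟨c, hc, hs, a, b, hab, hina, ha, hD, hev⟩ := level_chart H hn lc Fl hF z
    obtain ⟨V, hV, hiff⟩ := F.compat c hc c₁ hc₁ _ hs hs₁
    have h1 : ∀ᶠ w : Cov in 𝓝 z, rc (lc.nbh Fl) w ∈ V :=
      (rc_cont hemb).continuousAt.eventually hV
    refine ⟨_, hev.and h1, ?_⟩
    rintro w ⟨hw1, hw2⟩ w' ⟨hw1', hw2'⟩ e1 e2 hlt
    refine (hiff _ hw2 _ hw2').1 ?_
    rw [hw1.2, hw1'.2, ← e1, ← e2]
    exact Fs_mono A H C hab hw1.1 (by linarith [tim_mono hlt])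

end Pool.Agent.H.MP_1611f1_gt.LS
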