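import Pool.Agent.H.MP_1611f1_gt.LS.Leaf
import Pool.Agent.H.MP_1611f1_gt.LS.SurgA
import Pool.Agent.H.MP_1611f1_gt.LS.SurgB

/-!
The leaf surgery theorem.
-/

namespace Pool.Agent.H.MP_1611f1_gt.LS

open Topology Set Filter

/-- **Leaf surgery.** Let `F` be a taut foliation of `Y`, and let `N k` be neighbourhoods of
finitely many disjoint curves in leaves of `F`, whose holonomy has no fixed points on one side of
the leaf. Then every manifold obtained by Dehn surgery on these curves, with slopes different from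
the slopes given by the leaves (`ga k ≠ 0`), has a taut foliation. -/
theorem leaf_surgery {Y : Type*} [TopologicalSpace Y] [T2Space Y] {Λ : Type*} [Finite Λ]
    {F : Foliation Y} (hF : F.Taut) {N : Λ → Cyl → Y} {P : Λ → ℝ} (hP : ∀ k, P k ≠ 0)
    (hN : ∀ k, LeafCurve F (N k) (P k)) (hd : ∀ k l z w, N k z = N l w → k = l)
    {al be ga de : Λ → ℤ} (hdet : ∀ k, al k * de k - be k * ga k = 1) (hga : ∀ k, ga k ≠ 0)
    {Y' : Type*} [TopologicalSpace Y'] (Su : Surgery N al be ga de Y') :
    ∃ F' : Foliation Y', F'.Taut := by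
  let T : G.Ended Y Empty := ⟨fun j => j.elim, fun j => j.elim, fun j => j.elim⟩
  obtain ⟨T', D, hD⟩ := exists_drill T (fun k => (hN k).emb) hd (fun k z j w => j.elim)
  obtain ⟨F', hF', hlin, -⟩ := leaf_drill hF (T := T) (x := fun j => j.elim)
    (y := fun j => j.elim) (fun j => j.elim) hN hd (fun k z j w => j.elim) D
    (fun k => P k * ga k * ga k) (fun k => P k * ga k * de k) (fun k => by
      have h1 := hP k
      have h2 : (ga k : ℝ) ≠ 0 := by exact_mod_cast hga k
      have h3 : P k * (P k * ga k * ga k) = (P k * ga k) ^ 2 := by ring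
      rw [h3]
      positivity)
  refine surgery_of_detected hdet Su D hD ⟨F', hF', hlin⟩ fun k => ⟨P k * ga k, ?_, rfl, rfl⟩
  exact mul_ne_zero (hP k) (by exact_mod_cast hga k)

end Pool.Agent.H.MP_1611f1_gt.LS
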