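import Pool.Agent.H.MP_1611f1_gt.LS.LvE
import Pool.Agent.H.MP_1611f1_gt.LS.LvA
import Pool.Agent.H.MP_1611f1_gt.LS.Surg
import Pool.Agent.H.MP_1611f1_gt.LfG
import Pool.Agent.H.MP_1611f1_gt.CmpH

/-!
Level surgeries.
-/

namespace Pool.Agent.H.MP_1611f1_gt.LS

open Topology Set Filter

/-- **Level surgeries.** Let `Y` be a Dehn filling of a surface bundle as in the theorem on
multislope boxes (with a chain `ψ` of homeomorphisms instead of a factorization), and let `Y'` be
obtained from `Y` by Dehn surgery on finitely many disjoint level curves, with slopes different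
from the slope given by the level surface. Then `Y'` has a taut foliation. -/
theorem level_surgery {S : Type*} [TopologicalSpace S] [ConnectedSpace S] {J K : Type*}
    [Finite J] [Finite K] [Nonempty J] {Y : Type*} [TopologicalSpace Y] [T2Space Y]
    (E : Surf S J) (col : J → K) (L : J → ℕ) (hL : ∀ j, 0 < L j) (A : Arcs E col L) (n : ℕ)
    (hn : 0 < n) {phi : S ≃ₜ S} (C : Chain A n phi) (al be ga de : J → ℤ)
    (hdet : ∀ j, al j * de j - be j * ga j = 1) (hde : ∀ j, de j ≠ 0)
    (σ : K → ℝ) (hσ : ∀ k, |σ k| < 1)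
    (hslope : ∀ j, (ga j : ℝ) / de j = σ (col j) * L j / n)
    (Fl : Filling E phi al be ga de Y) {Λ : Type*} [Finite Λ] (lc : Λ → LevelCurve A C)
    (hi : ∀ k, 0 ≤ (lc k).i ∧ (lc k).i < 4 * n) (hne : ∀ k, σ (lc k).e.2 ≠ 0)
    (hd : ∀ k l z w, (lc k).i = (lc l).i → (lc k).ν z = (lc l).ν w → k = l)
    (al' be' ga' de' : Λ → ℤ) (hdet' : ∀ k, al' k * de' k - be' k * ga' k = 1)
    (hga' : ∀ k, ga' k ≠ 0) {Y' : Type*} [TopologicalSpace Y']
    (Su : Surgery (fun k => (lc k).nbh Fl) al' be' ga' de' Y') : ∃ F : Foliation Y', F.Taut := by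
  have hn' : (n : ℝ) ≠ 0 := by
    have : (0 : ℝ) < n := by exact_mod_cast hn
    exact this.ne'
  have hde' : ∀ j, (de j : ℝ) ≠ 0 := fun j => by exact_mod_cast hde j
  obtain ⟨H, hH⟩ := exists_hols (fun k => -σ k) (fun k => by rw [abs_neg]; exact hσ k)
  obtain ⟨F, hF⟩ := exists_foliation Fl A H C hn hL hde hdet (fun j => by
    have h1 := hslope j
    have h2 := hde' j
    rw [div_eq_div_iff h2 hn'] at h1
    linarith)
  have hFt := taut Fl A H C F hn hL hde hdet hF
  choose l hl1 hl using fun k => hH (lc k).i (lc k).e (lc k).ina (neg_ne_zero.2 (hne k))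
  refine leaf_surgery hFt (P := fun k => (lc k).deg * Real.log (l k)) (fun k => ?_)
    (fun k => level_leafCurve H hn (lc k) Fl hF (hl k)) (nbh_disj hn Fl lc hi hd) hdet' hga' Su
  refine mul_ne_zero (by exact_mod_cast (lc k).deg_ne) ?_
  have h0 := (hl k).1
  exact Real.log_ne_zero_of_pos_of_ne_one h0 (hl1 k)

end Pool.Agent.H.MP_1611f1_gt.LS
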