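import Pool.Agent.H.MP_1611f1_gt.LS.LvF

/-!
Level surgeries, all slopes of the ends in the open box (the data for `σ = 0` with non-trivial
germs).
-/

namespace Pool.Agent.H.MP_1611f1_gt.LS

open Topology Set Filter

/-- the base map -/
theorem LvZ_e : ∃ e : ℝ ≃o ℝ, (∀ x, x ≤ 3 / 2 → e x = x) ∧
    (∀ x, 7 / 4 ≤ x → x ≤ 2 → e x = 3 / 2 * x - 1) := by
  let g : ℝ → ℝ := fun x => x - max 0 (min (x / 2 - 3 / 4) (1 - x / 2))
  have hg : ∀ x, g x = x - max 0 (min (x / 2 - 3 / 4) (1 - x / 2)) := fun x => rfl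
  have g1 : ∀ x, x ≤ 3 / 2 → g x = x := by
    intro x hx
    rw [hg, min_eq_left (by linarith), max_eq_left (by linarith), sub_zero]
  have g2 : ∀ x, 3 / 2 ≤ x → x ≤ 7 / 4 → g x = x / 2 + 3 / 4 := by
    intro x hx hx1
    rw [hg, min_eq_left (by linarith), max_eq_right (by linarith)]
    ring
  have g3 : ∀ x, 7 / 4 ≤ x → x ≤ 2 → g x = 3 / 2 * x - 1 := by
    intro x hx hx1
    rw [hg, min_eq_right (by linarith), max_eq_right (by linarith)]
    ring
  have g4 : ∀ x, 2 ≤ x → g x = x := by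
    intro x hx
    rw [hg, min_eq_right (by linarith), max_eq_left (by linarith), sub_zero]
  have hsm : StrictMono g := by
    intro s t hst
    rw [hg, hg]
    simp only [max_def, min_def]
    split_ifs <;> linarith
  have hsurj : Function.Surjective g := by
    intro y
    rcases le_or_gt y (3 / 2) with h | h
    · exact ⟨y, g1 y h⟩
    · rcases le_or_gt y (13 / 8) with h' | h'
      · exact ⟨2 * y - 3 / 2, by rw [g2 _ (by linarith) (by linarith)]; ring⟩
      · rcases le_or_gt y 2 with h'' | h''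
        · exact ⟨2 / 3 * (y + 1), by rw [g3 _ (by linarith) (by linarith)]; ring⟩
        · exact ⟨y, g4 y h''.le⟩
  exact ⟨StrictMono.orderIsoOfSurjective g hsm hsurj, g1, g3⟩

theorem LvZ_A : ∃ A : ℝ ≃o ℝ, (∀ t, A (t + 2) = A t + 2) ∧
    (∀ t, 0 ≤ t → t ≤ 3 / 2 → A t = t) ∧ (∀ t, 7 / 4 ≤ t → t ≤ 2 → A t = 3 / 2 * t - 1) := by
  obtain ⟨e, e1, e2⟩ := LvZ_e
  have e0 : e 0 = 0 := e1 0 (by norm_num)
  have e02 : e 2 = 2 := by rw [e2 2 (by norm_num) le_rfl]; norm_num
  let f : ℤ → (ℝ ≃o ℝ) := fun m => OneA_conj e (2 * m)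
  have hf0 : ∀ m : ℤ, f m (2 * m) = 2 * m := by
    intro m
    simp only [f]
    rw [OneA_conj_apply, sub_self, e0, zero_add]
  have hf2 : ∀ m : ℤ, f m (2 * m + 2) = 2 * m + 2 := by
    intro m
    simp only [f]
    rw [OneA_conj_apply, add_sub_cancel_left, e02, add_comm]
  obtain ⟨A, hA⟩ := exists_blockIso f hf0 hf2
  refine ⟨A, ?_, ?_, ?_⟩
  · intro t
    have ht := OneA_floor' t
    set m : ℤ := ⌊t / 2⌋ with hm
    rw [hA m t ⟨ht.1, ht.2.le⟩, hA (m + 1) (t + 2) (by
      push_cast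
      constructor <;> linarith [ht.1, ht.2])]
    simp only [f]
    rw [OneA_conj_apply, OneA_conj_apply]
    have hsub : t + 2 - 2 * ((m + 1 : ℤ) : ℝ) = t - 2 * (m : ℝ) := by
      push_cast
      ring
    rw [hsub]
    push_cast
    ring
  · intro t h1 h2
    have h3 := hA 0 t (by
      push_cast
      constructor <;> linarith)
    simp only [f] at h3
    rw [h3, OneA_conj_apply, e1 _ (by push_cast; linarith)]
    ring
  · intro t h1 h2
    have h3 := hA 0 t (by
      push_cast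
      constructor <;> linarith)
    simp only [f] at h3
    rw [h3, OneA_conj_apply, e2 _ (by push_cast; linarith) (by push_cast; linarith)]
    push_cast
    ring

/-- the data for `σ = 0` -/
theorem exists_hol_zero : ∃ H : Hol 0, (∀ m : ℤ, LinAt H.A (2 * m) (3 / 2)) ∧
    (∀ t, H.B t = H.A (t - 1) + 1) := by
  obtain ⟨A, hA2, hA0, hA1⟩ := LvZ_A
  have hAk : ∀ (k : ℤ) (t : ℝ), A (t + k * 2) = A t + k * 2 := fun k t =>
    OneC_shift (fun x => A x) 2 2 hA2 k t
  have hid : ∀ (k : ℤ) (t : ℝ), 2 * (k : ℝ) ≤ t → t ≤ 2 * k + 3 / 2 → A t = t := by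
    intro k t h1 h2
    have h3 := hAk k (t - k * 2)
    rw [sub_add_cancel, hA0 (t - k * 2) (by linarith) (by linarith)] at h3
    linarith
  have hfix : ∀ k : ℤ, A (2 * k) = 2 * k := fun k => hid k _ le_rfl (by linarith)
  have hmem : ∀ (k : ℤ) (t : ℝ), 2 * (k : ℝ) + 3 / 2 ≤ t → t ≤ 2 * k + 2 →
      2 * (k : ℝ) + 3 / 2 ≤ A t ∧ A t ≤ 2 * k + 2 := by
    intro k t h1 h2
    constructor
    · have := A.monotone h1
      rwa [hid k _ (by linarith) le_rfl] at this
    · have := A.monotone h2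
      have h3 := hfix (k + 1)
      push_cast at h3
      rw [show (2 * (k : ℝ) + 2) = 2 * (k + 1) by ring, h3] at this
      linarith
  let B : ℝ ≃o ℝ := ((OrderIso.addRight (-1 : ℝ)).trans A).trans (OrderIso.addRight (1 : ℝ))
  have hB : ∀ t, B t = A (t - 1) + 1 := by
    intro t
    change A (t + -1) + 1 = A (t - 1) + 1
    rw [← sub_eq_add_neg]
  have hcomm : ∀ t, B (A t) = A (B t) := by
    intro t
    obtain ⟨m, hm⟩ : ∃ m : ℤ, m = ⌊t / 2⌋ := ⟨_, rfl⟩
    have k1 : (m : ℝ) ≤ t / 2 := by rw [hm]; exact Int.floor_le _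
    have k2 : t / 2 < (m : ℝ) + 1 := by rw [hm]; exact Int.lt_floor_add_one _
    rw [hB, hB]
    rcases le_or_gt t (2 * m + 1 / 2) with h | h
    · -- both are the identity
      have e1 : A (t - 1) = t - 1 := hid (m - 1) _ (by push_cast; linarith) (by push_cast; linarith)
      have e2 : A t = t := hid m _ (by linarith) (by linarith)
      rw [e1, e2, e1, sub_add_cancel, e2]
    rcases le_or_gt t (2 * m + 1) with h' | h'
    · obtain ⟨m1, m2⟩ := hmem (m - 1) (t - 1) (by push_cast; linarith) (by push_cast; linarith)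
      push_cast at m1 m2
      have e2 : A t = t := hid m _ (by linarith) (by linarith)
      rw [e2, hid m (A (t - 1) + 1) (by linarith) (by linarith)]
    rcases le_or_gt t (2 * m + 3 / 2) with h'' | h''
    · have e1 : A (t - 1) = t - 1 := hid m _ (by linarith) (by linarith)
      have e2 : A t = t := hid m _ (by linarith) (by linarith)
      rw [e1, e2, e1, sub_add_cancel, e2]
    · obtain ⟨m1, m2⟩ := hmem m t (by linarith) (by linarith)
      have e1 : A (t - 1) = t - 1 := hid m _ (by linarith) (by linarith)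
      have e2 : A (A t - 1) = A t - 1 := hid m _ (by linarith) (by linarith)
      rw [e1, e2]
      ring_nf
  refine ⟨⟨A, B, fun t => t, strictMono_id, continuous_id, ?_, ?_, fun t => rfl, hfix, ?_, ?_⟩,
    ?_, hB⟩
  · intro t
    have h1 := hA2 (t + 2)
    have h2 := hA2 t
    have h3 : t + 2 + 2 = t + 4 := by ring
    rw [h3, h2] at h1
    linarith
  · intro t
    rw [hB, hB]
    have h1 := hA2 (t - 1 + 2)
    have h2 := hA2 (t - 1)
    have h3 : t - 1 + 2 + 2 = t + 4 - 1 := by ring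
    rw [h3, h2] at h1
    linarith
  · intro m
    rw [hB]
    have : (2 * m + 1 - 1 : ℝ) = 2 * m := by ring
    rw [this, hfix]
  · intro t
    show B.symm (A.symm (B (A t))) = t + 4 * 0
    rw [hcomm, OrderIso.symm_apply_apply, OrderIso.symm_apply_apply]
    ring
  · intro m
    refine ⟨by norm_num, 1 / 4, by norm_num, fun t ht => ?_⟩
    show A t = _
    have h1 := hAk (m - 1) (t - ((m - 1 : ℤ) : ℝ) * 2)
    rw [sub_add_cancel, hA1 (t - ((m - 1 : ℤ) : ℝ) * 2) (by push_cast; linarith [ht.1])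
      (by push_cast; linarith [ht.2])] at h1
    rw [h1]
    push_cast
    ring

/-- the data for all colours; all germs are non-trivial -/
theorem exists_hols' {K : Type*} (σ : K → ℝ) (hσ : ∀ k, |σ k| < 1) :
    ∃ H : ∀ k, Hol (σ k), ∀ (i : ℤ) (e : Bool × K), ina i e →
      ∃ l : ℝ, l ≠ 1 ∧ LinAt (iso H e) i l := by
  have key : ∀ k, ∃ H : Hol (σ k),
      (∀ m : ℤ, ∃ l : ℝ, l ≠ 1 ∧ LinAt H.A (2 * m) l) ∧
      (∀ m : ℤ, ∃ l : ℝ, l ≠ 1 ∧ LinAt H.B (2 * m + 1) l) := by
    intro k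
    by_cases hk : σ k = 0
    · rw [hk]
      obtain ⟨H, h1, h2⟩ := exists_hol_zero
      exact ⟨H, fun m => ⟨3 / 2, by norm_num, h1 m⟩,
        fun m => ⟨3 / 2, by norm_num, LvA_shift h2 (h1 m)⟩⟩
    · exact exists_hol_lin (σ k) (hσ k) hk
  choose H hH using key
  refine ⟨H, ?_⟩
  rintro i ⟨b, k⟩ hi
  rcases hi with ⟨⟨m, hm⟩, hb⟩ | ⟨⟨m, hm⟩, hb⟩
  · simp only at hb
    subst hb
    obtain ⟨l, hl, hlin⟩ := (hH k).1 m
    refine ⟨l, hl, ?_⟩
    have h1 : (i : ℝ) = 2 * m := by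
      rw [hm]
      push_cast
      ring
    have h2 : iso H (false, k) = (H k).A := by simp [iso]
    rw [h1, h2]
    exact hlin
  · simp only at hb
    subst hb
    obtain ⟨l, hl, hlin⟩ := (hH k).2 m
    refine ⟨l, hl, ?_⟩
    have h1 : (i : ℝ) = 2 * m + 1 := by
      rw [hm]
      push_cast
      ring
    have h2 : iso H (true, k) = (H k).B := by simp [iso]
    rw [h1, h2]
    exact hlin

/-- **Level surgeries**, for all slopes of the ends in the open box. -/
theorem level_surgery' {S : Type*} [TopologicalSpace S] [ConnectedSpace S] {J K : Type*}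
    [Finite J] [Finite K] [Nonempty J] {Y : Type*} [TopologicalSpace Y] [T2Space Y]
    (E : Surf S J) (col : J → K) (L : J → ℕ) (hL : ∀ j, 0 < L j) (A : Arcs E col L) (n : ℕ)
    (hn : 0 < n) {phi : S ≃ₜ S} (C : Chain A n phi) (al be ga de : J → ℤ)
    (hdet : ∀ j, al j * de j - be j * ga j = 1) (hde : ∀ j, de j ≠ 0)
    (σ : K → ℝ) (hσ : ∀ k, |σ k| < 1)
    (hslope : ∀ j, (ga j : ℝ) / de j = σ (col j) * L j / n)
    (Fl : Filling E phi al be ga de Y) {Λ : Type*} [Finite Λ] (lc : Λ → LevelCurve A C)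
    (hi : ∀ k, 0 ≤ (lc k).i ∧ (lc k).i < 4 * n)
    (hd : ∀ k l z w, (lc k).i = (lc l).i → (lc k).ν z = (lc l).ν w → k = l)
    (al' be' ga' de' : Λ → ℤ) (hdet' : ∀ k, al' k * de' k - be' k * ga' k = 1)
    (hga' : ∀ k, ga' k ≠ 0) {Y' : Type*} [TopologicalSpace Y']
    (Su : Surgery (fun k => (lc k).nbh Fl) al' be' ga' de' Y') : ∃ F : Foliation Y', F.Taut := by
  have hn' : (n : ℝ) ≠ 0 := by
    have : (0 : ℝ) < n := by exact_mod_cast hn
    exact this.ne'
  have hde' : ∀ j, (de j : ℝ) ≠ 0 := fun j => by exact_mod_cast hde j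
  obtain ⟨H, hH⟩ := exists_hols' (fun k => -σ k) (fun k => by rw [abs_neg]; exact hσ k)
  obtain ⟨F, hF⟩ := exists_foliation Fl A H C hn hL hde hdet (fun j => by
    have h1 := hslope j
    have h2 := hde' j
    rw [div_eq_div_iff h2 hn'] at h1
    linarith)
  have hFt := taut Fl A H C F hn hL hde hdet hF
  choose l hl1 hl using fun k => hH (lc k).i (lc k).e (lc k).ina
  refine leaf_surgery hFt (P := fun k => (lc k).deg * Real.log (l k)) (fun k => ?_)
    (fun k => level_leafCurve H hn (lc k) Fl hF (hl k)) (nbh_disj hn Fl lc hi hd) hdet' hga' Su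
  refine mul_ne_zero (by exact_mod_cast (lc k).deg_ne) ?_
  have h0 := (hl k).1
  exact Real.log_ne_zero_of_pos_of_ne_one h0 (hl1 k)

end Pool.Agent.H.MP_1611f1_gt.LS
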