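import Pool.Agent.H.MP_1611f1_gt.LS.Geo
import Pool.Agent.H.MP_1611f1_gt.LS.FnB

/-!
The transverse function near the leaf `s = 0`.
-/

namespace Pool.Agent.H.MP_1611f1_gt.LS

open Topology Set Filter

variable {M : Type*} [TopologicalSpace M] {F : Foliation M} {Λ : Type*} (X : Sys F Λ)

theorem MixA_nn {k : Λ} {z w : Cov} (c : OpenPartialHomeomorph M ((ℝ × ℝ) × ℝ))
    (h : 0 ≤ w.2.2) : X.Mx k c z w = (c (rc (X.N k) w)).2 - (c (rc (X.N k) z)).2 := if_pos h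

theorem MixA_neg {k : Λ} {z w : Cov} (c : OpenPartialHomeomorph M ((ℝ × ℝ) × ℝ))
    (h : w.2.2 < 0) : X.Mx k c z w = -Real.exp (-(H1 (X.P k) (X.g k) (X.m k) w)) :=
  if_neg (not_le.2 h)

theorem MixA_neg_lt {k : Λ} {z z' w w' : Cov} (c c' : OpenPartialHomeomorph M ((ℝ × ℝ) × ℝ))
    (h : w.2.2 < 0) (h' : w'.2.2 < 0) : X.Mx k c z w < X.Mx k c' z' w' ↔
      H1 (X.P k) (X.g k) (X.m k) w < H1 (X.P k) (X.g k) (X.m k) w' := by
  rw [MixA_neg X c h, MixA_neg X c' h', neg_lt_neg_iff, Real.exp_lt_exp, neg_lt_neg_iff]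

theorem MixA_neg_neg {k : Λ} {z w : Cov} (c : OpenPartialHomeomorph M ((ℝ × ℝ) × ℝ))
    (h : w.2.2 < 0) : X.Mx k c z w < 0 := by
  rw [MixA_neg X c h]
  exact neg_neg_of_pos (Real.exp_pos _)

/-- near a point of the leaf -/
theorem MixA_sgn {k : Λ} {z : Cov} (hz : z.2.2 = 0)
    {c : OpenPartialHomeomorph M ((ℝ × ℝ) × ℝ)} (hc : c ∈ F.charts)
    (hs : rc (X.N k) z ∈ c.source) :
    ∀ᶠ w in 𝓝 z, (w.2.2 < 0 → (c (rc (X.N k) w)).2 < (c (rc (X.N k) z)).2) ∧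
      (w.2.2 = 0 → (c (rc (X.N k) w)).2 = (c (rc (X.N k) z)).2) ∧
      (0 < w.2.2 → (c (rc (X.N k) z)).2 < (c (rc (X.N k) w)).2) := by
  obtain ⟨V, hV, -, h2, h3⟩ := (X.tube k).zero z hz c hc hs
  have hp : Tendsto (fun w : Cov => ((w.1, (w.2.1, 0)) : Cov)) (𝓝 z) (𝓝 z) := by
    have h : Continuous (fun w : Cov => ((w.1, (w.2.1, 0)) : Cov)) := by fun_prop
    have h' := h.tendsto z
    have h'' : ((z.1, (z.2.1, 0)) : Cov) = z := by rw [← hz]
    rwa [h''] at h'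
  filter_upwards [hV, hp hV] with w hw hw'
  have hw'' : ((w.1, (w.2.1, 0)) : Cov) ∈ V := hw'
  have e := h2 _ hw'' rfl
  refine ⟨fun h => ?_, fun h => h2 w hw h, fun h => ?_⟩
  · rw [← e]
    exact h3 w hw _ hw'' rfl rfl h
  · rw [← e]
    exact h3 _ hw'' w hw rfl rfl h

theorem MixA_nn_nn {k : Λ} {z : Cov} (hz : z.2.2 = 0)
    {c : OpenPartialHomeomorph M ((ℝ × ℝ) × ℝ)} (hc : c ∈ F.charts)
    (hs : rc (X.N k) z ∈ c.source) : ∀ᶠ w in 𝓝 z, 0 ≤ w.2.2 → 0 ≤ X.Mx k c z w := by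
  filter_upwards [MixA_sgn X hz hc hs] with w hw h
  rw [MixA_nn X c h]
  rcases h.eq_or_lt with h' | h'
  · rw [hw.2.1 h'.symm, sub_self]
  · linarith [hw.2.2 h']

/-- `Mx` is continuous near the leaf `s = 0` (`H1 → ∞` for `s → 0-`) -/
theorem Mx_cont {k : Λ} {z : Cov} (hz : z.2.2 = 0)
    {c : OpenPartialHomeomorph M ((ℝ × ℝ) × ℝ)} (hc : c ∈ F.charts)
    (hs : rc (X.N k) z ∈ c.source) :
    ∃ V ∈ 𝓝 z, IsOpen V ∧ ContinuousOn (X.Mx k c z) V := by
  have hcr : Continuous (rc (X.N k)) := rc_cont (X.tube k).emb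
  have hsrc : ∀ᶠ w in 𝓝 z, rc (X.N k) w ∈ c.source :=
    hcr.continuousAt.eventually (c.open_source.mem_nhds hs)
  obtain ⟨S, hS⟩ : ∃ S : Set Cov, S = {w : Cov | (w.2.2 = 0 →
      (c (rc (X.N k) w)).2 = (c (rc (X.N k) z)).2) ∧ rc (X.N k) w ∈ c.source} := ⟨_, rfl⟩
  have hSz : S ∈ 𝓝 z := by
    rw [hS]
    filter_upwards [MixA_sgn X hz hc hs, hsrc] with w h1 h2
    exact ⟨h1.2.1, h2⟩
  refine ⟨interior S, interior_mem_nhds.2 hSz, isOpen_interior, ?_⟩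
  intro w hw
  apply ContinuousAt.continuousWithinAt
  have hwS : w ∈ S := interior_subset hw
  rw [hS] at hwS
  obtain ⟨hw1, hw2⟩ := hwS
  have hcc : ContinuousAt (fun w : Cov => (c (rc (X.N k) w)).2) w :=
    continuous_snd.continuousAt.comp ((c.continuousAt hw2).comp hcr.continuousAt)
  have hsn : Continuous (fun w : Cov => w.2.2) := by fun_prop
  rcases lt_trichotomy w.2.2 0 with h | h | h
  · have h1 : ContinuousAt (fun w => -Real.exp (-(H1 (X.P k) (X.g k) (X.m k) w))) w := by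
      have h2 := (H1_cont (X.P k) (X.g k) (X.m k) (X.tube k).g_cont).continuousAt
        ((isOpen_lt hsn continuous_const).mem_nhds h)
      exact (Real.continuous_exp.continuousAt.comp h2.neg).neg
    refine h1.congr ?_
    filter_upwards [hsn.continuousAt.eventually (eventually_lt_nhds h)] with w' hw'
    exact (MixA_neg X c hw').symm
  · have h0 : X.Mx k c z w = 0 := by
      rw [MixA_nn X c h.ge, hw1 h, sub_self]
    have hT : Tendsto (X.Mx k c z) (𝓝 w) (𝓝 0) := by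
      rw [Metric.tendsto_nhds]
      intro ε hε
      have e1 : ∀ᶠ w' in 𝓝 w, |(c (rc (X.N k) w')).2 - (c (rc (X.N k) z)).2| < ε := by
        have h2 := Metric.tendsto_nhds.1 hcc.tendsto ε hε
        filter_upwards [h2] with w' hw'
        rw [← hw1 h]
        exact hw'
      have e2 : ∀ᶠ w' : Cov in 𝓝 w, X.P k * w.1 + X.m k * ramp w.2.1 - 1 <
          X.P k * w'.1 + X.m k * ramp w'.2.1 := by
        have h3 : Continuous (fun w' : Cov => X.P k * w'.1 + X.m k * ramp w'.2.1) := by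
          have hr := ramp_cont
          fun_prop
        exact h3.continuousAt.eventually (eventually_gt_nhds (by linarith))
      have e3 : ∀ᶠ w' : Cov in 𝓝 w, w'.2.2 < 0 →
          -Real.log ε - (X.P k * w.1 + X.m k * ramp w.2.1 - 1) < X.g k w'.2.2 := by
        have h4 := (X.tube k).g_lim.eventually (eventually_gt_atTop
          (-Real.log ε - (X.P k * w.1 + X.m k * ramp w.2.1 - 1)))
        rw [eventually_nhdsWithin_iff, ← h] at h4
        have h5 := hsn.continuousAt.eventually h4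
        filter_upwards [h5] with w' hw' hlt
        exact hw' (by rw [h]; exact hlt)
      filter_upwards [e1, e2, e3] with w' h1 h2 h3
      rw [Real.dist_eq, sub_zero]
      by_cases hs' : 0 ≤ w'.2.2
      · rw [MixA_nn X c hs']
        exact h1
      · push Not at hs'
        rw [MixA_neg X c hs', abs_neg, abs_of_pos (Real.exp_pos _)]
        rw [← Real.lt_log_iff_exp_lt hε]
        have h4 := h3 hs'
        have h5 : H1 (X.P k) (X.g k) (X.m k) w' =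
          X.P k * w'.1 + X.g k w'.2.2 + X.m k * ramp w'.2.1 := rfl
        rw [h5]
        linarith
    rw [ContinuousAt, h0]
    exact hT
  · have h1 : ContinuousAt (fun w : Cov => (c (rc (X.N k) w)).2 - (c (rc (X.N k) z)).2) w :=
      hcc.sub continuousAt_const
    refine h1.congr ?_
    filter_upwards [hsn.continuousAt.eventually (eventually_gt_nhds h)] with w' hw'
    exact (MixA_nn X c hw'.le).symm

/-- and strictly increasing in `s` -/
theorem Mx_mono {k : Λ} {z : Cov} (hz : z.2.2 = 0)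
    {c : OpenPartialHomeomorph M ((ℝ × ℝ) × ℝ)} (hc : c ∈ F.charts)
    (hs : rc (X.N k) z ∈ c.source) :
    ∃ V ∈ 𝓝 z, ∀ w ∈ V, ∀ w' ∈ V, w.1 = w'.1 → w.2.1 = w'.2.1 → w.2.2 < w'.2.2 →
      X.Mx k c z w < X.Mx k c z w' := by
  obtain ⟨V, hV, -, -, h3⟩ := (X.tube k).zero z hz c hc hs
  refine ⟨V ∩ {w | 0 ≤ w.2.2 → 0 ≤ X.Mx k c z w}, inter_mem hV (MixA_nn_nn X hz hc hs), ?_⟩
  intro w hw w' hw' e1 e2 hlt
  rcases lt_or_ge w.2.2 0 with h | h
  · rcases lt_or_ge w'.2.2 0 with h' | h'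
    · rw [MixA_neg_lt X c c h h']
      have hg := (X.tube k).g_mono h h' hlt
      unfold H1
      rw [e1, e2]
      linarith
    · exact lt_of_lt_of_le (MixA_neg_neg X c h) (hw'.2 h')
  · rw [MixA_nn X c h, MixA_nn X c (h.trans hlt.le)]
    exact sub_lt_sub_right (h3 w hw.1 w' hw'.1 e1 e2 hlt) _

/-- the sign of `Mx` is the sign of `s` -/
theorem Mx_sign {k : Λ} {z : Cov} (hz : z.2.2 = 0)
    {c : OpenPartialHomeomorph M ((ℝ × ℝ) × ℝ)} (hc : c ∈ F.charts)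
    (hs : rc (X.N k) z ∈ c.source) :
    ∀ᶠ w in 𝓝 z, (w.2.2 < 0 ↔ X.Mx k c z w < 0) ∧ (w.2.2 = 0 ↔ X.Mx k c z w = 0) ∧
      (w.2.2 < 0 ↔ (c (rc (X.N k) w)).2 < (c (rc (X.N k) z)).2) ∧
      (w.2.2 = 0 ↔ (c (rc (X.N k) w)).2 = (c (rc (X.N k) z)).2) := by
  filter_upwards [MixA_sgn X hz hc hs] with w hw
  rcases lt_trichotomy w.2.2 0 with h | h | h
  · have h1 := MixA_neg_neg X (k := k) (z := z) c h
    have h2 := hw.1 h
    exact ⟨⟨fun _ => h1, fun _ => h⟩, ⟨fun h' => absurd h' h.ne, fun h' => absurd h' h1.ne⟩,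
      ⟨fun _ => h2, fun _ => h⟩, ⟨fun h' => absurd h' h.ne, fun h' => absurd h' h2.ne⟩⟩
  · have h2 := hw.2.1 h
    have h1 : X.Mx k c z w = 0 := by rw [MixA_nn X c h.ge, h2, sub_self]
    rw [h1, h2, h]
    exact ⟨Iff.rfl, by simp, by simp, by simp⟩
  · have h2 := hw.2.2 h
    have h1 : 0 < X.Mx k c z w := by
      rw [MixA_nn X c h.le]
      linarith
    exact ⟨⟨fun h' => absurd h' h.le.not_gt, fun h' => absurd h' h1.le.not_gt⟩,
      ⟨fun h' => absurd h' h.ne', fun h' => absurd h' h1.ne'⟩,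
      ⟨fun h' => absurd h' h.le.not_gt, fun h' => absurd h' h2.le.not_gt⟩,
      ⟨fun h' => absurd h' h.ne', fun h' => absurd h' h2.ne'⟩⟩

/-- another chart, and another base point on the leaf `s = 0`: the same order -/
theorem Mx_indep {k : Λ} {z z' : Cov} (hz : z.2.2 = 0) (hz' : z'.2.2 = 0)
    {c c' : OpenPartialHomeomorph M ((ℝ × ℝ) × ℝ)} (hc : c ∈ F.charts) (hc' : c' ∈ F.charts)
    (hs : rc (X.N k) z ∈ c.source) (hs1 : rc (X.N k) z' ∈ c.source)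
    (hs' : rc (X.N k) z' ∈ c'.source) (he : (c (rc (X.N k) z')).2 = (c (rc (X.N k) z)).2) :
    OrdEq z' (X.Mx k c z) (X.Mx k c' z') := by
  have e0 : X.Mx k c z = X.Mx k c z' := by
    funext w
    unfold Sys.Mx
    rw [he]
  rw [e0]
  have hcr : Continuous (rc (X.N k)) := rc_cont (X.tube k).emb
  obtain ⟨N₁, hN₁, hN⟩ := F.compat c hc c' hc' (rc (X.N k) z') hs1 hs'
  refine ⟨rc (X.N k) ⁻¹' N₁ ∩ ({w | 0 ≤ w.2.2 → 0 ≤ X.Mx k c z' w} ∩
    {w | 0 ≤ w.2.2 → 0 ≤ X.Mx k c' z' w}), inter_mem (hcr.continuousAt hN₁)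
    (inter_mem (MixA_nn_nn X hz' hc hs1) (MixA_nn_nn X hz' hc' hs')), ?_⟩
  intro w hw w' hw'
  rcases lt_or_ge w.2.2 0 with h | h
  · rcases lt_or_ge w'.2.2 0 with h' | h'
    · rw [MixA_neg_lt X c c h h', MixA_neg_lt X c' c' h h']
    · exact ⟨fun _ => lt_of_lt_of_le (MixA_neg_neg X c' h) (hw'.2.2 h'),
        fun _ => lt_of_lt_of_le (MixA_neg_neg X c h) (hw'.2.1 h')⟩
  · rcases lt_or_ge w'.2.2 0 with h' | h'
    · refine ⟨fun hh => absurd hh ?_, fun hh => absurd hh ?_⟩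
      · exact not_lt.2 ((MixA_neg_neg X c h').le.trans (hw.2.1 h))
      · exact not_lt.2 ((MixA_neg_neg X c' h').le.trans (hw.2.2 h))
    · rw [MixA_nn X c h, MixA_nn X c h', MixA_nn X c' h, MixA_nn X c' h', sub_lt_sub_iff_right,
        sub_lt_sub_iff_right]
      exact hN _ hw.1 _ hw'.1

/-- outside of the wall, `|u| > 1`, the order is the old one -/
theorem Mx_old {k : Λ} {z : Cov} (hz : z.2.2 = 0) (hu : 1 < |z.2.1|)
    {c : OpenPartialHomeomorph M ((ℝ × ℝ) × ℝ)} (hc : c ∈ F.charts)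
    (hs : rc (X.N k) z ∈ c.source) :
    OrdEq z (X.Mx k c z) (fun w => (c (rc (X.N k) w)).2) := by
  obtain ⟨V, hV, h1, -, -⟩ := (X.tube k).zero z hz c hc hs
  have hr : ∀ᶠ w : Cov in 𝓝 z, ramp w.2.1 = ramp z.2.1 := by
    have hsn : Continuous (fun w : Cov => w.2.1) := by fun_prop
    exact hsn.continuousAt.eventually (ramp_const hu)
  obtain ⟨V₂, hV₂, hV₂'⟩ := (MixA_sgn X hz hc hs).exists_mem
  obtain ⟨V₃, hV₃, hV₃'⟩ := hr.exists_mem
  refine ⟨V ∩ (V₂ ∩ V₃), inter_mem hV (inter_mem hV₂ hV₃), ?_⟩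
  rintro w ⟨hw1, hw2, hw3⟩ w' ⟨hw1', hw2', hw3'⟩
  have a := hV₂' w hw2
  have a' := hV₂' w' hw2'
  have b := hV₃' w hw3
  have b' := hV₃' w' hw3'
  have nn : ∀ v : Cov, v ∈ V₂ → 0 ≤ v.2.2 → (c (rc (X.N k) z)).2 ≤ (c (rc (X.N k) v)).2 := by
    intro v hv h
    have a := hV₂' v hv
    rcases h.eq_or_lt with h' | h'
    · exact (a.2.1 h'.symm).ge
    · exact (a.2.2 h').le
  rcases lt_or_ge w.2.2 0 with h | h
  · rcases lt_or_ge w'.2.2 0 with h' | h'
    · rw [MixA_neg_lt X c c h h', h1 w hw1 w' hw1' h h']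
      unfold H1
      rw [b, b']
      constructor <;> intro hh <;> linarith
    · refine ⟨fun _ => lt_of_lt_of_le (a.1 h) (nn w' hw2' h'), fun _ => ?_⟩
      rw [MixA_nn X c h']
      have := MixA_neg_neg X (k := k) (z := z) c h
      linarith [nn w' hw2' h']
  · rcases lt_or_ge w'.2.2 0 with h' | h'
    · refine ⟨fun hh => absurd hh ?_, fun hh => absurd hh ?_⟩
      · rw [MixA_nn X c h, not_lt]
        have := MixA_neg_neg X (k := k) (z := z) c h'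
        linarith [nn w hw2 h]
      · rw [not_lt]
        exact (a'.1 h').le.trans (nn w hw2 h)
    · rw [MixA_nn X c h, MixA_nn X c h', sub_lt_sub_iff_right]

/-- change of the lift -/
theorem Mx_shift {k : Λ} {z : Cov} (hz : z.2.2 = 0)
    {c : OpenPartialHomeomorph M ((ℝ × ℝ) × ℝ)} (hc : c ∈ F.charts)
    (hs : rc (X.N k) z ∈ c.source) (j : ℤ) {f : M → ℝ}
    (hf : OrdEq z (fun w => f (rc (X.N k) w)) (X.Mx k c z)) :
    OrdEq ((z.1 + j, z.2) : Cov) (fun w => f (rc (X.N k) w)) (X.Mx k c (z.1 + j, z.2)) := by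
  have hN := (X.tube k).emb
  have hrc : ∀ w : Cov, rc (X.N k) (w.1 + j, w.2) = rc (X.N k) w := fun w =>
    ((rc_eq hN w _).2 ⟨j, rfl⟩).symm
  have hrc' : ∀ w : Cov, rc (X.N k) (w.1 - j, w.2) = rc (X.N k) w := by
    intro w
    have := hrc (w.1 - j, w.2)
    rw [← this]
    simp only [sub_add_cancel]
  have hs' : rc (X.N k) (z.1 + j, z.2) ∈ c.source := by
    rw [hrc]
    exact hs
  have hz' : ((z.1 + j, z.2) : Cov).2.2 = 0 := hz
  have hτ : Tendsto (fun w : Cov => ((w.1 - j, w.2) : Cov)) (𝓝 (z.1 + j, z.2)) (𝓝 z) := by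
    have h : Continuous (fun w : Cov => ((w.1 - j, w.2) : Cov)) := by fun_prop
    have h' := h.tendsto ((z.1 + j, z.2) : Cov)
    have h'' : (((z.1 + j, z.2) : Cov).1 - j, ((z.1 + j, z.2) : Cov).2) = z := by
      simp only [add_sub_cancel_right]
    rwa [h''] at h'
  obtain ⟨N₀, hN₀, h0⟩ := hf
  obtain ⟨V₁, hV₁, hV₁'⟩ := (MixA_nn_nn X hz hc hs).exists_mem
  obtain ⟨V₂, hV₂, hV₂'⟩ := (MixA_nn_nn X hz' hc hs').exists_mem
  refine ⟨(fun w : Cov => ((w.1 - j, w.2) : Cov)) ⁻¹' (N₀ ∩ V₁) ∩ V₂,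
    inter_mem (hτ (inter_mem hN₀ hV₁)) hV₂, ?_⟩
  rintro w ⟨⟨hw1, hw2⟩, hw3⟩ w' ⟨⟨hw1', hw2'⟩, hw3'⟩
  have h1 := h0 _ hw1 _ hw1'
  simp only [hrc'] at h1
  rw [h1]
  have hH : ∀ v : Cov, H1 (X.P k) (X.g k) (X.m k) v =
      H1 (X.P k) (X.g k) (X.m k) (v.1 - j, v.2) + X.P k * j := by
    intro v
    have := H1_add (X.P k) (X.g k) (X.m k) (v.1 - j, v.2) j
    simp only [sub_add_cancel] at this
    exact this
  rcases lt_or_ge w.2.2 0 with h | h
  · have hn : ((w.1 - j, w.2) : Cov).2.2 < 0 := h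
    rcases lt_or_ge w'.2.2 0 with h' | h'
    · have hn' : ((w'.1 - j, w'.2) : Cov).2.2 < 0 := h'
      rw [MixA_neg_lt X c c h h', MixA_neg_lt X c c hn hn', hH w, hH w', add_lt_add_iff_right]
    · exact ⟨fun _ => lt_of_lt_of_le (MixA_neg_neg X c h) (hV₂' w' hw3' h'),
        fun _ => lt_of_lt_of_le (MixA_neg_neg X c hn) (hV₁' _ hw2' h')⟩
  · have hn : 0 ≤ ((w.1 - j, w.2) : Cov).2.2 := h
    rcases lt_or_ge w'.2.2 0 with h' | h'
    · have hn' : ((w'.1 - j, w'.2) : Cov).2.2 < 0 := h'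
      refine ⟨fun hh => absurd hh ?_, fun hh => absurd hh ?_⟩
      · exact not_lt.2 ((MixA_neg_neg X c hn').le.trans (hV₁' _ hw2 hn))
      · exact not_lt.2 ((MixA_neg_neg X c h').le.trans (hV₂' w hw3 h))
    · have hn' : 0 ≤ ((w'.1 - j, w'.2) : Cov).2.2 := h'
      rw [MixA_nn X c h, MixA_nn X c h', MixA_nn X c hn, MixA_nn X c hn', hrc', hrc',
        sub_lt_sub_iff_right, sub_lt_sub_iff_right]

end Pool.Agent.H.MP_1611f1_gt.LS
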