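import Pool.Agent.H.MP_1611f1_gt.LS.Trans
import Pool.Agent.H.MP_1611f1_gt.LS.UpE

/-!
The drilling theorem for leaf curves in normal form.
-/

namespace Pool.Agent.H.MP_1611f1_gt.LS

open Topology Set Filter

variable {M : Type*} [TopologicalSpace M] {F : Foliation M} {Λ : Type*} (X : Sys F Λ)
  {J : Type*} {T : G.Ended M J} {M' : Type*} [TopologicalSpace M'] {T' : G.Ended M' (J ⊕ Λ)}

theorem Nrm_cov_cont {M : Type*} [TopologicalSpace M] {J : Type*} (T : G.Ended M J) (j : J) :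
    Continuous (T.cov j) := by
  refine (T.emb j).continuous.comp ?_
  exact ((AddCircle.continuous_mk' (1 : ℝ)).comp continuous_fst).prodMk
    ((continuous_fst.comp continuous_snd).prodMk
      ((AddCircle.continuous_mk' (1 : ℝ)).comp (continuous_snd.comp continuous_snd)))

/-- a chart of the induced foliation comes from an adapted chart -/
theorem Nrm_chart {p : M' → M} {F' : Foliation M'} (hF' : F'.charts = pullCharts p X.pre)
    {c} (hc : c ∈ F'.charts) : ∃ c1 : OpenPartialHomeomorph M ((ℝ × ℝ) × ℝ),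
      c.source = p ⁻¹' c1.source ∧ (∀ x ∈ c.source, (c x).2 = (c1 (p x)).2) ∧
      ∀ y ∈ c1.source, X.Adapted y (fun z => (c1 z).2) := by
  rw [hF'] at hc
  obtain ⟨c1, hc1, h1, h2⟩ := hc
  exact ⟨c1, h1, h2, hc1.2⟩

/-- linearity near the old ends (they do not meet the neighbourhoods of the curves) -/
theorem linear_old {x y : J → ℝ} (hlin : G.Linear T F x y)
    (hend : ∀ k z j w, X.N k z ≠ T.tor j w) (D : Drill T X.N T') {F' : Foliation M'}
    (hF' : F'.charts = pullCharts D.p X.pre) (j : J) (z : ℝ × Ioo (1 : ℝ) 2 × ℝ)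
    (hz : (z.2.1 : ℝ) < 4 / 3) (c) (hc : c ∈ F'.charts) (hs : T'.cov (Sum.inl j) z ∈ c.source) :
    OrdEq z (fun w => (c (T'.cov (Sum.inl j) w)).2) (fun w => x j * w.1 + y j * w.2.2) := by
  obtain ⟨c1, h1, h2, h3⟩ := Nrm_chart X hF' hc
  have hp : ∀ w, D.p (T'.cov (Sum.inl j) w) = T.cov j w := fun w => D.old j _
  have hy : T.cov j z ∈ c1.source := by
    rw [h1, mem_preimage, hp] at hs
    exact hs
  obtain ⟨c2, hc2, hy2⟩ := F.cover (T.cov j z)
  have hout : ∀ k, T.cov j z ∉ X.WW k := by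
    rintro k ⟨v, -, hv⟩
    exact hend k v j _ hv
  have h4 := (h3 _ hy).out hout c2 hc2 hy2
  have h5 := (OrdEq.comp_cont (Nrm_cov_cont T j).continuousAt h4).trans (hlin j z hz c2 hc2 hy2)
  have h6 : ∀ᶠ w in 𝓝 z, T'.cov (Sum.inl j) w ∈ c.source :=
    (Nrm_cov_cont T' (Sum.inl j)).continuousAt (c.open_source.mem_nhds hs)
  refine h5.congr ?_ (Eventually.of_forall fun w => rfl)
  filter_upwards [h6] with w hw
  rw [h2 _ hw, hp]
  rfl

/-- linearity near the new ends -/
theorem linear_new (D : Drill T X.N T') {F' : Foliation M'}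
    (hF' : F'.charts = pullCharts D.p X.pre) (k : Λ) (z : ℝ × Ioo (1 : ℝ) 2 × ℝ)
    (hz : (z.2.1 : ℝ) < 4 / 3) (c) (hc : c ∈ F'.charts) (hs : T'.cov (Sum.inr k) z ∈ c.source) :
    OrdEq z (fun w => (c (T'.cov (Sum.inr k) w)).2)
      (fun w => X.P k * w.1 + X.m k * w.2.2) := by
  obtain ⟨c1, h1, h2, h3⟩ := Nrm_chart X hF' hc
  have hp : ∀ w, D.p (T'.cov (Sum.inr k) w) = rc (X.N k) (pol w) := fun w => D.new k _ _ _
  have hy : rc (X.N k) (pol z) ∈ c1.source := by
    rw [h1, mem_preimage, hp] at hs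
    exact hs
  have h4 := (h3 _ hy).collar k z (by linarith) rfl
  have h6 : ∀ᶠ w in 𝓝 z, T'.cov (Sum.inr k) w ∈ c.source :=
    (Nrm_cov_cont T' (Sum.inr k)).continuousAt (c.open_source.mem_nhds hs)
  refine h4.congr ?_ ?_
  · filter_upwards [h6] with w hw
    rw [h2 _ hw, hp]
  · filter_upwards [Hc_deep (X.P k) (X.g k) (X.m k) hz] with w hw
    exact hw.symm

theorem agree_out (D : Drill T X.N T') {F' : Foliation M'}
    (hF' : F'.charts = pullCharts D.p X.pre) {x : M'} (hx : ∀ k, D.p x ∉ X.WW k) :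
    AgreeAt D.p F' F x := by
  intro c' hc' c hc hx' hpx
  obtain ⟨c1, h1, h2, h3⟩ := Nrm_chart X hF' hc'
  have hy : D.p x ∈ c1.source := by
    rw [h1, mem_preimage] at hx'
    exact hx'
  have h4 := (h3 _ hy).out hx c hc hpx
  have h5 := OrdEq.comp_cont D.emb.continuous.continuousAt h4
  refine h5.congr ?_ (Eventually.of_forall fun w => rfl)
  filter_upwards [c'.open_source.mem_nhds hx'] with w hw
  exact h2 _ hw

/-- **the drilling theorem**, normal form -/
theorem drill_normal [T2Space M] [Finite Λ] (hF : F.Taut) {x y : J → ℝ}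
    (hlin : G.Linear T F x y) (hend : ∀ k z j w, X.N k z ≠ T.tor j w) (D : Drill T X.N T') :
    ∃ F' : Foliation M', F'.Taut ∧ G.Linear T' F' (Sum.elim x X.P) (Sum.elim y X.m) ∧
      ∀ x, (∀ k, D.p x ∉ X.WW k) → AgreeAt D.p F' F x := by
  have hr : range D.p = X.pre.dom := by
    rw [pre_dom]
    ext y
    exact D.range_iff y
  obtain ⟨F', hF'⟩ := exists_pull D.emb X.pre (fun x => by
    rw [← hr]
    exact mem_range_self x)
  refine ⟨F', pull_taut D.emb X.pre hr hF' ?_, ?_, fun x hx => agree_out X D hF' hx⟩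
  · intro y hy
    rw [pre_dom] at hy
    exact up_all X (taut_up F hF) hy
  · rintro (j | k) z hz c hc hs
    · exact linear_old X hlin hend D hF' j z hz c hc hs
    · exact linear_new X D hF' k z hz c hc hs

end Pool.Agent.H.MP_1611f1_gt.LS
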