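import Pool.Agent.H.MP_1611f1_gt.LS.AdU
import Pool.Agent.H.MP_1611f1_gt.LS.ExO
import Pool.Agent.H.MP_1611f1_gt.LS.ExII
import Pool.Agent.H.MP_1611f1_gt.LS.ExIII

/-!
The new foliation (on the open set `Om`).
-/

namespace Pool.Agent.H.MP_1611f1_gt.LS

open Topology Set Filter

variable {M : Type*} [TopologicalSpace M] {F : Foliation M} {Λ : Type*} (X : Sys F Λ)

/-- the new foliation -/
def Sys.pre : PreFol M where
  charts := {c | c.source ⊆ X.Om ∧ ∀ y ∈ c.source, X.Adapted y (fun z => (c z).2)}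
  compat := fun _ hc _ hc' y hy hy' =>
    adapted_unique X (hc.1 hy) (hc.2 y hy) (hc'.2 y hy')

theorem pre_dom [T2Space M] [Finite Λ] : X.pre.dom = X.Om := by
  apply Subset.antisymm
  · rintro y ⟨c, hc, hy⟩
    exact hc.1 hy
  · intro y hy
    rcases Om_cases X hy with h | ⟨k, z, rfl, -, h1, h2, h3⟩ | ⟨k, z, -, rfl⟩ | ⟨k, z, rfl, -, h1⟩
    · obtain ⟨c, hc, hs⟩ := F.cover y
      obtain ⟨c', h1, h2, -, h4⟩ := exO X h hc hs
      exact ⟨c', ⟨h2, h4⟩, h1⟩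
    · obtain ⟨c', h1, h2, h4⟩ := exI X h1 h2 h3
      exact ⟨c', ⟨h2, h4⟩, h1⟩
    · obtain ⟨c', h1, h2, h4⟩ := exII X z
      exact ⟨c', ⟨h2, h4⟩, h1⟩
    · obtain ⟨c', h1, h2, h4⟩ := exIII X h1
      exact ⟨c', ⟨h2, h4⟩, h1⟩

end Pool.Agent.H.MP_1611f1_gt.LS
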