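import Pool.Agent.H.MP_1611f1_gt.LS.RcA

/-!
Polar coordinates.
-/

namespace Pool.Agent.H.MP_1611f1_gt.LS

open Topology Set Filter

theorem pol_cont : Continuous pol := by
  unfold pol
  fun_prop

theorem rr_pol (z : Plr) : rr (pol z).2 = (z.2.1 : ℝ) ^ 2 := by
  unfold rr pol
  simp only
  linear_combination (z.2.1 : ℝ) ^ 2 * Real.sin_sq_add_cos_sq (2 * Real.pi * z.2.2)

theorem pol_s (z : Plr) : (pol z).2.2 < 0 := by
  unfold pol
  simp only
  have h1 := Real.sin_le_one (2 * Real.pi * z.2.2)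
  have h2 : (1 : ℝ) < z.2.1 := z.2.1.2.1
  have h3 : (z.2.1 : ℝ) < 2 := z.2.1.2.2
  have h4 : (z.2.1 : ℝ) * Real.sin (2 * Real.pi * z.2.2) ≤ (z.2.1 : ℝ) * 1 :=
    mul_le_mul_of_nonneg_left h1 (by linarith)
  linarith

/-- the logarithm is open on the interval -/
theorem RcB_log : IsOpenMap (fun r : Ioo (1 : ℝ) 2 => Real.log r) := by
  intro U hU
  have h1 : (fun r : Ioo (1 : ℝ) 2 => Real.log r) '' U = Real.exp ⁻¹' (Subtype.val '' U) := by
    ext y
    constructor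
    · rintro ⟨r, hr, rfl⟩
      refine ⟨r, hr, ?_⟩
      have h2 : (0 : ℝ) < r := zero_lt_one.trans r.2.1
      simp only
      rw [Real.exp_log h2]
    · rintro ⟨r, hr, h3⟩
      refine ⟨r, hr, ?_⟩
      simp only
      rw [h3, Real.log_exp]
  rw [h1]
  exact (isOpen_Ioo.isOpenMap_subtype_val U hU).preimage Real.continuous_exp

/-- the planar polar coordinates form an open map -/
theorem RcB_planar : IsOpenMap (fun z : Ioo (1 : ℝ) 2 × ℝ =>
    (((z.1 : ℝ) * Real.cos (2 * Real.pi * z.2),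
      -4 + (z.1 : ℝ) * Real.sin (2 * Real.pi * z.2)) : ℝ × ℝ)) := by
  have hpi : (2 * Real.pi : ℝ) ≠ 0 := by positivity
  have h1 : IsOpenMap (fun z : Ioo (1 : ℝ) 2 × ℝ =>
      ((Real.log z.1, 2 * Real.pi * z.2) : ℝ × ℝ)) :=
    RcB_log.prodMap (Homeomorph.mulLeft₀ (2 * Real.pi) hpi).isOpenMap
  have h2 : IsOpenMap (fun z : ℝ × ℝ => Complex.equivRealProdCLM.symm z) :=
    Complex.equivRealProdCLM.symm.toHomeomorph.isOpenMap
  have h3 : IsOpenMap (fun z : ℂ => Complex.equivRealProdCLM z) :=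
    Complex.equivRealProdCLM.toHomeomorph.isOpenMap
  have h4 : IsOpenMap (fun z : ℝ × ℝ => ((0, -4) : ℝ × ℝ) + z) :=
    (Homeomorph.addLeft ((0, -4) : ℝ × ℝ)).isOpenMap
  have h5 := h4.comp (h3.comp (Complex.isOpenMap_exp.comp (h2.comp h1)))
  have h6 : ((fun z : ℝ × ℝ => ((0, -4) : ℝ × ℝ) + z) ∘
      ((fun z : ℂ => Complex.equivRealProdCLM z) ∘ (Complex.exp ∘
        ((fun z : ℝ × ℝ => Complex.equivRealProdCLM.symm z) ∘
          (fun z : Ioo (1 : ℝ) 2 × ℝ => ((Real.log z.1, 2 * Real.pi * z.2) : ℝ × ℝ)))))) =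
      (fun z : Ioo (1 : ℝ) 2 × ℝ =>
        (((z.1 : ℝ) * Real.cos (2 * Real.pi * z.2),
          -4 + (z.1 : ℝ) * Real.sin (2 * Real.pi * z.2)) : ℝ × ℝ)) := by
    funext z
    have h7 : (0 : ℝ) < z.1 := zero_lt_one.trans z.1.2.1
    simp only [Function.comp_apply, Complex.equivRealProdCLM_apply]
    rw [Complex.exp_re, Complex.exp_im, Complex.equivRealProdCLM_symm_apply_re,
      Complex.equivRealProdCLM_symm_apply_im]
    simp only
    rw [Real.exp_log h7]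
    simp
  rw [h6] at h5
  exact h5

/-- (the map `(r, t) ↦ r exp (2 π i t)` is an open map) -/
theorem pol_open : IsOpenMap pol := by
  have h1 : IsOpenMap (Prod.map (id : ℝ → ℝ) (fun z : Ioo (1 : ℝ) 2 × ℝ =>
    (((z.1 : ℝ) * Real.cos (2 * Real.pi * z.2),
      -4 + (z.1 : ℝ) * Real.sin (2 * Real.pi * z.2)) : ℝ × ℝ))) :=
    IsOpenMap.id.prodMap RcB_planar
  exact h1

theorem exists_pol (z : Cov) (h1 : 1 < rr z.2) (h2 : rr z.2 < 4) : ∃ w : Plr, pol w = z := by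
  set c : ℂ := ⟨z.2.1, z.2.2 + 4⟩ with hc
  have h3 : ‖c‖ ^ 2 = rr z.2 := by
    rw [Complex.sq_norm, Complex.normSq_apply]
    unfold rr
    ring
  have h0 := norm_nonneg c
  have h4 : 1 < ‖c‖ := by nlinarith
  have h5 : ‖c‖ < 2 := by nlinarith
  refine ⟨(z.1, (⟨‖c‖, h4, h5⟩, Complex.arg c / (2 * Real.pi))), ?_⟩
  have h6 : 2 * Real.pi * (Complex.arg c / (2 * Real.pi)) = Complex.arg c := by
    have : (2 * Real.pi : ℝ) ≠ 0 := by positivity
    field_simp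
  unfold pol
  simp only
  rw [h6, Complex.norm_mul_cos_arg, Complex.norm_mul_sin_arg, hc]
  ext
  · rfl
  · rfl
  · simp

theorem pol_eq (z w : Plr) :
    pol z = pol w ↔ w.1 = z.1 ∧ w.2.1 = z.2.1 ∧ ∃ j : ℤ, w.2.2 = z.2.2 + j := by
  constructor
  · intro h
    have h1 : z.1 = w.1 := congrArg (fun y : Cov => y.1) h
    have h2 : (z.2.1 : ℝ) = w.2.1 := by
      have h3 : (z.2.1 : ℝ) ^ 2 = (w.2.1 : ℝ) ^ 2 := by
        rw [← rr_pol z, ← rr_pol w, h]
      have h4 : (1 : ℝ) < z.2.1 := z.2.1.2.1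
      have h5 : (1 : ℝ) < w.2.1 := w.2.1.2.1
      exact (pow_left_inj₀ (by linarith) (by linarith) two_ne_zero).1 h3
    have h6 : (z.2.1 : ℝ) ≠ 0 := by
      have h4 : (1 : ℝ) < z.2.1 := z.2.1.2.1
      linarith
    have hx : (z.2.1 : ℝ) * Real.cos (2 * Real.pi * z.2.2)
        = (w.2.1 : ℝ) * Real.cos (2 * Real.pi * w.2.2) :=
      congrArg (fun y : Cov => y.2.1) h
    have hy : -4 + (z.2.1 : ℝ) * Real.sin (2 * Real.pi * z.2.2)
        = -4 + (w.2.1 : ℝ) * Real.sin (2 * Real.pi * w.2.2) :=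
      congrArg (fun y : Cov => y.2.2) h
    rw [← h2] at hx hy
    have hcos := mul_left_cancel₀ h6 hx
    have hsin := mul_left_cancel₀ h6 (add_left_cancel hy)
    have hang := Real.Angle.cos_sin_inj hcos hsin
    rw [Real.Angle.angle_eq_iff_two_pi_dvd_sub] at hang
    obtain ⟨j, hj⟩ := hang
    refine ⟨h1.symm, Subtype.ext h2.symm, -j, ?_⟩
    have hpi : (2 * Real.pi : ℝ) ≠ 0 := by positivity
    apply mul_left_cancel₀ hpi
    push_cast
    linear_combination -hj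
  · rintro ⟨h1, h2, j, hj⟩
    unfold pol
    rw [h1, h2, hj]
    have h3 : 2 * Real.pi * (z.2.2 + j) = 2 * Real.pi * z.2.2 + j * (2 * Real.pi) := by ring
    rw [h3, Real.cos_add_int_mul_two_pi, Real.sin_add_int_mul_two_pi]

variable {M : Type*} [TopologicalSpace M] {N : Cyl → M}

theorem rp_eq (hN : IsOpenEmbedding N) (z w : Plr) : rc N (pol z) = rc N (pol w) ↔
    ∃ i j : ℤ, w = (z.1 + i, (z.2.1, z.2.2 + j)) := by
  rw [rc_eq hN]
  constructor
  · rintro ⟨k, hk⟩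
    have h1 : pol (z.1 + k, z.2) = pol w := hk.symm
    rw [pol_eq] at h1
    obtain ⟨h2, h3, j, h4⟩ := h1
    refine ⟨k, j, ?_⟩
    ext
    · exact h2
    · exact congrArg Subtype.val h3
    · exact h4
  · rintro ⟨i, j, rfl⟩
    refine ⟨i, ?_⟩
    have h1 : pol (z.1 + i, z.2) = pol (z.1 + i, (z.2.1, z.2.2 + j)) := by
      rw [pol_eq]
      exact ⟨rfl, rfl, j, rfl⟩
    exact h1.symm

theorem rp_open (hN : IsOpenEmbedding N) : IsOpenMap (fun z : Plr => rc N (pol z)) :=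
  (rc_open hN).comp pol_open

theorem rp_cont (hN : IsOpenEmbedding N) : Continuous (fun z : Plr => rc N (pol z)) :=
  (rc_cont hN).comp pol_cont

/-- with the fibre coordinate `ε θ`, `ε = ± 1` (as needed in `exists_chart`) -/
theorem rp_loc (hN : IsOpenEmbedding N) {ε : ℝ} (hε : ε = 1 ∨ ε = -1) :
    IsLocalHomeomorph (fun z : (Ioo (1 : ℝ) 2 × ℝ) × ℝ =>
      rc N (pol (ε * z.2, (z.1.1, z.1.2)))) := by
  have hε0 : ε ≠ 0 := by rcases hε with h | h <;> rw [h] <;> norm_num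
  have hc : Continuous (fun z : (Ioo (1 : ℝ) 2 × ℝ) × ℝ =>
      rc N (pol (ε * z.2, (z.1.1, z.1.2)))) :=
    (rp_cont hN).comp (by fun_prop)
  have h1 : IsOpenMap (fun z : (Ioo (1 : ℝ) 2 × ℝ) × ℝ =>
      ((ε * z.2, (z.1.1, z.1.2)) : Plr)) :=
    ((Homeomorph.prodComm (Ioo (1 : ℝ) 2 × ℝ) ℝ).trans
      ((Homeomorph.mulLeft₀ ε hε0).prodCongr (Homeomorph.refl (Ioo (1 : ℝ) 2 × ℝ)))).isOpenMap
  have ho : IsOpenMap (fun z : (Ioo (1 : ℝ) 2 × ℝ) × ℝ =>
      rc N (pol (ε * z.2, (z.1.1, z.1.2)))) := (rp_open hN).comp h1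
  rw [isLocalHomeomorph_iff_isOpenEmbedding_restrict]
  rintro ⟨⟨r, t⟩, y⟩
  have hU : IsOpen (((univ : Set (Ioo (1 : ℝ) 2)) ×ˢ Ioo (t - 1 / 2) (t + 1 / 2)) ×ˢ
      Ioo (y - 1 / 2) (y + 1 / 2)) := (isOpen_univ.prod isOpen_Ioo).prod isOpen_Ioo
  have hinj : InjOn (fun z : (Ioo (1 : ℝ) 2 × ℝ) × ℝ => rc N (pol (ε * z.2, (z.1.1, z.1.2))))
      (((univ : Set (Ioo (1 : ℝ) 2)) ×ˢ Ioo (t - 1 / 2) (t + 1 / 2)) ×ˢ
        Ioo (y - 1 / 2) (y + 1 / 2)) := by
    rintro ⟨⟨r1, t1⟩, y1⟩ ⟨⟨-, ht1⟩, hy1⟩ ⟨⟨r2, t2⟩, y2⟩ ⟨⟨-, ht2⟩, hy2⟩ h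
    obtain ⟨i, j, hij⟩ := (rp_eq hN _ _).1 h
    have e1 : ε * y2 = ε * y1 + i := congrArg Prod.fst hij
    have e2 : r2 = r1 := congrArg (fun z : Plr => z.2.1) hij
    have e3 : t2 = t1 + j := congrArg (fun z : Plr => z.2.2) hij
    simp only [mem_Ioo] at ht1 ht2 hy1 hy2
    have hj : j = 0 := by
      have a1 : (j : ℝ) < 1 := by linarith
      have a2 : (-1 : ℝ) < j := by linarith
      have b1 : j < 1 := by exact_mod_cast a1
      have b2 : -1 < j := by exact_mod_cast a2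
      omega
    have hi : i = 0 := by
      have a1 : (i : ℝ) < 1 := by rcases hε with h | h <;> rw [h] at e1 <;> linarith
      have a2 : (-1 : ℝ) < i := by rcases hε with h | h <;> rw [h] at e1 <;> linarith
      have b1 : i < 1 := by exact_mod_cast a1
      have b2 : -1 < i := by exact_mod_cast a2
      omega
    rw [hi, Int.cast_zero, add_zero] at e1
    rw [hj, Int.cast_zero, add_zero] at e3
    have e4 := mul_left_cancel₀ hε0 e1
    rw [e2, e3, e4]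
  refine ⟨_, hU.mem_nhds ⟨⟨mem_univ _, ?_⟩, ?_⟩,
    IsOpenEmbedding.of_continuous_injective_isOpenMap
      (hc.comp continuous_subtype_val) (injOn_iff_injective.mp hinj)
      (ho.comp hU.isOpenMap_subtype_val)⟩
  · simp only [mem_Ioo]; constructor <;> linarith
  · simp only [mem_Ioo]; constructor <;> linarith

/-- change of the lift -/
theorem ord_shift_pol (hN : IsOpenEmbedding N) {f : M → ℝ} {h : Plr → ℝ} {i j : ℤ} {C : ℝ}
    (hk : ∀ w : Plr, h (w.1 + i, (w.2.1, w.2.2 + j)) = h w + C) {z : Plr}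
    (hz : OrdEq z (fun w => f (rc N (pol w))) h) :
    OrdEq ((z.1 + i, (z.2.1, z.2.2 + j)) : Plr) (fun w => f (rc N (pol w))) h := by
  have hR : Continuous (fun w : Plr => ((w.1 - i, (w.2.1, w.2.2 - j)) : Plr)) := by fun_prop
  have hRz : (fun w : Plr => ((w.1 - i, (w.2.1, w.2.2 - j)) : Plr))
      ((z.1 + i, (z.2.1, z.2.2 + j)) : Plr) = z := by
    simp
  have h1 : OrdEq ((z.1 + i, (z.2.1, z.2.2 + j)) : Plr)
      ((fun w => f (rc N (pol w))) ∘ fun w : Plr => ((w.1 - i, (w.2.1, w.2.2 - j)) : Plr))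
      (h ∘ fun w : Plr => ((w.1 - i, (w.2.1, w.2.2 - j)) : Plr)) := by
    have h0 : OrdEq ((fun w : Plr => ((w.1 - i, (w.2.1, w.2.2 - j)) : Plr))
        ((z.1 + i, (z.2.1, z.2.2 + j)) : Plr)) (fun w => f (rc N (pol w))) h := by
      rw [hRz]
      exact hz
    exact OrdEq.comp_cont hR.continuousAt h0
  have h2 : ∀ w : Plr, rc N (pol ((w.1 - i, (w.2.1, w.2.2 - j)) : Plr)) = rc N (pol w) := by
    intro w
    rw [rp_eq hN]
    refine ⟨i, j, ?_⟩
    simp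
  have h3 : ∀ w : Plr, h w = h ((w.1 - i, (w.2.1, w.2.2 - j)) : Plr) + C := by
    intro w
    rw [← hk]
    simp
  have h4 : OrdEq ((z.1 + i, (z.2.1, z.2.2 + j)) : Plr) (fun w => f (rc N (pol w)))
      (h ∘ fun w : Plr => ((w.1 - i, (w.2.1, w.2.2 - j)) : Plr)) :=
    h1.congr (Eventually.of_forall fun w => by
      simp only [Function.comp_apply]
      rw [h2]) (Eventually.of_forall fun w => rfl)
  refine h4.trans (OrdEq.of_comp (fun v => v + C) (fun a b hab => by simpa using hab)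
    (Eventually.of_forall fun w => ?_))
  simp only [Function.comp_apply]
  exact h3 w

/-- a transverse function given in the polar coordinates -/
theorem ord_push_pol (hN : IsOpenEmbedding N) {f f' : M → ℝ} {h : Plr → ℝ} {z : Plr}
    (hz : OrdEq z (fun w => f (rc N (pol w))) h) (hz' : OrdEq z (fun w => f' (rc N (pol w))) h) :
    OrdEq (rc N (pol z)) f f' :=
  OrdEq.of_openMap (R := fun z : Plr => rc N (pol z)) (rp_open hN) (hz.trans hz'.symm)

end Pool.Agent.H.MP_1611f1_gt.LS
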