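import Pool.Agent.H.MP_1611f1_gt.LS.HK
import Pool.Agent.H.MP_1611f1_gt.G.Glue

/-!
Splices and surgeries of taut foliations along leaf curves.
-/

namespace Pool.Agent.H.MP_1611f1_gt.LS

open Topology Set Filter

/-- the ends of the complement of leaf curves -/
theorem spl_drill {Y : Type*} [TopologicalSpace Y] {Λ : Type*} {N : Λ → Cyl → Y}
    (hcl : IsOpen {y : Y | ∀ k, y ∉ N k '' KK})
    (T : G.Ended {y : Y // ∀ k, y ∉ N k '' KK} Λ)
    (hT : ∀ k (θ : AddCircle (1 : ℝ)) (r : Ioo (1 : ℝ) 2) (t : ℝ),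
      (T.tor k (θ, r, (t : AddCircle (1 : ℝ)))).1 =
        N k (θ, ((r : ℝ) * Real.cos (2 * Real.pi * t), -4 + (r : ℝ) * Real.sin (2 * Real.pi * t))))
    (T₀ : G.Ended Y Empty) :
    ∃ (T' : G.Ended {y : Y // ∀ k, y ∉ N k '' KK} (Empty ⊕ Λ)) (D : Drill T₀ N T'),
      D.p = Subtype.val ∧ ∀ k, T'.tor (Sum.inr k) = T.tor k := by
  let T' : G.Ended {y : Y // ∀ k, y ∉ N k '' KK} (Empty ⊕ Λ) :=
    { tor := Sum.elim (fun j => j.elim) T.tor
      emb := by
        rintro (j | k)
        · exact j.elim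
        · exact T.emb k
      disj := by
        rintro (j | k) (j' | k') z w h
        · exact j.elim
        · exact j.elim
        · exact j'.elim
        · exact congrArg Sum.inr (T.disj _ _ _ _ h) }
  refine ⟨T', ⟨Subtype.val, hcl.isOpenEmbedding_subtypeVal, ?_, ?_, ?_⟩, rfl, fun k => rfl⟩
  · intro x
    constructor
    · rintro ⟨y, rfl⟩
      exact y.2
    · intro h
      exact ⟨⟨x, h⟩, rfl⟩
  · exact fun j => j.elim
  · intro k θ r t
    exact hT k θ r t

theorem Om_open' {Y : Type*} [TopologicalSpace Y] [T2Space Y] {Λ : Type*} [Finite Λ]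
    {N : Λ → Cyl → Y} (hN : ∀ k, IsOpenEmbedding (N k)) :
    IsOpen {y : Y | ∀ k, y ∉ N k '' KK} := by
  have h1 : {y : Y | ∀ k, y ∉ N k '' KK} = ⋂ k, (N k '' KK)ᶜ := by
    ext y
    simp only [mem_iInter, mem_compl_iff]
    exact Iff.rfl
  rw [h1]
  refine isOpen_iInter_of_finite fun k => IsClosed.isOpen_compl (self := ?_)
  have hK : IsCompact KK := by
    have h2 : KK ⊆ (univ : Set (AddCircle (1 : ℝ))) ×ˢ (Icc (-1 : ℝ) 1 ×ˢ Icc (-5 : ℝ) (-3)) := by
      rintro ⟨θ, u, s⟩ h
      have h3 : u ^ 2 + (s + 4) ^ 2 ≤ 1 := h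
      refine ⟨mem_univ _, ⟨?_, ?_⟩, ?_, ?_⟩
      · show -1 ≤ u
        nlinarith [sq_nonneg (s + 4)]
      · show u ≤ 1
        nlinarith [sq_nonneg (s + 4)]
      · show -5 ≤ s
        nlinarith [sq_nonneg u]
      · show s ≤ -3
        nlinarith [sq_nonneg u]
    have h4 : IsClosed KK := by
      have h5 : Continuous fun z : Cyl => rr z.2 := by
        unfold rr
        fun_prop
      exact isClosed_le h5 continuous_const
    exact (isCompact_univ.prod (isCompact_Icc.prod isCompact_Icc)).of_isClosed_subset h4 h2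
  exact (hK.image (hN k).continuous).isClosed

/-- **Splices and surgeries along leaf curves.** Let `F v` be taut foliations of the Hausdorff
manifolds `Y v`, and let `N v k` be neighbourhoods of finitely many disjoint simple closed curves
in leaves of `F v`, whose holonomy germs are not trivial. Let `Z` be obtained from the complements
of these curves by gluing some of the new toral ends in pairs and filling the others with solid
tori, such that the matrix entries `ga e` are not zero: no gluing carries the leaf slope to the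
leaf slope, and no meridian is the leaf slope. Then `Z` has a taut foliation. -/
theorem leaf_splice {V : Type*} {Y : V → Type*} [∀ v, TopologicalSpace (Y v)]
    [∀ v, T2Space (Y v)] {Λ : V → Type*} [∀ v, Finite (Λ v)] (F : ∀ v, Foliation (Y v))
    (hF : ∀ v, (F v).Taut) (N : ∀ v, Λ v → Cyl → Y v) (hN : ∀ v k, HolCurve (F v) (N v k))
    (hd : ∀ v k l z w, N v k z = N v l w → k = l)
    (T : ∀ v, G.Ended {y : Y v // ∀ k, y ∉ N v k '' KK} (Λ v))
    (hT : ∀ v k (θ : AddCircle (1 : ℝ)) (r : Ioo (1 : ℝ) 2) (t : ℝ),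
      ((T v).tor k (θ, r, (t : AddCircle (1 : ℝ)))).1 =
        N v k (θ, ((r : ℝ) * Real.cos (2 * Real.pi * t),
          -4 + (r : ℝ) * Real.sin (2 * Real.pi * t))))
    (Pt : G.Pattern (Σ v, Λ v)) (hga : ∀ e, Pt.ga e ≠ 0) {Z : Type*} [TopologicalSpace Z]
    (U : G.Union T Pt Z) : ∃ F' : Foliation Z, F'.Taut := by
  have key : ∀ v, ∃ κ : Λ v → ℝ, (∀ k, κ k ≠ 0) ∧ ∀ x y : Λ v → ℝ, (∀ k, 0 < κ k * x k) →
      G.Detected (T v) x y := by
    intro v
    let T₀ : G.Ended (Y v) Empty := ⟨fun j => j.elim, fun j => j.elim, fun j => j.elim⟩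
    obtain ⟨T', D, hD, hT'⟩ := spl_drill (Om_open' fun k => (hN v k).emb) (T v) (hT v) T₀
    obtain ⟨κ, hκ, h⟩ := drill_hol (hF v) (T := T₀) (x := fun j => j.elim)
      (y := fun j => j.elim) (fun j => j.elim) (hN v) (hd v) (fun k z j w => j.elim) D
    refine ⟨κ, hκ, fun x y hx => ?_⟩
    obtain ⟨F', hF', hlin, -⟩ := h x y hx
    refine ⟨F', hF', fun k z hz c hc hs => ?_⟩
    have e1 : ∀ w, T'.cov (Sum.inr k) w = (T v).cov k w := by
      intro w
      show T'.tor (Sum.inr k) _ = _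
      rw [hT']
      rfl
    have h1 := hlin (Sum.inr k) z hz c hc (by rw [e1]; exact hs)
    simp only [e1] at h1
    exact h1
  choose κ hκ hdet using key
  set K : (Σ v, Λ v) → ℝ := fun e => κ e.1 e.2 with hK
  have hK0 : ∀ e, K e ≠ 0 := fun e => hκ e.1 e.2
  have hga' : ∀ e, (Pt.ga e : ℝ) ≠ 0 := fun e => by exact_mod_cast hga e
  classical
  refine G.glue_taut T Pt U (fun e => if Pt.τ e = e then K e * Pt.ga e * Pt.ga e else K e)
    (fun e => if Pt.τ e = e then K e * Pt.ga e * Pt.de e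
      else (K (Pt.τ e) + Pt.de e * K e) / Pt.ga e) ?_ ?_ ?_
  · intro v
    apply hdet v
    intro k
    show 0 < K ⟨v, k⟩ * _
    split_ifs with h
    · have h3 : K ⟨v, k⟩ * (K ⟨v, k⟩ * Pt.ga ⟨v, k⟩ * Pt.ga ⟨v, k⟩) =
          (K ⟨v, k⟩ * Pt.ga ⟨v, k⟩) ^ 2 := by ring
      rw [h3]
      have := hK0 ⟨v, k⟩
      have := hga' ⟨v, k⟩
      positivity
    · exact mul_self_pos.2 (hK0 ⟨v, k⟩)
  · intro e he
    have he2 : Pt.τ (Pt.τ e) = e := Pt.invol e
    have he3 : Pt.τ (Pt.τ e) ≠ Pt.τ e := by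
      rw [he2]
      exact fun h => he h.symm
    obtain ⟨m1, m2, m3, m4⟩ := Pt.mat e he
    have hdet' : (Pt.al e : ℝ) * Pt.de e - Pt.be e * Pt.ga e = -1 := by
      exact_mod_cast Pt.det_glue e he
    have h1 := hga' e
    simp only [if_neg he, if_neg he3]
    rw [he2, m3, m4]
    constructor
    · field_simp
      push_cast
      ring
    · field_simp
      push_cast
      linear_combination (K (Pt.τ e)) * hdet'
  · intro e he
    refine ⟨K e * Pt.ga e, mul_ne_zero (hK0 e) (hga' e), ?_, ?_⟩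
    · simp only [if_pos he]
    · simp only [if_pos he]

end Pool.Agent.H.MP_1611f1_gt.LS
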