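import Pool.Agent.H.MP_1611f1_gt.LS.Base

/-!
Dehn surgery on the solid tori `N k '' KK`.
-/

namespace Pool.Agent.H.MP_1611f1_gt.LS

open Topology Set Filter

/-- `Y'` is obtained from `Y` by Dehn surgery: the solid tori
`N k '' {(θ, (u, s)) | u ^ 2 + (s + 4) ^ 2 ≤ 1}` are removed, and solid tori (`q k`) are glued in
by the matrices `(al, be; ga, de)`: the point with the coordinates `(θ, r, t)`,
`(u, s) = (r cos 2πt, -4 + r sin 2πt)`, `1 < r < 2`, is glued to the point with the polar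
coordinates `(r, al θ + be t)` and the height `ga θ + de t`; the meridian disc is
`height = const`. -/
structure Surgery {Y : Type*} [TopologicalSpace Y] {Λ : Type*} (N : Λ → Cyl → Y)
    (al be ga de : Λ → ℤ) (Y' : Type*) [TopologicalSpace Y'] where
  p : {y : Y // ∀ k, y ∉ N k '' KK} → Y'
  q : Λ → Metric.ball (0 : ℂ) 2 × AddCircle (1 : ℝ) → Y'
  p_emb : IsOpenEmbedding p
  q_emb : ∀ k, IsOpenEmbedding (q k)
  q_disj : ∀ k l z w, q k z = q l w → k = l
  glue : ∀ (y : {y : Y // ∀ k, y ∉ N k '' KK}) (k : Λ) (θ : AddCircle (1 : ℝ))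
    (r : Ioo (1 : ℝ) 2) (t : ℝ),
    y.1 = N k (θ, ((r : ℝ) * Real.cos (2 * Real.pi * t),
      -4 + (r : ℝ) * Real.sin (2 * Real.pi * t))) →
    p y = q k (polar r (al k • θ + ((be k * t : ℝ) : AddCircle (1 : ℝ))),
      ga k • θ + ((de k * t : ℝ) : AddCircle (1 : ℝ)))
  overlap : ∀ (y : {y : Y // ∀ k, y ∉ N k '' KK}) (k : Λ) z, p y = q k z →
    ∃ (θ : AddCircle (1 : ℝ)) (r : Ioo (1 : ℝ) 2) (t : ℝ),
      y.1 = N k (θ, ((r : ℝ) * Real.cos (2 * Real.pi * t),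
        -4 + (r : ℝ) * Real.sin (2 * Real.pi * t)))
  cover : ∀ y', (∃ y, p y = y') ∨ ∃ k z, q k z = y'

end Pool.Agent.H.MP_1611f1_gt.LS
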