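import Pool.Agent.H.MP_1611f1_gt.LS.Pre
import Pool.Agent.H.MP_1611f1_gt.LS.UpD

/-!
Transverse paths at the leaf `s = 0`, and outside of the changed part.
-/

namespace Pool.Agent.H.MP_1611f1_gt.LS

open Topology Set Filter

variable {M : Type*} [TopologicalSpace M] {F : Foliation M} {Λ : Type*} (X : Sys F Λ)

/-- a chart of the new foliation at a point of the leaf `s = 0` defines the order of `Mx` -/
theorem TopA_ord {k : Λ} {z : Cov} (hz : z.2.2 = 0)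
    {c : OpenPartialHomeomorph M ((ℝ × ℝ) × ℝ)} (hc : c ∈ F.charts)
    (hs : rc (X.N k) z ∈ c.source) {f : M → ℝ} (hf : X.Adapted (rc (X.N k) z) f) :
    OrdEq z (fun w => f (rc (X.N k) w)) (X.Mx k c z) := by
  by_cases hu : |z.2.1| ≤ 1
  · exact hf.top k z rfl hu hz c hc hs
  · have hu' : 1 < |z.2.1| := not_le.1 hu
    have hout : ∀ l, rc (X.N k) z ∉ X.WW l := by
      intro l hl
      obtain ⟨-, h⟩ := (WW_iff X k l z).1 hl
      rcases h with h | h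
      · exact hu h.1
      · have h2 : 1 < z.2.1 ^ 2 := (one_lt_sq_iff_one_lt_abs _).2 hu'
        rw [rr, hz] at h
        norm_num at h
        linarith
    have h1 := hf.out hout c hc hs
    have h2 : OrdEq z (f ∘ rc (X.N k)) ((fun z => (c z).2) ∘ rc (X.N k)) :=
      OrdEq.comp_cont (rc_cont (X.tube k).emb).continuousAt h1
    exact h2.trans (Mx_old X hz hu' hc hs).symm

/-- a point which is not in `WW`, with a transverse path of `F` -/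
theorem TopA_out [T2Space M] [Finite Λ] {γ : ℝ → M} {a b : ℝ} (hγ : F.pre.Pos γ a b) {t t' : ℝ}
    (ht : t ∈ Icc a b) (ht' : t' ∈ Icc a b) (h : ∀ u ∈ Icc t t', ∀ k, γ u ∉ X.WW k) :
    X.pre.Pos γ t t' := by
  have hsub : Icc t t' ⊆ Icc a b := Icc_subset_Icc ht.1 ht'.2
  refine ⟨hγ.1.mono hsub, fun u hu => ?_⟩
  obtain ⟨c, hc, hs, ε, hε, hmono⟩ := hγ.2 u (hsub hu)
  obtain ⟨c', h1, h2, h3, h4⟩ := exO X (h u hu) hc hs
  have h5 : γ ⁻¹' c'.source ∈ 𝓝[Icc a b] u :=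
    hγ.1.continuousWithinAt (hsub hu) (c'.open_source.mem_nhds h1)
  obtain ⟨δ, hδ, hδ'⟩ := Metric.mem_nhdsWithin_iff.1 h5
  refine ⟨c', ⟨h2, h4⟩, h1, min ε δ, lt_min hε hδ, ?_⟩
  intro t1 h1' t2 h2' h12
  have hm : ∀ v ∈ Icc t t' ∩ Ioo (u - min ε δ) (u + min ε δ),
      v ∈ Icc a b ∩ Ioo (u - ε) (u + ε) ∧ γ v ∈ c'.source := by
    intro v hv
    have hv1 := hv.2.1
    have hv2 := hv.2.2
    have e1 := min_le_left ε δ
    have e2 := min_le_right ε δ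
    refine ⟨⟨hsub hv.1, ⟨by linarith, by linarith⟩⟩, hδ' ⟨?_, hsub hv.1⟩⟩
    rw [Metric.mem_ball, Real.dist_eq, abs_lt]
    constructor <;> linarith
  have g1 := hm t1 h1'
  have g2 := hm t2 h2'
  have := hmono g1.1 g2.1 h12
  simp only at this ⊢
  rw [h3 _ g1.2, h3 _ g2.2]
  exact this

/-- the vertical segment just below a point of the leaf `s = 0` is transverse (take the chart
`exIII`, its last coordinate is adapted at `rc z`; with `Mx_mono` for `|u| ≤ 1`, and with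
`Tube.zero` otherwise) -/
theorem top_below [T2Space M] [Finite Λ] {k : Λ} {z : Cov} (hz : z.2.2 = 0) :
    ∃ δ > 0, ∀ x ∈ Ioo (-δ) 0, X.pre.Up (rc (X.N k) (z.1, (z.2.1, x))) (rc (X.N k) z) := by
  obtain ⟨c, hc, hs⟩ := F.cover (rc (X.N k) z)
  obtain ⟨c1, h1, h2, h3⟩ := exIII X (k := k) hz
  have hc1 : c1 ∈ X.pre.charts := ⟨h2, h3⟩
  obtain ⟨V0, hV0, hV0'⟩ := TopA_ord X hz hc hs (h3 _ h1)
  obtain ⟨V1, hV1, hV1'⟩ := Mx_mono X hz hc hs
  have hV2 : rc (X.N k) ⁻¹' c1.source ∈ 𝓝 z :=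
    (rc_cont (X.tube k).emb).continuousAt (c1.open_source.mem_nhds h1)
  have hz0 : ((z.1, (z.2.1, (0 : ℝ))) : Cov) = z := by rw [← hz]
  have hcv : Continuous fun x : ℝ => ((z.1, (z.2.1, x)) : Cov) := by fun_prop
  have hV : (fun x : ℝ => ((z.1, (z.2.1, x)) : Cov)) ⁻¹' (V0 ∩ V1 ∩ rc (X.N k) ⁻¹' c1.source) ∈
      𝓝 (0 : ℝ) := by
    apply hcv.continuousAt
    show V0 ∩ V1 ∩ rc (X.N k) ⁻¹' c1.source ∈ 𝓝 ((z.1, (z.2.1, (0 : ℝ))) : Cov)
    rw [hz0]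
    exact inter_mem (inter_mem hV0 hV1) hV2
  obtain ⟨δ, hδ, hδ'⟩ := Metric.mem_nhds_iff.1 hV
  refine ⟨δ, hδ, fun x hx => ?_⟩
  have hm : ∀ v ∈ Icc x 0, (z.1, (z.2.1, v)) ∈ V0 ∩ V1 ∩ rc (X.N k) ⁻¹' c1.source := by
    intro v hv
    apply hδ'
    rw [Metric.mem_ball, Real.dist_eq, sub_zero, abs_lt]
    exact ⟨by linarith [hx.1, hv.1], by linarith [hv.2]⟩
  have hP : X.pre.Pos (fun v => rc (X.N k) (z.1, (z.2.1, v))) x 0 := by
    refine ⟨((rc_cont (X.tube k).emb).comp hcv).continuousOn, fun v hv =>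
      ⟨c1, hc1, (hm v hv).2, 1, one_pos, ?_⟩⟩
    intro t1 h1' t2 h2' h12
    have g1 := hm t1 h1'.1
    have g2 := hm t2 h2'.1
    exact (hV0' _ g1.1.1 _ g2.1.1).2 (hV1' _ g1.1.2 _ g2.1.2 rfl rfl h12)
  have := PreFol.Pos.up X.pre hP hx.2
  simp only [hz0] at this
  exact this

/-- a transverse path of `F` which arrives at the leaf `s = 0` comes from below -/
theorem top_before {k : Λ} {z : Cov} (hz : z.2.2 = 0) {γ : ℝ → M} {a b : ℝ}
    (hγ : F.pre.Pos γ a b) {t : ℝ} (ht : t ∈ Icc a b) (hγt : γ t = rc (X.N k) z) :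
    ∃ ε > 0, ∀ t' ∈ Icc a b, t' ∈ Ioo (t - ε) t →
      ∃ w : Cov, γ t' = rc (X.N k) w ∧ w.2.2 < 0 := by
  obtain ⟨c, hc, hs⟩ := F.cover (rc (X.N k) z)
  have hV := (rc_open (X.tube k).emb).image_mem_nhds (Mx_sign X hz hc hs)
  have h4 := hγ.1.continuousWithinAt ht
  rw [ContinuousWithinAt, hγt] at h4
  have h5 := h4 hV
  obtain ⟨δ, hδ, hδ'⟩ := Metric.mem_nhdsWithin_iff.1 h5
  obtain ⟨ε, hε, hmono⟩ := PreFol.Pos.chart F.pre hγ ht hc (by rw [hγt]; exact hs)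
  refine ⟨min ε δ, lt_min hε hδ, fun t' ht' h' => ?_⟩
  have e1 := min_le_left ε δ
  have e2 := min_le_right ε δ
  have a1 := h'.1
  have a2 := h'.2
  have hmem : t' ∈ Metric.ball t δ ∩ Icc a b := by
    refine ⟨?_, ht'⟩
    rw [Metric.mem_ball, Real.dist_eq, abs_lt]
    constructor <;> linarith
  obtain ⟨w, hw, hw'⟩ := hδ' hmem
  refine ⟨w, hw'.symm, hw.2.2.1.2 ?_⟩
  have := hmono ⟨ht', ⟨by linarith, by linarith⟩⟩ ⟨ht, ⟨by linarith, by linarith⟩⟩ a2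
  simp only at this
  rw [hγt, ← hw'] at this
  exact this

/-- a transverse path of `F` which starts at the leaf `s = 0` stays above it for a short time and
is transverse to the new foliation -/
theorem top_after [T2Space M] [Finite Λ] {k : Λ} {z : Cov} (hz : z.2.2 = 0) {γ : ℝ → M}
    {a b : ℝ} (hγ : F.pre.Pos γ a b) {t : ℝ} (ht : t ∈ Icc a b) (hγt : γ t = rc (X.N k) z) :
    ∃ ε > 0, ∀ t' ∈ Icc a b, t' ∈ Ioo t (t + ε) →
      X.pre.Up (γ t) (γ t') ∧ ∃ w : Cov, γ t' = rc (X.N k) w ∧ 0 < w.2.2 := by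
  obtain ⟨c, hc, hs⟩ := F.cover (rc (X.N k) z)
  obtain ⟨c1, h1, h2, h3⟩ := exIII X (k := k) hz
  have hc1 : c1 ∈ X.pre.charts := ⟨h2, h3⟩
  obtain ⟨V0, hV0, hV0'⟩ := TopA_ord X hz hc hs (h3 _ h1)
  have hV2 : rc (X.N k) ⁻¹' c1.source ∈ 𝓝 z :=
    (rc_cont (X.tube k).emb).continuousAt (c1.open_source.mem_nhds h1)
  have hV := (rc_open (X.tube k).emb).image_mem_nhds
    (inter_mem (inter_mem hV0 hV2) (Mx_sign X hz hc hs))
  have h4 := hγ.1.continuousWithinAt ht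
  rw [ContinuousWithinAt, hγt] at h4
  have h5 := h4 hV
  obtain ⟨δ, hδ, hδ'⟩ := Metric.mem_nhdsWithin_iff.1 h5
  obtain ⟨ε, hε, hmono⟩ := PreFol.Pos.chart F.pre hγ ht hc (by rw [hγt]; exact hs)
  refine ⟨min ε δ, lt_min hε hδ, fun t' ht' h' => ?_⟩
  have e1 := min_le_left ε δ
  have e2 := min_le_right ε δ
  have a1 := h'.1
  have a2 := h'.2
  have hbd : ∀ v ∈ Icc t t', v ∈ Icc a b := fun v hv => ⟨ht.1.trans hv.1, hv.2.trans ht'.2⟩
  have hmem : ∀ v ∈ Icc t t', ∃ w, rc (X.N k) w = γ v ∧ w ∈ V0 ∧ γ v ∈ c1.source ∧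
      (w.2.2 < 0 ↔ X.Mx k c z w < 0) ∧ (w.2.2 = 0 ↔ X.Mx k c z w = 0) ∧
      (w.2.2 < 0 ↔ (c (rc (X.N k) w)).2 < (c (rc (X.N k) z)).2) ∧
      (w.2.2 = 0 ↔ (c (rc (X.N k) w)).2 = (c (rc (X.N k) z)).2) := by
    intro v hv
    have : v ∈ Metric.ball t δ ∩ Icc a b := by
      refine ⟨?_, hbd v hv⟩
      rw [Metric.mem_ball, Real.dist_eq, abs_lt]
      constructor <;> linarith [hv.1, hv.2]
    obtain ⟨w, hw, hw'⟩ := hδ' this
    refine ⟨w, hw', hw.1.1, ?_, hw.2⟩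
    rw [← hw']
    exact hw.1.2
  have hin : ∀ v ∈ Icc t t', v ∈ Icc a b ∩ Ioo (t - ε) (t + ε) := fun v hv =>
    ⟨hbd v hv, ⟨by linarith [hv.1], by linarith [hv.2]⟩⟩
  have hge : ∀ v ∈ Icc t t', (c (rc (X.N k) z)).2 ≤ (c (γ v)).2 := by
    intro v hv
    rcases eq_or_lt_of_le hv.1 with h | h
    · rw [← h, hγt]
    · have := hmono (hin t ⟨le_rfl, a1.le⟩) (hin v hv) h
      simp only at this
      rw [← hγt]
      exact this.le
  have hP : X.pre.Pos γ t t' := by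
    refine ⟨hγ.1.mono hbd, fun v hv => ⟨c1, hc1, ?_, 1, one_pos, ?_⟩⟩
    · obtain ⟨w, -, -, hw, -⟩ := hmem v hv
      exact hw
    · intro t1 h1' t2 h2' h12
      obtain ⟨w1, b1, b2, -, -, -, b3, b4⟩ := hmem t1 h1'.1
      obtain ⟨w2, d1, d2, -, -, -, d3, d4⟩ := hmem t2 h2'.1
      have g1 := hge t1 h1'.1
      have g2 := hge t2 h2'.1
      have g3 := hmono (hin t1 h1'.1) (hin t2 h2'.1) h12
      simp only at g3 ⊢
      rw [← b1] at g1 g3 ⊢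
      rw [← d1] at g2 g3 ⊢
      refine (hV0' _ b2 _ d2).2 ?_
      have w1p : 0 ≤ w1.2.2 := by
        by_contra hn
        exact absurd (b3.1 (not_le.1 hn)) (not_lt.2 g1)
      have w2p : 0 ≤ w2.2.2 := by
        by_contra hn
        exact absurd (d3.1 (not_le.1 hn)) (not_lt.2 g2)
      rw [Sys.Mx, if_pos w1p, Sys.Mx, if_pos w2p]
      linarith
  refine ⟨PreFol.Pos.up X.pre hP a1, ?_⟩
  obtain ⟨w, b1, b2, -, -, -, b3, b4⟩ := hmem t' ⟨a1.le, le_rfl⟩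
  refine ⟨w, b1.symm, ?_⟩
  have g := hmono (hin t ⟨le_rfl, a1.le⟩) (hin t' ⟨a1.le, le_rfl⟩) a1
  simp only at g
  rw [← b1, hγt] at g
  rcases lt_trichotomy w.2.2 0 with h | h | h
  · exact absurd (b3.1 h) (not_lt.2 g.le)
  · exact absurd (b4.1 h) g.ne'
  · exact h

/-- outside of the changed part nothing changes -/
theorem out_near [T2Space M] [Finite Λ] {γ : ℝ → M} {a b : ℝ} (hγ : F.pre.Pos γ a b) {t : ℝ}
    (ht : t ∈ Icc a b) (hout : ∀ k, γ t ∉ X.WW k) :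
    ∃ ε > 0, ∀ t' ∈ Icc a b, t' ∈ Ioo (t - ε) (t + ε) →
      (∀ k, γ t' ∉ X.WW k) ∧ (t < t' → X.pre.Up (γ t) (γ t')) ∧
        (t' < t → X.pre.Up (γ t') (γ t)) := by
  have hO : {y : M | ∀ k, y ∉ X.WW k} ∈ 𝓝 (γ t) := (WWc_open X).mem_nhds hout
  have h5 := hγ.1.continuousWithinAt ht hO
  obtain ⟨δ, hδ, hδ'⟩ := Metric.mem_nhdsWithin_iff.1 h5
  have hm : ∀ v ∈ Icc a b, v ∈ Ioo (t - δ) (t + δ) → ∀ k, γ v ∉ X.WW k := by
    intro v hv hv'
    have : v ∈ Metric.ball t δ ∩ Icc a b := by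
      refine ⟨?_, hv⟩
      rw [Metric.mem_ball, Real.dist_eq, abs_lt]
      constructor <;> linarith [hv'.1, hv'.2]
    exact hδ' this
  refine ⟨δ, hδ, fun t' ht' h' => ⟨hm t' ht' h', fun hlt => ?_, fun hlt => ?_⟩⟩
  · refine PreFol.Pos.up X.pre (TopA_out X hγ ht ht' fun u hu => ?_) hlt
    exact hm u ⟨ht.1.trans hu.1, hu.2.trans ht'.2⟩
      ⟨by linarith [hu.1], by linarith [hu.2, h'.2]⟩
  · refine PreFol.Pos.up X.pre (TopA_out X hγ ht' ht fun u hu => ?_) hlt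
    exact hm u ⟨ht'.1.trans hu.1, hu.2.trans ht.2⟩
      ⟨by linarith [hu.1, h'.1], by linarith [hu.2]⟩

end Pool.Agent.H.MP_1611f1_gt.LS
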