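import Pool.Agent.H.MP_1611f1_gt.LS.Hub
import Pool.Agent.H.MP_1611f1_gt.LS.TopA
import Pool.Agent.H.MP_1611f1_gt.LS.Ind

/-!
The new foliation has closed transversals through all points.
-/

namespace Pool.Agent.H.MP_1611f1_gt.LS

open Topology Set Filter

variable {M : Type*} [TopologicalSpace M] {F : Foliation M} {Λ : Type*} (X : Sys F Λ)

/-- The state at the point `y` (starting from `y₀`): below the leaf `s = 0` of a curve `k` all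
points of the complement of the solid torus below that leaf can be reached; elsewhere `y` can be
reached. -/
def State (y₀ y : M) : Prop :=
  (∀ k z, rc (X.N k) z = y → z.2.2 < 0 → ∀ w : Cov, w.2.2 < 0 → 1 < rr w.2 →
    X.pre.Up y₀ (rc (X.N k) w)) ∧
  ((∀ k z, rc (X.N k) z = y → 0 ≤ z.2.2) → X.pre.Up y₀ y)

/-- the three kinds of points: below a leaf, on the top of a wall, outside of `WW` -/
theorem three_kinds (y : M) : (∃ k z, rc (X.N k) z = y ∧ z.2.2 < 0) ∨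
    ((∀ k z, rc (X.N k) z = y → 0 ≤ z.2.2) ∧
      ((∃ k z, rc (X.N k) z = y ∧ z.2.2 = 0) ∨ ∀ k, y ∉ X.WW k)) := by
  by_cases h : ∃ k z, rc (X.N k) z = y ∧ z.2.2 < 0
  · exact Or.inl h
  · have h' : ∀ k z, rc (X.N k) z = y → 0 ≤ z.2.2 := fun k z hz =>
      not_lt.1 fun hs => h ⟨k, z, hz, hs⟩
    refine Or.inr ⟨h', ?_⟩
    by_cases h2 : ∀ k, y ∉ X.WW k
    · exact Or.inr h2
    · push Not at h2
      obtain ⟨k, ⟨θ, v⟩, hw, rfl⟩ := h2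
      obtain ⟨x, rfl⟩ := QuotientAddGroup.mk_surjective θ
      have h3 : 0 ≤ v.2 := h' k (x, v) rfl
      refine Or.inl ⟨k, (x, v), rfl, ?_⟩
      rcases hw with ⟨-, -, h4⟩ | h4
      · exact le_antisymm h4 h3
      · exfalso
        have h5 : v.1 ^ 2 + (v.2 + 4) ^ 2 ≤ 25 / 9 := h4
        nlinarith [sq_nonneg v.1]

theorem Trans_below_iff {y₀ y : M} {k : Λ} {z : Cov} (hz : rc (X.N k) z = y)
    (hs : z.2.2 < 0) : State X y₀ y ↔
      ∀ w : Cov, w.2.2 < 0 → 1 < rr w.2 → X.pre.Up y₀ (rc (X.N k) w) := by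
  constructor
  · intro h
    exact h.1 k z hz hs
  · intro h
    refine ⟨fun k' z' hz' _ w => ?_, fun h' => absurd (h' k z hz) (not_le.2 hs)⟩
    obtain ⟨rfl, -⟩ := rc_same X (hz.trans hz'.symm)
    exact h w

theorem Trans_of_up [T2Space M] [Finite Λ] {y₀ y : M} (h : X.pre.Up y₀ y)
    (hr : ∀ k z, rc (X.N k) z = y → z.2.2 < 0 → 1 < rr z.2) : State X y₀ y := by
  refine ⟨fun k z hz hs w hws hwr => ?_, fun _ => h⟩
  have h1 := hub X (k := k) hs (hr k z hz hs) hws hwr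
  rw [hz] at h1
  exact h.trans _ h1

theorem Trans_rr_of_out {y : M} (hy : ∀ k, y ∉ X.WW k) (k : Λ) (z : Cov)
    (hz : rc (X.N k) z = y) : 1 < rr z.2 := by
  have h1 := hy k
  rw [← hz, WW_iff] at h1
  have h2 : z.2 ∉ Wall := fun h => h1 ⟨rfl, h⟩
  have h3 : ¬ rr z.2 ≤ 25 / 9 := fun h => h2 (Or.inr h)
  linarith [not_le.1 h3]

/-- At a point below a leaf the state is locally constant. -/
theorem state_below {y₀ y : M} {k : Λ} {z : Cov} (hz : rc (X.N k) z = y) (hs : z.2.2 < 0) :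
    ∀ᶠ y' in 𝓝 y, (State X y₀ y' ↔ State X y₀ y) := by
  have ho : IsOpen {w : Cov | w.2.2 < 0} :=
    isOpen_lt (continuous_snd.comp continuous_snd) continuous_const
  have h1 : rc (X.N k) '' {w : Cov | w.2.2 < 0} ∈ 𝓝 y :=
    ((rc_open (X.tube k).emb) _ ho).mem_nhds ⟨z, hs, hz⟩
  filter_upwards [h1] with y' hy'
  obtain ⟨z', hs', hz'⟩ := hy'
  rw [Trans_below_iff X hz hs, Trans_below_iff X hz' hs']

/-- neighbourhoods in the interval -/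
theorem Trans_near {γ : ℝ → M} (hγ : ContinuousOn γ (Icc (0 : ℝ) 1)) {t : ℝ}
    (ht : t ∈ Icc (0 : ℝ) 1) {p : M → Prop} (hp : ∀ᶠ y in 𝓝 (γ t), p y) :
    ∃ ε > 0, ∀ t' ∈ Icc (0 : ℝ) 1, t' ∈ Ioo (t - ε) (t + ε) → p (γ t') := by
  have h1 : ∀ᶠ t' in 𝓝[Icc (0 : ℝ) 1] t, p (γ t') := (hγ t ht).eventually hp
  rw [eventually_nhdsWithin_iff, Metric.eventually_nhds_iff] at h1
  obtain ⟨ε, hε, h2⟩ := h1
  refine ⟨ε, hε, fun t' h3 h4 => h2 ?_ h3⟩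
  rw [Real.dist_eq, abs_lt]
  constructor <;> linarith [h4.1, h4.2]

theorem state_start [T2Space M] [Finite Λ] {y₀ : M} (h0 : y₀ ∈ X.Om) {γ : ℝ → M}
    (hγ : F.pre.Pos γ 0 1) (h : γ 0 = y₀) :
    ∃ ε > 0, ∀ t ∈ Ioo (0 : ℝ) (0 + ε), t ≤ 1 → State X y₀ (γ t) := by
  have m0 : (0 : ℝ) ∈ Icc (0 : ℝ) 1 := ⟨le_rfl, zero_le_one⟩
  rcases three_kinds X y₀ with ⟨k, z, hz, hs⟩ | ⟨-, ⟨k, z, hz, hs⟩ | hout⟩
  · have hr : 1 < rr z.2 := by
      rw [← Om_iff X k z, hz]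
      exact h0
    have hst : State X y₀ y₀ := by
      rw [Trans_below_iff X hz hs]
      intro w hw hwr
      have := hub X (k := k) hs hr hw hwr
      rwa [hz] at this
    have hev := state_below X (y₀ := y₀) hz hs
    rw [← h] at hev
    obtain ⟨ε, hε, h2⟩ := Trans_near hγ.1 m0 hev
    refine ⟨ε, hε, fun t ht ht1 => ?_⟩
    have h3 := h2 t ⟨ht.1.le, ht1⟩ ⟨by linarith [ht.1], ht.2⟩
    rw [h] at h3
    exact h3.2 hst
  · obtain ⟨ε, hε, h2⟩ := top_after X hs hγ m0 (h.trans hz.symm)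
    refine ⟨ε, hε, fun t ht ht1 => ?_⟩
    obtain ⟨h3, w, hw, hws⟩ := h2 t ⟨ht.1.le, ht1⟩ ht
    rw [h] at h3
    refine Trans_of_up X h3 fun k' z' hz' hs' => ?_
    exfalso
    obtain ⟨-, j, hj⟩ := rc_same X (hz'.trans hw)
    rw [hj] at hws
    exact lt_asymm hws hs'
  · rw [← h] at hout
    obtain ⟨ε, hε, h2⟩ := out_near X hγ m0 hout
    refine ⟨ε, hε, fun t ht ht1 => ?_⟩
    obtain ⟨h3, h4, -⟩ := h2 t ⟨ht.1.le, ht1⟩ ⟨by linarith [ht.1], ht.2⟩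
    have h5 := h4 ht.1
    rw [h] at h5
    exact Trans_of_up X h5 fun k z hz _ => Trans_rr_of_out X h3 k z hz

theorem state_step [T2Space M] [Finite Λ] {y₀ : M} {γ : ℝ → M}
    (hγ : F.pre.Pos γ 0 1) {t : ℝ} (ht : t ∈ Ioo (0 : ℝ) 1) (h : State X y₀ (γ t)) :
    ∃ ε > 0, ∀ t' ∈ Ioo t (t + ε), t' ≤ 1 → State X y₀ (γ t') := by
  have mt : t ∈ Icc (0 : ℝ) 1 := ⟨ht.1.le, ht.2.le⟩
  rcases three_kinds X (γ t) with ⟨k, z, hz, hs⟩ | ⟨hnb, ⟨k, z, hz, hs⟩ | hout⟩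
  · obtain ⟨ε, hε, h2⟩ := Trans_near hγ.1 mt (state_below X (y₀ := y₀) hz hs)
    refine ⟨ε, hε, fun t' ht' ht1 => ?_⟩
    exact (h2 t' ⟨by linarith [ht.1, ht'.1], ht1⟩ ⟨by linarith [ht'.1], ht'.2⟩).2 h
  · obtain ⟨ε, hε, h2⟩ := top_after X hs hγ mt hz.symm
    refine ⟨ε, hε, fun t' ht' ht1 => ?_⟩
    obtain ⟨h3, w, hw, hws⟩ := h2 t' ⟨by linarith [ht.1, ht'.1], ht1⟩ ht'
    refine Trans_of_up X ((h.2 hnb).trans _ h3) fun k' z' hz' hs' => ?_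
    exfalso
    obtain ⟨-, j, hj⟩ := rc_same X (hz'.trans hw)
    rw [hj] at hws
    exact lt_asymm hws hs'
  · obtain ⟨ε, hε, h2⟩ := out_near X hγ mt hout
    refine ⟨ε, hε, fun t' ht' ht1 => ?_⟩
    obtain ⟨h3, h4, -⟩ := h2 t' ⟨by linarith [ht.1, ht'.1], ht1⟩ ⟨by linarith [ht'.1], ht'.2⟩
    exact Trans_of_up X ((h.2 hnb).trans _ (h4 ht'.1)) fun k z hz _ =>
      Trans_rr_of_out X h3 k z hz

theorem state_limit [T2Space M] [Finite Λ] {y₀ : M} {γ : ℝ → M}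
    (hγ : F.pre.Pos γ 0 1) {t : ℝ} (ht : t ∈ Ioc (0 : ℝ) 1)
    (h : ∀ t' ∈ Ioo (0 : ℝ) t, State X y₀ (γ t')) : State X y₀ (γ t) := by
  have mt : t ∈ Icc (0 : ℝ) 1 := ⟨ht.1.le, ht.2⟩
  have key : ∀ ε > 0, ∃ t' ∈ Icc (0 : ℝ) 1, t' ∈ Ioo (t - ε) t ∧ t' ∈ Ioo (0 : ℝ) t := by
    intro ε hε
    obtain ⟨t', h1, h2⟩ := exists_between (max_lt ht.1 (by linarith : t - ε < t))
    have h3 : 0 < t' := (le_max_left _ _).trans_lt h1
    have h4 : t - ε < t' := (le_max_right _ _).trans_lt h1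
    exact ⟨t', ⟨h3.le, by linarith [ht.2]⟩, ⟨h4, h2⟩, ⟨h3, h2⟩⟩
  rcases three_kinds X (γ t) with ⟨k, z, hz, hs⟩ | ⟨hnb, ⟨k, z, hz, hs⟩ | hout⟩
  · obtain ⟨ε, hε, h2⟩ := Trans_near hγ.1 mt (state_below X (y₀ := y₀) hz hs)
    obtain ⟨t', h3, h4, h5⟩ := key ε hε
    exact (h2 t' h3 ⟨h4.1, by linarith [h4.2]⟩).1 (h t' h5)
  · obtain ⟨ε, hε, h2⟩ := top_before X hs hγ mt hz.symm
    obtain ⟨t', h3, h4, h5⟩ := key ε hε
    obtain ⟨w, hw, hws⟩ := h2 t' h3 h4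
    have h6 := (Trans_below_iff X hw.symm hws).1 (h t' h5)
    obtain ⟨δ, hδ, h7⟩ := top_below X hs
    have h8 : -(min δ 1 / 2) ∈ Ioo (-δ) 0 := by
      have h9 : 0 < min δ 1 := lt_min hδ one_pos
      have h10 : min δ 1 ≤ δ := min_le_left _ _
      constructor <;> linarith
    have h11 := h6 (z.1, (z.2.1, -(min δ 1 / 2))) h8.2 (by
      show 1 < z.2.1 ^ 2 + (-(min δ 1 / 2) + 4) ^ 2
      have h10 : min δ 1 ≤ 1 := min_le_right _ _
      nlinarith [sq_nonneg z.2.1])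
    have h12 := h11.trans _ (h7 _ h8)
    rw [hz] at h12
    exact Trans_of_up X h12 fun k' z' hz' hs' => absurd (hnb k' z' hz') (not_le.2 hs')
  · obtain ⟨ε, hε, h2⟩ := out_near X hγ mt hout
    obtain ⟨t', h3, h4, h5⟩ := key ε hε
    obtain ⟨h6, -, h7⟩ := h2 t' h3 ⟨h4.1, by linarith [h4.2]⟩
    have hup : X.pre.Up y₀ (γ t') := by
      rcases three_kinds X (γ t') with ⟨k, z, hz, hs⟩ | ⟨hnb', -⟩
      · have h8 := (Trans_below_iff X hz hs).1 (h t' h5) z hs (Trans_rr_of_out X h6 k z hz)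
        rwa [hz] at h8
      · exact (h t' h5).2 hnb'
    exact Trans_of_up X (hup.trans _ (h7 h4.2)) fun k' z' hz' hs' =>
      absurd (hnb k' z' hz') (not_le.2 hs')

theorem up_all [T2Space M] [Finite Λ] (hF : ∀ y, F.pre.Up y y) {y : M} (hy : y ∈ X.Om) :
    X.pre.Up y y := by
  obtain ⟨γ, hγ, h0, h1⟩ := hF y
  have h : State X y (γ 1) := interval_ind (zero_lt_one' ℝ) (fun t => State X y (γ t))
    (state_start X hy hγ h0) (fun t ht hs => state_step X hγ ht hs)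
    (fun t ht hs => state_limit X hγ ht hs)
  rw [h1] at h
  by_cases hb : ∃ k z, rc (X.N k) z = y ∧ z.2.2 < 0
  · obtain ⟨k, z, rfl, hs⟩ := hb
    exact h.1 k z rfl hs z hs ((Om_iff X k z).1 hy)
  · refine h.2 fun k z hz => ?_
    by_contra hn
    exact hb ⟨k, z, hz, not_le.1 hn⟩

end Pool.Agent.H.MP_1611f1_gt.LS
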