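import Pool.Agent.H.MP_1611f1_gt.LS.UpA

/-!
Positively transverse paths: flow boxes.
-/

namespace Pool.Agent.H.MP_1611f1_gt.LS

open Topology Set Filter

variable {M : Type*} [TopologicalSpace M] (G : PreFol M)

/-- Flow boxes. Take for `B` the preimage under `c` of a small ball (convex) around `c y` in
`c.target`; join `a` and `b` by the segment from `c a` to `c b`. -/
theorem PreFol.up_box {c : OpenPartialHomeomorph M ((ℝ × ℝ) × ℝ)} (hc : c ∈ G.charts) {y : M}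
    (hy : y ∈ c.source) :
    ∃ B ∈ 𝓝 y, B ⊆ c.source ∧ ∀ a ∈ B, ∀ b ∈ B, (c a).2 < (c b).2 → G.Up a b := by
  obtain ⟨δ, hδ, hball⟩ := Metric.mem_nhds_iff.1 (c.open_target.mem_nhds (c.map_source hy))
  refine ⟨c.source ∩ c ⁻¹' Metric.ball (c y) δ, ?_, inter_subset_left, ?_⟩
  · exact inter_mem (c.open_source.mem_nhds hy)
      ((c.continuousAt hy) (Metric.ball_mem_nhds _ hδ))
  · rintro a ⟨ha, ha'⟩ b ⟨hb, hb'⟩ hab
    have hconv : ∀ t ∈ Icc (0 : ℝ) 1, c a + t • (c b - c a) ∈ c.target := by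
      intro t ht
      refine hball ?_
      exact (convex_ball (c y) δ).add_smul_sub_mem ha' hb' ht
    have hl : Continuous fun t : ℝ => c a + t • (c b - c a) := by fun_prop
    have hcγ : ∀ t ∈ Icc (0 : ℝ) 1, c (c.symm (c a + t • (c b - c a))) =
        c a + t • (c b - c a) := fun t ht => c.right_inv (hconv t ht)
    refine ⟨fun t => c.symm (c a + t • (c b - c a)), ⟨?_, fun t ht => ?_⟩, ?_, ?_⟩
    · exact c.continuousOn_symm.comp hl.continuousOn hconv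
    · refine ⟨c, hc, c.map_target (hconv t ht), 1, one_pos, ?_⟩
      rintro s ⟨hs, -⟩ s' ⟨hs', -⟩ hss
      show (c (c.symm (c a + s • (c b - c a)))).2 < (c (c.symm (c a + s' • (c b - c a)))).2
      rw [hcγ s hs, hcγ s' hs']
      show (c a).2 + s * ((c b).2 - (c a).2) < (c a).2 + s' * ((c b).2 - (c a).2)
      have : 0 < (c b).2 - (c a).2 := by linarith
      nlinarith
    · show c.symm (c a + (0 : ℝ) • (c b - c a)) = a
      rw [zero_smul, add_zero, c.left_inv ha]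
    · show c.symm (c a + (1 : ℝ) • (c b - c a)) = b
      rw [one_smul, add_sub_cancel, c.left_inv hb]

/-- the beginning of a transverse path, in a chart and in a given neighbourhood -/
theorem PreFol.Pos.first {γ : ℝ → M} (h : G.Pos γ 0 1)
    {c : OpenPartialHomeomorph M ((ℝ × ℝ) × ℝ)} (hc : c ∈ G.charts) (hs : γ 0 ∈ c.source)
    {B : Set M} (hB : B ∈ 𝓝 (γ 0)) :
    ∃ t ∈ Ioo (0 : ℝ) (1 / 2), γ t ∈ B ∧ (c (γ 0)).2 < (c (γ t)).2 := by
  have h0 : (0 : ℝ) ∈ Icc (0 : ℝ) 1 := ⟨le_rfl, zero_le_one⟩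
  obtain ⟨ε, hε, hmono⟩ := PreFol.Pos.chart G h h0 hc hs
  have h1 : γ ⁻¹' B ∈ 𝓝[Icc (0 : ℝ) 1] 0 := h.1 0 h0 hB
  obtain ⟨δ, hδ, hball⟩ := Metric.mem_nhdsWithin_iff.1 h1
  have m1 : min (min ε δ) (1 / 2) ≤ ε := (min_le_left _ _).trans (min_le_left _ _)
  have m2 : min (min ε δ) (1 / 2) ≤ δ := (min_le_left _ _).trans (min_le_right _ _)
  have m3 : min (min ε δ) (1 / 2) ≤ 1 / 2 := min_le_right _ _
  have m0 : 0 < min (min ε δ) (1 / 2) := lt_min (lt_min hε hδ) (by norm_num)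
  refine ⟨min (min ε δ) (1 / 2) / 2, ⟨by linarith, by linarith⟩, ?_, ?_⟩
  · refine hball ⟨?_, ⟨by linarith, by linarith⟩⟩
    rw [Metric.mem_ball, Real.dist_eq, sub_zero, abs_of_pos (by linarith)]
    linarith
  · exact hmono ⟨h0, ⟨by linarith, by linarith⟩⟩
      ⟨⟨by linarith, by linarith⟩, ⟨by linarith, by linarith⟩⟩ (by linarith)

/-- the end of a transverse path, in a chart and in a given neighbourhood -/
theorem PreFol.Pos.last {γ : ℝ → M} (h : G.Pos γ 0 1)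
    {c : OpenPartialHomeomorph M ((ℝ × ℝ) × ℝ)} (hc : c ∈ G.charts) (hs : γ 1 ∈ c.source)
    {B : Set M} (hB : B ∈ 𝓝 (γ 1)) :
    ∃ t ∈ Ioo (1 / 2 : ℝ) 1, γ t ∈ B ∧ (c (γ t)).2 < (c (γ 1)).2 := by
  have h0 : (1 : ℝ) ∈ Icc (0 : ℝ) 1 := ⟨zero_le_one, le_rfl⟩
  obtain ⟨ε, hε, hmono⟩ := PreFol.Pos.chart G h h0 hc hs
  have h1 : γ ⁻¹' B ∈ 𝓝[Icc (0 : ℝ) 1] 1 := h.1 1 h0 hB
  obtain ⟨δ, hδ, hball⟩ := Metric.mem_nhdsWithin_iff.1 h1
  have m1 : min (min ε δ) (1 / 2) ≤ ε := (min_le_left _ _).trans (min_le_left _ _)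
  have m2 : min (min ε δ) (1 / 2) ≤ δ := (min_le_left _ _).trans (min_le_right _ _)
  have m3 : min (min ε δ) (1 / 2) ≤ 1 / 2 := min_le_right _ _
  have m0 : 0 < min (min ε δ) (1 / 2) := lt_min (lt_min hε hδ) (by norm_num)
  refine ⟨1 - min (min ε δ) (1 / 2) / 2, ⟨by linarith, by linarith⟩, ?_, ?_⟩
  · refine hball ⟨?_, ⟨by linarith, by linarith⟩⟩
    rw [Metric.mem_ball, Real.dist_eq, abs_lt]
    exact ⟨by linarith, by linarith⟩
  · exact hmono ⟨⟨by linarith, by linarith⟩, ⟨by linarith, by linarith⟩⟩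
      ⟨h0, ⟨by linarith, by linarith⟩⟩ (by linarith)

theorem PreFol.Up.left {x y : M} (h : G.Up x y) : ∀ᶠ x' in 𝓝 x, G.Up x' y := by
  obtain ⟨γ, hγ, rfl, rfl⟩ := h
  obtain ⟨c, hc, hs, -⟩ := hγ.2 0 ⟨le_rfl, zero_le_one⟩
  obtain ⟨B, hB, hBc, hbox⟩ := PreFol.up_box G hc hs
  obtain ⟨t, ht, htB, hlt⟩ := PreFol.Pos.first G hγ hc hs hB
  have h1 : ContinuousAt (fun x' => (c x').2) (γ 0) :=
    continuous_snd.continuousAt.comp (c.continuousAt hs)
  filter_upwards [hB, h1.eventually_lt_const hlt] with x' hx' hx''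
  have h2 : G.Up x' (γ t) := hbox x' hx' (γ t) htB hx''
  have h3 : G.Up (γ t) (γ 1) :=
    PreFol.Pos.up G (PreFol.Pos.sub G hγ ht.1.le le_rfl) (by linarith [ht.2])
  exact PreFol.Up.trans G h2 h3

theorem PreFol.Up.right {x y : M} (h : G.Up x y) : ∀ᶠ y' in 𝓝 y, G.Up x y' := by
  obtain ⟨γ, hγ, rfl, rfl⟩ := h
  obtain ⟨c, hc, hs, -⟩ := hγ.2 1 ⟨zero_le_one, le_rfl⟩
  obtain ⟨B, hB, hBc, hbox⟩ := PreFol.up_box G hc hs
  obtain ⟨t, ht, htB, hlt⟩ := PreFol.Pos.last G hγ hc hs hB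
  have h1 : ContinuousAt (fun y' => (c y').2) (γ 1) :=
    continuous_snd.continuousAt.comp (c.continuousAt hs)
  filter_upwards [hB, h1.eventually_const_lt hlt] with y' hy' hy''
  have h2 : G.Up (γ t) y' := hbox (γ t) htB y' hy' hy''
  have h3 : G.Up (γ 0) (γ t) :=
    PreFol.Pos.up G (PreFol.Pos.sub G hγ le_rfl ht.2.le) (by linarith [ht.1])
  exact PreFol.Up.trans G h3 h2

end Pool.Agent.H.MP_1611f1_gt.LS
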